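import Pool.Agent.Lib.MP_6b8fc7_nt.Stm

set_option autoImplicit false

/-!
# MP_6b8fc7_nt, piece D5: the sums with the majorant
-/

namespace Pool.Agent.PSq

open Finset
open Pool.Agent.CH.S (Pr OP th SS Sm)

private theorem D5_mem (U U' d j : ℕ) (hd : 1 ≤ d) :
    (U ≤ d * j ∧ d * j ≤ U') ↔ j ∈ Ico ((U + d - 1) / d) (U' / d + 1) := by
  rw [mem_Ico, Nat.div_le_iff_le_mul_add_pred (by omega), Nat.lt_succ_iff, Nat.le_div_iff_mul_le (by omega),
    mul_comm j d]
  constructor
  · rintro ⟨h1, h2⟩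
    exact ⟨by omega, h2⟩
  · rintro ⟨h1, h2⟩
    exact ⟨by omega, h2⟩

private theorem D5_id (la F : ℕ → ℝ) (Q : ℕ) (hs : ∀ d, la d ≠ 0 → Odd d ∧ d ≤ Q)
    (hF : ∀ x y : ℕ, x ≠ 0 → y ≠ 0 → F (x * y) = F x * F y) (U U' : ℕ) (hU : 1 ≤ U) :
    ∑ t ∈ (Icc U U').filter (fun t => Odd t), (∑ d ∈ t.divisors, la d) * F t / (t : ℝ) =
      ∑ d ∈ Icc 1 Q, la d * (F d / (d : ℝ)) *
        ∑ j ∈ (Ico ((U + d - 1) / d) (U' / d + 1)).filter (fun j => Odd j), F j / (j : ℝ) := by
  have h1 : ∀ t ∈ (Icc U U').filter (fun t => Odd t),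
      (∑ d ∈ t.divisors, la d) * F t / (t : ℝ) =
        ∑ d ∈ Icc 1 Q, if d ∣ t then la d * F t / (t : ℝ) else 0 := by
    intro t ht
    rw [mem_filter, mem_Icc] at ht
    rw [Finset.sum_mul, Finset.sum_div, ← Finset.sum_filter]
    symm
    apply Finset.sum_subset_zero_on_sdiff
    · intro d hd
      rw [mem_filter, mem_Icc] at hd
      rw [Nat.mem_divisors]
      exact ⟨hd.2, by omega⟩
    · intro d hd
      rw [mem_sdiff, Nat.mem_divisors, mem_filter, mem_Icc] at hd
      have h0 : la d = 0 := by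
        by_contra hne
        have h2 := (hs d hne).2
        have h3 : 1 ≤ d := Nat.pos_of_dvd_of_pos hd.1.1 (by omega)
        exact hd.2 ⟨⟨h3, h2⟩, hd.1.1⟩
      rw [h0, zero_mul, zero_div]
    · intro d _
      rfl
  rw [Finset.sum_congr rfl h1, Finset.sum_comm]
  refine Finset.sum_congr rfl fun d hd => ?_
  rw [mem_Icc] at hd
  by_cases h0 : la d = 0
  · rw [h0, zero_mul, zero_mul]
    apply Finset.sum_eq_zero
    intro t _
    rw [zero_mul, zero_div, ite_self]
  · have hdo := (hs d h0).1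
    have hdr : (d : ℝ) ≠ 0 := by
      have : d ≠ 0 := by omega
      exact_mod_cast this
    rw [Finset.mul_sum, ← Finset.sum_filter, Finset.filter_filter]
    symm
    apply Finset.sum_bij (fun j _ => d * j)
    · intro j hj
      rw [mem_filter] at hj
      have h2 := (D5_mem U U' d j hd.1).2 hj.1
      rw [mem_filter, mem_Icc]
      exact ⟨h2, hdo.mul hj.2, Dvd.intro _ rfl⟩
    · intro j _ j' _ h
      exact Nat.eq_of_mul_eq_mul_left (by omega) h
    · intro t ht
      rw [mem_filter, mem_Icc] at ht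
      obtain ⟨j, hj⟩ := ht.2.2
      refine ⟨j, ?_, hj.symm⟩
      rw [mem_filter]
      rw [hj] at ht
      exact ⟨(D5_mem U U' d j hd.1).1 ht.1, (Nat.odd_mul.1 ht.2.1).2⟩
    · intro j hj
      rw [mem_filter] at hj
      have hj0 : j ≠ 0 := hj.2.pos.ne'
      have hjr : (j : ℝ) ≠ 0 := by exact_mod_cast hj0
      rw [hF d j (by omega) hj0]
      push_cast
      field_simp

/-- The sum of `1/j` over the odd `j < n`. -/
private noncomputable def D5_A (n : ℕ) : ℝ := ∑ j ∈ (range n).filter (fun j => Odd j), 1 / (j : ℝ)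

private noncomputable def D5_C (n : ℕ) : ℝ :=
  D5_A n - Real.log n / 2 + (if Odd n then 1 / (2 * (n : ℝ)) else 0)

private theorem D5_step (n : ℕ) (hn : 1 ≤ n) :
    |D5_C (n + 1) - D5_C n| ≤ 1 / (2 * (n : ℝ)) - 1 / (2 * ((n + 1 : ℕ) : ℝ)) := by
  have hn0 : (0 : ℝ) < n := by exact_mod_cast hn
  have hn1 : (0 : ℝ) < ((n + 1 : ℕ) : ℝ) := by positivity
  have hup : Real.log ((n + 1 : ℕ) : ℝ) - Real.log n ≤ 1 / (n : ℝ) := by
    rw [← Real.log_div hn1.ne' hn0.ne']
    refine (Real.log_le_sub_one_of_pos (by positivity)).trans (le_of_eq ?_)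
    push_cast
    field_simp
    ring
  have hlo : 1 / ((n + 1 : ℕ) : ℝ) ≤ Real.log ((n + 1 : ℕ) : ℝ) - Real.log n := by
    have h1 : Real.log (n : ℝ) - Real.log ((n + 1 : ℕ) : ℝ) ≤ -(1 / ((n + 1 : ℕ) : ℝ)) := by
      rw [← Real.log_div hn0.ne' hn1.ne']
      refine (Real.log_le_sub_one_of_pos (by positivity)).trans (le_of_eq ?_)
      push_cast
      field_simp
      ring
    linarith
  have e1 : 1 / (2 * (n : ℝ)) = (1 / (n : ℝ)) / 2 := by rw [mul_comm, ← div_div]
  have e2 : 1 / (2 * ((n + 1 : ℕ) : ℝ)) = (1 / ((n + 1 : ℕ) : ℝ)) / 2 := by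
    rw [mul_comm, ← div_div]
  have hA : D5_A (n + 1) = D5_A n + (if Odd n then 1 / (n : ℝ) else 0) := by
    unfold D5_A
    rw [Finset.range_add_one, Finset.filter_insert]
    split_ifs with h
    · rw [Finset.sum_insert (by simp), add_comm]
    · rw [add_zero]
  unfold D5_C
  rw [hA, e1, e2]
  rcases Nat.even_or_odd n with h | h
  · have h' : ¬ Odd n := Nat.not_odd_iff_even.2 h
    have h'' : Odd (n + 1) := h.add_one
    rw [if_neg h', if_pos h'', if_neg h', abs_le]
    constructor <;> linarith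
  · have h'' : ¬ Odd (n + 1) := Nat.not_odd_iff_even.2 h.add_one
    rw [if_pos h, if_neg h'', if_pos h, abs_le]
    constructor <;> linarith

private theorem D5_tel (m n : ℕ) (hm : 1 ≤ m) (hmn : m ≤ n) :
    |D5_C n - D5_C m| ≤ 1 / (2 * (m : ℝ)) - 1 / (2 * (n : ℝ)) := by
  induction n, hmn using Nat.le_induction with
  | base => simp
  | succ k hk ih =>
    have h1 := D5_step k (by omega)
    have h2 := abs_add_le (D5_C (k + 1) - D5_C k) (D5_C k - D5_C m)
    have e : D5_C (k + 1) - D5_C k + (D5_C k - D5_C m) = D5_C (k + 1) - D5_C m := by ring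
    rw [e] at h2
    linarith

private theorem D5_nat (m n : ℕ) (hm : 1 ≤ m) (hmn : m ≤ n) :
    |∑ j ∈ (Ico m n).filter (fun j => Odd j), 1 / (j : ℝ) - (Real.log n - Real.log m) / 2| ≤
      1 / (m : ℝ) := by
  have hm0 : (0 : ℝ) < m := by exact_mod_cast hm
  have hn0 : (0 : ℝ) < n := by exact_mod_cast (by omega : 0 < n)
  have hmnr : (m : ℝ) ≤ n := by exact_mod_cast hmn
  have hA : ∑ j ∈ (Ico m n).filter (fun j => Odd j), 1 / (j : ℝ) = D5_A n - D5_A m := by
    unfold D5_A
    rw [Finset.sum_filter, Finset.sum_filter, Finset.sum_filter, Finset.sum_Ico_eq_sub _ hmn]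
  have h1 := D5_tel m n hm hmn
  have e1 : 1 / (2 * (m : ℝ)) = (1 / (m : ℝ)) / 2 := by rw [mul_comm, ← div_div]
  have e2 : 1 / (2 * (n : ℝ)) = (1 / (n : ℝ)) / 2 := by rw [mul_comm, ← div_div]
  have hδm : 0 ≤ (if Odd m then (1 / (m : ℝ)) / 2 else 0) ∧
      (if Odd m then (1 / (m : ℝ)) / 2 else 0) ≤ (1 / (m : ℝ)) / 2 := by
    split_ifs
    · exact ⟨by positivity, le_rfl⟩
    · exact ⟨le_rfl, by positivity⟩
  have hδn : 0 ≤ (if Odd n then (1 / (n : ℝ)) / 2 else 0) ∧
      (if Odd n then (1 / (n : ℝ)) / 2 else 0) ≤ (1 / (n : ℝ)) / 2 := by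
    split_ifs
    · exact ⟨by positivity, le_rfl⟩
    · exact ⟨le_rfl, by positivity⟩
  have hle : 1 / (n : ℝ) ≤ 1 / (m : ℝ) := one_div_le_one_div_of_le hm0 hmnr
  rw [hA]
  unfold D5_C at h1
  rw [e1, e2, abs_le] at h1
  rw [abs_le]
  constructor <;> linarith [h1.1, h1.2, hδm.1, hδm.2, hδn.1, hδn.2]

private theorem D5_odd (U U' d : ℕ) (hd : 1 ≤ d) (hdU : d ≤ U) (hUU : U ≤ U') :
    |∑ j ∈ (Ico ((U + d - 1) / d) (U' / d + 1)).filter (fun j => Odd j), 1 / (j : ℝ)
      - Real.log ((U' : ℝ) / U) / 2| ≤ 2 * d / U := by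
  set m : ℕ := (U + d - 1) / d with hm
  set n : ℕ := U' / d + 1 with hn
  have hdr : (0 : ℝ) < d := by exact_mod_cast hd
  have hUr : (0 : ℝ) < U := by exact_mod_cast (by omega : 0 < U)
  have hU'r : (0 : ℝ) < U' := by exact_mod_cast (by omega : 0 < U')
  -- `U ≤ d m < U + d`, `U' < d n ≤ U' + d`
  have hdm : d * m ≤ U + d - 1 := Nat.mul_div_le _ _
  have hdm2 : U ≤ d * m := by
    have h1 := Nat.lt_mul_div_succ (U + d - 1) (show 0 < d by omega)
    rw [← hm, mul_add, mul_one] at h1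
    omega
  have hdn : U' < d * n := Nat.lt_mul_div_succ U' (by omega)
  have hdn2 : d * n ≤ U' + d := by
    rw [hn, mul_add, mul_one]
    exact Nat.add_le_add_right (Nat.mul_div_le _ _) _
  have hm1 : 1 ≤ m := by
    rcases Nat.eq_zero_or_pos m with h | h
    · rw [h, mul_zero] at hdm2
      omega
    · exact h
  have hmn : m ≤ n := by
    by_contra hlt
    push Not at hlt
    have h1 : d * (n + 1) ≤ d * m := Nat.mul_le_mul_left _ hlt
    rw [mul_add, mul_one] at h1
    omega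
  have hm0 : (0 : ℝ) < m := by exact_mod_cast hm1
  have hn0 : (0 : ℝ) < n := by exact_mod_cast (by omega : 0 < n)
  have hdm' : (U : ℝ) ≤ d * m := by exact_mod_cast hdm2
  have hdm'' : (d : ℝ) * m ≤ U + d := by
    have : d * m ≤ U + d := by omega
    exact_mod_cast this
  have hdn' : (U' : ℝ) ≤ d * n := by exact_mod_cast hdn.le
  have hdn'' : (d : ℝ) * n ≤ U' + d := by exact_mod_cast hdn2
  have h1 := D5_nat m n hm1 hmn
  have hUU' : (U : ℝ) ≤ U' := by exact_mod_cast hUU
  -- logarithms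
  have em : Real.log (m : ℝ) = Real.log ((d : ℝ) * m) - Real.log d := by
    rw [Real.log_mul hdr.ne' hm0.ne']; ring
  have en : Real.log (n : ℝ) = Real.log ((d : ℝ) * n) - Real.log d := by
    rw [Real.log_mul hdr.ne' hn0.ne']; ring
  have hl1 : Real.log (U : ℝ) ≤ Real.log ((d : ℝ) * m) := Real.log_le_log hUr hdm'
  have hl2 : Real.log ((d : ℝ) * m) ≤ Real.log U + d / U := by
    have h2 : Real.log ((d : ℝ) * m) - Real.log U ≤ (d : ℝ) * m / U - 1 := by
      rw [← Real.log_div (by positivity) hUr.ne']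
      exact Real.log_le_sub_one_of_pos (by positivity)
    have h3 : (d : ℝ) * m / U - 1 ≤ d / U := by
      rw [div_sub_one hUr.ne']
      apply div_le_div_of_nonneg_right _ hUr.le
      linarith
    linarith
  have hl3 : Real.log (U' : ℝ) ≤ Real.log ((d : ℝ) * n) := Real.log_le_log hU'r hdn'
  have hl4 : Real.log ((d : ℝ) * n) ≤ Real.log U' + d / U := by
    have h2 : Real.log ((d : ℝ) * n) - Real.log U' ≤ (d : ℝ) * n / U' - 1 := by
      rw [← Real.log_div (by positivity) hU'r.ne']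
      exact Real.log_le_sub_one_of_pos (by positivity)
    have h3 : (d : ℝ) * n / U' - 1 ≤ d / U' := by
      rw [div_sub_one hU'r.ne']
      apply div_le_div_of_nonneg_right _ hU'r.le
      linarith
    have h4 : (d : ℝ) / U' ≤ d / U := div_le_div_of_nonneg_left hdr.le hUr hUU'
    linarith
  have hmx : 1 / (m : ℝ) ≤ d / U := by
    rw [div_le_div_iff₀ hm0 hUr, one_mul]
    exact hdm'
  have hdU0 : 0 ≤ (d : ℝ) / U := by positivity
  have e2 : 2 * (d : ℝ) / U = 2 * (d / U) := by ring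
  rw [Real.log_div hU'r.ne' hUr.ne', e2]
  rw [em, en, abs_le] at h1
  rw [abs_le]
  constructor <;> linarith [h1.1, h1.2]

theorem p_D5 (h1 : S_D1) (h2 : S_D2) : S_D5 := by
  intro la Q L hL hla hs hsum U U' hU hQU hUU
  have hUr : (0 : ℝ) < U := by exact_mod_cast hU
  have hUUr : (U : ℝ) ≤ U' := by exact_mod_cast hUU
  have hQUr : (Q : ℝ) ≤ U := by exact_mod_cast hQU
  constructor
  · have hid := D5_id la (fun _ => 1) Q hs (fun _ _ _ _ => by norm_num) U U' hU
    simp only [mul_one] at hid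
    rw [hid]
    have hlog0 : 0 ≤ Real.log ((U' : ℝ) / U) := Real.log_nonneg (by rwa [le_div_iff₀ hUr, one_mul])
    have hterm : ∀ d ∈ Icc 1 Q, la d * (1 / (d : ℝ)) *
        ∑ j ∈ (Ico ((U + d - 1) / d) (U' / d + 1)).filter (fun j => Odd j), 1 / (j : ℝ) ≤
        (Real.log ((U' : ℝ) / U) / 2) * (la d / (d : ℝ)) + 2 / (U : ℝ) := by
      intro d hd
      rw [mem_Icc] at hd
      have hdr : (0 : ℝ) < d := by exact_mod_cast hd.1
      have h3 := D5_odd U U' d hd.1 (by omega) hUU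
      set S := ∑ j ∈ (Ico ((U + d - 1) / d) (U' / d + 1)).filter (fun j => Odd j), 1 / (j : ℝ)
      have h4 : |la d * (1 / (d : ℝ)) * (S - Real.log ((U' : ℝ) / U) / 2)| ≤ 2 / (U : ℝ) := by
        rw [abs_mul, abs_mul, abs_of_nonneg (by positivity : (0 : ℝ) ≤ 1 / (d : ℝ))]
        calc |la d| * (1 / (d : ℝ)) * |S - Real.log ((U' : ℝ) / U) / 2| ≤
              1 * (1 / (d : ℝ)) * (2 * d / U) := by
              apply mul_le_mul _ h3 (abs_nonneg _) (by positivity)
              exact mul_le_mul_of_nonneg_right (hla d) (by positivity)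
          _ = 2 / (U : ℝ) := by field_simp
      have h5 := (abs_le.1 h4).2
      have e : la d * (1 / (d : ℝ)) * (S - Real.log ((U' : ℝ) / U) / 2) =
          la d * (1 / (d : ℝ)) * S - (Real.log ((U' : ℝ) / U) / 2) * (la d / (d : ℝ)) := by ring
      rw [e] at h5
      linarith
    refine (Finset.sum_le_sum hterm).trans ?_
    rw [Finset.sum_add_distrib, ← Finset.mul_sum, Finset.sum_const, Nat.card_Icc, nsmul_eq_mul]
    have h6 : (Real.log ((U' : ℝ) / U) / 2) * ∑ d ∈ Icc 1 Q, la d / (d : ℝ) ≤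
        (Real.log ((U' : ℝ) / U) / 2) * L := mul_le_mul_of_nonneg_left hsum (by positivity)
    have h7 : ((Q + 1 - 1 : ℕ) : ℝ) * (2 / (U : ℝ)) ≤ 2 := by
      rw [Nat.add_sub_cancel, mul_div_assoc', div_le_iff₀ hUr]
      linarith
    have h8 : 0 ≤ Real.log ((U' : ℝ) / U) * L := mul_nonneg hlog0 hL
    linarith
  · intro s s' hso hss hso' hss' hne
    have hF1 : ∀ j : ℕ, |((jacobiSym ((s : ℤ) * s') j : ℤ) : ℝ)| ≤ 1 := by
      intro j
      rcases jacobiSym.trichotomy ((s : ℤ) * s') j with h | h | h <;> rw [h] <;> norm_num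
    have hid := D5_id la (fun j => ((jacobiSym ((s : ℤ) * s') j : ℤ) : ℝ)) Q hs (fun x y hx hy => by
      have : NeZero x := ⟨hx⟩
      have : NeZero y := ⟨hy⟩
      rw [jacobiSym.mul_right]
      push_cast
      rfl) U U' hU
    rw [hid]
    refine (Finset.abs_sum_le_sum_abs _ _).trans ?_
    have hterm : ∀ d ∈ Icc 1 Q, |la d * (((jacobiSym ((s : ℤ) * s') d : ℤ) : ℝ) / (d : ℝ)) *
        ∑ j ∈ (Ico ((U + d - 1) / d) (U' / d + 1)).filter (fun j => Odd j),
          ((jacobiSym ((s : ℤ) * s') j : ℤ) : ℝ) / (j : ℝ)| ≤ 4 * s * s' / U := by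
      intro d hd
      rw [mem_Icc] at hd
      have hdr : (0 : ℝ) < d := by exact_mod_cast hd.1
      set m : ℕ := (U + d - 1) / d with hm
      have hdm2 : U ≤ d * m := by
        have h1 := Nat.lt_mul_div_succ (U + d - 1) (show 0 < d by omega)
        rw [← hm, mul_add, mul_one] at h1
        omega
      have hm1 : 1 ≤ m := by
        rcases Nat.eq_zero_or_pos m with h | h
        · rw [h, mul_zero] at hdm2
          omega
        · exact h
      have hm0 : (0 : ℝ) < m := by exact_mod_cast hm1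
      have hdm' : (U : ℝ) ≤ d * m := by exact_mod_cast hdm2
      have h3 := h2 (fun j => if Odd j then ((jacobiSym ((s : ℤ) * s') j : ℤ) : ℝ) else 0)
        (4 * s * s') (fun u v => by
          rw [← Finset.sum_filter]
          exact h1 s s' hso hss hso' hss' hne u v) m (U' / d + 1) hm1
      have e : ∑ j ∈ Ico m (U' / d + 1),
          (if Odd j then ((jacobiSym ((s : ℤ) * s') j : ℤ) : ℝ) else 0) / (j : ℝ) =
          ∑ j ∈ (Ico m (U' / d + 1)).filter (fun j => Odd j),
            ((jacobiSym ((s : ℤ) * s') j : ℤ) : ℝ) / (j : ℝ) := by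
        rw [Finset.sum_filter]
        refine Finset.sum_congr rfl fun j _ => ?_
        split_ifs
        · rfl
        · rw [zero_div]
      rw [e] at h3
      rw [abs_mul, abs_mul, abs_div, abs_of_pos hdr]
      calc |la d| * (|((jacobiSym ((s : ℤ) * s') d : ℤ) : ℝ)| / (d : ℝ)) *
            |∑ j ∈ (Ico m (U' / d + 1)).filter (fun j => Odd j),
              ((jacobiSym ((s : ℤ) * s') j : ℤ) : ℝ) / (j : ℝ)| ≤
            1 * (1 / (d : ℝ)) * (4 * s * s' / m) := by
            apply mul_le_mul _ h3 (abs_nonneg _) (by positivity)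
            apply mul_le_mul (hla d) _ (by positivity) (by norm_num)
            exact div_le_div_of_nonneg_right (hF1 d) hdr.le
        _ = 4 * s * s' / (d * m) := by field_simp
        _ ≤ 4 * s * s' / U := div_le_div_of_nonneg_left (by positivity) hUr hdm'
    refine (Finset.sum_le_sum hterm).trans ?_
    rw [Finset.sum_const, Nat.card_Icc, nsmul_eq_mul, Nat.add_sub_cancel]
    apply le_of_eq
    ring

end Pool.Agent.PSq
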