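import Pool.Agent.Lib.MP_6b8fc7_nt.Stm

set_option autoImplicit false

/-!
# MP_6b8fc7_nt, piece D7: the squarefree parts of the numbers which are not good
-/

namespace Pool.Agent.PSq

open Finset
open Pool.Agent.CH.S (Pr OP th SS Sm)

private theorem D7_chi (s k p : ℕ) (hp : p.Prime) :
    chi (k ^ 2 * s) p / (p : ℝ) ≤ chi s p / (p : ℝ) + (if p ∣ k then 1 / (p : ℝ) else 0) := by
  have hp0 : (0 : ℝ) < p := by exact_mod_cast hp.pos
  have e : (2 * ((k ^ 2 * s : ℕ) : ℤ)) = (2 * (s : ℤ)) * ((k : ℤ) ^ 2) := by push_cast; ring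
  have hs1 : -1 ≤ chi s p := by
    unfold chi
    rcases jacobiSym.trichotomy (2 * (s : ℤ)) p with h | h | h <;> rw [h] <;> norm_num
  have hm : jacobiSym (2 * ((k ^ 2 * s : ℕ) : ℤ)) p =
      jacobiSym (2 * (s : ℤ)) p * jacobiSym (k : ℤ) p ^ 2 := by
    rw [e, jacobiSym.mul_left, jacobiSym.pow_left]
  split_ifs with hpk
  · have h0 : jacobiSym (k : ℤ) p = 0 := by
      have : NeZero p := ⟨hp.ne_zero⟩
      rw [jacobiSym.eq_zero_iff_not_coprime]
      intro hg
      have h1 : (p : ℕ) ∣ Int.gcd (k : ℤ) p := by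
        rw [Int.gcd_natCast_natCast]
        exact Nat.dvd_gcd hpk dvd_rfl
      rw [hg] at h1
      exact hp.one_lt.ne' (Nat.dvd_one.1 h1)
    have h1 : chi (k ^ 2 * s) p = 0 := by
      unfold chi
      rw [hm, h0]
      norm_num
    rw [h1, zero_div, ← add_div]
    exact div_nonneg (by linarith) hp0.le
  · have h0 : jacobiSym (k : ℤ) p ^ 2 = 1 := by
      apply jacobiSym.sq_one
      rw [Int.gcd_natCast_natCast]
      exact ((Nat.Prime.coprime_iff_not_dvd hp).2 hpk).symm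
    have h1 : chi (k ^ 2 * s) p = chi s p := by
      unfold chi
      rw [hm, h0, mul_one]
    rw [h1, add_zero]

private theorem D7_card (N X k : ℕ) (T : Finset ℕ) (hN : 1 ≤ N) (hX : 2 ≤ X) (hk : 1 ≤ k) (hkX : k ≤ X)
    (hT : ∀ p ∈ T, p.Prime ∧ p ∣ k ∧ (X : ℝ) ^ ((1 : ℝ) / N) ≤ p) : T.card ≤ N := by
  have hXr : (1 : ℝ) < X := by exact_mod_cast (by omega : 1 < X)
  have hX0 : (0 : ℝ) < X := by linarith
  have hNr : (0 : ℝ) < N := by exact_mod_cast (by omega : 0 < N)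
  have h1 : ∏ p ∈ T, p ∣ k := by
    apply Finset.prod_primes_dvd
    · intro p hp
      exact (hT p hp).1.prime
    · intro p hp
      exact (hT p hp).2.1
  have h2 : ∏ p ∈ T, p ≤ k := Nat.le_of_dvd (by omega) h1
  have h3 : ((X : ℝ) ^ ((1 : ℝ) / N)) ^ T.card ≤ ((∏ p ∈ T, p : ℕ) : ℝ) := by
    rw [← Finset.prod_const]
    push_cast
    apply Finset.prod_le_prod
    · intro p _
      positivity
    · intro p hp
      exact (hT p hp).2.2
  by_contra hlt
  push Not at hlt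
  have h4 : (X : ℝ) < ((X : ℝ) ^ ((1 : ℝ) / N)) ^ T.card := by
    rw [← Real.rpow_natCast, ← Real.rpow_mul hX0.le]
    calc (X : ℝ) = (X : ℝ) ^ (1 : ℝ) := (Real.rpow_one _).symm
      _ < (X : ℝ) ^ ((1 : ℝ) / N * (T.card : ℝ)) := by
        apply Real.rpow_lt_rpow_of_exponent_lt hXr
        rw [one_div, inv_mul_eq_div, lt_div_iff₀ hNr, one_mul]
        exact_mod_cast hlt
  have h5 : ((∏ p ∈ T, p : ℕ) : ℝ) ≤ X := by exact_mod_cast h2.trans hkX
  linarith

theorem p_D7 (h6 : S_D6) : S_D7 := by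
  classical
  intro N hN
  have hNr : (0 : ℝ) < N := by exact_mod_cast (by omega : 0 < N)
  obtain ⟨K, X1, hK⟩ := h6 N (1 / (2 * (N : ℝ) ^ 2)) hN (by positivity)
  refine ⟨N * K, max (max X1 ((2 * N ^ 3) ^ N)) 2, ?_⟩
  intro X hX
  have hXX1 : X1 ≤ X := ((le_max_left _ _).trans (le_max_left _ _)).trans hX
  have hXN : (2 * N ^ 3) ^ N ≤ X := ((le_max_right _ _).trans (le_max_left _ _)).trans hX
  have hX2 : 2 ≤ X := (le_max_right _ _).trans hX
  have hX1r : (1 : ℝ) ≤ X := by exact_mod_cast (by omega : 1 ≤ X)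
  have hX0r : (0 : ℝ) < X := by linarith
  refine ⟨(Ico 1 N).biUnion fun i => (range (X + 1)).filter (fun s => Odd s ∧ Squarefree s ∧
    1 / (2 * (N : ℝ) ^ 2) ≤ ∑ p ∈ Jw N X i, chi s p / (p : ℝ)), ?_, ?_, ?_⟩
  · refine Finset.card_biUnion_le.trans ?_
    have h1 : ∀ i ∈ Ico 1 N, ((range (X + 1)).filter (fun s => Odd s ∧ Squarefree s ∧
        1 / (2 * (N : ℝ) ^ 2) ≤ ∑ p ∈ Jw N X i, chi s p / (p : ℝ))).card ≤ K := by
      intro i hi
      rw [mem_Ico] at hi
      apply hK X hXX1 i hi.1 hi.2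
      intro s hs
      rw [mem_filter, mem_range] at hs
      exact ⟨hs.2.1, hs.2.2.1, by omega, hs.2.2.2⟩
    refine (Finset.sum_le_sum h1).trans ?_
    rw [Finset.sum_const, Nat.card_Ico, smul_eq_mul]
    exact Nat.mul_le_mul_right _ (Nat.sub_le _ _)
  · intro s hs
    rw [mem_biUnion] at hs
    obtain ⟨i, -, hs⟩ := hs
    rw [mem_filter, mem_range] at hs
    exact ⟨hs.2.1, hs.2.2.1, by omega⟩
  · intro n hn hnX hS i hi hiN
    obtain ⟨s, k, hsk, hsq⟩ := Nat.sq_mul_squarefree n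
    have hn1 : 1 ≤ n := hn.pos
    have hk0 : k ≠ 0 := by
      rintro rfl
      rw [← hsk] at hn1
      norm_num at hn1
    have hs0 : s ≠ 0 := by
      rintro rfl
      rw [← hsk] at hn1
      norm_num at hn1
    have hkn : k ≤ n := by
      rw [← hsk]
      calc k ≤ k ^ 2 := Nat.le_self_pow (by norm_num) k
        _ = k ^ 2 * 1 := (mul_one _).symm
        _ ≤ k ^ 2 * s := Nat.mul_le_mul_left _ (by omega)
    have hsn : s ≤ n := by
      rw [← hsk]
      exact Nat.le_mul_of_pos_left _ (by positivity)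
    have hsodd : Odd s := by
      rw [← hsk] at hn
      exact (Nat.odd_mul.1 hn).2
    have hlt : ∑ p ∈ Jw N X i, chi s p / (p : ℝ) < 1 / (2 * (N : ℝ) ^ 2) := by
      by_contra hge
      push Not at hge
      refine hS s ?_ k (by rw [← hsk, mul_comm])
      rw [mem_biUnion]
      exact ⟨i, mem_Ico.2 ⟨hi, hiN⟩, mem_filter.2 ⟨mem_range.2 (by omega), hsodd, hsq, hge⟩⟩
    have hJ : ∀ p ∈ Jw N X i, p.Prime ∧ (X : ℝ) ^ ((1 : ℝ) / N) ≤ p := by
      intro p hp
      obtain ⟨-, hp1, -, hp3, -⟩ := mem_filter.1 hp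
      refine ⟨hp1, le_trans ?_ hp3⟩
      apply Real.rpow_le_rpow_of_exponent_le hX1r
      apply div_le_div_of_nonneg_right _ hNr.le
      exact_mod_cast hi
    have hXp : 2 * (N : ℝ) ^ 3 ≤ (X : ℝ) ^ ((1 : ℝ) / N) := by
      have h1 : ((2 * (N : ℝ) ^ 3) ^ N) ^ ((1 : ℝ) / N) ≤ (X : ℝ) ^ ((1 : ℝ) / N) := by
        apply Real.rpow_le_rpow (by positivity) (by exact_mod_cast hXN) (by positivity)
      rwa [← Real.rpow_natCast, ← Real.rpow_mul (by positivity), mul_one_div_cancel hNr.ne',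
        Real.rpow_one] at h1
    have hXp0 : 0 < (X : ℝ) ^ ((1 : ℝ) / N) := by positivity
    have hsum1 : ∑ p ∈ Jw N X i, chi n p / (p : ℝ) ≤
        ∑ p ∈ Jw N X i, chi s p / (p : ℝ) + ∑ p ∈ (Jw N X i).filter (fun p => p ∣ k), 1 / (p : ℝ) := by
      rw [Finset.sum_filter, ← Finset.sum_add_distrib]
      apply Finset.sum_le_sum
      intro p hp
      rw [← hsk]
      exact D7_chi s k p (hJ p hp).1
    have hcard : ((Jw N X i).filter (fun p => p ∣ k)).card ≤ N := by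
      apply D7_card N X k _ (by omega) hX2 (by omega) (hkn.trans hnX)
      intro p hp
      rw [mem_filter] at hp
      exact ⟨(hJ p hp.1).1, hp.2, (hJ p hp.1).2⟩
    have hsum2 : ∑ p ∈ (Jw N X i).filter (fun p => p ∣ k), 1 / (p : ℝ) ≤
        1 / (2 * (N : ℝ) ^ 2) := by
      have h1 : ∀ p ∈ (Jw N X i).filter (fun p => p ∣ k), 1 / (p : ℝ) ≤ 1 / (2 * (N : ℝ) ^ 3) := by
        intro p hp
        rw [mem_filter] at hp
        exact one_div_le_one_div_of_le (by positivity) (hXp.trans (hJ p hp.1).2)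
      refine (Finset.sum_le_card_nsmul _ _ _ h1).trans ?_
      rw [nsmul_eq_mul]
      calc (((Jw N X i).filter (fun p => p ∣ k)).card : ℝ) * (1 / (2 * (N : ℝ) ^ 3)) ≤
            (N : ℝ) * (1 / (2 * (N : ℝ) ^ 3)) :=
            mul_le_mul_of_nonneg_right (by exact_mod_cast hcard) (by positivity)
        _ = 1 / (2 * (N : ℝ) ^ 2) := by field_simp
    have e : 1 / (2 * (N : ℝ) ^ 2) + 1 / (2 * (N : ℝ) ^ 2) = 1 / (N : ℝ) ^ 2 := by
      field_simp
      norm_num
    linarith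

end Pool.Agent.PSq
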