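import Pool.Agent.Lib.MP_6b8fc7_nt.Stm

set_option autoImplicit false

/-!
# MP_6b8fc7_nt, piece A1: the lower bound for the number of `m`
-/

namespace Pool.Agent.PSq

open Finset
open scoped ArithmeticFunction.Omega

private theorem A1_cast {n m : ℕ} (h : 2 * m ^ 2 ≤ n) :
    ((n : ℤ) - 2 * (m : ℤ) ^ 2) = ((n - 2 * m ^ 2 : ℕ) : ℤ) := by
  rw [Nat.cast_sub h]
  push_cast
  ring

private theorem A1_size {X M n m : ℕ} (hX : 20 ≤ X) (hM : 5 * M ^ 2 ≤ X) (hXn : X < 2 * n)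
    (hm : m ∈ Icc 1 M) : 2 * m ^ 2 + 2 ≤ n := by
  have h : m ^ 2 ≤ M ^ 2 := Nat.pow_le_pow_left (mem_Icc.1 hm).2 2
  omega

/-- exchange of the summations -/
private theorem A1_swap {X M n : ℕ} (c : ℕ → ℝ) (hsize : ∀ m ∈ Icc 1 M, 2 * m ^ 2 + 2 ≤ n)
    (hnX : n ≤ X) : ∑ m ∈ Icc 1 M, ∑ d ∈ (n - 2 * m ^ 2).divisors, c d =
      ∑ d ∈ Icc 1 X, c d * (cnt M n d : ℝ) := by
  have e1 : ∀ m ∈ Icc 1 M, ∑ d ∈ (n - 2 * m ^ 2).divisors, c d =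
      ∑ d ∈ Icc 1 X, if d ∣ n - 2 * m ^ 2 then c d else 0 := by
    intro m hm
    have h := hsize m hm
    rw [← sum_filter]
    refine sum_congr ?_ fun _ _ => rfl
    ext d
    rw [Nat.mem_divisors, mem_filter, mem_Icc]
    constructor
    · rintro ⟨h1, h2⟩
      have h3 := Nat.le_of_dvd (by omega) h1
      have h4 : 0 < d := Nat.pos_of_dvd_of_pos h1 (by omega)
      exact ⟨⟨h4, by omega⟩, h1⟩
    · rintro ⟨-, h1⟩
      exact ⟨h1, by omega⟩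
  rw [sum_congr rfl e1, sum_comm]
  refine sum_congr rfl fun d _ => ?_
  rw [← sum_filter, sum_const, nsmul_eq_mul, mul_comm]
  congr 2
  unfold cnt
  congr 1
  refine filter_congr fun m hm => ?_
  have h := hsize m hm
  rw [A1_cast (by omega), Int.natCast_dvd_natCast]

theorem p_A1 (h1 : S_L1) (h3 : S_L3) : S_A1 := by
  classical
  intro r X M n ζ τ Q c hX hζ hζτ hXζ hM hn hXn hnX hW hQ hc
  have hsize : ∀ m ∈ Icc 1 M, 2 * m ^ 2 + 2 ≤ n := fun m hm => A1_size hX hM hXn hm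
  have hswap := A1_swap c hsize hnX
  -- the main term and the remainder
  have hmain : ∑ d ∈ Icc 1 X, c d * (cnt M n d : ℝ) =
      M * ∑ d ∈ Icc 1 X, c d * ∏ p ∈ d.primeFactors, gn n p + ∑ d ∈ Icc 1 X, c d * rr M n d := by
    rw [mul_sum, ← sum_add_distrib]
    refine sum_congr rfl fun d _ => ?_
    by_cases hcd : c d = 0
    · rw [hcd]
      ring
    · obtain ⟨hodd, hsf, -⟩ := hW.sup d hcd
      rw [← (h1 n d hodd hsf).2.2]
      unfold rr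
      ring
  -- the upper bound
  have hup : ∑ m ∈ Icc 1 M, ∑ d ∈ (n - 2 * m ^ 2).divisors, c d ≤
      ∑ m ∈ Icc 1 M, ((if Ω (n - 2 * m ^ 2) ≤ r then (1 : ℝ) else 0) +
        (if ∃ p : ℕ, p.Prime ∧ (X : ℝ) ^ ζ ≤ p ∧ (p : ℝ) < (X : ℝ) ^ τ ∧
          p ^ 2 ∣ n - 2 * m ^ 2 then (1 : ℝ) else 0)) := by
    refine sum_le_sum fun m hm => ?_
    have h := hsize m hm
    have hodd : Odd (n - 2 * m ^ 2) := Nat.Odd.sub_even (by omega) hn (even_two_mul _)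
    have h4 := hc (n - 2 * m ^ 2) hodd (by omega)
    refine h4.trans (le_of_eq ?_)
    congr
  rw [sum_add_distrib, sum_boole, sum_boole] at hup
  -- the number of `m`
  have hNP : (((Icc 1 M).filter fun m => Ω (n - 2 * m ^ 2) ≤ r).card : ℝ) ≤ (NP r n : ℝ) := by
    unfold NP
    refine Nat.cast_le.2 (card_le_card fun m hm => ?_)
    rw [mem_filter] at hm ⊢
    have h := hsize m hm.1
    have h4 := (mem_Icc.1 hm.1).1
    have h5 : m ≤ m ^ 2 := Nat.le_self_pow (by norm_num) m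
    exact ⟨mem_Icc.2 ⟨h4, by omega⟩, h, hm.2⟩
  -- squares
  have hX1 : (1 : ℝ) ≤ (X : ℝ) := by
    have : (1 : ℕ) ≤ X := by omega
    exact_mod_cast this
  have hsq := h3 M n ((X : ℝ) ^ ζ) ((X : ℝ) ^ τ) (by omega) hXζ
    (Real.rpow_le_rpow_of_exponent_le hX1 hζτ)
  have hset : ((Icc 1 M).filter fun m => ∃ p : ℕ, p.Prime ∧ (X : ℝ) ^ ζ ≤ p ∧
      (p : ℝ) < (X : ℝ) ^ τ ∧ p ^ 2 ∣ n - 2 * m ^ 2) =
      (Icc 1 M).filter (fun m : ℕ => ∃ p : ℕ, p.Prime ∧ (X : ℝ) ^ ζ ≤ p ∧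
        (p : ℝ) < (X : ℝ) ^ τ ∧ ((p : ℤ) ^ 2) ∣ (n : ℤ) - 2 * (m : ℤ) ^ 2) := by
    refine filter_congr fun m hm => ?_
    have h := hsize m hm
    refine exists_congr fun p => ?_
    rw [A1_cast (by omega), ← Nat.cast_pow, Int.natCast_dvd_natCast]
  rw [hset] at hup
  rw [hswap, hmain] at hup
  have hsq' : (((Icc 1 M).filter (fun m : ℕ => ∃ p : ℕ, p.Prime ∧ (X : ℝ) ^ ζ ≤ p ∧
      (p : ℝ) < (X : ℝ) ^ τ ∧ ((p : ℤ) ^ 2) ∣ (n : ℤ) - 2 * (m : ℤ) ^ 2)).card : ℝ)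
      ≤ 4 * M / (X : ℝ) ^ ζ + 2 * (X : ℝ) ^ τ
        + M / (X : ℝ) ^ ζ * (Real.log n / Real.log ((X : ℝ) ^ ζ)) := by
    refine le_trans (le_of_eq ?_) hsq
    congr
  linarith

end Pool.Agent.PSq
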