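import Pool.Agent.Lib.MP_6b8fc7_nt.Stm

set_option autoImplicit false

/-! Piece A2: Theorem B. -/

namespace Pool.Agent.PSq

open Finset
open scoped ArithmeticFunction.Omega

private theorem A2_par (hW6 : S_W6) : Par 3 0.1246 0.4 0.4985 0.499 (2 / 3) where
  ζ_pos := by norm_num
  ζτ := by norm_num
  τθ := by norm_num
  θθ := by norm_num
  θ1 := by norm_num
  lam_pos := by norm_num
  lam_le := by norm_num
  lam_eq := by norm_num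
  s4 := by norm_num
  s4' := by norm_num
  num := by
    have h := hW6.2
    linarith

private theorem A2_rem (hL1 : S_L1) (hL2 : S_L2) (hL4 : S_L4) (n M : ℕ) (Q : ℝ)
    (c : ℕ → ℝ) (hc : Wei Q c) (hQ1 : 1 ≤ Q) (hQn : Q ≤ n) :
    |∑ d ∈ Icc 1 n, c d * rr M n d| ≤ 3 * (Q * (1 + Real.log n)) := by
  have hQ0 : (0 : ℝ) ≤ Q := by linarith
  have hfl1 : 1 ≤ ⌊Q⌋₊ := Nat.le_floor (by exact_mod_cast hQ1)
  have hfln : ⌊Q⌋₊ ≤ n := Nat.floor_le_of_le hQn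
  have hsub : Icc 1 ⌊Q⌋₊ ⊆ Icc 1 n := Finset.Icc_subset_Icc_right hfln
  have h0 : ∑ d ∈ Icc 1 n, c d * rr M n d = ∑ d ∈ Icc 1 ⌊Q⌋₊, c d * rr M n d := by
    symm
    apply Finset.sum_subset hsub
    intro d hd hd'
    have hcd : c d = 0 := by
      by_contra hne
      have h3 := (hc.sup d hne).2.2
      apply hd'
      rw [Finset.mem_Icc] at hd ⊢
      exact ⟨hd.1, Nat.le_floor h3⟩
    rw [hcd, zero_mul]
  rw [h0]
  calc |∑ d ∈ Icc 1 ⌊Q⌋₊, c d * rr M n d| ≤ ∑ d ∈ Icc 1 ⌊Q⌋₊, |c d * rr M n d| :=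
        Finset.abs_sum_le_sum_abs _ _
    _ ≤ ∑ d ∈ Icc 1 ⌊Q⌋₊, 3 * (2 : ℝ) ^ d.primeFactors.card := by
        apply Finset.sum_le_sum
        intro d hd
        rw [Finset.mem_Icc] at hd
        by_cases hcd : c d = 0
        · rw [hcd, zero_mul, abs_zero]
          positivity
        · have h3 := hc.sup d hcd
          rw [abs_mul]
          have h4 : |rr M n d| ≤ (2 : ℝ) ^ d.primeFactors.card :=
            (hL2 M n d hd.1).trans (hL1 n d h3.1 h3.2.1).2.1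
          exact mul_le_mul (hc.bd d) h4 (abs_nonneg _) (by norm_num)
    _ = 3 * ∑ d ∈ Icc 1 ⌊Q⌋₊, (2 : ℝ) ^ d.primeFactors.card := by rw [Finset.mul_sum]
    _ ≤ 3 * (⌊Q⌋₊ * (1 + Real.log ⌊Q⌋₊)) := by
        apply mul_le_mul_of_nonneg_left (hL4 _ hfl1).1 (by norm_num)
    _ ≤ 3 * (Q * (1 + Real.log n)) := by
        apply mul_le_mul_of_nonneg_left _ (by norm_num)
        have hfl1' : (1 : ℝ) ≤ (⌊Q⌋₊ : ℝ) := by exact_mod_cast hfl1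
        have h5 : Real.log ⌊Q⌋₊ ≤ Real.log n :=
          Real.log_le_log (by linarith) (by exact_mod_cast hfln)
        have h6 : 0 ≤ Real.log (⌊Q⌋₊ : ℝ) := Real.log_nonneg hfl1'
        exact mul_le_mul (Nat.floor_le hQ0) (by linarith) (by linarith) hQ0

private theorem A2_asym (κ : ℝ) (hκ : 0 < κ) : ∃ n0 : ℕ, 3 ≤ n0 ∧ ∀ n : ℕ, n0 ≤ n →
    (3 * ((n : ℝ) ^ (0.499 : ℝ) * (1 + Real.log n)) + 13 * (n : ℝ) ^ (0.3754 : ℝ)
      + 2 * (n : ℝ) ^ (0.4 : ℝ)) * Real.log n ^ 2 ≤ κ * Real.sqrt n := by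
  have htend := tendsto_rpow_atTop (y := (0.0007 : ℝ)) (by norm_num)
  have hev := htend.eventually_ge_atTop (21 * 10000 ^ 3 / κ)
  obtain ⟨x0, hx0⟩ := Filter.eventually_atTop.1 hev
  refine ⟨max 3 ⌈x0⌉₊, le_max_left _ _, ?_⟩
  intro n hn
  have hn3 : 3 ≤ n := le_trans (le_max_left _ _) hn
  have hnx : x0 ≤ (n : ℝ) := by
    have h1 : ⌈x0⌉₊ ≤ n := le_trans (le_max_right _ _) hn
    exact (Nat.le_ceil x0).trans (by exact_mod_cast h1)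
  have hbig := hx0 (n : ℝ) hnx
  set x : ℝ := (n : ℝ) with hx
  have hx3 : (3 : ℝ) ≤ x := by
    rw [hx]
    exact_mod_cast hn3
  have hxpos : 0 < x := by linarith
  have hx1 : 1 ≤ x := by linarith
  have hL1 : 1 ≤ Real.log x := by
    rw [Real.le_log_iff_exp_le hxpos]
    have := Real.exp_one_lt_d9
    linarith
  have hL0 : 0 < Real.log x := by linarith
  have hLup : Real.log x ≤ 10000 * x ^ (0.0001 : ℝ) := by
    have h := Real.log_le_rpow_div (x := x) (ε := 0.0001) hxpos.le (by norm_num)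
    have e : x ^ (0.0001 : ℝ) / 0.0001 = 10000 * x ^ (0.0001 : ℝ) := by
      rw [div_eq_iff (by norm_num)]
      ring
    linarith
  have hp : 0 < x ^ (0.499 : ℝ) := Real.rpow_pos_of_pos hxpos _
  have h1 : x ^ (0.3754 : ℝ) ≤ x ^ (0.499 : ℝ) :=
    Real.rpow_le_rpow_of_exponent_le hx1 (by norm_num)
  have h2 : x ^ (0.4 : ℝ) ≤ x ^ (0.499 : ℝ) :=
    Real.rpow_le_rpow_of_exponent_le hx1 (by norm_num)
  have h3 : 3 * (x ^ (0.499 : ℝ) * (1 + Real.log x)) + 13 * x ^ (0.3754 : ℝ)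
      + 2 * x ^ (0.4 : ℝ) ≤ 21 * (x ^ (0.499 : ℝ) * Real.log x) := by
    have h4 : x ^ (0.499 : ℝ) ≤ x ^ (0.499 : ℝ) * Real.log x :=
      le_mul_of_one_le_right hp.le hL1
    nlinarith
  have h5 : (x ^ (0.0001 : ℝ)) ^ 3 = x ^ (0.0003 : ℝ) := by
    rw [← Real.rpow_natCast, ← Real.rpow_mul hxpos.le]
    norm_num
  have h6 : Real.log x ^ 3 ≤ 10000 ^ 3 * x ^ (0.0003 : ℝ) := by
    calc Real.log x ^ 3 ≤ (10000 * x ^ (0.0001 : ℝ)) ^ 3 := pow_le_pow_left₀ hL0.le hLup 3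
      _ = 10000 ^ 3 * x ^ (0.0003 : ℝ) := by rw [mul_pow, h5]
  have h7 : x ^ (0.499 : ℝ) * x ^ (0.0003 : ℝ) * x ^ (0.0007 : ℝ) = Real.sqrt x := by
    rw [← Real.rpow_add hxpos, ← Real.rpow_add hxpos, Real.sqrt_eq_rpow]
    norm_num
  have h8 : 21 * 10000 ^ 3 ≤ κ * x ^ (0.0007 : ℝ) := by
    have := (div_le_iff₀ hκ).1 hbig
    linarith
  have hq : 0 < x ^ (0.499 : ℝ) * x ^ (0.0003 : ℝ) :=
    mul_pos hp (Real.rpow_pos_of_pos hxpos _)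
  calc (3 * (x ^ (0.499 : ℝ) * (1 + Real.log x)) + 13 * x ^ (0.3754 : ℝ)
      + 2 * x ^ (0.4 : ℝ)) * Real.log x ^ 2
      ≤ 21 * (x ^ (0.499 : ℝ) * Real.log x) * Real.log x ^ 2 :=
        mul_le_mul_of_nonneg_right h3 (by positivity)
    _ = 21 * x ^ (0.499 : ℝ) * Real.log x ^ 3 := by ring
    _ ≤ 21 * x ^ (0.499 : ℝ) * (10000 ^ 3 * x ^ (0.0003 : ℝ)) :=
        mul_le_mul_of_nonneg_left h6 (by positivity)
    _ = 21 * 10000 ^ 3 * (x ^ (0.499 : ℝ) * x ^ (0.0003 : ℝ)) := by ring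
    _ ≤ κ * x ^ (0.0007 : ℝ) * (x ^ (0.499 : ℝ) * x ^ (0.0003 : ℝ)) :=
        mul_le_mul_of_nonneg_right h8 hq.le
    _ = κ * Real.sqrt x := by rw [← h7]; ring

private theorem A2_M (n : ℕ) (hn : 100 ≤ n) : 5 * (Nat.sqrt (n / 5)) ^ 2 ≤ n ∧
    Real.sqrt n / 3 ≤ (Nat.sqrt (n / 5) : ℝ) ∧ (Nat.sqrt (n / 5) : ℝ) ≤ Real.sqrt n := by
  set M := Nat.sqrt (n / 5) with hM
  have h1 : M ^ 2 ≤ n / 5 := by
    rw [pow_two]
    exact Nat.sqrt_le _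
  have h2 : n / 5 < (M + 1) ^ 2 := Nat.lt_succ_sqrt' (n / 5)
  refine ⟨by omega, ?_, ?_⟩
  · have h3 : n < 5 * (M + 1) ^ 2 := by omega
    have h4 : (n : ℝ) < 5 * ((M : ℝ) + 1) ^ 2 := by exact_mod_cast h3
    have h5 : Real.sqrt n ≤ 2.25 * ((M : ℝ) + 1) := by
      rw [Real.sqrt_le_left (by positivity)]
      nlinarith [sq_nonneg ((M : ℝ) + 1)]
    have h6 : (10 : ℝ) ≤ Real.sqrt n := by
      rw [Real.le_sqrt' (by norm_num)]
      have : (100 : ℝ) ≤ n := by exact_mod_cast hn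
      linarith
    linarith
  · apply Real.le_sqrt_of_sq_le
    have h7 : M ^ 2 ≤ n := by omega
    exact_mod_cast h7

theorem p_A2 (hM7 : S_M7) (hL1 : S_L1) (hL2 : S_L2) (hL4 : S_L4) (hD7 : S_D7) (hW6 : S_W6)
    (hW7 : S_W7) (hA1 : S_A1) : S_A2 := by
  obtain ⟨N, c0, X0, hN, hc0, hWS⟩ := hW7 3 0.1246 0.4 0.4985 0.499 (2 / 3) (A2_par hW6)
  obtain ⟨K, X1, hK⟩ := hD7 N hN
  obtain ⟨c1, X2, hc1, hM⟩ := hM7 0.1246 (by norm_num) (by norm_num)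
  obtain ⟨n0, hn03, hn0⟩ := A2_asym (c0 * c1 / 6) (by positivity)
  obtain ⟨n1, hn1⟩ : ∃ n1 : ℕ, ∀ n : ℕ, n1 ≤ n → (3 : ℝ) ≤ (n : ℝ) ^ (0.1246 : ℝ) := by
    have htend := (tendsto_rpow_atTop (y := (0.1246 : ℝ)) (by norm_num)).eventually_ge_atTop 3
    obtain ⟨x0, hx0⟩ := Filter.eventually_atTop.1 htend
    exact ⟨⌈x0⌉₊, fun n hn => hx0 n ((Nat.le_ceil x0).trans (by exact_mod_cast hn))⟩
  set m := X0 + X2 + n0 + n1 + 100 with hmdef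
  refine ⟨c0 * c1 / 6, K, X1 + m ^ 2, by positivity, ?_⟩
  intro Y hY
  obtain ⟨S, hS1, hS2, hS3⟩ := hK Y (by omega)
  refine ⟨S, hS1, hS2, ?_⟩
  intro n hodd hYn hnY hns
  have hgood := hS3 n hodd hnY hns
  have hmn : m ≤ n := by
    by_contra hlt
    push Not at hlt
    have : n ^ 2 < m ^ 2 := Nat.pow_lt_pow_left hlt (by norm_num)
    omega
  obtain ⟨c, hWei, hpt, hmain⟩ := hWS n (by omega)
  have hmain' := hmain n Y hodd hnY hYn hgood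
  obtain ⟨hV1, hV2⟩ := hM n n (by omega) (by omega) le_rfl
  obtain ⟨hM1, hM2, hM3⟩ := A2_M n (by omega)
  have hasym := hn0 n (by omega)
  have hn3 := hn1 n (by omega)
  set M := Nat.sqrt (n / 5) with hMdef
  have hnR : (100 : ℝ) ≤ (n : ℝ) := by
    have : 100 ≤ n := by omega
    exact_mod_cast this
  have hnpos : (0 : ℝ) < n := by linarith
  have hn1' : (1 : ℝ) ≤ n := by linarith
  have hQ1 : (1 : ℝ) ≤ (n : ℝ) ^ (0.499 : ℝ) := Real.one_le_rpow hn1' (by norm_num)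
  have hQn : (n : ℝ) ^ (0.499 : ℝ) ≤ n := by
    calc (n : ℝ) ^ (0.499 : ℝ) ≤ (n : ℝ) ^ (1 : ℝ) :=
          Real.rpow_le_rpow_of_exponent_le hn1' (by norm_num)
      _ = n := Real.rpow_one _
  have hA := hA1 3 n M n 0.1246 0.4 ((n : ℝ) ^ (0.499 : ℝ)) c (by omega) (by norm_num)
    (by norm_num) hn3 hM1 hodd (by omega) le_rfl hWei hQn hpt
  have hR := A2_rem hL1 hL2 hL4 n M _ c hWei hQ1 hQn
  have hlog1 : 1 ≤ Real.log n := by
    rw [Real.le_log_iff_exp_le hnpos]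
    have := Real.exp_one_lt_d9
    linarith
  have hlog0 : 0 < Real.log n := by linarith
  have hM0 : (0 : ℝ) ≤ (M : ℝ) := Nat.cast_nonneg _
  have hsq0 : 0 < Real.sqrt n := Real.sqrt_pos.2 hnpos
  have hz0 : 0 < (n : ℝ) ^ (0.1246 : ℝ) := Real.rpow_pos_of_pos hnpos _
  -- the terms of the squares
  have hdiv : (M : ℝ) / (n : ℝ) ^ (0.1246 : ℝ) ≤ (n : ℝ) ^ (0.3754 : ℝ) := by
    rw [div_le_iff₀ hz0, ← Real.rpow_add hnpos]
    calc (M : ℝ) ≤ Real.sqrt n := hM3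
      _ = (n : ℝ) ^ (0.3754 + 0.1246 : ℝ) := by
        rw [Real.sqrt_eq_rpow]
        norm_num
  have hlogz : Real.log n / Real.log ((n : ℝ) ^ (0.1246 : ℝ)) ≤ 9 := by
    rw [Real.log_rpow hnpos, div_le_iff₀ (by positivity)]
    nlinarith
  have hsqt : 4 * (M : ℝ) / (n : ℝ) ^ (0.1246 : ℝ) + 2 * (n : ℝ) ^ (0.4 : ℝ)
      + (M : ℝ) / (n : ℝ) ^ (0.1246 : ℝ) *
        (Real.log n / Real.log ((n : ℝ) ^ (0.1246 : ℝ))) ≤
      13 * (n : ℝ) ^ (0.3754 : ℝ) + 2 * (n : ℝ) ^ (0.4 : ℝ) := by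
    have h1 : 4 * (M : ℝ) / (n : ℝ) ^ (0.1246 : ℝ) = 4 * ((M : ℝ) / (n : ℝ) ^ (0.1246 : ℝ)) := by
      ring
    have h2 : (M : ℝ) / (n : ℝ) ^ (0.1246 : ℝ) *
        (Real.log n / Real.log ((n : ℝ) ^ (0.1246 : ℝ))) ≤
        (M : ℝ) / (n : ℝ) ^ (0.1246 : ℝ) * 9 :=
      mul_le_mul_of_nonneg_left hlogz (by positivity)
    linarith
  -- the main term
  have hV0 : 0 ≤ Vn n ((n : ℝ) ^ (0.1246 : ℝ)) :=
    le_trans (by positivity) hV1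
  set V := Vn n ((n : ℝ) ^ (0.1246 : ℝ)) with hVdef
  have hmain2 : (M : ℝ) * (c0 * V) ≤
      M * ∑ d ∈ Icc 1 n, c d * ∏ p ∈ d.primeFactors, gn n p :=
    mul_le_mul_of_nonneg_left hmain' hM0
  have hR' : -(3 * ((n : ℝ) ^ (0.499 : ℝ) * (1 + Real.log n))) ≤
      ∑ d ∈ Icc 1 n, c d * rr M n d := (abs_le.1 hR).1
  have herr : 3 * ((n : ℝ) ^ (0.499 : ℝ) * (1 + Real.log n)) + 13 * (n : ℝ) ^ (0.3754 : ℝ)
      + 2 * (n : ℝ) ^ (0.4 : ℝ) ≤ c0 / 2 * (M * V) := by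
    have h1 : 3 * ((n : ℝ) ^ (0.499 : ℝ) * (1 + Real.log n)) + 13 * (n : ℝ) ^ (0.3754 : ℝ)
        + 2 * (n : ℝ) ^ (0.4 : ℝ) ≤ c0 * c1 / 6 * Real.sqrt n / Real.log n ^ 2 := by
      rw [le_div_iff₀ (by positivity)]
      exact hasym
    have h2 : Real.sqrt n / 3 * (c1 / Real.log n ^ 2) ≤ M * V :=
      mul_le_mul hM2 hV1 (by positivity) hM0
    calc _ ≤ c0 * c1 / 6 * Real.sqrt n / Real.log n ^ 2 := h1
      _ = c0 / 2 * (Real.sqrt n / 3 * (c1 / Real.log n ^ 2)) := by ring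
      _ ≤ c0 / 2 * (M * V) := mul_le_mul_of_nonneg_left h2 (by positivity)
  have hfin : c0 * c1 / 6 * Real.sqrt n / Real.log n * Sn n ≤ c0 / 2 * (M * V) := by
    have h1 : c1 / Real.log n * Sn n ≤ V := hV2
    have h2 : Real.sqrt n / 3 * V ≤ M * V := mul_le_mul_of_nonneg_right hM2 hV0
    have h3 : Real.sqrt n / 3 * (c1 / Real.log n * Sn n) ≤ Real.sqrt n / 3 * V :=
      mul_le_mul_of_nonneg_left h1 (by positivity)
    calc c0 * c1 / 6 * Real.sqrt n / Real.log n * Sn n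
        = c0 / 2 * (Real.sqrt n / 3 * (c1 / Real.log n * Sn n)) := by ring
      _ ≤ c0 / 2 * (M * V) := mul_le_mul_of_nonneg_left (h3.trans h2) (by positivity)
  have e1 : (M : ℝ) * (c0 * V) = c0 / 2 * (M * V) + c0 / 2 * (M * V) := by ring
  linarith

end Pool.Agent.PSq
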