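import Pool.Agent.Lib.MP_6b8fc7_nt.Stm

set_option autoImplicit false

/-! Piece [P6 A3]: THEOREM A. -/

namespace Pool.Agent.PSq

open Finset
open scoped ArithmeticFunction.Omega

private theorem A3_ev (δ : ℝ) (hδ : 0 < δ) (C : ℝ) (k : ℕ) :
    ∀ᶠ x : ℝ in Filter.atTop, C * (1 + Real.log x) ^ k ≤ x ^ δ := by
  have hC : 0 < |C| * 2 ^ k + 1 := by positivity
  have h1 := (isLittleO_log_rpow_rpow_atTop (k : ℝ) hδ).bound
    (c := 1 / (|C| * 2 ^ k + 1)) (by positivity)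
  filter_upwards [h1, Filter.eventually_ge_atTop (Real.exp 1)] with x hx hx1
  have hx0 : 0 < x := lt_of_lt_of_le (Real.exp_pos 1) hx1
  have hl : 1 ≤ Real.log x := by
    rw [Real.le_log_iff_exp_le hx0]
    exact hx1
  rw [Real.rpow_natCast, Real.norm_of_nonneg (by positivity),
    Real.norm_of_nonneg (by positivity)] at hx
  have h2 : (1 + Real.log x) ^ k ≤ 2 ^ k * Real.log x ^ k := by
    rw [← mul_pow]
    exact pow_le_pow_left₀ (by linarith) (by linarith) k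
  have h3 : 0 ≤ x ^ δ := by positivity
  calc C * (1 + Real.log x) ^ k ≤ |C| * (2 ^ k * Real.log x ^ k) := by
        apply mul_le_mul (le_abs_self C) h2 (by positivity) (abs_nonneg C)
    _ = (|C| * 2 ^ k) * Real.log x ^ k := by ring
    _ ≤ (|C| * 2 ^ k) * (1 / (|C| * 2 ^ k + 1) * x ^ δ) := by
        exact mul_le_mul_of_nonneg_left hx (by positivity)
    _ ≤ x ^ δ := by
        rw [← mul_assoc, mul_one_div]
        apply mul_le_of_le_one_left h3
        rw [div_le_one hC]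
        linarith

/-- Dyadic summation. -/
private theorem A3_dy (F B : ℕ → ℕ) (X3 : ℕ) (hF : ∀ X, F X ≤ X)
    (h : ∀ X, F X ≤ F (X / 2) + B X)
    (hB : ∀ X, X3 ≤ X → (B X : ℝ) ≤ (X : ℝ) ^ (0.6245 : ℝ)) :
    ∀ X, (F X : ℝ) ≤ X3 + 4 * (X : ℝ) ^ (0.6245 : ℝ) := by
  intro X
  induction X using Nat.strong_induction_on with
  | _ X ih =>
    have hX0 : (0 : ℝ) ≤ (X : ℝ) ^ (0.6245 : ℝ) := by positivity
    by_cases hX : X < X3 ∨ X = 0
    · have h1 : F X ≤ X3 := by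
        have := hF X
        rcases hX with h | h <;> omega
      have h2 : (F X : ℝ) ≤ X3 := by exact_mod_cast h1
      linarith
    · push Not at hX
      have h1 := ih (X / 2) (Nat.div_lt_self (by omega) (by norm_num))
      have h2 := hB X hX.1
      have h3 : (F X : ℝ) ≤ F (X / 2) + B X := by exact_mod_cast h X
      have h4 : (((X / 2 : ℕ) : ℝ)) ^ (0.6245 : ℝ) ≤ (X : ℝ) ^ (0.6245 : ℝ) * (3 / 4) := by
        have h5 : ((X / 2 : ℕ) : ℝ) ≤ (X : ℝ) * (1 / 2) := by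
          have := Nat.cast_div_le (α := ℝ) (m := X) (n := 2)
          push_cast at this
          linarith
        calc (((X / 2 : ℕ) : ℝ)) ^ (0.6245 : ℝ) ≤ ((X : ℝ) * (1 / 2)) ^ (0.6245 : ℝ) :=
              Real.rpow_le_rpow (by positivity) h5 (by norm_num)
          _ = (X : ℝ) ^ (0.6245 : ℝ) * (1 / 2) ^ (0.6245 : ℝ) :=
              Real.mul_rpow (by positivity) (by norm_num)
          _ ≤ (X : ℝ) ^ (0.6245 : ℝ) * (3 / 4) := by
              apply mul_le_mul_of_nonneg_left _ hX0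
              have h6 : ((1 : ℝ) / 2) ^ (0.6245 : ℝ) ≤ (1 / 2) ^ ((1 : ℝ) / 2) :=
                Real.rpow_le_rpow_of_exponent_ge (by norm_num) (by norm_num) (by norm_num)
              have h7 : ((1 : ℝ) / 2) ^ ((1 : ℝ) / 2) ≤ 3 / 4 := by
                rw [← Real.sqrt_eq_rpow, Real.sqrt_le_left (by norm_num)]
                norm_num
              linarith
      linarith

/-- The numbers of the form `s k^2`. -/
private theorem A3_sq (S B : Finset ℕ) (K X : ℕ) (hS : S.card ≤ K) (hS1 : ∀ s ∈ S, s ≠ 0)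
    (hB : ∀ n ∈ B, n ≤ X ∧ ∃ s ∈ S, ∃ k, n = s * k ^ 2) :
    (B.card : ℝ) ≤ K * (Real.sqrt X + 1) := by
  have h1 : B ⊆ (S ×ˢ range (X.sqrt + 1)).image (fun p => p.1 * p.2 ^ 2) := by
    intro n hn
    obtain ⟨h2, s, hs, k, hk⟩ := hB n hn
    rw [mem_image]
    refine ⟨(s, k), ?_, hk.symm⟩
    rw [mem_product, mem_range]
    refine ⟨hs, ?_⟩
    have h3 : k ^ 2 ≤ X := by
      have h4 : 1 ≤ s := Nat.one_le_iff_ne_zero.2 (hS1 s hs)
      calc k ^ 2 = 1 * k ^ 2 := by ring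
        _ ≤ s * k ^ 2 := Nat.mul_le_mul_right _ h4
        _ ≤ X := by omega
    have h4 : k ≤ X.sqrt := by
      rw [Nat.le_sqrt, ← pow_two]
      exact h3
    show k < X.sqrt + 1
    omega
  have h2 : B.card ≤ K * (X.sqrt + 1) := by
    refine (card_le_card h1).trans (card_image_le.trans ?_)
    rw [card_product, card_range]
    exact Nat.mul_le_mul_right _ hS
  have h3 : (B.card : ℝ) ≤ K * (X.sqrt + 1) := by exact_mod_cast h2
  have h4 : (X.sqrt : ℝ) ≤ Real.sqrt X := Real.nat_sqrt_le_real_sqrt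
  have h5 : (0 : ℝ) ≤ K := by positivity
  nlinarith

private theorem A3_M (X : ℕ) (hX : 100 ≤ X) :
    5 * Nat.sqrt (X / 5) ^ 2 ≤ X ∧ Real.sqrt X / 3 ≤ (Nat.sqrt (X / 5) : ℝ) := by
  set M := Nat.sqrt (X / 5) with hM
  have h1 : M ^ 2 ≤ X / 5 := Nat.sqrt_le' _
  have h2 : X / 5 < (M + 1) ^ 2 := Nat.lt_succ_sqrt' _
  refine ⟨by omega, ?_⟩
  have h3 : X < 5 * (M + 1) ^ 2 := by omega
  have h4 : (X : ℝ) < 5 * ((M : ℝ) + 1) ^ 2 := by exact_mod_cast h3
  have h5 : (100 : ℝ) ≤ X := by exact_mod_cast hX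
  have h6 : Real.sqrt X ^ 2 = X := Real.sq_sqrt (by positivity)
  have h7 : 10 ≤ Real.sqrt X := by
    apply Real.le_sqrt_of_sq_le
    linarith
  by_contra hcon
  push Not at hcon
  have h8 : (0 : ℝ) ≤ M := by positivity
  nlinarith

/-- The arithmetic for one `n`. -/
private theorem A3_one (M c0 c1 L l V S R G err NPn T sn s : ℝ) (hM : s / 3 ≤ M) (hs : 0 < s)
    (hsn : sn ≤ s) (hc0 : 0 < c0) (hc1 : 0 < c1) (hL : 0 < L) (hl : 0 < l)
    (hV1 : c1 / L ^ 2 ≤ V) (hV2 : c1 / l * S ≤ V) (hS : 0 < S)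
    (hG : c0 * V ≤ G) (hT : T = M * (c0 * c1 / (4 * L ^ 2))) (hR : |R| < T)
    (herr : err ≤ M * (c0 * c1 / (4 * L ^ 2))) (hA : M * G + R - err ≤ NPn) :
    c0 * c1 / 6 * sn / l * S ≤ NPn := by
  have hM0 : 0 < M := by linarith
  have h1 : M * (c0 * V) ≤ M * G := mul_le_mul_of_nonneg_left hG hM0.le
  have h2 := (abs_lt.1 hR).1
  have h3 : M * (c0 * (c1 / L ^ 2)) ≤ M * (c0 * V) :=
    mul_le_mul_of_nonneg_left (mul_le_mul_of_nonneg_left hV1 hc0.le) hM0.le
  have h4 : M * (c0 * (c1 / L ^ 2)) = 4 * (M * (c0 * c1 / (4 * L ^ 2))) := by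
    field_simp
  have h5 : M * (c0 * (c1 / l * S)) ≤ M * (c0 * V) :=
    mul_le_mul_of_nonneg_left (mul_le_mul_of_nonneg_left hV2 hc0.le) hM0.le
  have h6 : c0 * c1 / 6 * sn / l * S ≤ (1 / 2) * (M * (c0 * (c1 / l * S))) := by
    have h7 : sn ≤ 3 * M := by linarith
    have h8 : 0 ≤ c0 * c1 / 6 / l * S := by positivity
    have h9 := mul_le_mul_of_nonneg_left h7 h8
    have h10 : c0 * c1 / 6 / l * S * sn = c0 * c1 / 6 * sn / l * S := by ring
    have h11 : c0 * c1 / 6 / l * S * (3 * M) = (1 / 2) * (M * (c0 * (c1 / l * S))) := by ring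
    linarith
  linarith

/-- The error terms. -/
private theorem A3_err (x M A L ln : ℝ) (hx : 1 < x) (hM : Real.sqrt x / 3 ≤ M) (hA : 0 < A)
    (hL : L = Real.log x) (hln : ln ≤ L)
    (h : 72 / A * (1 + L) ^ 2 ≤ x ^ (0.005 : ℝ)) :
    4 * M / x ^ (0.1404 : ℝ) + 2 * x ^ (0.495 : ℝ)
      + M / x ^ (0.1404 : ℝ) * (ln / Real.log (x ^ (0.1404 : ℝ))) ≤ M * (A / (4 * L ^ 2)) := by
  have hx0 : 0 < x := by linarith
  have hL0 : 0 < L := by rw [hL]; exact Real.log_pos hx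
  have hs : 0 < Real.sqrt x := Real.sqrt_pos.2 hx0
  have hM0 : 0 < M := by linarith
  set y := x ^ (0.005 : ℝ) with hy
  have hy0 : 0 < y := Real.rpow_pos_of_pos hx0 _
  set z := x ^ (0.1404 : ℝ) with hz
  have hz0 : 0 < z := Real.rpow_pos_of_pos hx0 _
  have hyz : y ≤ z := Real.rpow_le_rpow_of_exponent_le hx.le (by norm_num)
  have hlz : Real.log z = 0.1404 * L := by rw [hz, Real.log_rpow hx0, hL]
  have h1 : ln / Real.log z ≤ 8 := by
    rw [hlz, div_le_iff₀ (by positivity)]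
    nlinarith
  have hMz : 0 < M / z := div_pos hM0 hz0
  have hMzy : M / z ≤ M / y := div_le_div_of_nonneg_left hM0.le hy0 hyz
  have h2 : M / z * (ln / Real.log z) ≤ M / z * 8 := mul_le_mul_of_nonneg_left h1 hMz.le
  have h3 : x ^ (0.495 : ℝ) * y = Real.sqrt x := by
    rw [hy, ← Real.rpow_add hx0, Real.sqrt_eq_rpow]
    norm_num
  have h4 : 2 * x ^ (0.495 : ℝ) ≤ 6 * (M / y) := by
    have h5 : x ^ (0.495 : ℝ) = Real.sqrt x / y := by
      rw [← h3]
      field_simp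
    rw [h5]
    have h6 : Real.sqrt x / y ≤ 3 * M / y := div_le_div_of_nonneg_right (by linarith) hy0.le
    have h7 : 3 * M / y = 3 * (M / y) := by ring
    linarith
  have h5 : 4 * M / z = 4 * (M / z) := by ring
  have h6 : 18 * (M / y) ≤ M * (A / (4 * L ^ 2)) := by
    have h7 : 18 * (M / y) = M * (18 / y) := by ring
    rw [h7]
    apply mul_le_mul_of_nonneg_left _ hM0.le
    rw [div_le_div_iff₀ hy0 (by positivity)]
    have h8 : 72 * (1 + L) ^ 2 ≤ A * y := by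
      have h9 := mul_le_mul_of_nonneg_left h hA.le
      have h10 : A * (72 / A * (1 + L) ^ 2) = 72 * (1 + L) ^ 2 := by
        field_simp
      linarith
    nlinarith
  rw [h5]
  linarith

/-- The number of the exceptions given by the large sieve. -/
private theorem A3_cnt (x M A L C b q lq T : ℝ) (hx : 1 < x) (hM : Real.sqrt x / 3 ≤ M)
    (hA : 0 < A) (hL : L = Real.log x) (hC : 0 < C) (hq0 : 0 ≤ q)
    (hq : q ≤ x ^ (0.562 : ℝ)) (hlq0 : 0 ≤ lq) (hlq : lq ≤ L) (hb : 0 ≤ b)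
    (hT : T = M * (A / (4 * L ^ 2)))
    (h : 192 * C / A ^ 2 * (1 + L) ^ 8 ≤ x ^ (0.0005 : ℝ))
    (hF : b * T ^ 2 ≤ C * (q ^ 2 + x) * M * (1 + lq) ^ 4) :
    b ≤ 1 / 2 * x ^ (0.6245 : ℝ) := by
  have hx0 : 0 < x := by linarith
  have hL0 : 0 < L := by rw [hL]; exact Real.log_pos hx
  have hs : 0 < Real.sqrt x := Real.sqrt_pos.2 hx0
  have hM0 : 0 < M := by linarith
  set w := x ^ (1.124 : ℝ) with hw
  have hw0 : 0 < w := Real.rpow_pos_of_pos hx0 _
  have h1 : q ^ 2 + x ≤ 2 * w := by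
    have h2 : q ^ 2 ≤ w := by
      calc q ^ 2 ≤ (x ^ (0.562 : ℝ)) ^ 2 := pow_le_pow_left₀ hq0 hq 2
        _ = w := by
          rw [hw, ← Real.rpow_natCast, ← Real.rpow_mul hx0.le]
          norm_num
    have h3 : x ≤ w := by
      calc x = x ^ (1 : ℝ) := (Real.rpow_one x).symm
        _ ≤ w := Real.rpow_le_rpow_of_exponent_le hx.le (by norm_num)
    linarith
  have h2 : b * T ^ 2 ≤ C * (2 * w) * M * (1 + L) ^ 4 := by
    refine hF.trans ?_
    apply mul_le_mul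
    · apply mul_le_mul_of_nonneg_right _ hM0.le
      exact mul_le_mul_of_nonneg_left h1 hC.le
    · exact pow_le_pow_left₀ (by linarith) (by linarith) 4
    · positivity
    · positivity
  -- divide by `M`
  have h3 : b * M * (A / (4 * L ^ 2)) ^ 2 ≤ C * (2 * w) * (1 + L) ^ 4 := by
    rw [hT] at h2
    have h4 : b * (M * (A / (4 * L ^ 2))) ^ 2 = (b * M * (A / (4 * L ^ 2)) ^ 2) * M := by ring
    have h5 : C * (2 * w) * M * (1 + L) ^ 4 = (C * (2 * w) * (1 + L) ^ 4) * M := by ring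
    rw [h4, h5] at h2
    exact le_of_mul_le_mul_right h2 hM0
  have h4 : b * (Real.sqrt x / 3) * (A ^ 2 / 16) ≤ C * (2 * w) * (1 + L) ^ 8 := by
    have h5 : A ^ 2 / 16 ≤ (A / (4 * L ^ 2)) ^ 2 * (1 + L) ^ 4 := by
      have h6 : (A / (4 * L ^ 2)) ^ 2 * (1 + L) ^ 4 = A ^ 2 / 16 * ((1 + L) / L) ^ 4 := by
        field_simp
        ring
      rw [h6]
      apply le_mul_of_one_le_right (by positivity)
      apply one_le_pow₀
      rw [le_div_iff₀ hL0]
      linarith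
    calc b * (Real.sqrt x / 3) * (A ^ 2 / 16)
        ≤ b * M * ((A / (4 * L ^ 2)) ^ 2 * (1 + L) ^ 4) := by
          apply mul_le_mul _ h5 (by positivity) (by positivity)
          exact mul_le_mul_of_nonneg_left hM hb
      _ = (b * M * (A / (4 * L ^ 2)) ^ 2) * (1 + L) ^ 4 := by ring
      _ ≤ (C * (2 * w) * (1 + L) ^ 4) * (1 + L) ^ 4 :=
          mul_le_mul_of_nonneg_right h3 (by positivity)
      _ = C * (2 * w) * (1 + L) ^ 8 := by ring
  have h5 : b * Real.sqrt x ≤ 1 / 2 * w * x ^ (0.0005 : ℝ) := by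
    have h6 : b * Real.sqrt x ≤ 1 / 2 * w * (192 * C / A ^ 2 * (1 + L) ^ 8) := by
      have h7 : 1 / 2 * w * (192 * C / A ^ 2 * (1 + L) ^ 8)
          = (C * (2 * w) * (1 + L) ^ 8) * (48 / A ^ 2) := by
        field_simp
        ring
      rw [h7]
      have h8 : b * Real.sqrt x = (b * (Real.sqrt x / 3) * (A ^ 2 / 16)) * (48 / A ^ 2) := by
        field_simp
        ring
      rw [h8]
      exact mul_le_mul_of_nonneg_right h4 (by positivity)
    exact h6.trans (mul_le_mul_of_nonneg_left h (by positivity))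
  have h6 : 1 / 2 * w * x ^ (0.0005 : ℝ) = (1 / 2 * x ^ (0.6245 : ℝ)) * Real.sqrt x := by
    rw [hw, Real.sqrt_eq_rpow, mul_assoc, mul_assoc, ← Real.rpow_add hx0, ← Real.rpow_add hx0]
    norm_num
  rw [h6] at h5
  exact le_of_mul_le_mul_right h5 hs

/-- The exceptions in `(X / 2, X]`. -/
private theorem A3_main (hM7 : S_M7) (hD7 : S_D7) (hW6 : S_W6) (hW7 : S_W7) (hF6 : S_F6)
    (hA1 : S_A1) : ∃ (c : ℝ) (X3 : ℕ), 0 < c ∧ ∀ X : ℕ, X3 ≤ X → ∀ B : Finset ℕ,
    (∀ n ∈ B, n ≤ X ∧ X < 2 * n ∧ Odd n ∧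
      (NP 2 n : ℝ) < c * Real.sqrt n / Real.log n * Sn n) →
    (B.card : ℝ) ≤ (X : ℝ) ^ (0.6245 : ℝ) := by
  classical
  have hpar : Par 2 0.1404 0.495 0.5617 0.562 (0.495 / 0.485) := by
    refine ⟨by norm_num, by norm_num, by norm_num, by norm_num, by norm_num, by norm_num,
      by norm_num, by norm_num, by norm_num, by norm_num, ?_⟩
    have := hW6.1
    linarith
  obtain ⟨N, c0, X0, hN, hc0, hW⟩ := hW7 2 _ _ _ _ _ hpar
  obtain ⟨c1, X1, hc1, hV⟩ := hM7 0.1404 (by norm_num) (by norm_num)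
  obtain ⟨K, X2, hD⟩ := hD7 N hN
  obtain ⟨C, hC, hF⟩ := hF6
  have hA : 0 < c0 * c1 := mul_pos hc0 hc1
  have hev := (tendsto_natCast_atTop_atTop (R := ℝ)).eventually
    ((A3_ev 0.1404 (by norm_num) 3 0).and ((A3_ev 0.005 (by norm_num) (72 / (c0 * c1)) 2).and
      ((A3_ev 0.0005 (by norm_num) (192 * C / (c0 * c1) ^ 2) 8).and
        (A3_ev 0.1245 (by norm_num) (4 * K) 0))))
  obtain ⟨X4, hX4⟩ := Filter.eventually_atTop.1 hev
  refine ⟨c0 * c1 / 6, X0 + X1 + X2 + X4 + 100, by positivity, fun X hX B hB => ?_⟩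
  obtain ⟨e1, e2, e3, e4⟩ := hX4 X (by omega)
  rw [pow_zero, mul_one] at e1 e4
  have hx100 : (100 : ℝ) ≤ X := by exact_mod_cast (by omega : 100 ≤ X)
  set x : ℝ := (X : ℝ) with hx
  have hx1 : 1 < x := by linarith
  have hx0 : 0 < x := by linarith
  set L := Real.log x with hL
  have hL0 : 0 < L := Real.log_pos hx1
  obtain ⟨hM5, hM⟩ := A3_M X (by omega)
  set M := Nat.sqrt (X / 5) with hMdef
  have hs : 0 < Real.sqrt x := Real.sqrt_pos.2 hx0
  have hM0 : (0 : ℝ) < M := by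
    have : 0 < Real.sqrt x / 3 := by positivity
    linarith
  obtain ⟨c, hc, hpt, hmain⟩ := hW X (by omega)
  obtain ⟨S, hSK, hS1, hS2⟩ := hD X (by omega)
  set Q : ℕ := ⌊x ^ (0.562 : ℝ)⌋₊ with hQ
  have hxq1 : 1 ≤ x ^ (0.562 : ℝ) := Real.one_le_rpow hx1.le (by norm_num)
  have hxqx : x ^ (0.562 : ℝ) ≤ x := by
    calc x ^ (0.562 : ℝ) ≤ x ^ (1 : ℝ) := Real.rpow_le_rpow_of_exponent_le hx1.le (by norm_num)
      _ = x := Real.rpow_one x
  have hQ1 : 1 ≤ Q := Nat.le_floor (by exact_mod_cast hxq1)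
  have hQle : (Q : ℝ) ≤ x ^ (0.562 : ℝ) := Nat.floor_le (by positivity)
  have hQX : Q ≤ X := by
    have : (Q : ℝ) ≤ (X : ℝ) := hQle.trans hxqx
    exact_mod_cast this
  have hWei : Wei (Q : ℝ) c := by
    refine ⟨hc.bd, fun d hd => ?_⟩
    obtain ⟨h1, h2, h3⟩ := hc.sup d hd
    refine ⟨h1, h2, ?_⟩
    exact_mod_cast Nat.le_floor h3
  set T : ℝ := M * (c0 * c1 / (4 * L ^ 2)) with hT
  have hT0 : 0 < T := by positivity
  set B1 := B.filter (fun n => ∃ s ∈ S, ∃ k, n = s * k ^ 2) with hB1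
  set B2 := B.filter (fun n => T ≤ |∑ d ∈ Icc 1 Q, c d * rr M n d|) with hB2
  -- the sum over `Icc 1 X`
  have hsum : ∀ n, ∑ d ∈ Icc 1 X, c d * rr M n d = ∑ d ∈ Icc 1 Q, c d * rr M n d := by
    intro n
    symm
    apply sum_subset
    · intro d hd
      rw [mem_Icc] at hd ⊢
      omega
    · intro d hd hd'
      rw [mem_Icc] at hd hd'
      by_cases h0 : c d = 0
      · rw [h0, zero_mul]
      · exfalso
        have h1 := (hWei.sup d h0).2.2
        have h2 : d ≤ Q := by exact_mod_cast h1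
        omega
  have hcover : B ⊆ B1 ∪ B2 := by
    intro n hn
    by_contra hcon
    rw [mem_union, not_or] at hcon
    obtain ⟨hn1, hn2⟩ := hcon
    obtain ⟨hnX, hXn, hodd, hNP⟩ := hB n hn
    rw [hB1, mem_filter, not_and] at hn1
    rw [hB2, mem_filter, not_and, not_le] at hn2
    have hn1' := hn1 hn
    have hn2' := hn2 hn
    have hgood : Good N X n := by
      apply hS2 n hodd hnX
      intro s hs k hk
      exact hn1' ⟨s, hs, k, hk⟩
    have hnR : x < 2 * (n : ℝ) := by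
      rw [hx]
      exact_mod_cast hXn
    have hnR' : (n : ℝ) ≤ x := by
      rw [hx]
      exact_mod_cast hnX
    have hn0 : (1 : ℝ) < n := by linarith
    have hln : 0 < Real.log n := Real.log_pos hn0
    have hlnL : Real.log n ≤ L := Real.log_le_log (by linarith) hnR'
    by_cases hS0 : Sn n ≤ 0
    · have h1 : c0 * c1 / 6 * Real.sqrt n / Real.log n * Sn n ≤ 0 := by
        apply mul_nonpos_of_nonneg_of_nonpos _ hS0
        positivity
      have h2 : (0 : ℝ) ≤ NP 2 n := by positivity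
      linarith
    · push Not at hS0
      obtain ⟨hV1, hV2⟩ := hV X n (by omega) (by omega) hnX
      have hG := hmain n X hodd le_rfl (by nlinarith) hgood
      have hAA := hA1 2 X M n 0.1404 0.495 (x ^ (0.562 : ℝ)) c (by omega) (by norm_num)
        (by norm_num) e1 hM5 hodd hXn hnX hc hxqx (fun a ha ha' => hpt a ha ha')
      rw [hsum] at hAA
      have herr := A3_err x M (c0 * c1) L (Real.log n) hx1 hM hA hL hlnL e2
      have hfin := A3_one M c0 c1 L (Real.log n) (Vn n (x ^ (0.1404 : ℝ))) (Sn n)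
        (∑ d ∈ Icc 1 Q, c d * rr M n d)
        (∑ d ∈ Icc 1 X, c d * ∏ p ∈ d.primeFactors, gn n p) _ (NP 2 n) T (Real.sqrt n)
        (Real.sqrt x) hM hs (Real.sqrt_le_sqrt hnR') hc0 hc1 hL0 hln hV1 hV2 hS0 hG hT hn2' herr
        hAA
      linarith
  have hc1' : (B1.card : ℝ) ≤ K * (Real.sqrt X + 1) := by
    apply A3_sq S B1 K X hSK
    · intro s hs h0
      have := (hS1 s hs).2.1
      rw [h0] at this
      exact not_squarefree_zero this
    · intro n hn
      rw [hB1, mem_filter] at hn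
      exact ⟨(hB n hn.1).1, hn.2⟩
  have hc1'' : (B1.card : ℝ) ≤ 1 / 2 * x ^ (0.6245 : ℝ) := by
    have h1 : x ^ (0.6245 : ℝ) = Real.sqrt x * x ^ (0.1245 : ℝ) := by
      rw [Real.sqrt_eq_rpow, ← Real.rpow_add hx0]
      norm_num
    have h2 : 1 ≤ Real.sqrt x := by
      apply Real.le_sqrt_of_sq_le
      linarith
    have h3 : Real.sqrt x * (4 * K) ≤ Real.sqrt x * x ^ (0.1245 : ℝ) :=
      mul_le_mul_of_nonneg_left e4 hs.le
    have h4 : (K : ℝ) * (Real.sqrt x + 1) ≤ K * (2 * Real.sqrt x) :=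
      mul_le_mul_of_nonneg_left (by linarith) (by positivity)
    rw [h1]
    linarith
  have hc2 : (B2.card : ℝ) ≤ 1 / 2 * x ^ (0.6245 : ℝ) := by
    have h1 := hF X Q M c T hQ1 hWei hT0 B2 (by
      intro n hn
      rw [hB2, mem_filter] at hn
      have h2 := hB n hn.1
      rw [mem_Icc]
      omega) (by
      intro n hn
      rw [hB2, mem_filter] at hn
      exact hn.2)
    have hQ1R : (1 : ℝ) ≤ Q := by exact_mod_cast hQ1
    have hlQ : Real.log Q ≤ L := Real.log_le_log (by linarith) (hQle.trans hxqx)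
    exact A3_cnt x M (c0 * c1) L C B2.card Q (Real.log Q) T hx1 hM hA hL hC (by positivity) hQle
      (Real.log_nonneg hQ1R) hlQ (by positivity) hT e3 h1
  have hcard : (B.card : ℝ) ≤ B1.card + B2.card := by
    exact_mod_cast (card_le_card hcover).trans (card_union_le _ _)
  linarith

theorem p_A3 (hM7 : S_M7) (hD7 : S_D7) (hW6 : S_W6) (hW7 : S_W7) (hF6 : S_F6)
    (hA1 : S_A1) : S_A3 := by
  classical
  obtain ⟨c, X3, hc, hmain⟩ := A3_main hM7 hD7 hW6 hW7 hF6 hA1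
  set Bad : ℕ → Prop := fun n => Odd n ∧
    (NP 2 n : ℝ) < c * Real.sqrt n / Real.log n * Sn n with hBad
  have hdy := A3_dy (fun X => ((Icc 1 X).filter Bad).card)
    (fun X => ((Icc 1 X).filter (fun n => X < 2 * n ∧ Bad n)).card) X3
    (by
      intro X
      refine (card_filter_le _ _).trans ?_
      rw [Nat.card_Icc]
      omega)
    (by
      intro X
      refine le_trans (card_le_card ?_) (card_union_le _ _)
      intro n hn
      rw [mem_filter, mem_Icc] at hn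
      rw [mem_union, mem_filter, mem_filter, mem_Icc, mem_Icc]
      by_cases h : X < 2 * n
      · right
        exact ⟨hn.1, h, hn.2⟩
      · left
        exact ⟨⟨hn.1.1, by omega⟩, hn.2⟩)
    (by
      intro X hX
      apply hmain X hX
      intro n hn
      rw [mem_filter, mem_Icc] at hn
      exact ⟨hn.1.2, hn.2.1, hn.2.2.1, hn.2.2.2⟩)
  have hev := (tendsto_natCast_atTop_atTop (R := ℝ)).eventually
    ((A3_ev 0.0005 (by norm_num) 5 0).and (A3_ev 0.6245 (by norm_num) X3 0))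
  obtain ⟨X4, hX4⟩ := Filter.eventually_atTop.1 hev
  refine ⟨c, X4 + 1, hc, fun X hX => ?_⟩
  obtain ⟨e1, e2⟩ := hX4 X (by omega)
  rw [pow_zero, mul_one] at e1 e2
  have hX0 : (0 : ℝ) < X := by exact_mod_cast (by omega : 0 < X)
  have h1 := hdy X
  have h2 : (X : ℝ) ^ (0.6245 : ℝ) * X ^ (0.0005 : ℝ) = (X : ℝ) ^ (5 / 8 : ℝ) := by
    rw [← Real.rpow_add hX0]
    norm_num
  have h3 : (0 : ℝ) < (X : ℝ) ^ (0.6245 : ℝ) := Real.rpow_pos_of_pos hX0 _
  have h4 : (((Icc 1 X).filter Bad).card : ℝ) ≤ (X : ℝ) ^ (5 / 8 : ℝ) := by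
    rw [← h2]
    have h5 := mul_le_mul_of_nonneg_left e1 h3.le
    linarith
  convert h4 using 3

end Pool.Agent.PSq

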