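import Pool.Agent.Lib.MP_6b8fc7_nt.Stm

/-! # MP_6b8fc7_nt, piece D1: a Jacobi symbol sum over an interval -/

set_option autoImplicit false

namespace Pool.Agent.PSq

open Finset

/-- the character `(D/j)` on odd numbers -/
private def D1_f (D j : ℕ) : ℤ := if Odd j then jacobiSym (D : ℤ) j else 0

private theorem D1_f_mod (D j : ℕ) (hD : D ≠ 0) : D1_f D (j % (4 * D)) = D1_f D j := by
  unfold D1_f
  have h2 : Odd (j % (4 * D)) ↔ Odd j := by
    rw [Nat.odd_iff, Nat.odd_iff, Nat.mod_mod_of_dvd j (Dvd.intro (2 * D) (by ring))]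
  by_cases h : Odd j
  · rw [if_pos (h2.2 h), if_pos h]
    have h3 := jacobiSym.mod_right (D : ℤ) h
    rw [Int.natAbs_natCast] at h3
    exact h3.symm
  · rw [if_neg (fun h' => h (h2.1 h')), if_neg h]

private theorem D1_f_mul (D j k : ℕ) (hk : Odd k) : D1_f D (j * k) = D1_f D j * D1_f D k := by
  unfold D1_f
  by_cases h : Odd j
  · rw [if_pos (h.mul hk), if_pos h, if_pos hk]
    have hj0 : j ≠ 0 := by rintro rfl; simp at h
    have hk0 : k ≠ 0 := by rintro rfl; simp at hk
    have := NeZero.mk hj0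
    have := NeZero.mk hk0
    exact jacobiSym.mul_right _ _ _
  · rw [if_neg h, zero_mul, if_neg]
    intro h'
    exact h (Nat.odd_mul.1 h').1

private theorem D1_f_abs (D j : ℕ) : |D1_f D j| ≤ 1 := by
  unfold D1_f
  split_ifs
  · rcases jacobiSym.trichotomy (D : ℤ) j with h | h | h <;> rw [h] <;> norm_num
  · norm_num

/-- the sum over a complete period vanishes -/
private theorem D1_period (D k : ℕ) (hD : D ≠ 0) (hk : Odd k) (hkD : D1_f D k = -1) :
    ∑ j ∈ range (4 * D), D1_f D j = 0 := by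
  have hcop : Nat.Coprime (4 * D) k := by
    have h1 : jacobiSym (D : ℤ) k = -1 := by
      unfold D1_f at hkD
      rwa [if_pos hk] at hkD
    have h2 : (D : ℤ).gcd k = 1 := by
      by_contra h
      have hk0 : k ≠ 0 := by rintro rfl; simp at hk
      have := NeZero.mk hk0
      have h3 := (jacobiSym.eq_zero_iff_not_coprime (a := (D : ℤ)) (b := k)).2 h
      rw [h1] at h3
      norm_num at h3
    have h3 : Nat.Coprime D k := by simpa using h2
    have h4 : Nat.Coprime 4 k := by
      have h5 : Nat.Coprime 2 k := (Nat.coprime_two_left).2 hk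
      exact Nat.Coprime.pow_left 2 h5
    exact Nat.Coprime.mul_left h4 h3
  have hN : 0 < 4 * D := by positivity
  have hinj : Set.InjOn (fun j => j * k % (4 * D)) (range (4 * D) : Finset ℕ) := by
    intro a ha b hb hab
    have h1 : a * k ≡ b * k [MOD (4 * D)] := hab
    have h2 := Nat.ModEq.cancel_right_of_coprime hcop h1
    exact Nat.ModEq.eq_of_lt_of_lt h2 (by simpa using ha) (by simpa using hb)
  have hmaps : Set.MapsTo (fun j => j * k % (4 * D)) (range (4 * D) : Finset ℕ)
      (range (4 * D) : Finset ℕ) := by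
    intro a _
    simpa using Nat.mod_lt _ hN
  have hsurj := Finset.surjOn_of_injOn_of_card_le _ hmaps hinj le_rfl
  have h1 : ∑ j ∈ range (4 * D), D1_f D (j * k % (4 * D)) = ∑ j ∈ range (4 * D), D1_f D j :=
    Finset.sum_nbij (fun j => j * k % (4 * D)) (fun a ha => by simpa using hmaps (by simpa using ha))
      hinj hsurj (fun _ _ => rfl)
  have h2 : ∑ j ∈ range (4 * D), D1_f D (j * k % (4 * D)) = - ∑ j ∈ range (4 * D), D1_f D j := by
    rw [← Finset.sum_neg_distrib]
    refine Finset.sum_congr rfl (fun j _ => ?_)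
    rw [D1_f_mod D _ hD, D1_f_mul D j k hk, hkD]
    ring
  omega

/-- sums over intervals of a periodic function -/
private theorem D1_interval (f : ℕ → ℤ) (P : ℕ) (hP : 0 < P) (hper : ∀ j, f (j % P) = f j)
    (habs : ∀ j, |f j| ≤ 1) (h0 : ∑ j ∈ range P, f j = 0) (u v : ℕ) :
    |∑ j ∈ Ico u v, f j| ≤ P := by
  have hadd : ∀ j, f (j + P) = f j := by
    intro j
    rw [← hper (j + P), Nat.add_mod_right, hper]
  have hF : ∀ n, ∑ j ∈ range (n + P), f j = ∑ j ∈ range n, f j := by
    intro n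
    induction n with
    | zero => simpa using h0
    | succ n ih =>
      rw [Nat.succ_add, Finset.sum_range_succ, ih, hadd, Finset.sum_range_succ]
  have hFk : ∀ k n, ∑ j ∈ range (n + k * P), f j = ∑ j ∈ range n, f j := by
    intro k
    induction k with
    | zero => intro n; simp
    | succ k ih =>
      intro n
      rw [Nat.succ_mul, ← Nat.add_assoc, hF, ih]
  rcases le_or_gt v u with huv | huv
  · rw [Finset.Ico_eq_empty_of_le huv]
    simp
  · obtain ⟨d, rfl⟩ : ∃ d, v = u + d := ⟨v - u, by omega⟩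
    have h1 : ∑ j ∈ Ico u (u + d), f j = ∑ j ∈ Ico (u + d / P * P) (u + d), f j := by
      have hle : d / P * P ≤ d := Nat.div_mul_le_self d P
      rw [Finset.sum_Ico_eq_sub _ (by omega), Finset.sum_Ico_eq_sub _ (by omega), hFk]
    rw [h1]
    refine (Finset.abs_sum_le_sum_abs _ _).trans ?_
    refine (Finset.sum_le_sum (fun j _ => habs j)).trans ?_
    rw [Finset.sum_const, Nat.card_Ico]
    have h2 : u + d - (u + d / P * P) = d % P := by
      have := Nat.div_add_mod d P
      rw [mul_comm] at this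
      omega
    rw [h2]
    have h3 : d % P < P := Nat.mod_lt _ hP
    simp only [nsmul_eq_mul, mul_one]
    exact_mod_cast h3.le

/-- an odd number with symbol `-1` -/
private theorem D1_exists (q E : ℕ) (hq : q.Prime) (hq2 : Odd q) (hE : Odd E) (hqE : ¬ q ∣ E) :
    ∃ k : ℕ, Odd k ∧ D1_f (q * E) k = -1 := by
  have := Fact.mk hq
  have hq2' : q ≠ 2 := by rintro rfl; exact absurd hq2 (by decide)
  obtain ⟨a, ha⟩ : ∃ a : ZMod q, ¬ IsSquare a :=
    FiniteField.exists_nonsquare (by rw [ZMod.ringChar_zmod_n]; exact hq2')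
  have hE0 : E ≠ 0 := by rintro rfl; simp at hE
  have hcop : Nat.Coprime (4 * E) q := by
    refine Nat.Coprime.mul_left ?_ ?_
    · have h5 : Nat.Coprime 2 q := (Nat.coprime_two_left).2 hq2
      exact Nat.Coprime.pow_left 2 h5
    · exact ((Nat.Prime.coprime_iff_not_dvd hq).2 hqE).symm
  obtain ⟨k, hk1, hk2⟩ := Nat.chineseRemainder hcop 1 a.val
  have hk4 : k % 4 = 1 := by
    have h : k ≡ 1 [MOD 4] := hk1.of_mul_right E
    exact h
  have hkodd : Odd k := by rw [Nat.odd_iff]; omega
  have hk0 : k ≠ 0 := by rintro rfl; simp at hkodd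
  refine ⟨k, hkodd, ?_⟩
  unfold D1_f
  rw [if_pos hkodd]
  have e1 : jacobiSym (E : ℤ) k = 1 := by
    have h3 := jacobiSym.mod_right (E : ℤ) hkodd
    rw [Int.natAbs_natCast] at h3
    have h4 : k % (4 * E) = 1 := by
      have h5 : k % (4 * E) = 1 % (4 * E) := hk1
      rw [h5]
      exact Nat.mod_eq_of_lt (by omega)
    rw [h3, h4]
    exact jacobiSym.one_right _
  have e2 : jacobiSym (q : ℤ) k = -1 := by
    rw [← jacobiSym.quadratic_reciprocity_one_mod_four hk4 hq2]
    have h3 : jacobiSym (k : ℤ) q = legendreSym q (k : ℤ) := (jacobiSym.legendreSym.to_jacobiSym q k).symm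
    rw [h3, legendreSym.eq_neg_one_iff]
    have h4 : ((k : ℤ) : ZMod q) = a := by
      have h5 : (k : ZMod q) = ((a.val : ℕ) : ZMod q) := (ZMod.natCast_eq_natCast_iff _ _ _).2 hk2
      rw [ZMod.natCast_zmod_val] at h5
      exact_mod_cast h5
    rw [h4]
    exact ha
  rw [Nat.cast_mul, jacobiSym.mul_left, e1, e2]
  norm_num

private theorem D1_aux (s s' : ℕ) (hs : Odd s) (hs2 : Squarefree s) (hs' : Odd s') (q : ℕ)
    (hq : q.Prime) (hqs : q ∣ s) (hqs' : ¬ q ∣ s') : ∃ k : ℕ, Odd k ∧ D1_f (s * s') k = -1 := by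
  obtain ⟨t, rfl⟩ := hqs
  have hqt : ¬ q ∣ t := by
    intro h
    obtain ⟨t', rfl⟩ := h
    have h1 : q * q ∣ q * (q * t') := ⟨t', by ring⟩
    have h2 := hs2 q h1
    exact hq.one_lt.ne' (Nat.isUnit_iff.1 h2)
  have hodd := Nat.odd_mul.1 hs
  have h := D1_exists q (t * s') hq hodd.1 (hodd.2.mul hs') (by
    intro h
    rcases (Nat.Prime.dvd_mul hq).1 h with h | h
    · exact hqt h
    · exact hqs' h)
  rwa [← mul_assoc] at h

theorem p_D1 : S_D1 := by
  intro s s' hs hs2 hs' hs2' hne u v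
  have hex : ∃ k : ℕ, Odd k ∧ D1_f (s * s') k = -1 := by
    have hs0 : s ≠ 0 := by rintro rfl; simp at hs
    have hs0' : s' ≠ 0 := by rintro rfl; simp at hs'
    have hpf : s.primeFactors ≠ s'.primeFactors := by
      intro h
      apply hne
      rw [← Nat.prod_primeFactors_of_squarefree hs2, ← Nat.prod_primeFactors_of_squarefree hs2', h]
    have hq : ∃ q : ℕ, (q ∈ s.primeFactors ∧ q ∉ s'.primeFactors) ∨
        (q ∈ s'.primeFactors ∧ q ∉ s.primeFactors) := by
      by_contra hcon
      push Not at hcon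
      apply hpf
      ext q
      constructor
      · exact fun h => (hcon q).1 h
      · exact fun h => (hcon q).2 h
    obtain ⟨q, ⟨h1, h2⟩ | ⟨h1, h2⟩⟩ := hq
    · have hqp := Nat.prime_of_mem_primeFactors h1
      exact D1_aux s s' hs hs2 hs' q hqp (Nat.dvd_of_mem_primeFactors h1)
        (fun h => h2 (Nat.mem_primeFactors.2 ⟨hqp, h, hs0'⟩))
    · have hqp := Nat.prime_of_mem_primeFactors h1
      rw [mul_comm]
      exact D1_aux s' s hs' hs2' hs q hqp (Nat.dvd_of_mem_primeFactors h1)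
        (fun h => h2 (Nat.mem_primeFactors.2 ⟨hqp, h, hs0⟩))
  obtain ⟨k, hk, hk1⟩ := hex
  have hD : s * s' ≠ 0 := by
    have := hs.mul hs'
    intro h
    rw [h] at this
    simp at this
  have h := D1_interval (D1_f (s * s')) (4 * (s * s')) (by positivity)
    (fun j => D1_f_mod _ j hD) (D1_f_abs _) (D1_period _ k hD hk hk1) u v
  have h2 : ∑ j ∈ (Ico u v).filter (fun j => Odd j), ((jacobiSym ((s : ℤ) * s') j : ℤ) : ℝ) =
      ((∑ j ∈ Ico u v, D1_f (s * s') j : ℤ) : ℝ) := by
    rw [Int.cast_sum, Finset.sum_filter]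
    refine Finset.sum_congr rfl (fun j _ => ?_)
    unfold D1_f
    push_cast
    split_ifs <;> simp
  rw [h2]
  have h3 : ((|∑ j ∈ Ico u v, D1_f (s * s') j| : ℤ) : ℝ) ≤ ((4 * (s * s') : ℕ) : ℝ) := by
    exact_mod_cast h
  rw [Int.cast_abs] at h3
  refine h3.trans ?_
  push_cast
  nlinarith

end Pool.Agent.PSq
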