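import Pool.Agent.Lib.MP_6b8fc7_nt.Stm

set_option autoImplicit false

/-!
# [D2] partial summation
-/

namespace Pool.Agent.PSq

open Finset

private theorem D2_key (F : ℕ → ℝ) (u n : ℕ) :
    ∑ j ∈ Ico u (u + (n + 1)), F j / (j : ℝ) =
      (∑ j ∈ Ico u (u + (n + 1)), F j) / ((u + n : ℕ) : ℝ) +
      ∑ i ∈ range n, (∑ j ∈ Ico u (u + (i + 1)), F j) *
        (1 / ((u + i : ℕ) : ℝ) - 1 / ((u + (i + 1) : ℕ) : ℝ)) := by
  induction n with
  | zero => simp
  | succ n ih =>
    rw [show u + (n + 1 + 1) = (u + (n + 1)) + 1 by ring,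
      Finset.sum_Ico_succ_top (by omega : u ≤ u + (n + 1)), ih,
      Finset.sum_Ico_succ_top (by omega : u ≤ u + (n + 1)), Finset.sum_range_succ]
    ring

theorem p_D2 : S_D2 := by
  intro F B hB u v hu
  have hB0 : 0 ≤ B := (abs_nonneg _).trans (hB 0 0)
  have hu' : (0 : ℝ) < u := by exact_mod_cast hu
  rcases le_or_gt v u with hvu | hvu
  · rw [Finset.Ico_eq_empty_of_le hvu, Finset.sum_empty, abs_zero]
    positivity
  · obtain ⟨n, rfl⟩ : ∃ n, v = u + (n + 1) := ⟨v - u - 1, by omega⟩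
    rw [D2_key F u n]
    have h1 : |(∑ j ∈ Ico u (u + (n + 1)), F j) / ((u + n : ℕ) : ℝ)| ≤
        B * (1 / ((u + n : ℕ) : ℝ)) := by
      have h2 : (0 : ℝ) < ((u + n : ℕ) : ℝ) := by
        have : 0 < u + n := by omega
        exact_mod_cast this
      rw [abs_div, abs_of_pos h2, div_eq_mul_one_div]
      exact mul_le_mul_of_nonneg_right (hB _ _) (by positivity)
    have h3 : |∑ i ∈ range n, (∑ j ∈ Ico u (u + (i + 1)), F j) *
        (1 / ((u + i : ℕ) : ℝ) - 1 / ((u + (i + 1) : ℕ) : ℝ))| ≤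
        ∑ i ∈ range n, B * (1 / ((u + i : ℕ) : ℝ) - 1 / ((u + (i + 1) : ℕ) : ℝ)) := by
      refine (Finset.abs_sum_le_sum_abs _ _).trans ?_
      apply Finset.sum_le_sum
      intro i _
      have h4 : (0 : ℝ) ≤ 1 / ((u + i : ℕ) : ℝ) - 1 / ((u + (i + 1) : ℕ) : ℝ) := by
        rw [sub_nonneg]
        apply one_div_le_one_div_of_le
        · have : 0 < u + i := by omega
          exact_mod_cast this
        · have : u + i ≤ u + (i + 1) := by omega
          exact_mod_cast this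
      rw [abs_mul, abs_of_nonneg h4]
      exact mul_le_mul_of_nonneg_right (hB _ _) h4
    rw [← Finset.mul_sum, Finset.sum_range_sub'] at h3
    refine (abs_add_le _ _).trans ?_
    have h5 : B / (u : ℝ) = B * (1 / ((u + n : ℕ) : ℝ)) +
        B * (1 / ((u + 0 : ℕ) : ℝ) - 1 / ((u + n : ℕ) : ℝ)) := by
      rw [add_zero]
      ring
    rw [h5]
    exact add_le_add h1 h3

end Pool.Agent.PSq
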