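import Pool.Agent.Lib.MP_6b8fc7_nt.Stm

set_option autoImplicit false

/-!
# MP_6b8fc7_nt, piece D3: the `k`-th power of a sum over primes
-/

namespace Pool.Agent.PSq

open Finset
open scoped ArithmeticFunction.Omega

/-- the number of ordered factorisations into `k` primes of `P` -/
noncomputable def D3_a (P : Finset ℕ) : ℕ → ℕ → ℝ
  | 0, m => if m = 1 then 1 else 0
  | k + 1, m => ∑ p ∈ P.filter (fun p => p ∣ m), D3_a P k (m / p)

theorem D3_nonneg (P : Finset ℕ) (k : ℕ) : ∀ m, 0 ≤ D3_a P k m := by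
  induction k with
  | zero => intro m; simp only [D3_a]; split_ifs <;> norm_num
  | succ k ih => intro m; simp only [D3_a]; exact Finset.sum_nonneg fun p _ => ih _

theorem D3_supp {P : Finset ℕ} {A B : ℝ} (hA : 1 ≤ A)
    (hP : ∀ p ∈ P, p.Prime ∧ A ≤ p ∧ (p : ℝ) ≤ B) (k : ℕ) : ∀ m, D3_a P k m ≠ 0 →
    m ≠ 0 ∧ (∀ p : ℕ, p.Prime → p ∣ m → p ∈ P) ∧ m.primeFactorsList.length = k ∧
      A ^ k ≤ m ∧ (m : ℝ) ≤ B ^ k := by
  induction k with
  | zero =>
    intro m hm
    have h1 : m = 1 := by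
      by_contra h; simp [D3_a, h] at hm
    subst h1
    refine ⟨one_ne_zero, fun p hp h => ?_, by simp, by simp, by simp⟩
    exact absurd (Nat.dvd_one.mp h) hp.one_lt.ne'
  | succ k ih =>
    intro m hm
    simp only [D3_a] at hm
    obtain ⟨p, hp, hne⟩ := Finset.exists_ne_zero_of_sum_ne_zero hm
    rw [Finset.mem_filter] at hp
    obtain ⟨h0, h1, h2, h3, h4⟩ := ih _ hne
    obtain ⟨hpp, hpA, hpB⟩ := hP p hp.1
    obtain ⟨t, rfl⟩ := hp.2
    rw [Nat.mul_div_cancel_left t hpp.pos] at h0 h1 h2 h3 h4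
    have hB0 : 0 ≤ B := le_trans (by positivity) hpB
    refine ⟨mul_ne_zero hpp.ne_zero h0, fun r hr hd => ?_, ?_, ?_, ?_⟩
    · rcases (Nat.Prime.dvd_mul hr).mp hd with h | h
      · rw [(Nat.prime_dvd_prime_iff_eq hr hpp).mp h]; exact hp.1
      · exact h1 r hr h
    · have := (Nat.perm_primeFactorsList_mul hpp.ne_zero h0).length_eq
      rw [this, List.length_append, h2, Nat.primeFactorsList_prime hpp]
      simp [add_comm]
    · push_cast
      rw [pow_succ']
      exact mul_le_mul hpA h3 (by positivity) (by positivity)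
    · push_cast
      rw [pow_succ']
      exact mul_le_mul hpB h4 (by positivity) hB0

theorem D3_le {P : Finset ℕ} {A B : ℝ} (hA : 1 ≤ A)
    (hP : ∀ p ∈ P, p.Prime ∧ A ≤ p ∧ (p : ℝ) ≤ B) (k : ℕ) : ∀ m, D3_a P k m ≤ k.factorial := by
  induction k with
  | zero => intro m; simp only [D3_a]; split_ifs <;> simp
  | succ k ih =>
    intro m
    by_cases hm : D3_a P (k + 1) m = 0
    · rw [hm]; positivity
    · obtain ⟨h0, h1, h2, -, -⟩ := D3_supp hA hP (k + 1) m hm
      have hc : (P.filter (fun p => p ∣ m)).card ≤ k + 1 := by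
        have hsub : P.filter (fun p => p ∣ m) ⊆ m.primeFactors := by
          intro p hp
          rw [Finset.mem_filter] at hp
          exact Nat.mem_primeFactors.mpr ⟨(hP p hp.1).1, hp.2, h0⟩
        refine (Finset.card_le_card hsub).trans ?_
        have : m.primeFactors.card ≤ m.primeFactorsList.length := by
          unfold Nat.primeFactors
          exact List.toFinset_card_le _
        omega
      calc D3_a P (k + 1) m = ∑ p ∈ P.filter (fun p => p ∣ m), D3_a P k (m / p) := rfl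
        _ ≤ ∑ p ∈ P.filter (fun p => p ∣ m), (k.factorial : ℝ) := Finset.sum_le_sum fun p _ => ih _
        _ = (P.filter (fun p => p ∣ m)).card * (k.factorial : ℝ) := by
            rw [Finset.sum_const, nsmul_eq_mul]
        _ ≤ ((k : ℝ) + 1) * (k.factorial : ℝ) := by
            apply mul_le_mul_of_nonneg_right _ (by positivity)
            exact_mod_cast hc
        _ = _ := by rw [Nat.factorial_succ]; push_cast; ring

theorem D3_id {P : Finset ℕ} {A B : ℝ} (hA : 1 ≤ A)
    (hP : ∀ p ∈ P, p.Prime ∧ A ≤ p ∧ (p : ℝ) ≤ B) (f : ℕ → ℝ) (hf1 : f 1 = 1)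
    (hf : ∀ x y : ℕ, x ≠ 0 → y ≠ 0 → f (x * y) = f x * f y) (k : ℕ) :
    ∀ R : ℕ, B ^ k ≤ R → (∑ p ∈ P, f p) ^ k = ∑ m ∈ Icc 1 R, D3_a P k m * f m := by
  induction k with
  | zero =>
    intro R hR
    have h1 : 1 ≤ R := by
      have : (1 : ℝ) ≤ R := by simpa using hR
      exact_mod_cast this
    rw [Finset.sum_eq_single_of_mem 1 (Finset.mem_Icc.mpr ⟨le_rfl, h1⟩)]
    · simp [D3_a, hf1]
    · intro b _ hb; simp [D3_a, hb]
  | succ k ih =>
    intro R hR
    rcases P.eq_empty_or_nonempty with rfl | ⟨p₀, hp₀⟩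
    · simp [D3_a]
    have hB1 : 1 ≤ B := hA.trans ((hP p₀ hp₀).2.1.trans (hP p₀ hp₀).2.2)
    have hR' : B ^ k ≤ R := (pow_le_pow_right₀ hB1 (Nat.le_succ k)).trans hR
    have hlhs : (∑ p ∈ P, f p) ^ (k + 1) = ∑ p ∈ P, ∑ m ∈ Icc 1 R, D3_a P k m * (f p * f m) := by
      rw [pow_succ', ih R hR', Finset.sum_mul]
      refine Finset.sum_congr rfl fun p _ => ?_
      rw [Finset.mul_sum]
      exact Finset.sum_congr rfl fun m _ => by ring
    rw [hlhs]
    have hrhs : ∑ m ∈ Icc 1 R, D3_a P (k + 1) m * f m =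
        ∑ p ∈ P, ∑ m ∈ (Icc 1 R).filter (fun m => p ∣ m), D3_a P k (m / p) * f m := by
      simp only [D3_a, Finset.sum_mul, Finset.sum_filter]
      rw [Finset.sum_comm]
      simp only [ite_mul, zero_mul]
    rw [hrhs]
    refine Finset.sum_congr rfl fun p hp => ?_
    obtain ⟨hpp, hpA, hpB⟩ := hP p hp
    have e1 : ∑ m ∈ (Icc 1 R).filter (fun m => p ∣ m), D3_a P k (m / p) * f m =
        ∑ m ∈ (Icc 1 R).filter (fun m => p * m ≤ R), D3_a P k m * (f p * f m) := by
      refine Finset.sum_nbij' (fun m => m / p) (fun m => p * m) ?_ ?_ ?_ ?_ ?_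
      · intro m hm
        simp only [Finset.mem_filter, Finset.mem_Icc] at hm ⊢
        obtain ⟨⟨h1, h2⟩, t, rfl⟩ := hm
        rw [Nat.mul_div_cancel_left t hpp.pos]
        have ht : 1 ≤ t := by
          rcases Nat.eq_zero_or_pos t with h | h
          · subst h; simp at h1
          · exact h
        exact ⟨⟨ht, (Nat.le_mul_of_pos_left t hpp.pos).trans h2⟩, h2⟩
      · intro m hm
        simp only [Finset.mem_filter, Finset.mem_Icc] at hm ⊢
        exact ⟨⟨Nat.mul_pos hpp.pos hm.1.1, hm.2⟩, dvd_mul_right _ _⟩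
      · intro m hm
        simp only [Finset.mem_filter, Finset.mem_Icc] at hm
        exact Nat.mul_div_cancel' hm.2
      · intro m _
        exact Nat.mul_div_cancel_left m hpp.pos
      · intro m hm
        simp only [Finset.mem_filter, Finset.mem_Icc] at hm
        obtain ⟨⟨h1, h2⟩, t, rfl⟩ := hm
        rw [Nat.mul_div_cancel_left t hpp.pos]
        have ht : t ≠ 0 := by rintro rfl; simp at h1
        rw [hf p t hpp.ne_zero ht]
    rw [e1]
    symm
    apply Finset.sum_filter_of_ne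
    intro m hm hne
    have ha : D3_a P k m ≠ 0 := fun h => hne (by rw [h, zero_mul])
    obtain ⟨-, -, -, -, h4⟩ := D3_supp hA hP k m ha
    have : ((p * m : ℕ) : ℝ) ≤ R := by
      push_cast
      refine le_trans ?_ hR
      rw [pow_succ']
      exact mul_le_mul hpB h4 (by positivity) (by linarith)
    exact_mod_cast this

/-- [D3] the `k`-th power -/
theorem p_D3 : S_D3 := by
  intro P A B hA hP k
  refine ⟨D3_a P k, fun m => ⟨D3_nonneg P k m, D3_le hA hP k m⟩, fun m hm => ?_,
    fun f hf1 hf R hR => D3_id hA hP f hf1 hf k R hR⟩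
  obtain ⟨h0, h1, -, h3, h4⟩ := D3_supp hA hP k m hm
  exact ⟨h0, h1, h3, h4⟩

end Pool.Agent.PSq
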