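import Pool.Agent.Lib.MP_6b8fc7_nt.Stm
import Pool.Agent.Lib.MP_6b8fc7_nt.G.Fl

set_option autoImplicit false

/-!
# MP_6b8fc7_nt, piece D4: a sieve majorant
-/

namespace Pool.Agent.PSq

open Finset
open Pool.Agent.CH.S (Pr OP th SS Sm)
open Pool.Agent.BVall (RepB)

private lemma D4_sqf {T : Finset ℕ} (hT : ∀ p ∈ T, p.Prime) : Squarefree (∏ p ∈ T, p) := by
  induction T using Finset.induction_on with
  | empty => simp
  | insert q T hq ih =>
    rw [Finset.prod_insert hq]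
    have hT' : ∀ p ∈ T, p.Prime := fun p hp => hT p (Finset.mem_insert_of_mem hp)
    have hqp := hT q (Finset.mem_insert_self _ _)
    rw [Nat.squarefree_mul]
    · exact ⟨hqp.squarefree, ih hT'⟩
    · apply Nat.Coprime.prod_right
      intro p hp
      exact (Nat.coprime_primes hqp (hT' p hp)).2 (fun h => hq (h ▸ hp))

open Classical in
private lemma D4_sum {P : Finset ℕ} (hP : ∀ p ∈ P, p.Prime) (c0 : Finset ℕ → ℝ)
    (S : Finset ℕ) (g : ℕ → ℝ) :
    ∑ d ∈ S, (if Squarefree d ∧ d.primeFactors ⊆ P then c0 d.primeFactors else 0) * g d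
      = ∑ T ∈ P.powerset.filter (fun T => ∏ p ∈ T, p ∈ S), c0 T * g (∏ p ∈ T, p) := by
  have e1 : ∑ d ∈ S, (if Squarefree d ∧ d.primeFactors ⊆ P then c0 d.primeFactors else 0) * g d
      = ∑ d ∈ S.filter (fun d => Squarefree d ∧ d.primeFactors ⊆ P), c0 d.primeFactors * g d := by
    rw [Finset.sum_filter]
    refine Finset.sum_congr rfl fun d _ => ?_
    split_ifs
    · rfl
    · rw [zero_mul]
  rw [e1]
  refine Finset.sum_nbij' (fun d => d.primeFactors) (fun T => ∏ p ∈ T, p) ?_ ?_ ?_ ?_ ?_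
  · intro d hd
    rw [Finset.mem_filter] at hd
    rw [Finset.mem_filter, Finset.mem_powerset]
    refine ⟨hd.2.2, ?_⟩
    rw [Nat.prod_primeFactors_of_squarefree hd.2.1]
    exact hd.1
  · intro T hT
    rw [Finset.mem_filter, Finset.mem_powerset] at hT
    have hTp : ∀ p ∈ T, p.Prime := fun p hp => hP p (hT.1 hp)
    rw [Finset.mem_filter]
    refine ⟨hT.2, D4_sqf hTp, ?_⟩
    rw [Nat.primeFactors_prod hTp]
    exact hT.1
  · intro d hd
    rw [Finset.mem_filter] at hd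
    exact Nat.prod_primeFactors_of_squarefree hd.2.1
  · intro T hT
    rw [Finset.mem_filter, Finset.mem_powerset] at hT
    exact Nat.primeFactors_prod (fun p hp => hP p (hT.1 hp))
  · intro d hd
    rw [Finset.mem_filter] at hd
    rw [Nat.prod_primeFactors_of_squarefree hd.2.1]

theorem p_D4 (h : S_M2) : S_D4 := by
  classical
  obtain ⟨C, hC, hM⟩ := h
  obtain ⟨C0, hC0, hfl⟩ := g_fl
  refine ⟨C0, 2 * C, hC0, by positivity, ?_⟩
  intro m hm
  obtain ⟨Fp, Fm, hF, -, hpt, hg⟩ := hfl m hm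
  obtain ⟨c0, h1, h2, h3⟩ := hF
  set P : Finset ℕ := OP (2 ^ 2 ^ m) with hPdef
  have hP : ∀ p ∈ P, p.Prime ∧ 3 ≤ p ∧ p ≤ 2 ^ 2 ^ m := by
    intro p hp
    rw [hPdef, OP, Finset.mem_filter, Finset.mem_range] at hp
    exact ⟨hp.2.1, hp.2.2, Nat.lt_succ_iff.1 hp.1⟩
  have hPp : ∀ p ∈ P, p.Prime := fun p hp => (hP p hp).1
  set c : ℕ → ℝ := fun d => if Squarefree d ∧ d.primeFactors ⊆ P then c0 d.primeFactors else 0
    with hc
  have hne : ∀ d, c d ≠ 0 → Squarefree d ∧ d.primeFactors ⊆ P ∧ c0 d.primeFactors ≠ 0 := by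
    intro d hd
    simp only [hc] at hd
    split_ifs at hd with h
    · exact ⟨h.1, h.2, hd⟩
    · exact absurd rfl hd
  have hprod : ∀ T : Finset ℕ, ((∏ p ∈ T, p : ℕ) : ℝ) = ∏ p ∈ T, (p : ℝ) := fun T => by
    push_cast
    rfl
  have hdiv : ∀ n : ℕ, n ≠ 0 → ∑ d ∈ n.divisors, c d = Fp (fun p => if p ∣ n then 1 else 0) := by
    intro n hn
    have e1 : ∑ d ∈ n.divisors, c d = ∑ d ∈ n.divisors, c d * (1 : ℝ) :=
      Finset.sum_congr rfl fun d _ => by rw [mul_one]
    rw [e1, D4_sum hPp c0 n.divisors (fun _ => 1), Finset.sum_filter, h1]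
    refine Finset.sum_congr rfl fun T hT => ?_
    rw [Finset.mem_powerset] at hT
    rw [Finset.prod_ite_zero, Finset.prod_const_one]
    have hiff : (∏ p ∈ T, p ∈ n.divisors) ↔ ∀ p ∈ T, p ∣ n := by
      rw [Nat.mem_divisors]
      constructor
      · intro h p hp
        exact (Finset.dvd_prod_of_mem _ hp).trans h.1
      · intro h
        exact ⟨Finset.prod_primes_dvd n (fun p hp => (hPp p (hT hp)).prime) h, hn⟩
    by_cases h : ∀ p ∈ T, p ∣ n
    · rw [if_pos (hiff.2 h), if_pos h]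
    · rw [if_neg (fun h' => h (hiff.1 h')), if_neg h, mul_zero]
  have h01 : ∀ n : ℕ, ∀ p ∈ P, (0 : ℝ) ≤ (if p ∣ n then (1 : ℝ) else 0) ∧
      (if p ∣ n then (1 : ℝ) else 0) ≤ 1 := by
    intro n p _
    split_ifs <;> norm_num
  refine ⟨c, ?_, ?_, ?_, ?_, ?_⟩
  · intro d
    simp only [hc]
    split_ifs
    · exact h2 _
    · norm_num
  · intro d hd
    obtain ⟨g1, g2, g3⟩ := hne d hd
    constructor
    · rw [← Nat.not_even_iff_odd, even_iff_two_dvd]
      intro h2d
      have := hP 2 (g2 (Nat.mem_primeFactors.2 ⟨Nat.prime_two, h2d, g1.ne_zero⟩))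
      omega
    · have := h3 d.primeFactors (Finset.mem_powerset.2 g2) g3
      beta_reduce at this
      rw [← hprod, Nat.prod_primeFactors_of_squarefree g1] at this
      exact this
  · intro t ht
    rw [hdiv t ht]
    refine le_trans ?_ (hpt _ (h01 t)).2
    refine Finset.prod_nonneg fun p hp => ?_
    have := (h01 t p hp).2
    linarith
  · intro t ht hcop
    rw [hdiv t ht]
    refine le_trans (le_of_eq ?_) (hpt _ (h01 t)).2
    symm
    refine Finset.prod_eq_one fun p hp => ?_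
    obtain ⟨a1, a2, a3⟩ := hP p hp
    rw [if_neg (hcop p a1 a2 a3), sub_zero]
  · intro N hN
    have hDg : Dg (fun p => 1 / (p : ℝ)) := by
      intro p hp hp3
      have hp0 : (0 : ℝ) < p := by exact_mod_cast hp.pos
      refine ⟨by positivity, ?_⟩
      rw [div_le_div_iff_of_pos_right hp0]
      norm_num
    have e1 : ∑ d ∈ Icc 1 N, c d / (d : ℝ) = Fp (fun p => 1 / (p : ℝ)) := by
      have e0 : ∑ d ∈ Icc 1 N, c d / (d : ℝ) = ∑ d ∈ Icc 1 N, c d * (1 / (d : ℝ)) := by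
        refine Finset.sum_congr rfl fun d _ => by rw [mul_one_div]
      rw [e0, D4_sum hPp c0 (Icc 1 N) (fun d => 1 / (d : ℝ)), h1]
      rw [Finset.sum_filter_of_ne]
      · refine Finset.sum_congr rfl fun T hT => ?_
        rw [hprod, Finset.prod_div_distrib, Finset.prod_const_one]
      · intro T hT hT0
        have hc0 : c0 T ≠ 0 := fun h => hT0 (by rw [h, zero_mul])
        have hle := h3 T hT hc0
        rw [Finset.mem_powerset] at hT
        rw [← hprod] at hle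
        rw [Finset.mem_Icc]
        refine ⟨Nat.one_le_iff_ne_zero.2 (Finset.prod_ne_zero_iff.2
          fun p hp => (hPp p (hT hp)).ne_zero), ?_⟩
        exact_mod_cast hle.trans hN
    rw [e1]
    have hx : 2 ≤ 2 ^ 2 ^ m := by
      calc 2 = 2 ^ 1 := by norm_num
        _ ≤ 2 ^ 2 ^ m := Nat.pow_le_pow_right (by norm_num) Nat.one_le_two_pow
    have h5 := hM (2 ^ 2 ^ m) hx
    have h6 := (hg _ hDg).1
    have hcast : ((2 ^ 2 ^ m : ℕ) : ℝ) = (2 : ℝ) ^ 2 ^ m := by push_cast; rfl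
    rw [hcast] at h5
    have hlog : 0 < Real.log ((2 : ℝ) ^ 2 ^ m) := by
      apply Real.log_pos
      rw [← hcast]
      exact_mod_cast lt_of_lt_of_le (by norm_num) hx
    have h7 : 0 ≤ C / Real.log ((2 : ℝ) ^ 2 ^ m) := by positivity
    have h8 : 2 * C / Real.log ((2 : ℝ) ^ 2 ^ m) = 2 * (C / Real.log ((2 : ℝ) ^ 2 ^ m)) := by ring
    rw [h8]
    have h9 : (1 + 1 / 1000) * ∏ p ∈ P, (1 - 1 / (p : ℝ)) ≤
        (1 + 1 / 1000) * (C / Real.log ((2 : ℝ) ^ 2 ^ m)) :=
      mul_le_mul_of_nonneg_left h5 (by norm_num)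
    refine h6.trans (h9.trans ?_)
    nlinarith
end Pool.Agent.PSq
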