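import Pool.Agent.Lib.MP_6b8fc7_nt.Stm

set_option autoImplicit false

/-!
# MP_6b8fc7_nt, piece D6: the duality bound (helper36)
-/

namespace Pool.Agent.PSq

open Finset
open Pool.Agent.CH.S (Pr OP th SS Sm)

/-- The sum of `1/p` over a window is at most `1`. -/
private theorem D6_win (hM1 : S_M1) (N : ℕ) (hN : 2 ≤ N) : ∃ X0 : ℕ, ∀ X : ℕ, X0 ≤ X →
    ∀ i : ℕ, 1 ≤ i → i < N → ∑ p ∈ Jw N X i, 1 / (p : ℝ) ≤ 1 := by
  obtain ⟨a0, ha3, h⟩ := hM1 (1 / 10) (by norm_num)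
  refine ⟨a0 ^ N, ?_⟩
  intro X hX i hi hiN
  have hNpos : (0 : ℝ) < N := by exact_mod_cast (by omega : 0 < N)
  have hX1 : 1 ≤ X := le_trans (Nat.one_le_pow _ _ (by omega)) hX
  have hXr : (1 : ℝ) ≤ X := by exact_mod_cast hX1
  have hXpos : (0 : ℝ) < X := by linarith
  set A : ℝ := (X : ℝ) ^ ((i : ℝ) / N) with hA
  set B : ℝ := (X : ℝ) ^ (((i : ℝ) + 1) / N) with hB
  have hi1 : (1 : ℝ) ≤ i := by exact_mod_cast hi
  have hA0 : (a0 : ℝ) ≤ A := by
    have h1 : ((a0 : ℝ) ^ N) ^ ((1 : ℝ) / N) ≤ (X : ℝ) ^ ((1 : ℝ) / N) := by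
      apply Real.rpow_le_rpow (by positivity) (by exact_mod_cast hX) (by positivity)
    have h2 : ((a0 : ℝ) ^ N) ^ ((1 : ℝ) / N) = a0 := by
      rw [← Real.rpow_natCast, ← Real.rpow_mul (by positivity), mul_one_div_cancel hNpos.ne',
        Real.rpow_one]
    have h3 : (X : ℝ) ^ ((1 : ℝ) / N) ≤ A :=
      Real.rpow_le_rpow_of_exponent_le hXr (by gcongr)
    linarith
  have hApos : 0 < A := Real.rpow_pos_of_pos hXpos _
  have hBpos : 0 < B := Real.rpow_pos_of_pos hXpos _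
  by_cases hab : ⌈A⌉₊ ≤ ⌊B⌋₊
  · have ha : a0 ≤ ⌈A⌉₊ := by
      have h1 : (a0 : ℝ) ≤ ⌈A⌉₊ := hA0.trans (Nat.le_ceil _)
      exact_mod_cast h1
    have h1 := h ⌈A⌉₊ ⌊B⌋₊ ha hab
    have h2 : ∑ p ∈ Jw N X i, 1 / (p : ℝ) ≤ ∑ p ∈ Pr ⌈A⌉₊ (⌊B⌋₊ + 1), 1 / (p : ℝ) := by
      apply Finset.sum_le_sum_of_subset_of_nonneg
      · intro p hp
        obtain ⟨-, hp1, -, hp3, hp4⟩ := mem_filter.1 hp
        refine mem_filter.2 ⟨mem_range.2 (Nat.lt_succ_of_le ?_), hp1, ?_⟩
        · exact Nat.le_floor hp4.le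
        · exact Nat.ceil_le.2 hp3
      · intro p _ _
        positivity
    have hA3 : (3 : ℝ) ≤ A := le_trans (by exact_mod_cast ha3) hA0
    have hlogA : 0 < Real.log A := Real.log_pos (by linarith)
    have hlogX : 0 < Real.log X := by
      by_contra hcon
      have h5 : Real.log A = ((i : ℝ) / N) * Real.log X := by rw [hA, Real.log_rpow hXpos]
      rw [h5] at hlogA
      have : (0 : ℝ) ≤ (i : ℝ) / N := by positivity
      nlinarith
    have h3 : Real.log (⌈A⌉₊ : ℝ) ≥ ((i : ℝ) / N) * Real.log X := by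
      have h5 : Real.log A = ((i : ℝ) / N) * Real.log X := by rw [hA, Real.log_rpow hXpos]
      rw [← h5]
      exact Real.log_le_log hApos (Nat.le_ceil _)
    have hm1 : (0 : ℝ) < (⌊B⌋₊ : ℝ) := by
      have : 3 ≤ ⌊B⌋₊ := ha3.trans (ha.trans hab)
      exact_mod_cast (by omega : 0 < ⌊B⌋₊)
    have h4 : Real.log (⌊B⌋₊ : ℝ) ≤ (((i : ℝ) + 1) / N) * Real.log X := by
      have h5 : Real.log B = (((i : ℝ) + 1) / N) * Real.log X := by rw [hB, Real.log_rpow hXpos]
      rw [← h5]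
      exact Real.log_le_log hm1 (Nat.floor_le hBpos.le)
    have hlogm : 0 < Real.log (⌊B⌋₊ : ℝ) := by
      apply Real.log_pos
      have : 3 ≤ ⌊B⌋₊ := ha3.trans (ha.trans hab)
      exact_mod_cast (by omega : 1 < ⌊B⌋₊)
    have hloga : 0 < Real.log (⌈A⌉₊ : ℝ) := lt_of_lt_of_le (by positivity) h3
    have h6 : Real.log (⌊B⌋₊ : ℝ) / Real.log (⌈A⌉₊ : ℝ) ≤ 2 := by
      rw [div_le_iff₀ hloga]
      have h7 : (((i : ℝ) + 1) / N) * Real.log X ≤ 2 * (((i : ℝ) / N) * Real.log X) := by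
        have h8 : ((i : ℝ) + 1) / N ≤ 2 * ((i : ℝ) / N) := by
          rw [← mul_div_assoc]
          gcongr
          linarith
        nlinarith
      linarith
    have h9 : Real.log (Real.log (⌊B⌋₊ : ℝ) / Real.log (⌈A⌉₊ : ℝ)) ≤ Real.log 2 :=
      Real.log_le_log (by positivity) h6
    have h10 := Real.log_two_lt_d9
    linarith
  · have h1 : Jw N X i = ∅ := by
      apply Finset.eq_empty_of_forall_notMem
      intro p hp
      obtain ⟨-, hp1, -, hp3, hp4⟩ := mem_filter.1 hp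
      exact hab ((Nat.ceil_le.2 hp3).trans (Nat.le_floor hp4.le))
    rw [h1, Finset.sum_empty]
    norm_num

/-- Cauchy-Schwarz and expansion of the square. -/
private theorem D6_core {S O I : Finset ℕ} {a b : ℕ → ℝ} {ψ : ℕ → ℕ → ℝ} {y M E1 E2 : ℝ}
    (hy : 0 ≤ y) (hM : 0 ≤ M)
    (ha : ∀ t ∈ I, 0 ≤ a t ∧ a t ≤ M) (hIO : ∀ t ∈ I, a t ≠ 0 → t ∈ O ∧ 1 ≤ b t)
    (hb : ∀ t ∈ O, 0 ≤ b t)
    (h1 : ∀ s ∈ S, y ≤ ∑ t ∈ I, a t * (ψ s t / (t : ℝ)))
    (h2 : ∑ t ∈ I, a t * (1 / (t : ℝ)) ≤ 1)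
    (h3 : ∀ s ∈ S, ∑ t ∈ O, b t * (ψ s t * ψ s t) / (t : ℝ) ≤ E1)
    (h4 : ∀ s ∈ S, ∀ s' ∈ S, s ≠ s' → ∑ t ∈ O, b t * (ψ s t * ψ s' t) / (t : ℝ) ≤ E2)
    (hE2 : 0 ≤ E2) :
    ((S.card : ℝ) * y) ^ 2 ≤ M * (S.card * E1 + (S.card : ℝ) ^ 2 * E2) := by
  classical
  set G : ℕ → ℝ := fun t => ∑ s ∈ S, ψ s t with hG
  set I' := I.filter (fun t => a t ≠ 0) with hI'
  have e1 : (S.card : ℝ) * y ≤ ∑ t ∈ I', a t * G t / (t : ℝ) := by
    calc (S.card : ℝ) * y = ∑ s ∈ S, y := by rw [sum_const, nsmul_eq_mul]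
      _ ≤ ∑ s ∈ S, ∑ t ∈ I, a t * (ψ s t / (t : ℝ)) := sum_le_sum h1
      _ = ∑ t ∈ I, ∑ s ∈ S, a t * (ψ s t / (t : ℝ)) := sum_comm
      _ = ∑ t ∈ I, a t * G t / (t : ℝ) := by
          apply sum_congr rfl
          intro t _
          rw [hG, mul_div_assoc, Finset.sum_div, Finset.mul_sum]
      _ = ∑ t ∈ I', a t * G t / (t : ℝ) := by
          symm
          apply Finset.sum_subset (filter_subset _ _)
          intro t ht ht'
          have : a t = 0 := by
            by_contra hcon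
            exact ht' (mem_filter.2 ⟨ht, hcon⟩)
          rw [this, zero_mul, zero_div]
  have e2 : (∑ t ∈ I', a t * G t / (t : ℝ)) ^ 2 ≤
      (∑ t ∈ I', a t ^ 2 / (t : ℝ)) * ∑ t ∈ I', G t ^ 2 / (t : ℝ) := by
    apply Finset.sum_sq_le_sum_mul_sum_of_sq_eq_mul
    · intro t _; positivity
    · intro t _; positivity
    · intro t _; ring
  have e3 : ∑ t ∈ I', a t ^ 2 / (t : ℝ) ≤ M := by
    calc ∑ t ∈ I', a t ^ 2 / (t : ℝ) ≤ ∑ t ∈ I', M * (a t * (1 / (t : ℝ))) := by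
          apply sum_le_sum
          intro t ht
          obtain ⟨p1, p2⟩ := ha t (mem_filter.1 ht).1
          have : 0 ≤ 1 / (t : ℝ) := by positivity
          calc a t ^ 2 / (t : ℝ) = a t * (a t * (1 / (t : ℝ))) := by ring
            _ ≤ M * (a t * (1 / (t : ℝ))) := mul_le_mul_of_nonneg_right p2 (by positivity)
      _ ≤ ∑ t ∈ I, M * (a t * (1 / (t : ℝ))) := by
          apply Finset.sum_le_sum_of_subset_of_nonneg (filter_subset _ _)
          intro t ht _
          have := (ha t ht).1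
          positivity
      _ = M * ∑ t ∈ I, a t * (1 / (t : ℝ)) := by rw [mul_sum]
      _ ≤ M * 1 := mul_le_mul_of_nonneg_left h2 hM
      _ = M := mul_one M
  have e4 : ∑ t ∈ I', G t ^ 2 / (t : ℝ) ≤ S.card * E1 + (S.card : ℝ) ^ 2 * E2 := by
    calc ∑ t ∈ I', G t ^ 2 / (t : ℝ) ≤ ∑ t ∈ I', b t * (G t ^ 2 / (t : ℝ)) := by
          apply sum_le_sum
          intro t ht
          have p1 := (hIO t (mem_filter.1 ht).1 (mem_filter.1 ht).2).2
          have p2 : 0 ≤ G t ^ 2 / (t : ℝ) := by positivity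
          nlinarith
      _ ≤ ∑ t ∈ O, b t * (G t ^ 2 / (t : ℝ)) := by
          apply Finset.sum_le_sum_of_subset_of_nonneg
          · intro t ht
            exact (hIO t (mem_filter.1 ht).1 (mem_filter.1 ht).2).1
          · intro t ht _
            have := hb t ht
            positivity
      _ = ∑ t ∈ O, ∑ s ∈ S, ∑ s' ∈ S, b t * (ψ s t * ψ s' t) / (t : ℝ) := by
          apply sum_congr rfl
          intro t _
          rw [hG, sq, Finset.sum_mul_sum, Finset.sum_div, Finset.mul_sum]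
          apply sum_congr rfl
          intro s _
          rw [Finset.sum_div, Finset.mul_sum]
          apply sum_congr rfl
          intro s' _
          ring
      _ = ∑ s ∈ S, ∑ s' ∈ S, ∑ t ∈ O, b t * (ψ s t * ψ s' t) / (t : ℝ) := by
          rw [Finset.sum_comm]
          apply sum_congr rfl
          intro s _
          rw [Finset.sum_comm]
      _ ≤ ∑ s ∈ S, (E1 + S.card * E2) := by
          apply sum_le_sum
          intro s hs
          rw [← Finset.add_sum_erase S _ hs]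
          apply add_le_add (h3 s hs)
          calc ∑ s' ∈ S.erase s, ∑ t ∈ O, b t * (ψ s t * ψ s' t) / (t : ℝ)
              ≤ ∑ s' ∈ S.erase s, E2 := by
                apply sum_le_sum
                intro s' hs'
                exact h4 s hs s' (mem_of_mem_erase hs') (ne_of_mem_erase hs').symm
            _ = ((S.erase s).card : ℝ) * E2 := by rw [sum_const, nsmul_eq_mul]
            _ ≤ S.card * E2 := by
                apply mul_le_mul_of_nonneg_right _ hE2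
                exact_mod_cast Finset.card_le_card (erase_subset s S)
      _ = S.card * E1 + (S.card : ℝ) ^ 2 * E2 := by
          rw [sum_const, nsmul_eq_mul]
          ring
  have e5 : 0 ≤ ∑ t ∈ I', G t ^ 2 / (t : ℝ) := sum_nonneg (fun t _ => by positivity)
  calc ((S.card : ℝ) * y) ^ 2 ≤ (∑ t ∈ I', a t * G t / (t : ℝ)) ^ 2 :=
        pow_le_pow_left₀ (by positivity) e1 2
    _ ≤ (∑ t ∈ I', a t ^ 2 / (t : ℝ)) * ∑ t ∈ I', G t ^ 2 / (t : ℝ) := e2
    _ ≤ M * (S.card * E1 + (S.card : ℝ) ^ 2 * E2) := mul_le_mul e3 e4 e5 hM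

/-- The choice of `m`. -/
private theorem D6_m (N M0 : ℕ) (hN : 1 ≤ N) : ∃ X0 : ℕ, ∀ X : ℕ, X0 ≤ X → ∃ m : ℕ,
    2 ≤ m ∧ M0 ≤ 2 ^ 2 ^ m ∧ (2 ^ 2 ^ m) ^ (102 * N) ≤ X ∧ X < (2 ^ 2 ^ m) ^ (204 * N) := by
  classical
  refine ⟨(max M0 4) ^ (204 * N), ?_⟩
  intro X hX
  have hex : ∃ j : ℕ, X < (2 ^ 2 ^ j) ^ (102 * N) := by
    refine ⟨X, ?_⟩
    calc X < 2 ^ X := Nat.lt_two_pow_self
      _ ≤ 2 ^ 2 ^ X := Nat.pow_le_pow_right (by norm_num) Nat.lt_two_pow_self.le
      _ ≤ (2 ^ 2 ^ X) ^ (102 * N) := Nat.le_self_pow (by omega) _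
  have hspec := Nat.find_spec hex
  have hne : Nat.find hex ≠ 0 := by
    intro h0
    rw [h0] at hspec
    have h1 : (2 ^ 2 ^ 0) ^ (102 * N) ≤ (max M0 4) ^ (204 * N) := by
      calc (2 ^ 2 ^ 0) ^ (102 * N) ≤ (max M0 4) ^ (102 * N) :=
            Nat.pow_le_pow_left (le_trans (by norm_num) (le_max_right M0 4)) _
        _ ≤ (max M0 4) ^ (204 * N) :=
            Nat.pow_le_pow_right (by have := le_max_right M0 4; omega) (by omega)
    omega
  obtain ⟨m, hm⟩ := Nat.exists_eq_succ_of_ne_zero hne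
  have hlt : X < (2 ^ 2 ^ m) ^ (204 * N) := by
    rw [hm] at hspec
    have h1 : (2 ^ 2 ^ (m.succ)) ^ (102 * N) = (2 ^ 2 ^ m) ^ (204 * N) := by
      rw [← pow_mul, ← pow_mul]
      congr 1
      rw [pow_succ]
      ring
    omega
  have hle : (2 ^ 2 ^ m) ^ (102 * N) ≤ X := by
    have := Nat.find_min hex (m := m) (by omega)
    exact not_lt.1 this
  have hz : max M0 4 < 2 ^ 2 ^ m := by
    by_contra hcon
    have h1 : (2 ^ 2 ^ m) ^ (204 * N) ≤ (max M0 4) ^ (204 * N) :=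
      Nat.pow_le_pow_left (not_lt.1 hcon) _
    omega
  refine ⟨m, ?_, ?_, hle, hlt⟩
  · have h4 : 4 < 2 ^ 2 ^ m := lt_of_le_of_lt (le_max_right M0 4) hz
    by_contra hcon
    have : m = 0 ∨ m = 1 := by omega
    rcases this with rfl | rfl
    · norm_num at h4
    · norm_num at h4
  · exact (le_max_left M0 4).trans hz.le

private theorem D6_jac_one (a : ℤ) (t : ℕ) :
    ((jacobiSym a t : ℤ) : ℝ) * ((jacobiSym a t : ℤ) : ℝ) ≤ 1 := by
  rcases jacobiSym.trichotomy a t with h | h | h <;> rw [h] <;> norm_num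

private theorem D6_jac_mul (s s' t : ℕ) (ht : Odd t) :
    ((jacobiSym (2 * (s : ℤ)) t : ℤ) : ℝ) * ((jacobiSym (2 * (s' : ℤ)) t : ℤ) : ℝ) =
      ((jacobiSym ((s : ℤ) * s') t : ℤ) : ℝ) := by
  have h1 : jacobiSym (2 * (s : ℤ)) t * jacobiSym (2 * (s' : ℤ)) t =
      jacobiSym ((s : ℤ) * s') t := by
    have h2 : jacobiSym 2 t * jacobiSym 2 t = 1 := by
      rw [← sq]
      apply jacobiSym.sq_one
      have : Nat.Coprime 2 t := (Nat.coprime_two_left).2 ht
      exact this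
    rw [jacobiSym.mul_left, jacobiSym.mul_left, jacobiSym.mul_left]
    calc jacobiSym 2 t * jacobiSym (s : ℤ) t * (jacobiSym 2 t * jacobiSym (s' : ℤ) t)
        = (jacobiSym 2 t * jacobiSym 2 t) * (jacobiSym (s : ℤ) t * jacobiSym (s' : ℤ) t) := by ring
      _ = _ := by rw [h2, one_mul]
  rw [← Int.cast_mul, h1]

theorem p_D6 : S_M1 → S_D3 → S_D4 → S_D5 → S_D6 := by
  intro hM1 hD3 hD4 hD5 N x hN hx
  classical
  obtain ⟨C0, C, hC0, hC, hD4'⟩ := hD4
  obtain ⟨X1, hX1⟩ := D6_win hM1 N hN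
  obtain ⟨X2, hX2⟩ := D6_m N (⌈C0⌉₊ + 1) (by omega)
  set k : ℕ := 4 * N with hk
  refine ⟨⌈(k.factorial : ℝ) * (816 * N * C + 3) / (x ^ k) ^ 2⌉₊, max X1 (max X2 64), ?_⟩
  intro X hX i hi hiN S hS
  have hXX1 : X1 ≤ X := (le_max_left _ _).trans hX
  have hXX2 : X2 ≤ X := (le_max_left _ _).trans ((le_max_right _ _).trans hX)
  have hX64 : 64 ≤ X := (le_max_right _ _).trans ((le_max_right _ _).trans hX)
  obtain ⟨m, hm2, hmC, hmle, hmlt⟩ := hX2 X hXX2
  set z : ℕ := 2 ^ 2 ^ m with hz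
  have hzr : ((2 : ℝ) ^ 2 ^ m) = (z : ℝ) := by rw [hz]; push_cast; rfl
  have hz2 : 2 ≤ z := by
    calc 2 = 2 ^ 1 := by norm_num
      _ ≤ 2 ^ 2 ^ m := Nat.pow_le_pow_right (by norm_num) Nat.one_le_two_pow
  have hz1r : (1 : ℝ) ≤ z := by exact_mod_cast (by omega : 1 ≤ z)
  have hNpos : (0 : ℝ) < N := by exact_mod_cast (by omega : 0 < N)
  have hXr : (64 : ℝ) ≤ X := by exact_mod_cast hX64
  have hXpos : (0 : ℝ) < X := by linarith
  have hXr1 : (1 : ℝ) ≤ X := by linarith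
  -- the level
  set Q : ℕ := ⌈C0 * (z : ℝ) ^ 50⌉₊ with hQ
  have hQle : (Q : ℝ) ≤ (z : ℝ) ^ 51 := by
    have h1 : (Q : ℝ) < C0 * (z : ℝ) ^ 50 + 1 := Nat.ceil_lt_add_one (by positivity)
    have h2 : C0 + 1 ≤ z := by
      have h3 : (C0 : ℝ) ≤ ⌈C0⌉₊ := Nat.le_ceil _
      have h4 : ((⌈C0⌉₊ : ℝ)) + 1 ≤ z := by exact_mod_cast hmC
      linarith
    have h5 : (1 : ℝ) ≤ (z : ℝ) ^ 50 := one_le_pow₀ hz1r
    calc (Q : ℝ) ≤ C0 * (z : ℝ) ^ 50 + 1 := h1.le
      _ ≤ C0 * (z : ℝ) ^ 50 + (z : ℝ) ^ 50 := by linarith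
      _ = (C0 + 1) * (z : ℝ) ^ 50 := by ring
      _ ≤ (z : ℝ) * (z : ℝ) ^ 50 := mul_le_mul_of_nonneg_right h2 (by positivity)
      _ = (z : ℝ) ^ 51 := by ring
  have hQsq : (Q : ℝ) ^ 2 ≤ X := by
    calc (Q : ℝ) ^ 2 ≤ ((z : ℝ) ^ 51) ^ 2 := pow_le_pow_left₀ (by positivity) hQle 2
      _ = (z : ℝ) ^ 102 := by rw [← pow_mul]
      _ ≤ (z : ℝ) ^ (102 * N) := pow_le_pow_right₀ hz1r (by omega)
      _ ≤ X := by exact_mod_cast hmle
  have hQX : 8 * (Q : ℝ) ≤ X := by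
    by_contra hcon
    push Not at hcon
    nlinarith
  -- the weights
  obtain ⟨la, hla1, hla2, hla3, hla4, hla5⟩ := hD4' m hm2
  rw [hzr] at hla2 hla5
  have hlogz : 0 < Real.log z := Real.log_pos (by exact_mod_cast (by omega : 1 < z))
  set L : ℝ := C / Real.log z with hL
  have hL0 : 0 ≤ L := by positivity
  have hQC : C0 * (z : ℝ) ^ 50 ≤ Q := Nat.le_ceil _
  set U : ℕ := X ^ (4 * i) with hU
  set U' : ℕ := X ^ (4 * (i + 1)) with hU'
  have hX1n : 1 ≤ X := by omega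
  have hUX : X ^ 4 ≤ U := Nat.pow_le_pow_right hX1n (by omega)
  have hXU : X ≤ U := (Nat.le_self_pow (by norm_num) X).trans hUX
  have hU1 : 1 ≤ U := by omega
  have hQXn : 8 * Q ≤ X := by exact_mod_cast hQX
  obtain ⟨hS1, hS2⟩ := hD5 la Q L hL0 hla1
    (fun d hd => ⟨(hla2 d hd).1, by exact_mod_cast (hla2 d hd).2.trans hQC⟩)
    (hla5 Q hQC) U U' hU1 (by omega) (Nat.pow_le_pow_right hX1n (by omega))
  -- the primes
  set P := Jw N X i with hP
  set A : ℝ := (X : ℝ) ^ ((i : ℝ) / N) with hA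
  set B : ℝ := (X : ℝ) ^ (((i : ℝ) + 1) / N) with hB
  have hPmem : ∀ p ∈ P, p.Prime ∧ 3 ≤ p ∧ A ≤ p ∧ (p : ℝ) < B := by
    intro p hp
    exact (mem_filter.1 hp).2
  have hA1 : 1 ≤ A := Real.one_le_rpow hXr1 (by positivity)
  have hAk : A ^ k = (U : ℝ) := by
    rw [hA, ← Real.rpow_natCast, ← Real.rpow_mul hXpos.le, hU, hk]
    push_cast
    rw [← Real.rpow_natCast]
    congr 1
    push_cast
    field_simp
  have hBk : B ^ k = (U' : ℝ) := by
    rw [hB, ← Real.rpow_natCast, ← Real.rpow_mul hXpos.le, hU', hk]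
    push_cast
    rw [← Real.rpow_natCast]
    congr 1
    push_cast
    field_simp
  have hzA : ∀ p ∈ P, z < p := by
    intro p hp
    obtain ⟨-, -, h3, -⟩ := hPmem p hp
    have h4 : (z : ℝ) ^ 102 ≤ A := by
      have h5 : ((z : ℝ) ^ (102 * N)) ^ ((1 : ℝ) / N) ≤ (X : ℝ) ^ ((1 : ℝ) / N) := by
        apply Real.rpow_le_rpow (by positivity) (by exact_mod_cast hmle) (by positivity)
      have h6 : ((z : ℝ) ^ (102 * N)) ^ ((1 : ℝ) / N) = (z : ℝ) ^ 102 := by
        rw [pow_mul, ← Real.rpow_natCast ((z : ℝ) ^ 102) N, ← Real.rpow_mul (by positivity),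
          mul_one_div_cancel hNpos.ne', Real.rpow_one]
      have h7 : (X : ℝ) ^ ((1 : ℝ) / N) ≤ A := by
        apply Real.rpow_le_rpow_of_exponent_le hXr1
        have : (1 : ℝ) ≤ i := by exact_mod_cast hi
        gcongr
      rw [h6] at h5
      linarith
    have h8 : (z : ℝ) < (z : ℝ) ^ 102 := by
      have h9 : (1 : ℝ) < z := by exact_mod_cast (by omega : 1 < z)
      calc (z : ℝ) = (z : ℝ) ^ 1 := (pow_one _).symm
        _ < (z : ℝ) ^ 102 := pow_lt_pow_right₀ h9 (by norm_num)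
    have h10 : (z : ℝ) < p := by linarith
    exact_mod_cast h10
  obtain ⟨a, ha1, ha2, ha3⟩ := hD3 P A B hA1 (fun p hp => ⟨(hPmem p hp).1, (hPmem p hp).2.2.1,
    (hPmem p hp).2.2.2.le⟩) k
  have hR : B ^ k ≤ (U' : ℝ) := hBk.le
  -- the main inequality
  set b : ℕ → ℝ := fun t => ∑ d ∈ t.divisors, la d with hb
  set ψ : ℕ → ℕ → ℝ := fun s t => ((jacobiSym (2 * (s : ℤ)) t : ℤ) : ℝ) with hψ
  set O := (Icc U U').filter (fun t => Odd t) with hO
  have hmain := D6_core (S := S) (O := O) (I := Icc 1 U') (a := a) (b := b) (ψ := ψ)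
    (y := x ^ k) (M := (k.factorial : ℝ)) (E1 := Real.log ((U' : ℝ) / U) * L + 2)
    (E2 := 4 * X * X * Q / U) (by positivity) (by positivity) (fun t _ => ha1 t)
    (by
      intro t ht hat
      obtain ⟨q1, q2, q3, q4⟩ := ha2 t hat
      rw [hAk] at q3
      rw [hBk] at q4
      have hodd : Odd t := by
        rw [← Nat.not_even_iff_odd]
        intro he
        have h2P := q2 2 Nat.prime_two he.two_dvd
        have := (hPmem 2 h2P).2.1
        omega
      refine ⟨mem_filter.2 ⟨mem_Icc.2 ⟨by exact_mod_cast q3, by exact_mod_cast q4⟩, hodd⟩, ?_⟩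
      apply hla4 t q1
      intro p hp _ hpz hpt
      have := hzA p (q2 p hp hpt)
      omega)
    (by
      intro t ht
      have h1 := (mem_Icc.1 (mem_filter.1 ht).1).1
      exact hla3 t (by omega))
    (by
      intro s hs
      have h1 := ha3 (fun t => ψ s t / (t : ℝ)) (by
          rw [hψ]
          simp) (by
          intro u v hu hv
          rw [hψ]
          simp only
          rw [jacobiSym.mul_right' _ hu hv]
          push_cast
          rw [mul_div_mul_comm]) U' hR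
      rw [← h1]
      apply pow_le_pow_left₀ hx.le
      exact (hS s hs).2.2.2)
    (by
      have h1 := ha3 (fun t => 1 / (t : ℝ)) (by simp) (by
          intro u v _ _
          push_cast
          rw [one_div_mul_one_div]) U' hR
      rw [← h1]
      apply pow_le_one₀ (sum_nonneg (fun p _ => by positivity))
      exact hX1 X hXX1 i hi hiN)
    (by
      intro s _
      refine le_trans (sum_le_sum ?_) hS1
      intro t ht
      have h1 := (mem_Icc.1 (mem_filter.1 ht).1).1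
      have h2 : 0 ≤ b t := hla3 t (by omega)
      apply div_le_div_of_nonneg_right _ (by positivity)
      calc b t * (ψ s t * ψ s t) ≤ b t * 1 := mul_le_mul_of_nonneg_left (D6_jac_one _ _) h2
        _ = b t := mul_one _)
    (by
      intro s hs s' hs' hne
      obtain ⟨o1, o2, o3, -⟩ := hS s hs
      obtain ⟨o1', o2', o3', -⟩ := hS s' hs'
      have h1 := hS2 s s' o1 o2 o1' o2' hne
      have h2 : ∑ t ∈ O, b t * (ψ s t * ψ s' t) / (t : ℝ) =
          ∑ t ∈ (Icc U U').filter (fun t => Odd t),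
            (∑ d ∈ t.divisors, la d) * ((jacobiSym ((s : ℤ) * s') t : ℤ) : ℝ) / (t : ℝ) := by
        apply sum_congr rfl
        intro t ht
        rw [hψ]
        simp only
        rw [D6_jac_mul s s' t (mem_filter.1 ht).2]
      rw [h2]
      refine (le_abs_self _).trans (h1.trans ?_)
      have hs1 : (s : ℝ) ≤ X := by exact_mod_cast o3
      have hs2 : (s' : ℝ) ≤ X := by exact_mod_cast o3'
      gcongr)
    (by positivity)
  -- the numbers
  have hUr : (X : ℝ) ^ 4 ≤ U := by exact_mod_cast hUX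
  have hUpos : (0 : ℝ) < U := lt_of_lt_of_le (by positivity) hUr
  have hSc : (S.card : ℝ) ≤ X := by
    have h1 : S ⊆ Icc 1 X := by
      intro s hs
      obtain ⟨o1, -, o3, -⟩ := hS s hs
      exact mem_Icc.2 ⟨o1.pos, o3⟩
    have h2 := Finset.card_le_card h1
    rw [Nat.card_Icc] at h2
    have h3 : S.card ≤ X := by omega
    exact_mod_cast h3
  have hRE2 : (S.card : ℝ) * (4 * X * X * Q / U) ≤ 1 := by
    have h1 : (S.card : ℝ) * (4 * X * X * Q / U) ≤ X * (4 * X * X * Q / (X : ℝ) ^ 4) := by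
      apply mul_le_mul hSc _ (by positivity) (by positivity)
      gcongr
    have h2 : (X : ℝ) * (4 * X * X * Q / (X : ℝ) ^ 4) = 4 * Q / X := by
      field_simp
    have h3 : 4 * (Q : ℝ) / X ≤ 1 := by
      rw [div_le_one hXpos]
      have : (0 : ℝ) ≤ Q := Nat.cast_nonneg _
      linarith
    linarith
  have hlogU : Real.log ((U' : ℝ) / U) = 4 * Real.log X := by
    have h1 : ((U' : ℝ) / U) = (X : ℝ) ^ 4 := by
      rw [hU', hU]
      push_cast
      rw [show 4 * (i + 1) = 4 * i + 4 by ring, pow_add]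
      field_simp
    rw [h1, Real.log_pow]
    norm_num
  have hlogX : Real.log X ≤ 204 * N * Real.log z := by
    have h1 : (X : ℝ) ≤ (z : ℝ) ^ (204 * N) := by exact_mod_cast hmlt.le
    have h2 := Real.log_le_log hXpos h1
    rw [Real.log_pow] at h2
    push_cast at h2
    exact h2
  have hE1 : Real.log ((U' : ℝ) / U) * L + 2 ≤ 816 * N * C + 2 := by
    rw [hlogU, hL]
    have h1 : 4 * Real.log X * (C / Real.log z) ≤ 816 * N * C := by
      rw [mul_div_assoc', div_le_iff₀ hlogz]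
      nlinarith
    linarith
  have hfac : (0 : ℝ) < k.factorial := by exact_mod_cast Nat.factorial_pos k
  have hxk : 0 < (x ^ k) ^ 2 := by positivity
  have hfin : (S.card : ℝ) ≤ (k.factorial : ℝ) * (816 * N * C + 3) / (x ^ k) ^ 2 := by
    rw [le_div_iff₀ hxk]
    rcases Nat.eq_zero_or_pos S.card with h0 | h0
    · rw [h0]
      push_cast
      rw [zero_mul]
      positivity
    · have hpos : (0 : ℝ) < S.card := by exact_mod_cast h0
      have h1 : (S.card : ℝ) * (S.card * (x ^ k) ^ 2) ≤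
          S.card * ((k.factorial : ℝ) * (816 * N * C + 3)) := by
        calc (S.card : ℝ) * (S.card * (x ^ k) ^ 2) = ((S.card : ℝ) * x ^ k) ^ 2 := by ring
          _ ≤ _ := hmain
          _ = (k.factorial : ℝ) * (S.card * ((Real.log ((U' : ℝ) / U) * L + 2) +
                S.card * (4 * X * X * Q / U))) := by ring
          _ ≤ (k.factorial : ℝ) * (S.card * ((816 * N * C + 2) + 1)) := by
              apply mul_le_mul_of_nonneg_left _ hfac.le
              apply mul_le_mul_of_nonneg_left _ hpos.le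
              exact add_le_add hE1 hRE2
          _ = S.card * ((k.factorial : ℝ) * (816 * N * C + 3)) := by ring
      exact le_of_mul_le_mul_left h1 hpos
  have := hfin.trans (Nat.le_ceil _)
  exact_mod_cast this

end Pool.Agent.PSq
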