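import Pool.Agent.Lib.MP_6b8fc7_nt.Stm

set_option autoImplicit false

/-!
# MP_6b8fc7_nt, piece F1: Fourier expansion of the remainder
-/

namespace Pool.Agent.PSq

open Finset
open Pool.Agent.MPbca (ee)

/-- the product of the two exponentials is a power of one number -/
private lemma F1_prod (n m b d : ℕ) :
    ee n ((b : ℝ) / d) * ee (2 * m ^ 2) (-((b : ℝ) / (d : ℝ))) =
      Complex.exp (2 * Real.pi * Complex.I * (((n : ℤ) - 2 * (m : ℤ) ^ 2 : ℤ) : ℂ) / d) ^ b := by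
  unfold ee
  rw [← Complex.exp_add, ← Complex.exp_nat_mul]
  congr 1
  push_cast
  ring

/-- the root of unity is `1` exactly in the case of divisibility -/
private lemma F1_one (k : ℤ) (d : ℕ) (hd : 1 ≤ d) :
    Complex.exp (2 * Real.pi * Complex.I * (k : ℂ) / d) = 1 ↔ (d : ℤ) ∣ k := by
  have hd0 : (d : ℂ) ≠ 0 := by
    have : d ≠ 0 := by omega
    exact_mod_cast this
  have hpi : (2 * Real.pi * Complex.I : ℂ) ≠ 0 := by
    have := Real.pi_ne_zero
    simp [this]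
  rw [Complex.exp_eq_one_iff]
  constructor
  · rintro ⟨l, hl⟩
    refine ⟨l, ?_⟩
    have h1 : (2 * Real.pi * Complex.I : ℂ) * (k : ℂ) = (2 * Real.pi * Complex.I : ℂ) * ((d : ℂ) * l) := by
      rw [div_eq_iff hd0] at hl
      rw [hl]; ring
    have h2 := mul_left_cancel₀ hpi h1
    exact_mod_cast h2
  · rintro ⟨l, rfl⟩
    refine ⟨l, ?_⟩
    push_cast
    field_simp

/-- orthogonality -/
private lemma F1_orth (n m d : ℕ) (hd : 1 ≤ d) :
    ∑ b ∈ range d, ee n ((b : ℝ) / d) * ee (2 * m ^ 2) (-((b : ℝ) / (d : ℝ))) =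
      if (d : ℤ) ∣ (n : ℤ) - 2 * (m : ℤ) ^ 2 then (d : ℂ) else 0 := by
  simp_rw [F1_prod]
  split_ifs with h
  · rw [(F1_one _ d hd).2 h]
    simp
  · have h1 : Complex.exp (2 * Real.pi * Complex.I * (((n : ℤ) - 2 * (m : ℤ) ^ 2 : ℤ) : ℂ) / d) ≠ 1 :=
      fun h' => h ((F1_one _ d hd).1 h')
    rw [geom_sum_eq h1]
    have h2 : Complex.exp (2 * Real.pi * Complex.I * (((n : ℤ) - 2 * (m : ℤ) ^ 2 : ℤ) : ℂ) / d) ^ d = 1 := by
      have hd0 : (d : ℂ) ≠ 0 := by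
        have : d ≠ 0 := by omega
        exact_mod_cast this
      rw [← Complex.exp_nat_mul, Complex.exp_eq_one_iff]
      refine ⟨(n : ℤ) - 2 * (m : ℤ) ^ 2, ?_⟩
      field_simp
    rw [h2]
    simp

/-- the sum over a finite set of `m` -/
private lemma F1_sum (n d : ℕ) (hd : 1 ≤ d) (S : Finset ℕ) :
    ∑ b ∈ range d, ee n ((b : ℝ) / d) * ∑ m ∈ S, ee (2 * m ^ 2) (-((b : ℝ) / (d : ℝ))) =
      (d : ℂ) * ((S.filter (fun m : ℕ => (d : ℤ) ∣ (n : ℤ) - 2 * (m : ℤ) ^ 2)).card : ℂ) := by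
  simp_rw [Finset.mul_sum]
  rw [Finset.sum_comm]
  simp_rw [F1_orth n _ d hd]
  rw [← Finset.sum_filter, Finset.sum_const, nsmul_eq_mul, mul_comm]

theorem p_F1 : S_F1 := by
  intro M n d hd
  have hd0 : (d : ℂ) ≠ 0 := by
    have : d ≠ 0 := by omega
    exact_mod_cast this
  have h1 : ∑ b ∈ range d, ee n ((b : ℝ) / d) * Er M b d =
      (d : ℂ) * (cnt M n d : ℂ) - ((M : ℂ) / d) * ((d : ℂ) * (rho n d : ℂ)) := by
    unfold Er cnt rho
    rw [← F1_sum n d hd, ← F1_sum n d hd, Finset.mul_sum, ← Finset.sum_sub_distrib]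
    refine Finset.sum_congr rfl fun b _ => ?_
    push_cast
    ring
  rw [h1]
  unfold rr
  push_cast
  field_simp

end Pool.Agent.PSq
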