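import Pool.Agent.Lib.MP_6b8fc7_nt.Stm

set_option autoImplicit false

/-!
# [F2] the Fourier coefficient depends only on the fraction
-/

namespace Pool.Agent.PSq

open Finset
open Pool.Agent.MPbca (ee)

private theorem F2_per (b q : ℕ) (hq : 1 ≤ q) (m : ℕ) :
    ee (2 * (q + m) ^ 2) (-((b : ℝ) / (q : ℝ))) = ee (2 * m ^ 2) (-((b : ℝ) / (q : ℝ))) := by
  unfold ee
  rw [Complex.exp_eq_exp_iff_exists_int]
  refine ⟨-(((2 * q + 4 * m) * b : ℕ) : ℤ), ?_⟩
  have hq' : (q : ℂ) ≠ 0 := by
    have : q ≠ 0 := by omega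
    exact_mod_cast this
  push_cast
  field_simp
  ring

private theorem F2_sum (f : ℕ → ℂ) (q : ℕ) (hf : ∀ m, f (q + m) = f m) (k : ℕ) :
    ∑ m ∈ range (k * q), f m = k * ∑ m ∈ range q, f m := by
  have hf' : ∀ k m, f (k * q + m) = f m := by
    intro k
    induction k with
    | zero => intro m; simp
    | succ k ih =>
      intro m
      rw [show (k + 1) * q + m = q + (k * q + m) by ring, hf, ih]
  induction k with
  | zero => simp
  | succ k ih =>
    rw [show (k + 1) * q = k * q + q by ring, Finset.sum_range_add, ih]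
    simp only [hf']
    push_cast
    ring

theorem p_F2 : S_F2 := by
  intro M b q k hq hk
  unfold Er
  have hq0 : (q : ℝ) ≠ 0 := by
    have : q ≠ 0 := by omega
    exact_mod_cast this
  have hk0 : (k : ℝ) ≠ 0 := by
    have : k ≠ 0 := by omega
    exact_mod_cast this
  have e : (((k * b : ℕ) : ℝ) / ((k * q : ℕ) : ℝ)) = (b : ℝ) / (q : ℝ) := by
    push_cast
    field_simp
  rw [e, F2_sum (fun m => ee (2 * m ^ 2) (-((b : ℝ) / (q : ℝ)))) q (F2_per b q hq) k]
  congr 1
  rw [← mul_assoc]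
  congr 1
  push_cast
  have hq1 : (q : ℂ) ≠ 0 := by exact_mod_cast hq0
  have hk1 : (k : ℂ) ≠ 0 := by exact_mod_cast hk0
  field_simp

end Pool.Agent.PSq
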