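import Pool.Agent.Lib.MP_6b8fc7_nt.Stm

set_option autoImplicit false

/-!
# MP_6b8fc7_nt, piece F3: reduced fractions (helper71)
-/

namespace Pool.Agent.PSq

open Finset

theorem p_F3 : S_F3 := by
  intro G hG d hd
  rw [Finset.sum_sigma']
  refine Finset.sum_bij' (fun b _ => (⟨d / b.gcd d, b / b.gcd d⟩ : (_ : ℕ) × ℕ))
    (fun s _ => s.2 * (d / s.1)) ?_ ?_ ?_ ?_ ?_
  · intro b hb
    have hbd : b < d := Finset.mem_range.1 hb
    have hg : 0 < b.gcd d := Nat.gcd_pos_of_pos_right _ (by omega)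
    simp only [Finset.mem_sigma, Nat.mem_divisors, Finset.mem_filter, Finset.mem_range]
    refine ⟨⟨Nat.div_dvd_of_dvd (Nat.gcd_dvd_right b d), by omega⟩, ?_, ?_⟩
    · exact Nat.div_lt_div_of_lt_of_dvd (Nat.gcd_dvd_right b d) hbd
    · exact Nat.coprime_div_gcd_div_gcd hg
  · rintro ⟨q, b⟩ hs
    simp only [Finset.mem_sigma, Nat.mem_divisors, Finset.mem_filter, Finset.mem_range] at hs
    obtain ⟨⟨⟨e, he⟩, -⟩, hbq, -⟩ := hs
    have hq : 0 < q := by omega
    have he0 : 0 < e := by
      rcases Nat.eq_zero_or_pos e with h | h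
      · rw [h, Nat.mul_zero] at he
        omega
      · exact h
    have h1 : d / q = e := by rw [he]; exact Nat.mul_div_cancel_left _ hq
    simp only [Finset.mem_range, h1]
    calc b * e < q * e := Nat.mul_lt_mul_of_pos_right hbq he0
      _ = d := he.symm
  · intro b hb
    have hbd : b < d := Finset.mem_range.1 hb
    show b / b.gcd d * (d / (d / b.gcd d)) = b
    rw [Nat.div_div_self (Nat.gcd_dvd_right b d) (by omega)]
    exact Nat.div_mul_cancel (Nat.gcd_dvd_left b d)
  · rintro ⟨q, b⟩ hs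
    simp only [Finset.mem_sigma, Nat.mem_divisors, Finset.mem_filter, Finset.mem_range] at hs
    obtain ⟨⟨⟨e, he⟩, -⟩, hbq, hbc⟩ := hs
    have hq : 0 < q := by omega
    have he0 : 0 < e := by
      rcases Nat.eq_zero_or_pos e with h | h
      · rw [h, Nat.mul_zero] at he
        omega
      · exact h
    have h1 : d / q = e := by rw [he]; exact Nat.mul_div_cancel_left _ hq
    have h2 : (b * e).gcd d = e := by
      rw [he, Nat.gcd_mul_right, Nat.Coprime.gcd_eq_one hbc, one_mul]
    have h3 : d / e = q := by rw [he]; exact Nat.mul_div_cancel _ he0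
    have h4 : b * e / e = b := Nat.mul_div_cancel _ he0
    simp only [h1, h2, h3, h4]
  · intro b hb
    have hbd : b < d := Finset.mem_range.1 hb
    have hg : 0 < b.gcd d := Nat.gcd_pos_of_pos_right _ (by omega)
    have h1 : b.gcd d * (b / b.gcd d) = b := Nat.mul_div_cancel' (Nat.gcd_dvd_left b d)
    have h2 : b.gcd d * (d / b.gcd d) = d := Nat.mul_div_cancel' (Nat.gcd_dvd_right b d)
    have h3 : 1 ≤ d / b.gcd d :=
      Nat.div_pos (Nat.le_of_dvd (by omega) (Nat.gcd_dvd_right b d)) hg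
    have h4 := hG (b / b.gcd d) (d / b.gcd d) (b.gcd d) h3 hg
    rw [h1, h2] at h4
    exact h4

end Pool.Agent.PSq
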