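import Pool.Agent.Lib.MP_6b8fc7_nt.Stm

set_option autoImplicit false

/-! Piece F4: Parseval for the Fourier coefficients of the remainder. -/

namespace Pool.Agent.PSq

open Finset
open Pool.Agent.MPbca (ee)

private theorem F4_ee (q a b : ℕ) : ee a (-((b : ℝ) / (q : ℝ))) =
    (((Complex.exp (2 * Real.pi * Complex.I / q)) ^ a)⁻¹) ^ b := by
  unfold Pool.Agent.MPbca.ee
  rw [← Complex.exp_nat_mul, ← Complex.exp_neg, ← Complex.exp_nat_mul]
  congr 1
  push_cast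
  ring

private theorem F4_group (q : ℕ) (hq : 1 ≤ q) (b : ℕ) (s : Finset ℕ) :
    ∑ m ∈ s, ee (2 * m ^ 2) (-((b : ℝ) / (q : ℝ))) =
    ∑ a ∈ range q, (((s.filter (fun m : ℕ => (q : ℤ) ∣ (a : ℤ) - 2 * (m : ℤ) ^ 2)).card : ℕ) : ℂ) *
      ee a (-((b : ℝ) / (q : ℝ))) := by
  have hζ : IsPrimitiveRoot (Complex.exp (2 * Real.pi * Complex.I / q)) q :=
    Complex.isPrimitiveRoot_exp q (by omega)
  have h1 : ∀ m : ℕ, ee (2 * m ^ 2) (-((b : ℝ) / (q : ℝ))) =
      ∑ a ∈ range q, if (q : ℤ) ∣ (a : ℤ) - 2 * (m : ℤ) ^ 2 then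
        ee a (-((b : ℝ) / (q : ℝ))) else 0 := by
    intro m
    have hiff : ∀ a : ℕ, (q : ℤ) ∣ (a : ℤ) - 2 * (m : ℤ) ^ 2 ↔ (2 * m ^ 2) % q = a % q := by
      intro a
      have h2 : (q : ℤ) ∣ (a : ℤ) - 2 * (m : ℤ) ^ 2 ↔
          ((2 * m ^ 2 : ℕ) : ℤ) ≡ (a : ℤ) [ZMOD (q : ℤ)] := by
        rw [Int.modEq_iff_dvd]
        push_cast
        rfl
      rw [h2, Int.natCast_modEq_iff]
      rfl
    rw [Finset.sum_eq_single ((2 * m ^ 2) % q)]
    · rw [if_pos ((hiff _).2 (Nat.mod_mod _ _).symm), F4_ee, F4_ee,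
        pow_eq_pow_mod (2 * m ^ 2) hζ.pow_eq_one]
    · intro a ha hne
      rw [if_neg]
      intro h
      rw [hiff, Nat.mod_eq_of_lt (Finset.mem_range.1 ha)] at h
      exact hne h.symm
    · intro h
      exact absurd (Finset.mem_range.2 (Nat.mod_lt _ (by omega))) h
  rw [Finset.sum_congr rfl (fun m _ => h1 m), Finset.sum_comm]
  refine Finset.sum_congr rfl (fun a _ => ?_)
  rw [← Finset.sum_filter, Finset.sum_const, nsmul_eq_mul]

private theorem F4_Er (M q : ℕ) (hq : 1 ≤ q) (b : ℕ) :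
    Er M b q = ∑ a ∈ range q, (rr M a q : ℂ) * ee a (-((b : ℝ) / (q : ℝ))) := by
  unfold Er
  rw [F4_group q hq b, F4_group q hq b, Finset.mul_sum, ← Finset.sum_sub_distrib]
  refine Finset.sum_congr rfl (fun a _ => ?_)
  unfold rr cnt rho
  push_cast
  ring

private theorem F4_orth (q : ℕ) (hq : 1 ≤ q) (a a' : ℕ) (ha : a < q) (ha' : a' < q) :
    ∑ b ∈ range q, ((((Complex.exp (2 * Real.pi * Complex.I / q)) ^ a)⁻¹) ^ b *
      ((Complex.exp (2 * Real.pi * Complex.I / q)) ^ a') ^ b) = if a = a' then (q : ℂ) else 0 := by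
  have hζ : IsPrimitiveRoot (Complex.exp (2 * Real.pi * Complex.I / q)) q :=
    Complex.isPrimitiveRoot_exp q (by omega)
  set ζ := Complex.exp (2 * Real.pi * Complex.I / q)
  have hζ0 : ζ ≠ 0 := hζ.ne_zero (by omega)
  simp only [← mul_pow]
  by_cases h : a = a'
  · subst h
    rw [if_pos rfl, inv_mul_cancel₀ (pow_ne_zero a hζ0)]
    simp
  · rw [if_neg h]
    have hx : (ζ ^ a)⁻¹ * ζ ^ a' ≠ 1 := by
      intro h1
      apply h
      have h2 : ζ ^ a' = ζ ^ a := by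
        have := congrArg (fun z => ζ ^ a * z) h1
        simpa [mul_inv_cancel_left₀ (pow_ne_zero a hζ0)] using this
      exact (hζ.pow_inj ha' ha h2).symm
    rw [geom_sum_eq hx]
    have h3 : ((ζ ^ a)⁻¹ * ζ ^ a') ^ q = 1 := by
      rw [mul_pow, inv_pow, ← pow_mul, ← pow_mul, mul_comm a q, mul_comm a' q, pow_mul, pow_mul,
        hζ.pow_eq_one]
      simp
    rw [h3, sub_self, zero_div]

theorem p_F4 : S_F4 := by
  intro M q hq
  have hζ : IsPrimitiveRoot (Complex.exp (2 * Real.pi * Complex.I / q)) q :=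
    Complex.isPrimitiveRoot_exp q (by omega)
  have hnorm : ‖Complex.exp (2 * Real.pi * Complex.I / q)‖ = 1 := hζ.norm'_eq_one (by omega)
  have hconj : ∀ a b : ℕ, (starRingEnd ℂ) (ee a (-((b : ℝ) / (q : ℝ)))) =
      ((Complex.exp (2 * Real.pi * Complex.I / q)) ^ a) ^ b := by
    intro a b
    rw [F4_ee, map_pow, ← Complex.inv_eq_conj, inv_inv]
    rw [norm_inv, norm_pow, hnorm, one_pow, inv_one]
  have hsq : ∀ b : ℕ, ((‖Er M b q‖ ^ 2 : ℝ) : ℂ) = ∑ a ∈ range q, ∑ a' ∈ range q,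
      ((rr M a q : ℂ) * (rr M a' q : ℂ)) *
        ((((Complex.exp (2 * Real.pi * Complex.I / q)) ^ a)⁻¹) ^ b *
          ((Complex.exp (2 * Real.pi * Complex.I / q)) ^ a') ^ b) := by
    intro b
    rw [Complex.ofReal_pow, ← Complex.mul_conj', F4_Er M q hq b, map_sum, Finset.sum_mul_sum]
    refine Finset.sum_congr rfl (fun a _ => Finset.sum_congr rfl (fun a' _ => ?_))
    rw [map_mul, hconj, Complex.conj_ofReal, F4_ee]
    ring
  have hfin : ((∑ b ∈ range q, ‖Er M b q‖ ^ 2 : ℝ) : ℂ) =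
      ((q * ∑ a ∈ range q, rr M a q ^ 2 : ℝ) : ℂ) := by
    rw [Complex.ofReal_sum, Finset.sum_congr rfl (fun b _ => hsq b), Finset.sum_comm]
    rw [Finset.sum_congr rfl (fun a _ => Finset.sum_comm)]
    push_cast
    rw [Finset.mul_sum]
    refine Finset.sum_congr rfl (fun a ha => ?_)
    have h1 : ∀ a' ∈ range q, ∑ b ∈ range q, ((rr M a q : ℂ) * (rr M a' q : ℂ)) *
        ((((Complex.exp (2 * Real.pi * Complex.I / q)) ^ a)⁻¹) ^ b *
          ((Complex.exp (2 * Real.pi * Complex.I / q)) ^ a') ^ b) =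
        if a = a' then ((rr M a q : ℂ) * (rr M a' q : ℂ)) * (q : ℂ) else 0 := by
      intro a' ha'
      rw [← Finset.mul_sum, F4_orth q hq a a' (Finset.mem_range.1 ha) (Finset.mem_range.1 ha')]
      split_ifs <;> simp
    rw [Finset.sum_congr rfl h1, Finset.sum_ite_eq, if_pos ha]
    ring
  exact_mod_cast hfin

end Pool.Agent.PSq
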