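import Pool.Agent.Lib.MP_6b8fc7_nt.Stm

set_option autoImplicit false

/-!
# MP_6b8fc7_nt, piece F5: the mean square of `Er` (helper71)
-/

namespace Pool.Agent.PSq

open Finset

/-- every `m` is counted for exactly one residue -/
private lemma F5_one (m q : ℕ) (hq : 1 ≤ q) :
    ((range q).filter (fun a : ℕ => (q : ℤ) ∣ (a : ℤ) - 2 * (m : ℤ) ^ 2)).card = 1 := by
  rw [Finset.card_eq_one]
  refine ⟨(2 * m ^ 2) % q, ?_⟩
  ext a
  simp only [Finset.mem_filter, Finset.mem_range, Finset.mem_singleton]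
  have h2 : (a : ℤ) - 2 * (m : ℤ) ^ 2 = (a : ℤ) - ((2 * m ^ 2 : ℕ) : ℤ) := by push_cast; ring
  rw [h2]
  constructor
  · rintro ⟨h1, h3⟩
    have h4 : (2 * m ^ 2) ≡ a [MOD q] := (Nat.modEq_iff_dvd).2 h3
    rw [Nat.ModEq, Nat.mod_eq_of_lt h1] at h4
    exact h4.symm
  · rintro rfl
    refine ⟨Nat.mod_lt _ (by omega), ?_⟩
    exact (Nat.modEq_iff_dvd).1 (Nat.mod_modEq _ _).symm

private lemma F5_cnt (M q : ℕ) (hq : 1 ≤ q) : ∑ a ∈ range q, cnt M a q = M := by
  unfold cnt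
  simp only [Finset.card_filter]
  rw [Finset.sum_comm]
  have h1 : ∀ m ∈ Icc 1 M, (∑ a ∈ range q, if (q : ℤ) ∣ (a : ℤ) - 2 * (m : ℤ) ^ 2 then 1 else 0)
      = 1 := by
    intro m _
    have := F5_one m q hq
    rw [Finset.card_filter] at this
    exact this
  rw [Finset.sum_congr rfl h1]
  simp

private lemma F5_rho (q : ℕ) (hq : 1 ≤ q) : ∑ a ∈ range q, rho a q = q := by
  unfold rho
  simp only [Finset.card_filter]
  rw [Finset.sum_comm]
  have h1 : ∀ m ∈ range q, (∑ a ∈ range q, if (q : ℤ) ∣ (a : ℤ) - 2 * (m : ℤ) ^ 2 then 1 else 0)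
      = 1 := by
    intro m _
    have := F5_one m q hq
    rw [Finset.card_filter] at this
    exact this
  rw [Finset.sum_congr rfl h1]
  simp

theorem p_F5 (h1 : S_L1) (h2 : S_L2) (h4 : S_F4) : S_F5 := by
  intro M q hodd hsq
  have hq : 1 ≤ q := by
    rcases Nat.eq_zero_or_pos q with h | h
    · rw [h] at hodd
      exact absurd hodd (by decide)
    · exact h
  have hq0 : (0 : ℝ) < q := by exact_mod_cast hq
  rw [h4 M q hq]
  refine mul_le_mul_of_nonneg_left ?_ hq0.le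
  have hr : ∀ a, |rr M a q| ≤ 2 ^ q.primeFactors.card := fun a =>
    (h2 M a q hq).trans (h1 a q hodd hsq).2.1
  have hs : ∑ a ∈ range q, |rr M a q| ≤ 2 * M := by
    have e1 : ∀ a ∈ range q, |rr M a q| ≤ (cnt M a q : ℝ) + (M : ℝ) * (rho a q : ℝ) / q := by
      intro a _
      unfold rr
      have h5 : (0 : ℝ) ≤ (cnt M a q : ℝ) := Nat.cast_nonneg _
      have h6 : (0 : ℝ) ≤ (M : ℝ) * (rho a q : ℝ) / q := by positivity
      rw [abs_le]
      constructor <;> linarith
    refine (Finset.sum_le_sum e1).trans ?_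
    rw [Finset.sum_add_distrib, ← Nat.cast_sum, F5_cnt M q hq, ← Finset.sum_div,
      ← Finset.mul_sum, ← Nat.cast_sum, F5_rho q hq, mul_div_assoc, div_self hq0.ne', mul_one]
    linarith
  calc ∑ a ∈ range q, rr M a q ^ 2
      ≤ ∑ a ∈ range q, 2 ^ q.primeFactors.card * |rr M a q| := by
        refine Finset.sum_le_sum fun a _ => ?_
        rw [← sq_abs, sq]
        exact mul_le_mul_of_nonneg_right (hr a) (abs_nonneg _)
    _ = 2 ^ q.primeFactors.card * ∑ a ∈ range q, |rr M a q| := by rw [Finset.mul_sum]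
    _ ≤ 2 ^ q.primeFactors.card * (2 * M) := mul_le_mul_of_nonneg_left hs (by positivity)

end Pool.Agent.PSq
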