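import Pool.Agent.Lib.MP_6b8fc7_nt.Stm

set_option autoImplicit false

/-!
# MP_6b8fc7_nt, piece F6: the large sieve, the number of exceptions (helper71)
-/

namespace Pool.Agent.PSq

open Finset
open Pool.Agent.MPbca (ee SS norm_ee large_sieve_points)

/-- the reduced residues -/
private def F6_rd (q : ℕ) : Finset ℕ := (range q).filter (fun b => b.Coprime q)

/-- the coefficient of the fractions with the denominator `q` -/
private noncomputable def F6_C (c : ℕ → ℝ) (Q q : ℕ) : ℝ :=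
  ∑ d ∈ Icc 1 Q, if q ∣ d then c d / d else 0

private lemma F6_ee_zero (k : ℕ) : ee k 0 = 1 := by
  unfold ee
  simp

/-- the expansion of the remainder sum -/
private lemma F6_exp (h1 : S_F1) (h2 : S_F2) (h3 : S_F3) (c : ℕ → ℝ) (Q M n : ℕ) :
    ((∑ d ∈ Icc 1 Q, c d * rr M n d : ℝ) : ℂ) =
      ∑ q ∈ Icc 1 Q, ∑ b ∈ F6_rd q,
        ((F6_C c Q q : ℝ) : ℂ) * Er M b q * ee n ((b : ℝ) / q) := by
  set R : ℕ → ℂ := fun q => ∑ b ∈ F6_rd q, ee n ((b : ℝ) / q) * Er M b q with hR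
  have e1 : ∀ d ∈ Icc 1 Q, ((c d * rr M n d : ℝ) : ℂ) =
      ∑ q ∈ Icc 1 Q, if q ∣ d then ((c d / d : ℝ) : ℂ) * R q else 0 := by
    intro d hd
    obtain ⟨hd1, hdQ⟩ := Finset.mem_Icc.1 hd
    have hG : ∀ b q k : ℕ, 1 ≤ q → 1 ≤ k →
        ee n (((k * b : ℕ) : ℝ) / ((k * q : ℕ) : ℝ)) * Er M (k * b) (k * q) =
        ee n ((b : ℝ) / (q : ℝ)) * Er M b q := by
      intro b q k hq hk
      have hk0 : (k : ℝ) ≠ 0 := by
        have : (0 : ℝ) < k := by exact_mod_cast hk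
        exact this.ne'
      rw [h2 M b q k hq hk]
      congr 2
      push_cast
      exact mul_div_mul_left _ _ hk0
    have h4 := h3 (fun b q => ee n ((b : ℝ) / (q : ℝ)) * Er M b q) hG d hd1
    rw [← Finset.sum_filter]
    have h5 : (Icc 1 Q).filter (fun q => q ∣ d) = d.divisors := by
      ext q
      rw [Finset.mem_filter, Finset.mem_Icc, Nat.mem_divisors]
      constructor
      · rintro ⟨-, h⟩
        exact ⟨h, by omega⟩
      · rintro ⟨h, -⟩
        refine ⟨⟨Nat.pos_of_dvd_of_pos h (by omega), ?_⟩, h⟩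
        exact (Nat.le_of_dvd (by omega) h).trans hdQ
    rw [h5, ← Finset.mul_sum]
    have h6 : ∑ q ∈ d.divisors, R q = ∑ b ∈ range d, ee n ((b : ℝ) / (d : ℝ)) * Er M b d := by
      rw [h4]
      rfl
    rw [h6]
    push_cast
    rw [h1 M n d hd1]
    ring
  push_cast
  have e2 : ∀ d ∈ Icc 1 Q, (c d : ℂ) * (rr M n d : ℂ) =
      ∑ q ∈ Icc 1 Q, if q ∣ d then ((c d / d : ℝ) : ℂ) * R q else 0 := by
    intro d hd
    rw [← e1 d hd]
    push_cast
    rfl
  rw [Finset.sum_congr rfl e2, Finset.sum_comm]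
  refine Finset.sum_congr rfl fun q _ => ?_
  have e3 : ∀ d ∈ Icc 1 Q, (if q ∣ d then ((c d / d : ℝ) : ℂ) * R q else 0) =
      (((if q ∣ d then c d / d else 0 : ℝ)) : ℂ) * R q := by
    intro d _
    split_ifs
    · rfl
    · simp
  rw [Finset.sum_congr rfl e3, ← Finset.sum_mul]
  have e4 : ((F6_C c Q q : ℝ) : ℂ) =
      ∑ d ∈ Icc 1 Q, (((if q ∣ d then c d / d else 0 : ℝ)) : ℂ) := by
    unfold F6_C
    push_cast
    rfl
  rw [← e4, hR, Finset.mul_sum]
  refine Finset.sum_congr rfl fun b _ => ?_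
  ring

private lemma F6_Er_one (M : ℕ) : Er M 0 1 = 0 := by
  unfold Er
  have h : (-(((0 : ℕ) : ℝ) / ((1 : ℕ) : ℝ))) = 0 := by norm_num
  rw [h]
  simp only [F6_ee_zero]
  simp

private lemma F6_rd_one : F6_rd 1 = {0} := by
  unfold F6_rd
  decide

/-- the harmonic sum over multiples -/
private lemma F6_harm (Q q : ℕ) (hq : 1 ≤ q) (hqQ : q ≤ Q) :
    ∑ d ∈ Icc 1 Q, (if q ∣ d then (1 : ℝ) / d else 0) ≤ 1 / q * (1 + Real.log Q) := by
  have hq0 : (0 : ℝ) < q := by exact_mod_cast hq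
  have e1 : ∑ d ∈ Icc 1 Q, (if q ∣ d then (1 : ℝ) / d else 0) =
      ∑ e ∈ range (Q / q), 1 / (q : ℝ) * ((e : ℝ) + 1)⁻¹ := by
    rw [← Finset.sum_filter]
    refine Finset.sum_bij' (fun d _ => d / q - 1) (fun e _ => q * (e + 1)) ?_ ?_ ?_ ?_ ?_
    · intro d hd
      obtain ⟨h1, h2⟩ := Finset.mem_filter.1 hd
      obtain ⟨h3, h4⟩ := Finset.mem_Icc.1 h1
      have h5 : 0 < d / q := Nat.div_pos (Nat.le_of_dvd (by omega) h2) (by omega)
      have h6 : d / q ≤ Q / q := Nat.div_le_div_right h4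
      rw [Finset.mem_range]
      omega
    · intro e he
      rw [Finset.mem_range] at he
      refine Finset.mem_filter.2 ⟨Finset.mem_Icc.2 ⟨?_, ?_⟩, Nat.dvd_mul_right _ _⟩
      · have : 0 < q * (e + 1) := Nat.mul_pos (by omega) (by omega)
        omega
      · calc q * (e + 1) ≤ q * (Q / q) := Nat.mul_le_mul_left _ (by omega)
          _ ≤ Q := Nat.mul_div_le _ _
    · intro d hd
      obtain ⟨h1, h2⟩ := Finset.mem_filter.1 hd
      obtain ⟨h3, h4⟩ := Finset.mem_Icc.1 h1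
      have h5 : 0 < d / q := Nat.div_pos (Nat.le_of_dvd (by omega) h2) (by omega)
      have h6 : d / q - 1 + 1 = d / q := by omega
      simp only [h6]
      exact Nat.mul_div_cancel' h2
    · intro e _
      simp only [Nat.mul_div_cancel_left _ (show 0 < q by omega)]
      omega
    · intro d hd
      obtain ⟨h1, h2⟩ := Finset.mem_filter.1 hd
      obtain ⟨h3, h4⟩ := Finset.mem_Icc.1 h1
      have h5 : 0 < d / q := Nat.div_pos (Nat.le_of_dvd (by omega) h2) (by omega)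
      have h6 : ((d / q - 1 : ℕ) : ℝ) + 1 = ((d / q : ℕ) : ℝ) := by
        rw [Nat.cast_sub (by omega)]
        push_cast
        ring
      have h7 : (d : ℝ) = q * ((d / q : ℕ) : ℝ) := by
        exact_mod_cast (Nat.mul_div_cancel' h2).symm
      have h8 : (0 : ℝ) < ((d / q : ℕ) : ℝ) := by exact_mod_cast h5
      rw [h6]
      nth_rewrite 1 [h7]
      field_simp
  rw [e1, ← Finset.mul_sum]
  refine mul_le_mul_of_nonneg_left ?_ (by positivity)
  have h1 := harmonic_le_one_add_log (Q / q)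
  have h2 : ((harmonic (Q / q) : ℚ) : ℝ) = ∑ e ∈ range (Q / q), ((e : ℝ) + 1)⁻¹ := by
    unfold harmonic
    push_cast
    rfl
  rw [h2] at h1
  refine h1.trans ?_
  have h3 : 0 < Q / q := Nat.div_pos hqQ (by omega)
  have h4 : ((Q / q : ℕ) : ℝ) ≤ (Q : ℝ) := by exact_mod_cast Nat.div_le_self Q q
  have h5 : Real.log ((Q / q : ℕ) : ℝ) ≤ Real.log (Q : ℝ) :=
    Real.log_le_log (by exact_mod_cast h3) h4
  linarith

private lemma F6_C_le (c : ℕ → ℝ) (Q q : ℕ) (hc : ∀ d, |c d| ≤ 3) (hq : 1 ≤ q) (hqQ : q ≤ Q) :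
    |F6_C c Q q| ≤ 3 / q * (1 + Real.log Q) := by
  unfold F6_C
  calc |∑ d ∈ Icc 1 Q, if q ∣ d then c d / d else 0|
      ≤ ∑ d ∈ Icc 1 Q, |if q ∣ d then c d / d else 0| := Finset.abs_sum_le_sum_abs _ _
    _ ≤ ∑ d ∈ Icc 1 Q, 3 * (if q ∣ d then (1 : ℝ) / d else 0) := by
        refine Finset.sum_le_sum fun d _ => ?_
        split_ifs
        · rw [abs_div, Nat.abs_cast, mul_one_div]
          exact div_le_div_of_nonneg_right (hc d) (Nat.cast_nonneg _)
        · simp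
    _ = 3 * ∑ d ∈ Icc 1 Q, (if q ∣ d then (1 : ℝ) / d else 0) := by rw [Finset.mul_sum]
    _ ≤ 3 * (1 / q * (1 + Real.log Q)) :=
        mul_le_mul_of_nonneg_left (F6_harm Q q hq hqQ) (by norm_num)
    _ = 3 / q * (1 + Real.log Q) := by ring

private lemma F6_C_zero (c : ℕ → ℝ) (Q q : ℕ) (hw : Wei Q c) (hq : ¬ (Odd q ∧ Squarefree q)) :
    F6_C c Q q = 0 := by
  unfold F6_C
  refine Finset.sum_eq_zero fun d _ => ?_
  split_ifs with h
  · have h1 : c d = 0 := by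
      by_contra hc
      obtain ⟨h2, h3, -⟩ := hw.sup d hc
      exact hq ⟨h2.of_dvd_nat h, h3.squarefree_of_dvd h⟩
    rw [h1, zero_div]
  · rfl

/-- the separation of the reduced fractions -/
private lemma F6_sep (Q a q b r : ℕ) (hq : 1 ≤ q) (hqQ : q ≤ Q) (hr : 1 ≤ r) (hrQ : r ≤ Q)
    (ha : a.Coprime q) (hb : b.Coprime r) (hne : ¬ (q = r ∧ a = b)) :
    1 / (Q : ℝ) ^ 2 ≤ |(a : ℝ) / q - (b : ℝ) / r| := by
  have hq0 : (0 : ℝ) < q := by exact_mod_cast hq
  have hr0 : (0 : ℝ) < r := by exact_mod_cast hr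
  have hQ0 : (0 : ℝ) < Q := lt_of_lt_of_le hq0 (by exact_mod_cast hqQ)
  have h1 : (a : ℤ) * r - b * q ≠ 0 := by
    intro h
    have h2 : a * r = b * q := by
      have : (a : ℤ) * r = b * q := by linarith
      exact_mod_cast this
    have h3 : q ∣ r := by
      have : q ∣ a * r := ⟨b, by rw [h2, Nat.mul_comm]⟩
      exact (Nat.Coprime.symm ha).dvd_of_dvd_mul_left this
    have h4 : r ∣ q := by
      have : r ∣ b * q := ⟨a, by rw [← h2, Nat.mul_comm]⟩
      exact (Nat.Coprime.symm hb).dvd_of_dvd_mul_left this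
    have h5 : q = r := Nat.dvd_antisymm h3 h4
    apply hne
    refine ⟨h5, ?_⟩
    rw [h5] at h2
    exact Nat.eq_of_mul_eq_mul_right (by omega) h2
  have h2 : (1 : ℝ) ≤ |(a : ℝ) * r - b * q| := by
    have h3 : (1 : ℤ) ≤ |(a : ℤ) * r - b * q| := Int.one_le_abs h1
    have h4 : ((1 : ℤ) : ℝ) ≤ ((|(a : ℤ) * r - b * q| : ℤ) : ℝ) := by exact_mod_cast h3
    push_cast at h4
    exact h4
  have h3 : (a : ℝ) / q - (b : ℝ) / r = ((a : ℝ) * r - b * q) / (q * r) := by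
    field_simp
  rw [h3, abs_div, abs_of_pos (mul_pos hq0 hr0)]
  have h4 : (q : ℝ) * r ≤ (Q : ℝ) ^ 2 := by
    rw [sq]
    exact mul_le_mul (by exact_mod_cast hqQ) (by exact_mod_cast hrQ) hr0.le hQ0.le
  calc 1 / (Q : ℝ) ^ 2 ≤ 1 / (q * r) := one_div_le_one_div_of_le (mul_pos hq0 hr0) h4
    _ ≤ |(a : ℝ) * r - b * q| / (q * r) := div_le_div_of_nonneg_right h2 (mul_pos hq0 hr0).le

theorem p_F6 (h1 : S_F1) (h2 : S_F2) (h3 : S_F3) (h5 : S_F5) (hL : S_L4) : S_F6 := by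
  classical
  refine ⟨234, by norm_num, ?_⟩
  intro X Q M c T hQ hw hT B hB hBT
  have hQ0 : (1 : ℝ) ≤ Q := by exact_mod_cast hQ
  have hlog : 0 ≤ Real.log Q := Real.log_nonneg hQ0
  rcases B.eq_empty_or_nonempty with hBe | hBne
  · subst hBe
    simp only [Finset.card_empty, Nat.cast_zero, zero_mul]
    positivity
  have hBc : (0 : ℝ) < B.card := by exact_mod_cast hBne.card_pos
  -- the sums
  set S : ℕ → ℝ := fun n => ∑ d ∈ Icc 1 Q, c d * rr M n d with hS
  set sg : ℕ → ℝ := fun n => if 0 ≤ S n then 1 else -1 with hsg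
  have hsg1 : ∀ n, sg n * S n = |S n| := by
    intro n
    simp only [hsg]
    split_ifs with h
    · rw [one_mul, abs_of_nonneg h]
    · rw [neg_one_mul, abs_of_neg (not_le.1 h)]
  have hsg2 : ∀ n, ‖((sg n : ℝ) : ℂ)‖ ^ 2 = 1 := by
    intro n
    simp only [hsg]
    split_ifs <;> simp
  set x : ℕ → ℂ := fun n => if n ∈ B then ((sg n : ℝ) : ℂ) else 0 with hx
  set I : Finset (Σ _ : ℕ, ℕ) := (Icc 2 Q).sigma F6_rd with hI
  set A : (Σ _ : ℕ, ℕ) → ℂ := fun s => ((F6_C c Q s.1 : ℝ) : ℂ) * Er M s.2 s.1 with hA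
  set pt : (Σ _ : ℕ, ℕ) → ℝ := fun s => (s.2 : ℝ) / s.1 with hpt
  -- expansion without the term of `q = 1`
  have hexp : ∀ n, ((S n : ℝ) : ℂ) = ∑ s ∈ I, A s * ee n (pt s) := by
    intro n
    have e1 := F6_exp h1 h2 h3 c Q M n
    have e2 : Icc 1 Q = insert 1 (Icc 2 Q) := by
      ext q
      simp only [Finset.mem_insert, Finset.mem_Icc]
      omega
    have e3 : (1 : ℕ) ∉ Icc 2 Q := by simp
    rw [show ((S n : ℝ) : ℂ) = _ from e1, e2, Finset.sum_insert e3, F6_rd_one,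
      Finset.sum_singleton, F6_Er_one, mul_zero, zero_mul, zero_add, hI, Finset.sum_sigma]
  -- duality
  have hdual : (T * B.card : ℝ) ≤ ‖∑ s ∈ I, A s * SS X x (pt s)‖ := by
    have e1 : (∑ n ∈ B, ((sg n : ℝ) : ℂ) * ((S n : ℝ) : ℂ)) = ∑ s ∈ I, A s * SS X x (pt s) := by
      have e2 : ∀ s ∈ I, A s * SS X x (pt s) = ∑ n ∈ B, A s * (((sg n : ℝ) : ℂ) * ee n (pt s)) := by
        intro s _
        unfold SS
        rw [← Finset.mul_sum]
        congr 1
        simp only [hx, ite_mul, zero_mul]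
        rw [← Finset.sum_filter]
        refine Finset.sum_congr ?_ fun _ _ => rfl
        ext n
        rw [Finset.mem_filter]
        exact ⟨fun h => h.2, fun h => ⟨hB h, h⟩⟩
      rw [Finset.sum_congr rfl e2, Finset.sum_comm]
      refine Finset.sum_congr rfl fun n _ => ?_
      rw [hexp n, Finset.mul_sum]
      refine Finset.sum_congr rfl fun s _ => ?_
      ring
    rw [← e1]
    have e3 : (∑ n ∈ B, ((sg n : ℝ) : ℂ) * ((S n : ℝ) : ℂ)) = ((∑ n ∈ B, |S n| : ℝ) : ℂ) := by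
      push_cast
      refine Finset.sum_congr rfl fun n _ => ?_
      rw [← hsg1 n]
      push_cast
      rfl
    rw [e3, Complex.norm_real, Real.norm_eq_abs]
    refine le_trans ?_ (le_abs_self _)
    calc T * B.card = ∑ _n ∈ B, T := by rw [Finset.sum_const, nsmul_eq_mul, mul_comm]
      _ ≤ ∑ n ∈ B, |S n| := Finset.sum_le_sum fun n hn => hBT n hn
  -- Cauchy-Schwarz
  have hcs : ‖∑ s ∈ I, A s * SS X x (pt s)‖ ^ 2 ≤
      (∑ s ∈ I, ‖A s‖ ^ 2) * ∑ s ∈ I, ‖SS X x (pt s)‖ ^ 2 := by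
    calc ‖∑ s ∈ I, A s * SS X x (pt s)‖ ^ 2
        ≤ (∑ s ∈ I, ‖A s‖ * ‖SS X x (pt s)‖) ^ 2 := by
          refine pow_le_pow_left₀ (norm_nonneg _) ?_ 2
          refine (norm_sum_le _ _).trans (le_of_eq ?_)
          exact Finset.sum_congr rfl fun s _ => norm_mul _ _
      _ ≤ _ := Finset.sum_mul_sq_le_sq_mul_sq _ _ _
  -- the large sieve
  have hls : ∑ s ∈ I, ‖SS X x (pt s)‖ ^ 2 ≤ 13 * ((Q : ℝ) ^ 2 + X) * B.card := by
    have hδ : (0 : ℝ) < 1 / (Q : ℝ) ^ 2 := by positivity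
    have e1 := large_sieve_points I pt hδ ?_ ?_ X x
    · refine e1.trans ?_
      have e2 : ∑ n ∈ Icc 1 X, ‖x n‖ ^ 2 = B.card := by
        have e3 : ∀ n ∈ Icc 1 X, ‖x n‖ ^ 2 = if n ∈ B then (1 : ℝ) else 0 := by
          intro n _
          simp only [hx]
          split_ifs
          · exact hsg2 n
          · simp
        rw [Finset.sum_congr rfl e3, ← Finset.sum_filter, Finset.sum_const, nsmul_eq_mul, mul_one]
        congr 2
        ext n
        rw [Finset.mem_filter]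
        exact ⟨fun h => h.2, fun h => ⟨hB h, h⟩⟩
      rw [e2]
      refine mul_le_mul_of_nonneg_right ?_ hBc.le
      rw [one_div, inv_inv]
      have hpi : Real.pi ≤ 13 / 4 := by linarith [Real.pi_lt_d2]
      have hX : (0 : ℝ) ≤ X := Nat.cast_nonneg _
      nlinarith [sq_nonneg (Q : ℝ)]
    · rintro ⟨q, a⟩ hs ⟨r, b⟩ ht hne
      rw [hI, Finset.mem_sigma, Finset.mem_Icc] at hs ht
      obtain ⟨⟨hq1, hq2⟩, ha⟩ := hs
      obtain ⟨⟨hr1, hr2⟩, hb⟩ := ht
      simp only [F6_rd, Finset.mem_filter] at ha hb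
      simp only at hq1 hq2 hr1 hr2
      refine F6_sep Q a q b r (by omega) hq2 (by omega) hr2 ha.2 hb.2 ?_
      rintro ⟨rfl, rfl⟩
      exact hne rfl
    · rintro ⟨q, a⟩ hs
      rw [hI, Finset.mem_sigma, Finset.mem_Icc] at hs
      obtain ⟨⟨hq1, hq2⟩, ha⟩ := hs
      simp only [F6_rd, Finset.mem_filter, Finset.mem_range] at ha
      simp only at hq1 hq2
      obtain ⟨ha1, ha2⟩ := ha
      have ha0 : 1 ≤ a := by
        rcases Nat.eq_zero_or_pos a with h | h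
        · rw [h, Nat.coprime_zero_left] at ha2
          omega
        · exact h
      have hq0 : (0 : ℝ) < q := by
        have : 0 < q := by omega
        exact_mod_cast this
      have hqQ : (q : ℝ) ≤ Q := by exact_mod_cast hq2
      have hd : 1 / (Q : ℝ) ^ 2 / 2 ≤ 1 / (q : ℝ) := by
        rw [div_div]
        refine one_div_le_one_div_of_le hq0 ?_
        nlinarith
      show 1 / (Q : ℝ) ^ 2 / 2 ≤ (a : ℝ) / q ∧ (a : ℝ) / q ≤ 1 - 1 / (Q : ℝ) ^ 2 / 2
      constructor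
      · refine hd.trans (div_le_div_of_nonneg_right ?_ hq0.le)
        exact_mod_cast ha0
      · have h6 : (a : ℝ) / q ≤ 1 - 1 / (q : ℝ) := by
          have h7 : (a : ℝ) + 1 ≤ q := by exact_mod_cast ha1
          rw [le_sub_iff_add_le, ← add_div, div_le_one hq0]
          exact h7
        linarith
  -- the first factor
  have hA2 : ∑ s ∈ I, ‖A s‖ ^ 2 ≤ 18 * M * (1 + Real.log Q) ^ 4 := by
    rw [hI, Finset.sum_sigma]
    have e1 : ∀ q ∈ Icc 2 Q, ∑ b ∈ F6_rd q, ‖A ⟨q, b⟩‖ ^ 2 ≤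
        18 * M * (1 + Real.log Q) ^ 2 * ((2 : ℝ) ^ q.primeFactors.card / q) := by
      intro q hq
      obtain ⟨hq1, hq2⟩ := Finset.mem_Icc.1 hq
      have hq0 : (0 : ℝ) < q := by
        have : 0 < q := by omega
        exact_mod_cast this
      have e2 : ∑ b ∈ F6_rd q, ‖A ⟨q, b⟩‖ ^ 2 = F6_C c Q q ^ 2 * ∑ b ∈ F6_rd q, ‖Er M b q‖ ^ 2 := by
        rw [Finset.mul_sum]
        refine Finset.sum_congr rfl fun b _ => ?_
        simp only [hA]
        rw [norm_mul, mul_pow, Complex.norm_real, Real.norm_eq_abs, sq_abs]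
      rw [e2]
      by_cases ho : Odd q ∧ Squarefree q
      · have e3 : ∑ b ∈ F6_rd q, ‖Er M b q‖ ^ 2 ≤ q * (2 ^ q.primeFactors.card * (2 * M)) := by
          refine le_trans ?_ (h5 M q ho.1 ho.2)
          exact Finset.sum_le_sum_of_subset_of_nonneg (Finset.filter_subset _ _)
            fun _ _ _ => sq_nonneg _
        have e4 : F6_C c Q q ^ 2 ≤ (3 / q * (1 + Real.log Q)) ^ 2 := by
          rw [← sq_abs]
          exact pow_le_pow_left₀ (abs_nonneg _) (F6_C_le c Q q hw.bd (by omega) hq2) 2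
        calc F6_C c Q q ^ 2 * ∑ b ∈ F6_rd q, ‖Er M b q‖ ^ 2
            ≤ (3 / q * (1 + Real.log Q)) ^ 2 * (q * (2 ^ q.primeFactors.card * (2 * M))) :=
              mul_le_mul e4 e3 (Finset.sum_nonneg fun _ _ => sq_nonneg _) (sq_nonneg _)
          _ = _ := by
              field_simp
              ring
      · rw [F6_C_zero c Q q hw ho]
        have : (0 : ℝ) ≤ 18 * M * (1 + Real.log Q) ^ 2 * ((2 : ℝ) ^ q.primeFactors.card / q) := by
          positivity
        simpa using this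
    refine (Finset.sum_le_sum e1).trans ?_
    rw [← Finset.mul_sum]
    have e5 : ∑ q ∈ Icc 2 Q, (2 : ℝ) ^ q.primeFactors.card / q ≤ (1 + Real.log Q) ^ 2 := by
      refine le_trans ?_ (hL Q hQ).2
      refine Finset.sum_le_sum_of_subset_of_nonneg (Finset.Icc_subset_Icc_left (by norm_num)) ?_
      intro _ _ _
      positivity
    calc 18 * M * (1 + Real.log Q) ^ 2 * ∑ q ∈ Icc 2 Q, (2 : ℝ) ^ q.primeFactors.card / q
        ≤ 18 * M * (1 + Real.log Q) ^ 2 * (1 + Real.log Q) ^ 2 :=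
          mul_le_mul_of_nonneg_left e5 (by positivity)
      _ = 18 * M * (1 + Real.log Q) ^ 4 := by ring
  -- conclusion
  have hfin : (T * B.card) ^ 2 ≤
      (18 * M * (1 + Real.log Q) ^ 4) * (13 * ((Q : ℝ) ^ 2 + X) * B.card) := by
    calc (T * B.card) ^ 2 ≤ ‖∑ s ∈ I, A s * SS X x (pt s)‖ ^ 2 :=
          pow_le_pow_left₀ (by positivity) hdual 2
      _ ≤ _ := hcs
      _ ≤ _ := mul_le_mul hA2 hls (Finset.sum_nonneg fun _ _ => sq_nonneg _) (by positivity)
  have hfin2 : (B.card : ℝ) * T ^ 2 * B.card ≤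
      (234 * ((Q : ℝ) ^ 2 + X) * M * (1 + Real.log Q) ^ 4) * B.card := by
    calc (B.card : ℝ) * T ^ 2 * B.card = (T * B.card) ^ 2 := by ring
      _ ≤ _ := hfin
      _ = _ := by ring
  exact le_of_mul_le_mul_right hfin2 hBc

end Pool.Agent.PSq
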