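import Pool.Agent.Lib.MP_6b8fc7_nt.Stm

set_option autoImplicit false

/-!
# MP_6b8fc7_nt, piece L1: the local densities
-/

namespace Pool.Agent.PSq

open Finset

/-- `rho` as the number of solutions in `ZMod d`. -/
lemma L1_rho_eq (n d : ℕ) [NeZero d] :
    rho n d = ((Finset.univ : Finset (ZMod d)).filter
      (fun x : ZMod d => (n : ZMod d) - 2 * x ^ 2 = 0)).card := by
  unfold rho
  refine Finset.card_bij (fun m _ => (m : ZMod d)) ?_ ?_ ?_
  · intro m hm
    rw [Finset.mem_filter] at hm ⊢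
    refine ⟨Finset.mem_univ _, ?_⟩
    have h := (ZMod.intCast_zmod_eq_zero_iff_dvd ((n : ℤ) - 2 * (m : ℤ) ^ 2) d).2 hm.2
    push_cast at h
    exact h
  · intro a ha b hb hab
    rw [Finset.mem_filter, Finset.mem_range] at ha hb
    have h := (ZMod.natCast_eq_natCast_iff' a b d).1 hab
    rwa [Nat.mod_eq_of_lt ha.1, Nat.mod_eq_of_lt hb.1] at h
  · intro x hx
    rw [Finset.mem_filter] at hx
    refine ⟨x.val, ?_, by simp⟩
    rw [Finset.mem_filter, Finset.mem_range]
    refine ⟨ZMod.val_lt x, ?_⟩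
    rw [← ZMod.intCast_zmod_eq_zero_iff_dvd]
    push_cast
    simpa using hx.2

lemma L1_mul (n a b : ℕ) [NeZero a] [NeZero b] (hab : a.Coprime b) :
    rho n (a * b) = rho n a * rho n b := by
  haveI : NeZero (a * b) := ⟨mul_ne_zero (NeZero.ne a) (NeZero.ne b)⟩
  rw [L1_rho_eq, L1_rho_eq, L1_rho_eq, ← Finset.card_product]
  let e := ZMod.chineseRemainder hab
  refine Finset.card_bij (fun x _ => e x) ?_ ?_ ?_
  · intro x hx
    rw [Finset.mem_filter] at hx
    rw [Finset.mem_product, Finset.mem_filter, Finset.mem_filter]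
    have h := congrArg e hx.2
    rw [map_sub, map_mul, map_pow, map_natCast, map_ofNat, map_zero] at h
    have h1 := congrArg Prod.fst h
    have h2 := congrArg Prod.snd h
    refine ⟨⟨Finset.mem_univ _, ?_⟩, Finset.mem_univ _, ?_⟩
    · simpa using h1
    · simpa using h2
  · intro x _ y _ hxy
    exact e.injective hxy
  · intro y hy
    rw [Finset.mem_product, Finset.mem_filter, Finset.mem_filter] at hy
    refine ⟨e.symm y, ?_, e.apply_symm_apply y⟩
    rw [Finset.mem_filter]
    refine ⟨Finset.mem_univ _, ?_⟩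
    apply e.injective
    rw [map_sub, map_mul, map_pow, map_natCast, map_ofNat, map_zero, e.apply_symm_apply]
    ext
    · simpa using hy.1.2
    · simpa using hy.2.2

lemma L1_prime (n p : ℕ) (hp : p.Prime) (h2 : p ≠ 2) : (rho n p : ℝ) = 1 + chi n p := by
  haveI : Fact p.Prime := ⟨hp⟩
  have h := legendreSym.card_sqrts p h2 (2 * (n : ℤ))
  have h20 : (2 : ZMod p) ≠ 0 := by
    intro h0
    have h1 : ((2 : ℕ) : ZMod p) = 0 := by exact_mod_cast h0
    rw [ZMod.natCast_eq_zero_iff] at h1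
    exact h2 ((Nat.prime_dvd_prime_iff_eq hp Nat.prime_two).1 h1)
  have h3 : rho n p = {x : ZMod p | x ^ 2 = ((2 * (n : ℤ) : ℤ) : ZMod p)}.toFinset.card := by
    rw [L1_rho_eq]
    refine Finset.card_bij (fun x _ => 2 * x) ?_ ?_ ?_
    · intro x hx
      rw [Finset.mem_filter] at hx
      rw [Set.mem_toFinset, Set.mem_ofPred_eq]
      push_cast
      linear_combination (-2 : ZMod p) * hx.2
    · intro x _ y _ hxy
      exact mul_left_cancel₀ h20 hxy
    · intro y hy
      rw [Set.mem_toFinset, Set.mem_ofPred_eq] at hy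
      push_cast at hy
      refine ⟨y / 2, ?_, ?_⟩
      · rw [Finset.mem_filter]
        refine ⟨Finset.mem_univ _, ?_⟩
        field_simp
        linear_combination -hy
      · field_simp
  rw [← h3] at h
  unfold chi
  rw [← jacobiSym.legendreSym.to_jacobiSym]
  have h4 : ((rho n p : ℤ) : ℝ) = ((legendreSym p (2 * (n : ℤ)) + 1 : ℤ) : ℝ) := by
    rw [h]
  push_cast at h4
  rw [h4]
  ring

lemma L1_prod (n : ℕ) (s : Finset ℕ) (hs : ∀ p ∈ s, p.Prime ∧ p ≠ 2) :
    (rho n (∏ p ∈ s, p) : ℝ) = ∏ p ∈ s, (1 + chi n p) := by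
  classical
  induction s using Finset.induction_on with
  | empty =>
    rw [Finset.prod_empty, Finset.prod_empty]
    simp [rho]
  | insert a t ha ih =>
    rw [Finset.prod_insert ha, Finset.prod_insert ha, ← ih fun p hp => hs p
      (Finset.mem_insert_of_mem hp), ← L1_prime n a (hs a (Finset.mem_insert_self _ _)).1
      (hs a (Finset.mem_insert_self _ _)).2, ← Nat.cast_mul]
    congr 1
    have hpa := (hs a (Finset.mem_insert_self _ _)).1
    have ht : ∀ p ∈ t, p.Prime := fun p hp => (hs p (Finset.mem_insert_of_mem hp)).1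
    haveI : NeZero a := ⟨hpa.ne_zero⟩
    haveI : NeZero (∏ p ∈ t, p) := ⟨Finset.prod_ne_zero_iff.2 fun p hp => (ht p hp).ne_zero⟩
    apply L1_mul
    apply Nat.Coprime.prod_right
    intro p hp
    rw [Nat.coprime_primes hpa (ht p hp)]
    rintro rfl
    exact ha hp

lemma L1_chi (n p : ℕ) : -1 ≤ chi n p ∧ chi n p ≤ 1 := by
  unfold chi
  rcases jacobiSym.trichotomy (2 * (n : ℤ)) p with h | h | h <;> rw [h] <;> norm_num

/-- L1 -/
theorem p_L1 : S_L1 := by
  intro n d hodd hsq
  have hd0 : d ≠ 0 := by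
    rintro rfl
    exact (Nat.not_odd_zero) hodd
  have h1 : (rho n d : ℝ) = ∏ p ∈ d.primeFactors, (1 + chi n p) := by
    have h2 := L1_prod n d.primeFactors fun p hp => by
      refine ⟨Nat.prime_of_mem_primeFactors hp, ?_⟩
      rintro rfl
      have h3 := Nat.dvd_of_mem_primeFactors hp
      exact (Nat.not_even_iff_odd.2 hodd) (even_iff_two_dvd.2 h3)
    rwa [Nat.prod_primeFactors_of_squarefree hsq] at h2
  refine ⟨h1, ?_, ?_⟩
  · rw [h1, ← Finset.prod_const]
    refine Finset.prod_le_prod (fun p _ => ?_) fun p _ => ?_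
    · linarith [(L1_chi n p).1]
    · linarith [(L1_chi n p).2]
  · rw [h1]
    unfold gn
    rw [Finset.prod_div_distrib]
    congr 1
    have h2 := Nat.prod_primeFactors_of_squarefree hsq
    have h3 : ((∏ p ∈ d.primeFactors, p : ℕ) : ℝ) = (d : ℝ) := by rw [h2]
    rw [← h3]
    push_cast
    rfl

end Pool.Agent.PSq
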