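import Pool.Agent.Lib.MP_6b8fc7_nt.Stm

set_option autoImplicit false

/-!
[P6 L2] the remainder is at most the number of the residues.
-/

namespace Pool.Agent.PSq

open Finset

/-- the number of the `m ∈ [1, M]` in a residue class -/
private lemma L2_class (M d v : ℕ) (hd : 1 ≤ d) :
    |(((Icc 1 M).filter (fun m : ℕ => m % d = v % d)).card : ℝ) - (M : ℝ) / (d : ℝ)| ≤ 1 := by
  have h0 : (Icc 1 M).filter (fun m : ℕ => m % d = v % d) =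
      (Ioc 0 M).filter (fun m : ℕ => m ≡ v [MOD d]) := by
    ext m
    rw [Finset.mem_filter, Finset.mem_filter, Finset.mem_Icc, Finset.mem_Ioc]
    exact Iff.rfl
  have h1 := Nat.Ioc_filter_modEq_card 0 M (r := d) (by omega) v
  rw [h0]
  obtain ⟨A, hA⟩ : ∃ A : ℤ, A = ⌊((M : ℚ) - (v : ℚ)) / (d : ℚ)⌋ := ⟨_, rfl⟩
  obtain ⟨B, hB⟩ : ∃ B : ℤ, B = ⌊(((0 : ℕ) : ℚ) - (v : ℚ)) / (d : ℚ)⌋ := ⟨_, rfl⟩
  rw [← hA, ← hB] at h1
  have hdq : (0 : ℚ) < (d : ℚ) := by exact_mod_cast hd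
  have hA1 : (A : ℚ) ≤ ((M : ℚ) - (v : ℚ)) / (d : ℚ) := by rw [hA]; exact Int.floor_le _
  have hA2 : ((M : ℚ) - (v : ℚ)) / (d : ℚ) < (A : ℚ) + 1 := by rw [hA]; exact Int.lt_floor_add_one _
  have hB1 : (B : ℚ) ≤ (((0 : ℕ) : ℚ) - (v : ℚ)) / (d : ℚ) := by rw [hB]; exact Int.floor_le _
  have hB2 : (((0 : ℕ) : ℚ) - (v : ℚ)) / (d : ℚ) < (B : ℚ) + 1 := by
    rw [hB]; exact Int.lt_floor_add_one _
  have hdiff : ((M : ℚ) - (v : ℚ)) / (d : ℚ) - (((0 : ℕ) : ℚ) - (v : ℚ)) / (d : ℚ) =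
      (M : ℚ) / (d : ℚ) := by
    rw [← sub_div]
    push_cast
    congr 1
    ring
  have hM0 : (0 : ℚ) ≤ (M : ℚ) / (d : ℚ) := by positivity
  obtain ⟨c, hc⟩ : ∃ c : ℕ, c = ((Ioc 0 M).filter (fun m : ℕ => m ≡ v [MOD d])).card := ⟨_, rfl⟩
  rw [← hc] at h1 ⊢
  have hcq : (c : ℚ) = max ((A : ℚ) - (B : ℚ)) 0 := by
    have h2 : ((c : ℤ) : ℚ) = ((max (A - B) 0 : ℤ) : ℚ) := by rw [h1]
    rw [Int.cast_max, Int.cast_sub, Int.cast_zero, Int.cast_natCast] at h2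
    exact h2
  have hq : |(c : ℚ) - (M : ℚ) / (d : ℚ)| ≤ 1 := by
    rw [hcq, abs_le]
    constructor
    · have := le_max_left ((A : ℚ) - (B : ℚ)) 0
      linarith
    · rcases le_total ((A : ℚ) - (B : ℚ)) 0 with h | h
      · rw [max_eq_right h]; linarith
      · rw [max_eq_left h]; linarith
  have hq2 : ((|(c : ℚ) - (M : ℚ) / (d : ℚ)| : ℚ) : ℝ) ≤ ((1 : ℚ) : ℝ) := Rat.cast_le.2 hq
  rw [Rat.cast_abs, Rat.cast_sub, Rat.cast_div, Rat.cast_natCast, Rat.cast_natCast,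
    Rat.cast_natCast, Rat.cast_one] at hq2
  exact hq2

/-- the property depends only on the residue -/
private lemma L2_mod (n d m : ℕ) :
    (d : ℤ) ∣ (n : ℤ) - 2 * (m : ℤ) ^ 2 ↔ (d : ℤ) ∣ (n : ℤ) - 2 * ((m % d : ℕ) : ℤ) ^ 2 := by
  have h1 : (d : ℤ) ∣ (m : ℤ) - ((m % d : ℕ) : ℤ) := by
    rw [Int.natCast_mod]
    exact Int.dvd_self_sub_emod
  have h2 : (d : ℤ) ∣ ((n : ℤ) - 2 * ((m % d : ℕ) : ℤ) ^ 2) - ((n : ℤ) - 2 * (m : ℤ) ^ 2) := by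
    have h3 : ((n : ℤ) - 2 * ((m % d : ℕ) : ℤ) ^ 2) - ((n : ℤ) - 2 * (m : ℤ) ^ 2) =
        ((m : ℤ) - ((m % d : ℕ) : ℤ)) * (2 * ((m : ℤ) + ((m % d : ℕ) : ℤ))) := by ring
    rw [h3]
    exact Dvd.dvd.mul_right h1 _
  constructor
  · intro h
    have := dvd_add h2 h
    rwa [sub_add_cancel] at this
  · intro h
    have := dvd_sub h h2
    rwa [sub_sub_cancel] at this

theorem p_L2 : S_L2 := by
  intro M n d hd
  classical
  have hdpos : 0 < d := hd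
  obtain ⟨R, hR⟩ : ∃ R, R = (range d).filter
      (fun m : ℕ => (d : ℤ) ∣ (n : ℤ) - 2 * (m : ℤ) ^ 2) := ⟨_, rfl⟩
  have hrho : rho n d = R.card := by rw [hR]; rfl
  have hcnt : (cnt M n d : ℝ) =
      ∑ v ∈ R, (((Icc 1 M).filter (fun m : ℕ => m % d = v % d)).card : ℝ) := by
    have h1 : cnt M n d = ∑ v ∈ R, ((Icc 1 M).filter (fun m : ℕ => m % d = v % d)).card := by
      have h2 : ((Icc 1 M).filter (fun m : ℕ => (d : ℤ) ∣ (n : ℤ) - 2 * (m : ℤ) ^ 2)).card =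
          ∑ v ∈ R, (((Icc 1 M).filter (fun m : ℕ => (d : ℤ) ∣ (n : ℤ) - 2 * (m : ℤ) ^ 2)).filter
            (fun m => m % d = v)).card := by
        apply Finset.card_eq_sum_card_fiberwise
        intro m hm
        rw [Finset.mem_coe, Finset.mem_filter] at hm
        rw [Finset.mem_coe, hR, Finset.mem_filter, Finset.mem_range]
        exact ⟨Nat.mod_lt _ hdpos, (L2_mod n d m).1 hm.2⟩
      show ((Icc 1 M).filter (fun m : ℕ => (d : ℤ) ∣ (n : ℤ) - 2 * (m : ℤ) ^ 2)).card = _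
      rw [h2]
      apply Finset.sum_congr rfl
      intro v hv
      rw [hR, Finset.mem_filter, Finset.mem_range] at hv
      congr 1
      ext m
      rw [Finset.mem_filter, Finset.mem_filter, Finset.mem_filter, Nat.mod_eq_of_lt hv.1]
      constructor
      · rintro ⟨⟨h3, -⟩, h5⟩
        exact ⟨h3, h5⟩
      · rintro ⟨h3, h5⟩
        refine ⟨⟨h3, ?_⟩, h5⟩
        rw [L2_mod, h5]
        exact hv.2
    rw [h1]
    push_cast
    rfl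
  have hsum : (cnt M n d : ℝ) - (M : ℝ) * (rho n d : ℝ) / (d : ℝ) =
      ∑ v ∈ R, ((((Icc 1 M).filter (fun m : ℕ => m % d = v % d)).card : ℝ) - (M : ℝ) / (d : ℝ)) := by
    rw [Finset.sum_sub_distrib, ← hcnt, Finset.sum_const, nsmul_eq_mul, hrho]
    congr 1
    ring
  show |(cnt M n d : ℝ) - (M : ℝ) * (rho n d : ℝ) / (d : ℝ)| ≤ (rho n d : ℝ)
  rw [hsum]
  calc |∑ v ∈ R, ((((Icc 1 M).filter (fun m : ℕ => m % d = v % d)).card : ℝ) - (M : ℝ) / (d : ℝ))|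
      ≤ ∑ v ∈ R, |(((Icc 1 M).filter (fun m : ℕ => m % d = v % d)).card : ℝ) - (M : ℝ) / (d : ℝ)| :=
        Finset.abs_sum_le_sum_abs _ _
    _ ≤ ∑ v ∈ R, (1 : ℝ) := Finset.sum_le_sum fun v _ => L2_class M d v hd
    _ = (rho n d : ℝ) := by rw [Finset.sum_const, nsmul_eq_mul, mul_one, hrho]

end Pool.Agent.PSq
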