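import Pool.Agent.Lib.MP_6b8fc7_nt.Stm

set_option autoImplicit false

/-!
# MP_6b8fc7_nt, piece L3: squares of primes dividing `n - 2 m ^ 2` (helper7)
-/

namespace Pool.Agent.PSq

open Finset

/-- one residue class -/
private lemma L3_class (M q : ℕ) (hq : 0 < q) (c : ℤ) :
    (((Icc 1 M).filter (fun m : ℕ => (q : ℤ) ∣ (m : ℤ) - c)).card : ℝ) ≤ M / q + 1 := by
  have hq' : (0 : ℤ) < (q : ℤ) := by exact_mod_cast hq
  have h1 : ((Icc 1 M).filter (fun m : ℕ => (q : ℤ) ∣ (m : ℤ) - c)).card ≤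
      ((Ioc (0 : ℤ) (M : ℤ)).filter (fun x : ℤ => x ≡ c [ZMOD (q : ℤ)])).card := by
    refine card_le_card_of_injOn (fun m : ℕ => (m : ℤ)) ?_ ?_
    · intro m hm
      rw [mem_coe, mem_filter, mem_Icc] at hm
      rw [mem_coe, mem_filter, mem_Ioc]
      change ((0 : ℤ) < (m : ℤ) ∧ (m : ℤ) ≤ (M : ℤ)) ∧ (m : ℤ) ≡ c [ZMOD (q : ℤ)]
      refine ⟨⟨by omega, by omega⟩, ?_⟩
      exact (Int.modEq_iff_dvd.2 hm.2).symm
    · intro a _ b _ hab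
      have hab' : (a : ℤ) = (b : ℤ) := hab
      exact_mod_cast hab'
  have h2 := Int.Ioc_filter_modEq_card (0 : ℤ) (M : ℤ) hq' c
  have h3 : ((⌊((M : ℤ) - c : ℚ) / ((q : ℤ) : ℚ)⌋ - ⌊((0 : ℤ) - c : ℚ) / ((q : ℤ) : ℚ)⌋ : ℤ) : ℚ)
      ≤ (M : ℚ) / q + 1 := by
    have a1 := Int.floor_le (((M : ℤ) - c : ℚ) / ((q : ℤ) : ℚ))
    have a2 := Int.lt_floor_add_one (((0 : ℤ) - c : ℚ) / ((q : ℤ) : ℚ))
    push_cast at a1 a2 ⊢
    have a3 : ((M : ℚ) - c) / q = (M : ℚ) / q + (0 - c) / q := by ring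
    have a4 := a1.trans_eq a3
    linarith
  have h4 : ((((Ioc (0 : ℤ) (M : ℤ)).filter (fun x : ℤ => x ≡ c [ZMOD (q : ℤ)])).card : ℤ) : ℚ)
      ≤ (M : ℚ) / q + 1 := by
    rw [h2]
    push_cast
    apply max_le
    · push_cast at h3
      exact h3
    · positivity
  have h5 : (((Icc 1 M).filter (fun m : ℕ => (q : ℤ) ∣ (m : ℤ) - c)).card : ℚ) ≤
      (M : ℚ) / q + 1 := by
    refine le_trans ?_ h4
    exact_mod_cast h1
  have h6 : ((((Icc 1 M).filter (fun m : ℕ => (q : ℤ) ∣ (m : ℤ) - c)).card : ℚ) : ℝ) ≤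
      (((M : ℚ) / q + 1 : ℚ) : ℝ) := by exact_mod_cast h5
  push_cast at h6
  exact h6

/-- the primes not dividing `n` -/
private lemma L3_good (M n p : ℕ) (hp : p.Prime) (hp3 : 3 ≤ p) (hn : ¬ p ∣ n) :
    (((Icc 1 M).filter (fun m : ℕ => ((p : ℤ) ^ 2) ∣ (n : ℤ) - 2 * (m : ℤ) ^ 2)).card : ℝ)
      ≤ 2 * (M * ((p : ℝ) ^ 2)⁻¹ + 1) := by
  have hpi : Prime (p : ℤ) := Nat.prime_iff_prime_int.1 hp
  have hp2 : ¬ (p : ℤ) ∣ 2 := by
    intro h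
    have h' : p ∣ 2 := by exact_mod_cast h
    have := Nat.le_of_dvd (by norm_num) h'
    omega
  have hpn : ¬ (p : ℤ) ∣ (n : ℤ) := by
    intro h
    exact hn (by exact_mod_cast h)
  rcases ((Icc 1 M).filter (fun m : ℕ => ((p : ℤ) ^ 2) ∣ (n : ℤ) - 2 * (m : ℤ) ^ 2)).eq_empty_or_nonempty
    with h0 | ⟨m0, h0⟩
  · rw [h0]
    simp only [card_empty, Nat.cast_zero]
    positivity
  have h00 := (mem_filter.1 h0).2
  have hm0 : ¬ (p : ℤ) ∣ (m0 : ℤ) := by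
    intro h
    apply hpn
    have h1 : (p : ℤ) ∣ (n : ℤ) - 2 * (m0 : ℤ) ^ 2 := (dvd_pow_self _ two_ne_zero).trans h00
    have h2 : (p : ℤ) ∣ 2 * (m0 : ℤ) ^ 2 := Dvd.dvd.mul_left (h.trans (dvd_pow_self _ two_ne_zero)) 2
    have h3 := dvd_add h1 h2
    rwa [sub_add_cancel] at h3
  have hsub : (Icc 1 M).filter (fun m : ℕ => ((p : ℤ) ^ 2) ∣ (n : ℤ) - 2 * (m : ℤ) ^ 2) ⊆
      ((Icc 1 M).filter (fun m : ℕ => ((p ^ 2 : ℕ) : ℤ) ∣ (m : ℤ) - (m0 : ℤ))) ∪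
      ((Icc 1 M).filter (fun m : ℕ => ((p ^ 2 : ℕ) : ℤ) ∣ (m : ℤ) - (-(m0 : ℤ)))) := by
    intro m hm
    obtain ⟨hm1, hm2⟩ := mem_filter.1 hm
    have h1 : ((p : ℤ) ^ 2) ∣ 2 * (((m : ℤ) - m0) * ((m : ℤ) + m0)) := by
      have h2 := dvd_sub h00 hm2
      have e : (n : ℤ) - 2 * (m0 : ℤ) ^ 2 - ((n : ℤ) - 2 * (m : ℤ) ^ 2) =
          2 * (((m : ℤ) - m0) * ((m : ℤ) + m0)) := by ring
      rwa [e] at h2
    have hc2 : IsCoprime ((p : ℤ) ^ 2) 2 := ((hpi.coprime_iff_not_dvd).2 hp2).pow_left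
    have h3 : ((p : ℤ) ^ 2) ∣ ((m : ℤ) - m0) * ((m : ℤ) + m0) := hc2.dvd_of_dvd_mul_left h1
    rw [mem_union, mem_filter, mem_filter, sub_neg_eq_add, Nat.cast_pow]
    by_cases h4 : (p : ℤ) ∣ (m : ℤ) - m0
    · have h5 : ¬ (p : ℤ) ∣ (m : ℤ) + m0 := by
        intro h5
        have h6 := dvd_sub h5 h4
        have e : (m : ℤ) + m0 - ((m : ℤ) - m0) = 2 * m0 := by ring
        rw [e] at h6
        rcases hpi.dvd_or_dvd h6 with h7 | h7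
        · exact hp2 h7
        · exact hm0 h7
      left
      have hc : IsCoprime ((p : ℤ) ^ 2) ((m : ℤ) + m0) :=
        ((hpi.coprime_iff_not_dvd).2 h5).pow_left
      exact ⟨hm1, hc.dvd_of_dvd_mul_right h3⟩
    · right
      have hc : IsCoprime ((p : ℤ) ^ 2) ((m : ℤ) - m0) :=
        ((hpi.coprime_iff_not_dvd).2 h4).pow_left
      exact ⟨hm1, hc.dvd_of_dvd_mul_left h3⟩
  have hpos : 0 < p ^ 2 := pow_pos hp.pos 2
  have c1 := L3_class M (p ^ 2) hpos (m0 : ℤ)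
  have c2 := L3_class M (p ^ 2) hpos (-(m0 : ℤ))
  have c3 := (card_le_card hsub).trans (card_union_le _ _)
  have c4 : (((Icc 1 M).filter (fun m : ℕ => ((p : ℤ) ^ 2) ∣ (n : ℤ) - 2 * (m : ℤ) ^ 2)).card : ℝ) ≤
      (((Icc 1 M).filter (fun m : ℕ => ((p ^ 2 : ℕ) : ℤ) ∣ (m : ℤ) - (m0 : ℤ))).card : ℝ) +
      (((Icc 1 M).filter (fun m : ℕ => ((p ^ 2 : ℕ) : ℤ) ∣ (m : ℤ) - (-(m0 : ℤ)))).card : ℝ) := by
    exact_mod_cast c3
  have e : (M : ℝ) / ((p ^ 2 : ℕ) : ℝ) = M * ((p : ℝ) ^ 2)⁻¹ := by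
    rw [Nat.cast_pow, div_eq_mul_inv]
  rw [e] at c1 c2
  linarith

/-- the primes dividing `n` -/
private lemma L3_bad (M n p : ℕ) (hp : p.Prime) (hp3 : 3 ≤ p) (hn : p ∣ n) :
    (((Icc 1 M).filter (fun m : ℕ => ((p : ℤ) ^ 2) ∣ (n : ℤ) - 2 * (m : ℤ) ^ 2)).card : ℝ)
      ≤ M / p := by
  have hpi : Prime (p : ℤ) := Nat.prime_iff_prime_int.1 hp
  have hp2 : ¬ (p : ℤ) ∣ 2 := by
    intro h
    have h' : p ∣ 2 := by exact_mod_cast h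
    have := Nat.le_of_dvd (by norm_num) h'
    omega
  have hsub : (Icc 1 M).filter (fun m : ℕ => ((p : ℤ) ^ 2) ∣ (n : ℤ) - 2 * (m : ℤ) ^ 2) ⊆
      (Ioc 0 M).filter (fun m : ℕ => p ∣ m) := by
    intro m hm
    obtain ⟨hm1, hm2⟩ := mem_filter.1 hm
    rw [mem_Icc] at hm1
    rw [mem_filter, mem_Ioc]
    refine ⟨⟨by omega, hm1.2⟩, ?_⟩
    have h1 : (p : ℤ) ∣ (n : ℤ) - 2 * (m : ℤ) ^ 2 := (dvd_pow_self _ two_ne_zero).trans hm2
    have h2 : (p : ℤ) ∣ (n : ℤ) := by exact_mod_cast hn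
    have h3 := dvd_sub h2 h1
    rw [sub_sub_cancel] at h3
    rcases hpi.dvd_or_dvd h3 with h4 | h4
    · exact absurd h4 hp2
    · have h5 := hpi.dvd_of_dvd_pow h4
      exact_mod_cast h5
  have h1 := card_le_card hsub
  rw [Nat.Ioc_filter_dvd_card_eq_div] at h1
  calc (((Icc 1 M).filter (fun m : ℕ => ((p : ℤ) ^ 2) ∣ (n : ℤ) - 2 * (m : ℤ) ^ 2)).card : ℝ)
      ≤ ((M / p : ℕ) : ℝ) := by exact_mod_cast h1
    _ ≤ M / p := Nat.cast_div_le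

open Classical in
private lemma L3_main (M n : ℕ) (z y : ℝ) (hn : 1 ≤ n) (hz : 3 ≤ z) (hzy : z ≤ y) :
    (((Icc 1 M).filter (fun m : ℕ => ∃ p : ℕ, p.Prime ∧ z ≤ p ∧ (p : ℝ) < y ∧
      ((p : ℤ) ^ 2) ∣ (n : ℤ) - 2 * (m : ℤ) ^ 2)).card : ℝ)
      ≤ 4 * M / z + 2 * y + M / z * (Real.log n / Real.log z) := by
  set P : Finset ℕ := (Icc 1 ⌊y⌋₊).filter (fun p : ℕ => p.Prime ∧ z ≤ p) with hP
  set F : ℕ → Finset ℕ := fun p =>
    (Icc 1 M).filter (fun m : ℕ => ((p : ℤ) ^ 2) ∣ (n : ℤ) - 2 * (m : ℤ) ^ 2) with hF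
  have hy0 : 0 ≤ y := by linarith
  have hz0 : 0 < z := by linarith
  have hPp : ∀ p ∈ P, p.Prime ∧ z ≤ p ∧ 3 ≤ p ∧ p ≤ ⌊y⌋₊ := by
    intro p hp
    obtain ⟨h1, h2, h3⟩ := mem_filter.1 hp
    refine ⟨h2, h3, ?_, (mem_Icc.1 h1).2⟩
    have : (3 : ℝ) ≤ (p : ℝ) := hz.trans h3
    exact_mod_cast this
  have hsub : (Icc 1 M).filter (fun m : ℕ => ∃ p : ℕ, p.Prime ∧ z ≤ p ∧ (p : ℝ) < y ∧
      ((p : ℤ) ^ 2) ∣ (n : ℤ) - 2 * (m : ℤ) ^ 2) ⊆ P.biUnion F := by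
    intro m hm
    obtain ⟨hm1, p, hp, hp1, hp2, hp3⟩ := mem_filter.1 hm
    refine mem_biUnion.2 ⟨p, mem_filter.2 ⟨mem_Icc.2 ⟨hp.one_lt.le, Nat.le_floor hp2.le⟩, hp, hp1⟩,
      mem_filter.2 ⟨hm1, hp3⟩⟩
  have hcard : (((Icc 1 M).filter (fun m : ℕ => ∃ p : ℕ, p.Prime ∧ z ≤ p ∧ (p : ℝ) < y ∧
      ((p : ℤ) ^ 2) ∣ (n : ℤ) - 2 * (m : ℤ) ^ 2)).card : ℝ) ≤ ∑ p ∈ P, ((F p).card : ℝ) := by
    have h1 := (card_le_card hsub).trans card_biUnion_le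
    exact_mod_cast h1
  have hsplit : ∑ p ∈ P, ((F p).card : ℝ) =
      ∑ p ∈ P.filter (fun p => p ∣ n), ((F p).card : ℝ) +
      ∑ p ∈ P.filter (fun p => ¬ p ∣ n), ((F p).card : ℝ) :=
    (sum_filter_add_sum_filter_not P (fun p => p ∣ n) _).symm
  -- the primes dividing `n`
  have hlz : 0 < Real.log z := Real.log_pos (by linarith)
  have hB : ((P.filter (fun p => p ∣ n)).card : ℝ) ≤ Real.log n / Real.log z := by
    rw [le_div_iff₀ hlz]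
    have h1 : ∏ p ∈ P.filter (fun p => p ∣ n), p ∣ n := by
      apply Finset.prod_primes_dvd
      · intro p hp
        exact (hPp p (mem_filter.1 hp).1).1.prime
      · intro p hp
        exact (mem_filter.1 hp).2
    have h2 : ∏ p ∈ P.filter (fun p => p ∣ n), p ≤ n := Nat.le_of_dvd (by omega) h1
    have h3 : z ^ (P.filter (fun p => p ∣ n)).card ≤ ∏ p ∈ P.filter (fun p => p ∣ n), (p : ℝ) := by
      rw [← prod_const]
      apply prod_le_prod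
      · intro p _
        exact hz0.le
      · intro p hp
        exact (hPp p (mem_filter.1 hp).1).2.1
    have h4 : z ^ (P.filter (fun p => p ∣ n)).card ≤ (n : ℝ) := by
      refine h3.trans ?_
      rw [← Nat.cast_prod]
      exact_mod_cast h2
    have h5 := Real.log_le_log (pow_pos hz0 _) h4
    rwa [Real.log_pow] at h5
  have hMz : 0 ≤ (M : ℝ) / z := by positivity
  have hsumB : ∑ p ∈ P.filter (fun p => p ∣ n), ((F p).card : ℝ) ≤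
      M / z * (Real.log n / Real.log z) := by
    calc ∑ p ∈ P.filter (fun p => p ∣ n), ((F p).card : ℝ)
        ≤ ∑ p ∈ P.filter (fun p => p ∣ n), (M : ℝ) / z := by
          apply sum_le_sum
          intro p hp
          obtain ⟨h1, h2⟩ := mem_filter.1 hp
          obtain ⟨h3, h4, h5, -⟩ := hPp p h1
          exact (L3_bad M n p h3 h5 h2).trans (by gcongr)
      _ = ((P.filter (fun p => p ∣ n)).card : ℝ) * (M / z) := by
          rw [sum_const, nsmul_eq_mul]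
      _ ≤ M / z * (Real.log n / Real.log z) := by
          rw [mul_comm]
          exact mul_le_mul_of_nonneg_left hB hMz
  -- the other primes
  have hk : 3 ≤ ⌈z⌉₊ := by
    have : ((3 : ℕ) : ℝ) ≤ z := by exact_mod_cast hz
    exact Nat.ceil_le_ceil this |>.trans' (by rw [Nat.ceil_natCast])
  have hsq : ∑ p ∈ P.filter (fun p => ¬ p ∣ n), ((p : ℝ) ^ 2)⁻¹ ≤ 2 / z := by
    have hle : ⌈z⌉₊ - 1 ≤ max (⌈z⌉₊ - 1) ⌊y⌋₊ := le_max_left _ _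
    calc ∑ p ∈ P.filter (fun p => ¬ p ∣ n), ((p : ℝ) ^ 2)⁻¹
        ≤ ∑ i ∈ Ioc (⌈z⌉₊ - 1) (max (⌈z⌉₊ - 1) ⌊y⌋₊), ((i : ℝ) ^ 2)⁻¹ := by
          apply sum_le_sum_of_subset_of_nonneg
          · intro p hp
            obtain ⟨h1, -⟩ := mem_filter.1 hp
            obtain ⟨-, h4, h5, h6⟩ := hPp p h1
            have h7 : ⌈z⌉₊ ≤ p := Nat.ceil_le.2 h4
            exact mem_Ioc.2 ⟨by omega, h6.trans (le_max_right _ _)⟩
          · intro i _ _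
            positivity
      _ ≤ ((⌈z⌉₊ - 1 : ℕ) : ℝ)⁻¹ - ((max (⌈z⌉₊ - 1) ⌊y⌋₊ : ℕ) : ℝ)⁻¹ :=
          sum_Ioc_inv_sq_le_sub (by omega) hle
      _ ≤ ((⌈z⌉₊ - 1 : ℕ) : ℝ)⁻¹ := by
          have : (0 : ℝ) ≤ ((max (⌈z⌉₊ - 1) ⌊y⌋₊ : ℕ) : ℝ)⁻¹ := by positivity
          linarith
      _ ≤ 2 / z := by
          have h1 : z / 2 ≤ ((⌈z⌉₊ - 1 : ℕ) : ℝ) := by
            rw [Nat.cast_sub (by omega)]
            have := Nat.le_ceil z
            push_cast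
            linarith
          rw [← inv_div]
          exact inv_anti₀ (by linarith) h1
  have hcA : ((P.filter (fun p => ¬ p ∣ n)).card : ℝ) ≤ y := by
    have h1 : (P.filter (fun p => ¬ p ∣ n)).card ≤ ⌊y⌋₊ := by
      have h2 := card_le_card ((filter_subset (fun p => ¬ p ∣ n) P).trans (filter_subset _ _))
      rwa [Nat.card_Icc, Nat.add_sub_cancel] at h2
    calc ((P.filter (fun p => ¬ p ∣ n)).card : ℝ) ≤ (⌊y⌋₊ : ℝ) := by exact_mod_cast h1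
      _ ≤ y := Nat.floor_le hy0
  have hsumA : ∑ p ∈ P.filter (fun p => ¬ p ∣ n), ((F p).card : ℝ) ≤ 4 * M / z + 2 * y := by
    calc ∑ p ∈ P.filter (fun p => ¬ p ∣ n), ((F p).card : ℝ)
        ≤ ∑ p ∈ P.filter (fun p => ¬ p ∣ n), 2 * ((M : ℝ) * ((p : ℝ) ^ 2)⁻¹ + 1) := by
          apply sum_le_sum
          intro p hp
          obtain ⟨h1, h2⟩ := mem_filter.1 hp
          obtain ⟨h3, -, h5, -⟩ := hPp p h1
          exact L3_good M n p h3 h5 h2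
      _ = 2 * ((M : ℝ) * ∑ p ∈ P.filter (fun p => ¬ p ∣ n), ((p : ℝ) ^ 2)⁻¹ +
            ((P.filter (fun p => ¬ p ∣ n)).card : ℝ)) := by
          rw [← mul_sum, sum_add_distrib, ← mul_sum, sum_const, nsmul_eq_mul, mul_one]
      _ ≤ 2 * ((M : ℝ) * (2 / z) + y) := by gcongr
      _ = 4 * M / z + 2 * y := by ring
  linarith

theorem p_L3 : S_L3 := fun M n z y hn hz hzy => L3_main M n z y hn hz hzy

end Pool.Agent.PSq
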