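import Pool.Agent.Lib.MP_6b8fc7_nt.Stm

set_option autoImplicit false

/-!
# MP_6b8fc7_nt, piece [L4]: two divisor sums

`2 ^ ω(d) ≤ τ(d)`, and the sums of `τ(d)` and of `τ(d) / d` over `d ≤ Q`.
-/

namespace Pool.Agent.PSq

open Finset

/-- `2 ^ ω(d)` is at most the number of the divisors. -/
private lemma L4_div (d : ℕ) (hd : d ≠ 0) :
    ((2 : ℝ)) ^ d.primeFactors.card ≤ (d.divisors.card : ℝ) := by
  have h : 2 ^ d.primeFactors.card ≤ d.divisors.card := by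
    rw [Nat.card_divisors hd, ← prod_const]
    apply prod_le_prod'
    intro p hp
    have h1 : 0 < d.factorization p :=
      (Nat.prime_of_mem_primeFactors hp).factorization_pos_of_dvd hd
        (Nat.dvd_of_mem_primeFactors hp)
    omega
  exact_mod_cast h

/-- The harmonic sum. -/
private lemma L4_har (Q : ℕ) : ∑ a ∈ Ioc 0 Q, 1 / (a : ℝ) ≤ 1 + Real.log Q := by
  have h := harmonic_le_one_add_log Q
  simp_rw [harmonic_eq_sum_Icc, Rat.cast_sum, Rat.cast_inv, Rat.cast_natCast] at h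
  have e : Ioc 0 Q = Icc 1 Q := by
    ext x; simp only [mem_Ioc, mem_Icc]; omega
  rw [e]
  simpa [one_div] using h

/-- The sum of the numbers of divisors. -/
private lemma L4_sum1 (Q : ℕ) :
    ∑ d ∈ Ioc 0 Q, (d.divisors.card : ℝ) ≤ Q * (1 + Real.log Q) := by
  have h := ArithmeticFunction.sum_Ioc_sigma0_eq_sum_div Q
  simp only [ArithmeticFunction.sigma_zero_apply] at h
  have h2 : ∑ d ∈ Ioc 0 Q, (d.divisors.card : ℝ) = ∑ a ∈ Ioc 0 Q, ((Q / a : ℕ) : ℝ) := by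
    exact_mod_cast h
  rw [h2]
  calc ∑ a ∈ Ioc 0 Q, ((Q / a : ℕ) : ℝ) ≤ ∑ a ∈ Ioc 0 Q, (Q : ℝ) * (1 / (a : ℝ)) := by
        apply sum_le_sum
        intro a _
        rw [mul_one_div]
        exact Nat.cast_div_le
    _ = Q * ∑ a ∈ Ioc 0 Q, 1 / (a : ℝ) := by rw [mul_sum]
    _ ≤ Q * (1 + Real.log Q) := mul_le_mul_of_nonneg_left (L4_har Q) (Nat.cast_nonneg Q)

/-- The function `1 / n`. -/
private noncomputable def L4_f : ArithmeticFunction ℝ := ⟨fun n => 1 / (n : ℝ), by simp⟩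

private lemma L4_f_apply (n : ℕ) : L4_f n = 1 / (n : ℝ) := rfl

/-- The sum of the numbers of divisors divided by the number. -/
private lemma L4_sum2 (Q : ℕ) (_hQ : 1 ≤ Q) :
    ∑ d ∈ Ioc 0 Q, (d.divisors.card : ℝ) / d ≤ (1 + Real.log Q) ^ 2 := by
  have h := ArithmeticFunction.sum_Ioc_mul_eq_sum_prod_filter L4_f L4_f Q
  have h1 : ∑ n ∈ Ioc 0 Q, (L4_f * L4_f) n = ∑ d ∈ Ioc 0 Q, (d.divisors.card : ℝ) / d := by
    apply sum_congr rfl
    intro d hd
    rw [ArithmeticFunction.mul_apply]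
    have hd0 : d ≠ 0 := by
      have := (mem_Ioc.mp hd).1
      omega
    have h2 : ∀ x ∈ d.divisorsAntidiagonal, L4_f x.1 * L4_f x.2 = 1 / (d : ℝ) := by
      intro x hx
      have hx1 := (Nat.mem_divisorsAntidiagonal.mp hx).1
      rw [L4_f_apply, L4_f_apply, ← hx1, Nat.cast_mul]
      rw [one_div_mul_one_div]
    rw [sum_congr rfl h2, sum_const, nsmul_eq_mul]
    have h3 : d.divisorsAntidiagonal.card = d.divisors.card := by
      rw [← Nat.map_div_right_divisors, card_map]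
    rw [h3, mul_one_div]
  rw [← h1, h]
  have h0 : 0 ≤ ∑ a ∈ Ioc 0 Q, 1 / (a : ℝ) := sum_nonneg (fun a _ => by positivity)
  calc ∑ x ∈ Ioc 0 Q ×ˢ Ioc 0 Q with x.1 * x.2 ≤ Q, L4_f x.1 * L4_f x.2
      ≤ ∑ x ∈ Ioc 0 Q ×ˢ Ioc 0 Q, L4_f x.1 * L4_f x.2 := by
        apply sum_le_sum_of_subset_of_nonneg (filter_subset _ _)
        intro x _ _
        rw [L4_f_apply, L4_f_apply]
        positivity
    _ = (∑ a ∈ Ioc 0 Q, 1 / (a : ℝ)) ^ 2 := by
        rw [sum_product, sq, sum_mul_sum]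
        rfl
    _ ≤ (1 + Real.log Q) ^ 2 := pow_le_pow_left₀ h0 (L4_har Q) 2

/-- [L4] Divisor sums. -/
theorem p_L4 : S_L4 := by
  intro Q hQ
  have e : Icc 1 Q = Ioc 0 Q := by
    ext x; simp only [mem_Ioc, mem_Icc]; omega
  rw [e]
  constructor
  · refine le_trans (sum_le_sum ?_) (L4_sum1 Q)
    intro d hd
    exact L4_div d (by have := (mem_Ioc.mp hd).1; omega)
  · refine le_trans (sum_le_sum ?_) (L4_sum2 Q hQ)
    intro d hd
    exact div_le_div_of_nonneg_right (L4_div d (by have := (mem_Ioc.mp hd).1; omega))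
      (Nat.cast_nonneg d)

end Pool.Agent.PSq
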