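import Pool.Agent.Lib.MP_6b8fc7_nt.Stm
import Pool.Agent.Lib.MP_d610d0_nt.CH.S.P.mer

set_option autoImplicit false

/-! Piece [P6 M1]. -/

namespace Pool.Agent.PSq

open Finset
open Pool.Agent.CH.S (Pr)

theorem p_M1 : S_M1 := by
  intro ε hε
  obtain ⟨a0, ha0, hmer⟩ := Pool.Agent.CH.S.p_mer (ε / 2) (by linarith)
  refine ⟨max a0 ⌈2 / ε⌉₊, le_trans ha0 (le_max_left _ _), fun a m ha ham => ?_⟩
  have ha1 : a0 ≤ a := le_trans (le_max_left _ _) ha
  have ha2 : ⌈2 / ε⌉₊ ≤ a := le_trans (le_max_right _ _) ha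
  have ha3 : (3 : ℝ) ≤ a := by exact_mod_cast le_trans ha0 ha1
  have hamR : (a : ℝ) ≤ m := by exact_mod_cast ham
  have hm3 : (3 : ℝ) ≤ m := le_trans ha3 hamR
  have hla : 0 < Real.log a := Real.log_pos (by linarith)
  have hlm1 : 1 ≤ Real.log m := by
    rw [Real.le_log_iff_exp_le (by linarith)]
    have := Real.exp_one_lt_d9
    linarith
  have hlm : 0 < Real.log m := by linarith
  have hlm' : 0 < Real.log ((m + 1 : ℕ) : ℝ) := Real.log_pos (by push_cast; linarith)
  have h1 := hmer a ha1 a le_rfl ((m + 1 : ℕ) : ℝ) (by push_cast; linarith)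
  rw [Nat.ceil_natCast] at h1
  -- the product
  have hV : Pool.Agent.CH.S.V a (m + 1) ≤ Real.exp (-∑ p ∈ Pr a (m + 1), 1 / (p : ℝ)) := by
    rw [← sum_neg_distrib, Real.exp_sum]
    unfold Pool.Agent.CH.S.V
    have hp3 : ∀ p ∈ Pr a (m + 1), (3 : ℝ) ≤ p := by
      intro p hp
      simp only [Pool.Agent.CH.S.Pr, mem_filter] at hp
      have h : (a : ℝ) ≤ p := by exact_mod_cast hp.2.2
      linarith
    apply prod_le_prod
    · intro p hp
      have h := hp3 p hp
      have h2 : Pool.Agent.CH.S.gd p ≤ 1 := by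
        unfold Pool.Agent.CH.S.gd
        rw [div_le_one (by linarith)]
        linarith
      linarith
    · intro p hp
      have h := hp3 p hp
      have h2 : 1 / (p : ℝ) ≤ Pool.Agent.CH.S.gd p := by
        unfold Pool.Agent.CH.S.gd
        exact one_div_le_one_div_of_le (by linarith) (by linarith)
      have h3 := Real.add_one_le_exp (-(1 / (p : ℝ)))
      linarith
  set sp := ∑ p ∈ Pr a (m + 1), 1 / (p : ℝ) with hsp
  have h2 : Real.log a ≤ (1 + ε / 2) * Real.exp (-sp) * Real.log ((m + 1 : ℕ) : ℝ) := by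
    refine le_trans h1 ?_
    apply mul_le_mul_of_nonneg_right _ hlm'.le
    exact mul_le_mul_of_nonneg_left hV (by linarith)
  have h3 := Real.log_le_log hla h2
  rw [Real.log_mul (mul_pos (by linarith) (Real.exp_pos _)).ne' hlm'.ne',
    Real.log_mul (by linarith) (Real.exp_pos _).ne', Real.log_exp] at h3
  have h4 : Real.log (1 + ε / 2) ≤ ε / 2 := by
    have := Real.log_le_sub_one_of_pos (x := 1 + ε / 2) (by linarith)
    linarith
  -- `log (m + 1)`
  have h5 : Real.log ((m + 1 : ℕ) : ℝ) - Real.log m ≤ 1 / m := by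
    rw [← Real.log_div (by positivity) (by positivity)]
    have h6 := Real.log_le_sub_one_of_pos (x := ((m + 1 : ℕ) : ℝ) / m)
      (div_pos (by positivity) (by linarith))
    have h7 : ((m + 1 : ℕ) : ℝ) / m - 1 = 1 / m := by
      push_cast
      have : (m : ℝ) ≠ 0 := by linarith
      field_simp
      ring
    linarith
  have h6 : Real.log (Real.log ((m + 1 : ℕ) : ℝ)) - Real.log (Real.log m) ≤ ε / 2 := by
    rw [← Real.log_div hlm'.ne' hlm.ne']
    have h7 := Real.log_le_sub_one_of_pos (div_pos hlm' hlm)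
    have h8 : Real.log ((m + 1 : ℕ) : ℝ) / Real.log m - 1 ≤ 1 / m := by
      rw [div_sub_one hlm.ne', div_le_iff₀ hlm]
      have h9 : (0 : ℝ) ≤ 1 / m := by positivity
      nlinarith
    have h9 : 1 / (m : ℝ) ≤ ε / 2 := by
      have h10 : 2 / ε ≤ m := by
        have h11 := Nat.le_ceil (2 / ε)
        have h12 : (⌈2 / ε⌉₊ : ℝ) ≤ a := by exact_mod_cast ha2
        linarith
      rw [div_le_iff₀ hε] at h10
      rw [div_le_iff₀ (by linarith)]
      linarith
    linarith
  rw [Real.log_div hlm.ne' hla.ne']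
  linarith

end Pool.Agent.PSq

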