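import Pool.Agent.Lib.MP_6b8fc7_nt.Stm
import Pool.Agent.Lib.MP_bca3e5_nt.Mer

set_option autoImplicit false

/-!
# MP_6b8fc7_nt, piece M2: the upper Mertens product
-/

namespace Pool.Agent.PSq

open Finset
open Pool.Agent.CH.S (Pr OP th SS Sm)

theorem M2_set (x : ℕ) (hx : 2 ≤ x) : (x + 1).primesBelow = insert 2 (OP x) := by
  ext p
  simp only [Nat.mem_primesBelow, OP, mem_insert, mem_filter, mem_range]
  constructor
  · rintro ⟨h1, h2⟩
    rcases h2.two_le.eq_or_lt with h3 | h3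
    · left; exact h3.symm
    · right; exact ⟨h1, h2, h3⟩
  · rintro (h | ⟨h1, h2, -⟩)
    · rw [h]; exact ⟨by omega, Nat.prime_two⟩
    · exact ⟨h1, h2⟩

/-- the upper Mertens product with the constant `2` -/
theorem M2_bd (x : ℕ) (hx : 2 ≤ x) : ∏ p ∈ OP x, (1 - 1 / (p : ℝ)) ≤ 2 / Real.log x := by
  have h1 := Pool.Agent.MPbca.log_le_prod x (by omega)
  rw [M2_set x hx, Finset.prod_insert (by simp [OP])] at h1
  have hlog : 0 < Real.log x := Real.log_pos (by exact_mod_cast (by omega : 1 < x))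
  have hpos : 0 < ∏ p ∈ OP x, (1 - 1 / (p : ℝ)) := by
    apply Finset.prod_pos
    intro p hp
    simp only [OP, mem_filter] at hp
    have hp2 : (2 : ℝ) < p := by exact_mod_cast hp.2.2
    have : 1 / (p : ℝ) < 1 := by
      rw [div_lt_one (by linarith)]; linarith
    linarith
  have h2 : ∏ p ∈ OP x, (1 - (p : ℝ)⁻¹)⁻¹ = (∏ p ∈ OP x, (1 - 1 / (p : ℝ)))⁻¹ := by
    rw [← Finset.prod_inv_distrib]
    apply Finset.prod_congr rfl
    intro p _
    rw [one_div]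
  rw [h2] at h1
  have h3 : (1 - ((2 : ℕ) : ℝ)⁻¹)⁻¹ = 2 := by norm_num
  rw [h3] at h1
  rw [le_div_iff₀ hlog]
  have h4 : Real.log x * ∏ p ∈ OP x, (1 - 1 / (p : ℝ)) ≤
      2 * (∏ p ∈ OP x, (1 - 1 / (p : ℝ)))⁻¹ * ∏ p ∈ OP x, (1 - 1 / (p : ℝ)) :=
    mul_le_mul_of_nonneg_right h1 hpos.le
  rw [mul_assoc, inv_mul_cancel₀ hpos.ne', mul_one] at h4
  linarith

theorem p_M2 : S_M2 := ⟨2, by norm_num, M2_bd⟩

end Pool.Agent.PSq
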