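import Pool.Agent.Lib.MP_6b8fc7_nt.Stm
import Pool.Agent.Lib.MP_d610d0_nt.CH.S.P.mer

/-! [M3] The lower Mertens product. -/

set_option autoImplicit false

namespace Pool.Agent.PSq

open Finset
open Pool.Agent.CH.S (Pr OP th SS Sm)

private theorem M3_factor {p : ℕ} (hp : 3 ≤ p) :
    0 < 1 - 1 / ((p : ℝ) - 1) ∧ 1 - 1 / ((p : ℝ) - 1) ≤ 1 := by
  have h1 : (3 : ℝ) ≤ p := by exact_mod_cast hp
  have h2 : 1 / ((p : ℝ) - 1) ≤ 1 / 2 :=
    one_div_le_one_div_of_le (by norm_num) (by linarith)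
  have h3 : 0 ≤ 1 / ((p : ℝ) - 1) := by
    apply div_nonneg <;> linarith
  constructor <;> linarith

private theorem M3_mem {z : ℝ} {p : ℕ} (hp : p ∈ Pz z) : 3 ≤ p := (mem_filter.1 hp).2.2

private theorem M3_log {z : ℝ} (hz : 3 ≤ z) : 1 ≤ Real.log z := by
  rw [Real.le_log_iff_exp_le (by linarith)]
  have := Real.exp_one_lt_d9
  linarith

/-- [M3] -/
theorem p_M3 : S_M3 := by
  obtain ⟨a0, ha0, h⟩ := Pool.Agent.CH.S.p_mer 1 one_pos
  have hmer := h a0 le_rfl a0 le_rfl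
  have ha0R : (3 : ℝ) ≤ a0 := by exact_mod_cast ha0
  have hP0 : 0 < ∏ p ∈ Pz (a0 : ℝ), (1 - 1 / ((p : ℝ) - 1)) :=
    prod_pos fun p hp => (M3_factor (M3_mem hp)).1
  set P0 := ∏ p ∈ Pz (a0 : ℝ), (1 - 1 / ((p : ℝ) - 1)) with hP0d
  refine ⟨P0 / 2, by positivity, ?_⟩
  intro z hz
  have hlz := M3_log hz
  rcases lt_or_ge z a0 with hza | hza
  · -- `z < a0`
    have hsub : Pz z ⊆ Pz (a0 : ℝ) := by
      intro p hp
      rw [Pz, mem_filter, mem_range] at hp ⊢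
      exact ⟨lt_of_lt_of_le hp.1 (Nat.ceil_mono hza.le), hp.2⟩
    have h1 : P0 ≤ ∏ p ∈ Pz z, (1 - 1 / ((p : ℝ) - 1)) := by
      rw [hP0d, ← prod_sdiff hsub]
      have h2 : ∏ p ∈ Pz (a0 : ℝ) \ Pz z, (1 - 1 / ((p : ℝ) - 1)) ≤ 1 :=
        prod_le_one (fun p hp => (M3_factor (M3_mem (mem_sdiff.1 hp).1)).1.le)
          fun p hp => (M3_factor (M3_mem (mem_sdiff.1 hp).1)).2
      have h3 : 0 ≤ ∏ p ∈ Pz z, (1 - 1 / ((p : ℝ) - 1)) :=
        prod_nonneg fun p hp => (M3_factor (M3_mem hp)).1.le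
      nlinarith
    have h4 : P0 / 2 / Real.log z ≤ P0 / 2 := div_le_self (by positivity) hlz
    linarith
  · -- `a0 ≤ z`
    have hsplit : Pz z = Pz (a0 : ℝ) ∪ Pr a0 ⌈z⌉₊ := by
      have hc : a0 ≤ ⌈z⌉₊ := by
        have := Nat.ceil_mono hza
        rwa [Nat.ceil_natCast] at this
      ext p
      rw [Pz, Pz, Pr, mem_union, mem_filter, mem_filter, mem_filter, mem_range, mem_range,
        Nat.ceil_natCast]
      constructor
      · rintro ⟨h1, h2, h3⟩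
        rcases lt_or_ge p a0 with h4 | h4
        · exact Or.inl ⟨h4, h2, h3⟩
        · exact Or.inr ⟨h1, h2, h4⟩
      · rintro (⟨h1, h2, h3⟩ | ⟨h1, h2, h3⟩)
        · exact ⟨by omega, h2, h3⟩
        · exact ⟨h1, h2, by omega⟩
    have hdisj : Disjoint (Pz (a0 : ℝ)) (Pr a0 ⌈z⌉₊) := by
      rw [Finset.disjoint_left]
      intro p hp hp'
      rw [Pz, mem_filter, mem_range, Nat.ceil_natCast] at hp
      rw [Pr, mem_filter, mem_range] at hp'
      omega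
    have h1 := hmer z hza
    have hV : Pool.Agent.CH.S.V a0 ⌈z⌉₊ = ∏ p ∈ Pr a0 ⌈z⌉₊, (1 - 1 / ((p : ℝ) - 1)) := rfl
    rw [hsplit, prod_union hdisj, ← hP0d, ← hV]
    have h2 := M3_log ha0R
    have h3 : 1 / (2 * Real.log z) ≤ Pool.Agent.CH.S.V a0 ⌈z⌉₊ := by
      rw [div_le_iff₀ (by linarith)]
      nlinarith
    have h4 : P0 / 2 / Real.log z = P0 * (1 / (2 * Real.log z)) := by
      field_simp
    rw [h4]
    exact mul_le_mul_of_nonneg_left h3 hP0.le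

end Pool.Agent.PSq
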