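import Pool.Agent.Lib.MP_6b8fc7_nt.Stm

set_option autoImplicit false

/-!
# MP_6b8fc7_nt, piece M4: the sums of the symbols over the primes for good numbers

The primes of `[a, m]` are sorted by the index `⌊N log p / log Y⌋₊`. Only the indices between those
of `a` and `m` occur; for an index strictly between them the class is the whole window `Jw N Y i`, and the
definition of `Good` applies; in the two extreme classes the sum is at most the sum of `1/p`,
which is small by `S_M1`.
-/

namespace Pool.Agent.PSq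

open Finset
open Pool.Agent.CH.S (Pr OP th SS Sm)

/-- The symbol is at most `1` in absolute value; we need the upper bound only. -/
private lemma M4_chi (n p : ℕ) : chi n p ≤ 1 := by
  unfold chi
  rcases jacobiSym.trichotomy (2 * (n : ℤ)) p with h | h | h <;> rw [h] <;> norm_num

/-- The index of a number. -/
private noncomputable def M4_idx (N : ℕ) (L : ℝ) (p : ℕ) : ℕ := ⌊(N : ℝ) * Real.log p / L⌋₊

private lemma M4_idx_mono (N : ℕ) {L : ℝ} (hL : 0 < L) {p q : ℕ} (hp : 1 ≤ p) (hpq : p ≤ q) :
    M4_idx N L p ≤ M4_idx N L q := by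
  unfold M4_idx
  apply Nat.floor_le_floor
  have h1 : Real.log p ≤ Real.log q :=
    Real.log_le_log (by exact_mod_cast hp) (by exact_mod_cast hpq)
  gcongr

private lemma M4_idx_lo (N : ℕ) {L : ℝ} (hL : 0 < L) (p : ℕ) :
    (M4_idx N L p : ℝ) * L ≤ (N : ℝ) * Real.log p := by
  have h0 : 0 ≤ (N : ℝ) * Real.log p / L :=
    div_nonneg (mul_nonneg (Nat.cast_nonneg N) (Real.log_natCast_nonneg p)) hL.le
  have h1 : (M4_idx N L p : ℝ) ≤ (N : ℝ) * Real.log p / L := Nat.floor_le h0
  rwa [le_div_iff₀ hL] at h1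

private lemma M4_idx_hi (N : ℕ) {L : ℝ} (hL : 0 < L) (p : ℕ) :
    (N : ℝ) * Real.log p < ((M4_idx N L p : ℝ) + 1) * L := by
  have h1 : (N : ℝ) * Real.log p / L < (M4_idx N L p : ℝ) + 1 := Nat.lt_floor_add_one _
  rwa [div_lt_iff₀ hL] at h1

/-- The extreme classes. -/
private lemma M4_edge {a0 : ℕ} {e : ℝ} (he : 0 ≤ e)
    (hM : ∀ a m : ℕ, a0 ≤ a → a ≤ m →
      ∑ p ∈ Pr a (m + 1), 1 / (p : ℝ) ≤ Real.log (Real.log m / Real.log a) + e)
    {N : ℕ} (hN : 0 < N) {L : ℝ} (hL : 0 < L) {i : ℕ} (hi : 1 ≤ i) (F : Finset ℕ)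
    (hF : ∀ p ∈ F, p.Prime ∧ a0 ≤ p ∧ M4_idx N L p = i) (n : ℕ) :
    ∑ p ∈ F, chi n p / (p : ℝ) ≤ 1 / (i : ℝ) + e := by
  have hi' : (0 : ℝ) < i := by exact_mod_cast hi
  rcases F.eq_empty_or_nonempty with h | h
  · subst h
    rw [sum_empty]
    positivity
  · have ha := F.min'_mem h
    have hm := F.max'_mem h
    obtain ⟨hap, ha0, hai⟩ := hF _ ha
    obtain ⟨hmp, hm0, hmi⟩ := hF _ hm
    have ham : F.min' h ≤ F.max' h := F.min'_le _ hm
    have h1 : ∑ p ∈ F, chi n p / (p : ℝ) ≤ ∑ p ∈ F, 1 / (p : ℝ) := by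
      apply sum_le_sum
      intro p hp
      have := M4_chi n p
      gcongr
    have hsub : F ⊆ Pr (F.min' h) (F.max' h + 1) := by
      intro p hp
      unfold Pr
      rw [mem_filter, mem_range]
      exact ⟨Nat.lt_succ_of_le (F.le_max' p hp), (hF p hp).1, F.min'_le p hp⟩
    have h2 : ∑ p ∈ F, 1 / (p : ℝ) ≤ ∑ p ∈ Pr (F.min' h) (F.max' h + 1), 1 / (p : ℝ) := by
      apply sum_le_sum_of_subset_of_nonneg hsub
      intro p _ _
      positivity
    have h3 := hM _ _ ha0 ham
    have hlo := M4_idx_lo N hL (F.min' h)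
    have hhi := M4_idx_hi N hL (F.max' h)
    rw [hai] at hlo
    rw [hmi] at hhi
    have hN' : (0 : ℝ) < N := by exact_mod_cast hN
    have hla : 0 < Real.log (F.min' h : ℕ) := by
      apply Real.log_pos
      exact_mod_cast hap.one_lt
    have hlm : 0 < Real.log (F.max' h : ℕ) := by
      apply Real.log_pos
      exact_mod_cast hmp.one_lt
    have h4 : Real.log (F.max' h : ℕ) / Real.log (F.min' h : ℕ) ≤ 1 + 1 / (i : ℝ) := by
      rw [div_le_iff₀ hla]
      have e1 : (1 + 1 / (i : ℝ)) * Real.log (F.min' h : ℕ)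
          = (((i : ℝ) + 1) * ((N : ℝ) * Real.log (F.min' h : ℕ))) / ((i : ℝ) * N) := by
        field_simp
      rw [e1, le_div_iff₀ (by positivity)]
      calc Real.log (F.max' h : ℕ) * ((i : ℝ) * N) = (i : ℝ) * ((N : ℝ) * Real.log (F.max' h : ℕ)) := by
            ring
        _ ≤ (i : ℝ) * (((i : ℝ) + 1) * L) := by
            apply mul_le_mul_of_nonneg_left hhi.le hi'.le
        _ = ((i : ℝ) + 1) * ((i : ℝ) * L) := by ring
        _ ≤ ((i : ℝ) + 1) * ((N : ℝ) * Real.log (F.min' h : ℕ)) := by
            apply mul_le_mul_of_nonneg_left hlo (by positivity)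
    have h5 : Real.log (Real.log (F.max' h : ℕ) / Real.log (F.min' h : ℕ)) ≤ 1 / (i : ℝ) := by
      have h6 : Real.log (Real.log (F.max' h : ℕ) / Real.log (F.min' h : ℕ))
          ≤ Real.log (F.max' h : ℕ) / Real.log (F.min' h : ℕ) - 1 :=
        Real.log_le_sub_one_of_pos (div_pos hlm hla)
      linarith
    linarith

theorem p_M4 (hM1 : S_M1) : S_M4 := by
  intro ε δ hε hδ
  obtain ⟨a0, ha03, hM⟩ := hM1 (ε / 8) (by positivity)
  obtain ⟨N, hN⟩ := exists_nat_ge (max 2 (max (4 / δ) ((4 + 8 / δ) / ε)))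
  have hN2 : (2 : ℝ) ≤ N := le_trans (le_max_left _ _) hN
  have hN3 : 4 / δ ≤ N := le_trans (le_trans (le_max_left _ _) (le_max_right _ _)) hN
  have hN4 : (4 + 8 / δ) / ε ≤ N := le_trans (le_trans (le_max_right _ _) (le_max_right _ _)) hN
  have hNpos : (0 : ℝ) < N := by linarith
  have hN2' : 2 ≤ N := by exact_mod_cast hN2
  have hNδ : 4 ≤ (N : ℝ) * δ := by rwa [div_le_iff₀ hδ] at hN3
  have hsmall : 2 / (N : ℝ) + 4 / (δ * N) ≤ ε / 2 := by
    rw [div_le_iff₀ hε] at hN4
    have e1 : 2 / (N : ℝ) + 4 / (δ * N) = (4 + 8 / δ) / (2 * N) := by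
      field_simp
      ring
    rw [e1, div_le_iff₀ (by positivity)]
    calc (4 + 8 / δ) ≤ (N : ℝ) * ε := hN4
      _ = ε / 2 * (2 * N) := by ring
  refine ⟨N, max 2 ⌈(a0 : ℝ) ^ (1 / δ)⌉₊, hN2', ?_⟩
  intro Y n hY hG a m hYa ham hmY
  have hY2 : 2 ≤ Y := le_trans (le_max_left _ _) hY
  have hYc : (a0 : ℝ) ^ (1 / δ) ≤ Y :=
    le_trans (Nat.le_ceil _) (by exact_mod_cast le_trans (le_max_right _ _) hY)
  have hYpos : (0 : ℝ) < Y := by
    have : 0 < Y := by omega
    exact_mod_cast this
  have ha0Y : (a0 : ℝ) ≤ (Y : ℝ) ^ δ := by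
    have h1 : ((a0 : ℝ) ^ (1 / δ)) ^ δ ≤ (Y : ℝ) ^ δ :=
      Real.rpow_le_rpow (Real.rpow_nonneg (Nat.cast_nonneg a0) _) hYc hδ.le
    rw [← Real.rpow_mul (Nat.cast_nonneg a0), one_div, inv_mul_cancel₀ hδ.ne', Real.rpow_one] at h1
    exact h1
  have ha0a : a0 ≤ a := by exact_mod_cast le_trans ha0Y hYa
  set L : ℝ := Real.log Y with hLdef
  have hL : 0 < L := by
    apply Real.log_pos
    exact_mod_cast hY2
  have ha1 : 1 ≤ a := by omega
  have hapos : (0 : ℝ) < a := by exact_mod_cast ha1
  have hla : δ * L ≤ Real.log a := by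
    rw [hLdef, ← Real.rpow_le_iff_le_log hYpos hapos]
    exact hYa
  set α := M4_idx N L a with hα
  set β := M4_idx N L m with hβ
  have hα1 : (N : ℝ) * δ / 2 ≤ α := by
    have h1 := M4_idx_hi N hL a
    rw [← hα] at h1
    have h2 : (N : ℝ) * (δ * L) ≤ (N : ℝ) * Real.log a := mul_le_mul_of_nonneg_left hla hNpos.le
    have h3 : ((N : ℝ) * δ) * L < ((α : ℝ) + 1) * L := by
      calc ((N : ℝ) * δ) * L = (N : ℝ) * (δ * L) := by ring
        _ ≤ _ := h2
        _ < _ := h1
    have h4 : (N : ℝ) * δ < (α : ℝ) + 1 := lt_of_mul_lt_mul_right h3 hL.le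
    linarith
  have hα1' : 1 ≤ α := by
    have : (1 : ℝ) ≤ α := by linarith
    exact_mod_cast this
  have hαβ : α ≤ β := M4_idx_mono N hL ha1 ham
  have hidxN : ∀ p : ℕ, 1 ≤ p → p ≤ Y → M4_idx N L p ≤ N := by
    intro p hp hpY
    have h1 := M4_idx_lo N hL p
    have h2 : Real.log p ≤ L :=
      Real.log_le_log (by exact_mod_cast hp) (by exact_mod_cast hpY)
    have h3 : (M4_idx N L p : ℝ) * L ≤ (N : ℝ) * L :=
      le_trans h1 (mul_le_mul_of_nonneg_left h2 hNpos.le)
    exact_mod_cast le_of_mul_le_mul_right h3 hL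
  have hmemPr : ∀ p : ℕ, p ∈ Pr a (m + 1) ↔ p < m + 1 ∧ p.Prime ∧ a ≤ p := by
    intro p
    unfold Pr
    rw [mem_filter, mem_range]
  have hfib : ∑ p ∈ Pr a (m + 1), chi n p / (p : ℝ)
      = ∑ i ∈ range (N + 1), ∑ p ∈ (Pr a (m + 1)).filter (fun p => M4_idx N L p = i),
        chi n p / (p : ℝ) := by
    symm
    apply sum_fiberwise_of_maps_to
    intro p hp
    rw [hmemPr] at hp
    rw [mem_range]
    exact Nat.lt_succ_of_le (hidxN p (by omega) (by omega))
  set B : ℝ := 2 / (δ * N) + ε / 8 with hB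
  have hBpos : 0 < B := by positivity
  have hedge : ∀ i : ℕ, α ≤ i →
      ∑ p ∈ (Pr a (m + 1)).filter (fun p => M4_idx N L p = i), chi n p / (p : ℝ) ≤ B := by
    intro i hi
    have hi1 : 1 ≤ i := le_trans hα1' hi
    have h1 := M4_edge (a0 := a0) (e := ε / 8) (by positivity) hM (by omega : 0 < N) hL hi1
      ((Pr a (m + 1)).filter (fun p => M4_idx N L p = i)) (by
        intro p hp
        rw [mem_filter, hmemPr] at hp
        exact ⟨hp.1.2.1, le_trans ha0a hp.1.2.2, hp.2⟩) n
    have hir : (α : ℝ) ≤ i := by exact_mod_cast hi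
    have h2 : 1 / (i : ℝ) ≤ 2 / (δ * N) := by
      have h3 : 1 / (i : ℝ) ≤ 1 / ((N : ℝ) * δ / 2) := by
        apply one_div_le_one_div_of_le (by positivity)
        linarith
      have h4 : 1 / ((N : ℝ) * δ / 2) = 2 / (δ * N) := by
        field_simp
      rw [h4] at h3
      exact h3
    linarith
  have hbound : ∀ i ∈ range (N + 1),
      ∑ p ∈ (Pr a (m + 1)).filter (fun p => M4_idx N L p = i), chi n p / (p : ℝ)
        ≤ 1 / (N : ℝ) ^ 2 + (if i = α then B else 0) + (if i = β then B else 0) := by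
    intro i _
    have hN2pos : 0 < 1 / (N : ℝ) ^ 2 := by positivity
    by_cases hiα : i = α
    · have h1 := hedge i (le_of_eq hiα.symm)
      have h2 : 0 ≤ (if i = β then B else 0) := by
        split_ifs
        · exact hBpos.le
        · exact le_refl 0
      rw [if_pos hiα]
      linarith
    · by_cases hiβ : i = β
      · have h1 := hedge i (by rw [hiβ]; exact hαβ)
        rw [if_neg hiα, if_pos hiβ]
        linarith
      · rw [if_neg hiα, if_neg hiβ]
        by_cases hmid : α < i ∧ i < β
        · have hβN : β ≤ N := hidxN m (by omega) hmY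
          have heq : (Pr a (m + 1)).filter (fun p => M4_idx N L p = i) = Jw N Y i := by
            ext p
            unfold Jw
            rw [mem_filter, hmemPr, mem_filter, mem_range]
            constructor
            · rintro ⟨⟨hp1, hpp, hp2⟩, hpi⟩
              have hppos : (0 : ℝ) < p := by exact_mod_cast hpp.pos
              refine ⟨by omega, hpp, by omega, ?_, ?_⟩
              · rw [Real.rpow_le_iff_le_log hYpos hppos, div_mul_eq_mul_div, div_le_iff₀ hNpos]
                have h1 := M4_idx_lo N hL p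
                rw [hpi] at h1
                linarith
              · rw [Real.lt_rpow_iff_log_lt hppos hYpos, div_mul_eq_mul_div, lt_div_iff₀ hNpos]
                have h1 := M4_idx_hi N hL p
                rw [hpi] at h1
                linarith
            · rintro ⟨hpY, hpp, hp3, hlo, hhi⟩
              have hppos : (0 : ℝ) < p := by exact_mod_cast hpp.pos
              rw [Real.rpow_le_iff_le_log hYpos hppos, div_mul_eq_mul_div, div_le_iff₀ hNpos] at hlo
              rw [Real.lt_rpow_iff_log_lt hppos hYpos, div_mul_eq_mul_div, lt_div_iff₀ hNpos] at hhi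
              have hidx : M4_idx N L p = i := by
                unfold M4_idx
                rw [Nat.floor_eq_iff (div_nonneg (mul_nonneg hNpos.le (Real.log_natCast_nonneg p)) hL.le)]
                constructor
                · rw [le_div_iff₀ hL]
                  linarith
                · rw [div_lt_iff₀ hL]
                  linarith
              refine ⟨⟨?_, hpp, ?_⟩, hidx⟩
              · by_contra hcon
                have h1 : m ≤ p := by omega
                have h2 := M4_idx_mono N hL (by omega : 1 ≤ m) h1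
                rw [hidx] at h2
                omega
              · by_contra hcon
                have h1 : p ≤ a := by omega
                have h2 := M4_idx_mono N hL hpp.one_lt.le h1
                rw [hidx] at h2
                omega
          rw [heq]
          have h1 := hG i (by omega) (by omega)
          linarith
        · have hempty : (Pr a (m + 1)).filter (fun p => M4_idx N L p = i) = ∅ := by
            rw [filter_eq_empty_iff]
            intro p hp hpi
            rw [hmemPr] at hp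
            have h1 := M4_idx_mono N hL ha1 hp.2.2
            have h2 := M4_idx_mono N hL (hp.2.1.one_lt.le) (Nat.le_of_lt_succ hp.1)
            rw [hpi] at h1 h2
            apply hmid
            constructor
            · omega
            · omega
          rw [hempty, sum_empty]
          linarith
  rw [hfib]
  refine le_trans (sum_le_sum hbound) ?_
  rw [sum_add_distrib, sum_add_distrib, sum_const, card_range, sum_ite_eq', sum_ite_eq', nsmul_eq_mul]
  have h1 : (if α ∈ range (N + 1) then B else 0) ≤ B := by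
    split_ifs
    · exact le_refl _
    · exact hBpos.le
  have h2 : (if β ∈ range (N + 1) then B else 0) ≤ B := by
    split_ifs
    · exact le_refl _
    · exact hBpos.le
  have h3 : ((N + 1 : ℕ) : ℝ) * (1 / (N : ℝ) ^ 2) ≤ 2 / N := by
    rw [mul_one_div, div_le_div_iff₀ (by positivity) hNpos]
    push_cast
    nlinarith
  have h4 : 2 * B = 4 / (δ * N) + ε / 4 := by
    rw [hB]
    ring
  linarith

end Pool.Agent.PSq
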