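import Pool.Agent.Lib.MP_6b8fc7_nt.Stm

set_option autoImplicit false

/-!
# MP_6b8fc7_nt, piece M5: the density for good `n`
-/

namespace Pool.Agent.PSq

open Finset
open Pool.Agent.CH.S (Pr OP th SS Sm)

private theorem M5_mem (a w p : ℕ) : p ∈ Pr a w ↔ p < w ∧ p.Prime ∧ a ≤ p := by
  simp [Pr]

private theorem M5_chi (n p : ℕ) : -1 ≤ chi n p ∧ chi n p ≤ 1 := by
  unfold chi
  rcases jacobiSym.trichotomy (2 * (n : ℤ)) p with h | h | h <;> rw [h] <;> norm_num

private theorem M5_gn (n p : ℕ) (hp : 1 ≤ p) : 0 ≤ gn n p ∧ gn n p ≤ 2 / (p : ℝ) := by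
  have hp' : (0 : ℝ) < p := by exact_mod_cast hp
  obtain ⟨h1, h2⟩ := M5_chi n p
  unfold gn
  constructor
  · exact div_nonneg (by linarith) hp'.le
  · exact div_le_div_of_nonneg_right (by linarith) hp'.le

private theorem M5_log (x : ℝ) (h0 : 0 ≤ x) (h1 : x ≤ 1 / 2) :
    -(x + 2 * x ^ 2) ≤ Real.log (1 - x) := by
  have h2 : 0 < 1 - x := by linarith
  have h3 := Real.one_sub_inv_le_log_of_pos h2
  have h4 : -(x + 2 * x ^ 2) ≤ 1 - (1 - x)⁻¹ := by
    have h5 : (1 - x)⁻¹ ≤ 1 + x + 2 * x ^ 2 := by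
      rw [inv_le_iff_one_le_mul₀ h2]
      nlinarith [mul_nonneg h0 h0, mul_nonneg (mul_nonneg h0 h0) (by linarith : (0 : ℝ) ≤ 1 / 2 - x)]
    linarith
  linarith

private theorem M5_sq (b m : ℕ) (hb : 2 ≤ b) (hbm : b ≤ m) :
    ∑ p ∈ Pr b (m + 1), ((p : ℝ) ^ 2)⁻¹ ≤ ((b : ℝ) - 1)⁻¹ := by
  have h1 : Pr b (m + 1) ⊆ Ioc (b - 1) m := by
    intro p hp
    rw [M5_mem] at hp
    rw [Finset.mem_Ioc]
    omega
  have h2 : ∑ p ∈ Pr b (m + 1), ((p : ℝ) ^ 2)⁻¹ ≤ ∑ p ∈ Ioc (b - 1) m, ((p : ℝ) ^ 2)⁻¹ :=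
    Finset.sum_le_sum_of_subset_of_nonneg h1 fun _ _ _ => by positivity
  have h3 := sum_Ioc_inv_sq_le_sub (α := ℝ) (k := b - 1) (n := m) (by omega) (by omega)
  have h4 : ((b - 1 : ℕ) : ℝ) = (b : ℝ) - 1 := by
    rw [Nat.cast_sub (by omega)]; norm_num
  rw [h4] at h3
  have h5 : (0 : ℝ) ≤ (m : ℝ)⁻¹ := by positivity
  linarith

theorem p_M5 (h1 : S_M1) (h4 : S_M4) : S_M5 := by
  intro ε δ hε hδ
  obtain ⟨e, he0, he1, he2⟩ : ∃ e : ℝ, 0 < e ∧ 16 * e ≤ ε ∧ 16 * e ≤ 1 := by
    refine ⟨min ε 1 / 16, ?_, ?_, ?_⟩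
    · have := lt_min hε one_pos
      positivity
    · have := min_le_left ε 1
      linarith
    · have := min_le_right ε 1
      linarith
  obtain ⟨N, Y0, hN, h4'⟩ := h4 e (δ / 2) he0 (by linarith)
  obtain ⟨a0, ha0, h1'⟩ := h1 e he0
  obtain ⟨X1, hX1⟩ : ∃ X1 : ℕ, ∀ X : ℕ, X1 ≤ X → max (a0 : ℝ) (8 / e + 4) ≤ (X : ℝ) ^ δ := by
    have := ((tendsto_rpow_atTop hδ).comp tendsto_natCast_atTop_atTop).eventually_ge_atTop
      (max (a0 : ℝ) (8 / e + 4))
    exact Filter.eventually_atTop.1 this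
  refine ⟨N, max (max Y0 X1) 1, hN, ?_⟩
  intro X Y n hX hXY hYX hG a ha
  have hX0 : Y0 ≤ X := (le_max_left _ _).trans ((le_max_left _ _).trans hX)
  have hXX1 : X1 ≤ X := (le_max_right _ _).trans ((le_max_left _ _).trans hX)
  have hXone : 1 ≤ X := (le_max_right _ _).trans hX
  have hbig := hX1 X hXX1
  have ha0' : (a0 : ℝ) ≤ a := (le_max_left _ _).trans (hbig.trans ha)
  have haN : a0 ≤ a := by exact_mod_cast ha0'
  have haE : 8 / e + 4 ≤ (a : ℝ) := (le_max_right _ _).trans (hbig.trans ha)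
  have hYp : (Y : ℝ) ^ (δ / 2) ≤ a := by
    have hY2 : (Y : ℝ) ≤ (X : ℝ) ^ (2 : ℝ) := by
      rw [Real.rpow_two]
      exact_mod_cast hYX
    have h5 : (Y : ℝ) ^ (δ / 2) ≤ ((X : ℝ) ^ (2 : ℝ)) ^ (δ / 2) :=
      Real.rpow_le_rpow (Nat.cast_nonneg Y) hY2 (by linarith)
    rw [← Real.rpow_mul (Nat.cast_nonneg X)] at h5
    have h6 : (2 : ℝ) * (δ / 2) = δ := by ring
    rw [h6] at h5
    exact h5.trans ha
  -- the sums
  have hsum : ∀ b m : ℕ, a ≤ b → b ≤ m → m ≤ X →
      ∑ p ∈ Pr b (m + 1), gn n p ≤ Real.log (Real.log m / Real.log b) + 2 * e := by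
    intro b m hab hbm hmX
    have h5 := h1' b m (haN.trans hab) hbm
    have hab' : (a : ℝ) ≤ b := by exact_mod_cast hab
    have h6 := h4' Y n (hX0.trans hXY) hG b m (hYp.trans hab') hbm (hmX.trans hXY)
    have h7 : ∑ p ∈ Pr b (m + 1), gn n p
        = ∑ p ∈ Pr b (m + 1), 1 / (p : ℝ) + ∑ p ∈ Pr b (m + 1), chi n p / (p : ℝ) := by
      rw [← Finset.sum_add_distrib]
      refine Finset.sum_congr rfl fun p _ => ?_
      unfold gn
      rw [add_div]
    rw [h7]
    linarith
  have he8 : 0 < 8 / e := by positivity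
  constructor
  · intro b hab w hbw hwX
    have hab' : (a : ℝ) ≤ b := by exact_mod_cast hab
    have hb4 : (4 : ℝ) ≤ b := by linarith
    have hb4' : 4 ≤ b := by exact_mod_cast hb4
    have hlogb : 0 < Real.log b := Real.log_pos (by linarith)
    have hlogbw : Real.log b ≤ Real.log w := Real.log_le_log (by linarith) hbw
    have hbk : b ≤ ⌈w⌉₊ := by
      have : (b : ℝ) ≤ (⌈w⌉₊ : ℝ) := hbw.trans (Nat.le_ceil w)
      exact_mod_cast this
    rcases hbk.eq_or_lt with hk | hk
    · rw [← hk]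
      have h5 : Vg (gn n) b b = 1 := by
        unfold Vg
        have : Pr b b = ∅ := by
          ext p
          rw [M5_mem]
          simp only [Finset.notMem_empty, iff_false]
          rintro ⟨h6, -, h7⟩
          omega
        rw [this, Finset.prod_empty]
      rw [h5]
      nlinarith
    · obtain ⟨m, hm⟩ : ∃ m, ⌈w⌉₊ = m + 1 := ⟨⌈w⌉₊ - 1, by omega⟩
      have hbm : b ≤ m := by omega
      have hmw : (m : ℝ) < w := by
        rw [← Nat.lt_ceil, hm]; omega
      have hmX : m ≤ X := by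
        have : (m : ℝ) ≤ X := hmw.le.trans hwX
        exact_mod_cast this
      have h5 := hsum b m hab hbm hmX
      have hbm' : (b : ℝ) ≤ m := by exact_mod_cast hbm
      have hlogm : 0 < Real.log m := Real.log_pos (by linarith)
      have hlogmw : Real.log m ≤ Real.log w := Real.log_le_log (by linarith) hmw.le
      have hpos : ∀ p ∈ Pr b (m + 1), 0 < 1 - gn n p ∧
          -(gn n p + 8 * ((p : ℝ) ^ 2)⁻¹) ≤ Real.log (1 - gn n p) := by
        intro p hp
        rw [M5_mem] at hp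
        have hp4 : (4 : ℝ) ≤ p := by
          have : 4 ≤ p := hb4'.trans hp.2.2
          exact_mod_cast this
        obtain ⟨h6, h7⟩ := M5_gn n p (by have := hb4'.trans hp.2.2; omega)
        have h8 : 2 / (p : ℝ) ≤ 1 / 2 := by
          rw [div_le_div_iff₀ (by linarith) (by norm_num)]
          linarith
        refine ⟨by linarith, ?_⟩
        have h9 := M5_log (gn n p) h6 (h7.trans h8)
        have h10 : gn n p ^ 2 ≤ (2 / (p : ℝ)) ^ 2 := by
          exact pow_le_pow_left₀ h6 h7 2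
        have h11 : (2 / (p : ℝ)) ^ 2 = 4 * ((p : ℝ) ^ 2)⁻¹ := by
          field_simp
          norm_num
        rw [h11] at h10
        linarith
      have hV : Vg (gn n) b (m + 1) = Real.exp (∑ p ∈ Pr b (m + 1), Real.log (1 - gn n p)) := by
        unfold Vg
        rw [Real.exp_sum]
        exact Finset.prod_congr rfl fun p hp => (Real.exp_log (hpos p hp).1).symm
      have hS : -(Real.log (Real.log m / Real.log b) + 3 * e)
          ≤ ∑ p ∈ Pr b (m + 1), Real.log (1 - gn n p) := by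
        have h6 : ∑ p ∈ Pr b (m + 1), -(gn n p + 8 * ((p : ℝ) ^ 2)⁻¹)
            ≤ ∑ p ∈ Pr b (m + 1), Real.log (1 - gn n p) :=
          Finset.sum_le_sum fun p hp => (hpos p hp).2
        rw [Finset.sum_neg_distrib, Finset.sum_add_distrib, ← Finset.mul_sum] at h6
        have h7 := M5_sq b m (by omega) hbm
        have h8 : 8 * ((b : ℝ) - 1)⁻¹ ≤ e := by
          rw [← div_eq_mul_inv, div_le_iff₀ (by linarith)]
          have h9 : 8 / e ≤ (b : ℝ) - 1 := by linarith
          rw [div_le_iff₀ he0] at h9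
          linarith
        linarith
      have hVge : Real.log b / Real.log m * Real.exp (-(3 * e)) ≤ Vg (gn n) b (m + 1) := by
        rw [hV]
        have h6 : Real.log b / Real.log m * Real.exp (-(3 * e))
            = Real.exp (-(Real.log (Real.log m / Real.log b) + 3 * e)) := by
          rw [neg_add, Real.exp_add, Real.exp_neg (Real.log (Real.log m / Real.log b)),
            Real.exp_log (by positivity), inv_div]
        rw [h6]
        exact Real.exp_le_exp.2 hS
      have hexp : 1 ≤ (1 + ε) * Real.exp (-(3 * e)) := by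
        have h6 : Real.exp (3 * e) ≤ 1 + ε := by
          have h7 := Real.abs_exp_sub_one_sub_id_le (x := 3 * e) (by
            rw [abs_of_pos (by linarith)]; linarith)
          have h8 := (abs_le.1 h7).2
          nlinarith
        rw [Real.exp_neg, ← div_eq_mul_inv, le_div_iff₀ (Real.exp_pos _)]
        linarith
      rw [hm]
      have h6 : (1 + ε) * (Real.log b / Real.log m * Real.exp (-(3 * e))) * Real.log w
          ≤ (1 + ε) * Vg (gn n) b (m + 1) * Real.log w := by
        have : 0 ≤ Real.log w := by linarith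
        gcongr
      refine le_trans ?_ h6
      have h7 : (1 + ε) * (Real.log b / Real.log m * Real.exp (-(3 * e))) * Real.log w
          = ((1 + ε) * Real.exp (-(3 * e))) * (Real.log b * (Real.log w / Real.log m)) := by
        ring
      rw [h7]
      have h8 : 1 ≤ Real.log w / Real.log m := by
        rw [le_div_iff₀ hlogm]; linarith
      have h9 : Real.log b ≤ Real.log b * (Real.log w / Real.log m) := by
        nlinarith
      calc Real.log b ≤ Real.log b * (Real.log w / Real.log m) := h9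
        _ = 1 * (Real.log b * (Real.log w / Real.log m)) := (one_mul _).symm
        _ ≤ ((1 + ε) * Real.exp (-(3 * e))) * (Real.log b * (Real.log w / Real.log m)) := by
          apply mul_le_mul_of_nonneg_right hexp
          exact hlogb.le.trans h9
  · intro m ham hmX
    have h5 := hsum a m le_rfl ham hmX
    linarith

end Pool.Agent.PSq
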