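import Pool.Agent.Lib.MP_6b8fc7_nt.Stm

set_option autoImplicit false

namespace Pool.Agent.PSq

open Finset
open Pool.Agent.CH.S (Pr)

private theorem M7_chi (n p : ℕ) : -1 ≤ chi n p ∧ chi n p ≤ 1 := by
  unfold chi
  rcases jacobiSym.trichotomy (2 * (n : ℤ)) p with h | h | h <;> rw [h] <;> norm_num

private theorem M7_mem {z : ℝ} {p : ℕ} (hp : p ∈ Pz z) : p.Prime ∧ 3 ≤ p ∧ (p : ℝ) < z := by
  unfold Pz at hp
  rw [Finset.mem_filter, Finset.mem_range] at hp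
  exact ⟨hp.2.1, hp.2.2, Nat.lt_ceil.1 hp.1⟩

private theorem M7_f1 (n p : ℕ) (hp : 3 ≤ p) :
    (1 - 1 / ((p : ℝ) - 1)) ^ 2 ≤ 1 - gn n p := by
  have h3 : (3 : ℝ) ≤ p := by exact_mod_cast hp
  have h1 : gn n p ≤ 2 / (p : ℝ) := by
    unfold gn
    have := (M7_chi n p).2
    apply div_le_div_of_nonneg_right _ (by linarith)
    linarith
  have h2 : (1 - 1 / ((p : ℝ) - 1)) ^ 2 ≤ 1 - 2 / (p : ℝ) := by
    have ha : (p : ℝ) - 1 ≠ 0 := by linarith
    have hb : (p : ℝ) ≠ 0 := by linarith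
    have : 1 - 2 / (p : ℝ) - (1 - 1 / ((p : ℝ) - 1)) ^ 2
        = ((p : ℝ) - 2) / ((p : ℝ) * ((p : ℝ) - 1) ^ 2) := by
      field_simp
      ring
    have h4 : 0 ≤ ((p : ℝ) - 2) / ((p : ℝ) * ((p : ℝ) - 1) ^ 2) := by
      apply div_nonneg
      · linarith
      · positivity
    linarith
  linarith

private theorem M7_half (p : ℕ) (hp : 3 ≤ p) : 0 ≤ 1 - 1 / ((p : ℝ) - 1) := by
  have h3 : (3 : ℝ) ≤ p := by exact_mod_cast hp
  have : 1 / ((p : ℝ) - 1) ≤ 1 := by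
    rw [div_le_one (by linarith)]
    linarith
  linarith

private theorem M7_fac (n p : ℕ) (hp : 3 ≤ p) :
    0 ≤ 1 - chi n p / ((p : ℝ) - 1) ∧
    1 - chi n p / ((p : ℝ) - 1) ≤ Real.exp (2 * (1 / (p : ℝ))) ∧
    (1 - 1 / ((p : ℝ) - 1)) * (1 - chi n p / ((p : ℝ) - 1)) ≤ 1 - gn n p := by
  have h3 : (3 : ℝ) ≤ p := by exact_mod_cast hp
  obtain ⟨hc1, hc2⟩ := M7_chi n p
  have hpos : (0 : ℝ) < (p : ℝ) - 1 := by linarith
  have h0 : 0 ≤ 1 - chi n p / ((p : ℝ) - 1) := by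
    have : chi n p / ((p : ℝ) - 1) ≤ 1 := by
      rw [div_le_one hpos]
      linarith
    linarith
  refine ⟨h0, ?_, ?_⟩
  · have h1 : 1 - chi n p / ((p : ℝ) - 1) ≤ 2 * (1 / (p : ℝ)) + 1 := by
      have h4 : -(chi n p / ((p : ℝ) - 1)) ≤ 1 / ((p : ℝ) - 1) := by
        rw [← neg_div]
        apply div_le_div_of_nonneg_right _ hpos.le
        linarith
      have h5 : 1 / ((p : ℝ) - 1) ≤ 2 * (1 / (p : ℝ)) := by
        rw [mul_one_div, div_le_div_iff₀ hpos (by linarith)]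
        linarith
      linarith
    exact h1.trans (Real.add_one_le_exp _)
  · have h1 : 1 - gn n p = (1 - 1 / (p : ℝ)) * (1 - chi n p / ((p : ℝ) - 1)) := by
      unfold gn
      have ha : (p : ℝ) - 1 ≠ 0 := by linarith
      have hb : (p : ℝ) ≠ 0 := by linarith
      field_simp
      ring
    rw [h1]
    apply mul_le_mul_of_nonneg_right _ h0
    have : 1 / (p : ℝ) ≤ 1 / ((p : ℝ) - 1) := by
      apply one_div_le_one_div_of_le hpos
      linarith
    linarith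

theorem p_M7 : S_M1 → S_M3 → S_M7 := by
  intro hM1 hM3 ζ hζ hζ1
  obtain ⟨a0, ha0, hM1⟩ := hM1 1 one_pos
  obtain ⟨c3, hc3, hM3⟩ := hM3
  set E : ℝ := Real.exp (2 * (Real.log (1 / ζ) + 1)) with hE
  have hEpos : 0 < E := Real.exp_pos _
  -- the largeness conditions
  have hev : ∀ᶠ X : ℕ in Filter.atTop, ((a0 : ℝ) ≤ (X : ℝ) ^ ζ ∧ 3 ≤ (X : ℝ) ^ ζ) ∧
      2 ≤ (X : ℝ) ^ (1 - ζ) ∧ 4 ≤ (X : ℝ) := by
    have t1 : Filter.Tendsto (fun X : ℕ => (X : ℝ) ^ ζ) Filter.atTop Filter.atTop :=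
      (tendsto_rpow_atTop hζ).comp tendsto_natCast_atTop_atTop
    have t2 : Filter.Tendsto (fun X : ℕ => (X : ℝ) ^ (1 - ζ)) Filter.atTop Filter.atTop :=
      (tendsto_rpow_atTop (by linarith)).comp tendsto_natCast_atTop_atTop
    have t3 : Filter.Tendsto (fun X : ℕ => (X : ℝ)) Filter.atTop Filter.atTop :=
      tendsto_natCast_atTop_atTop
    exact ((t1.eventually_ge_atTop _).and (t1.eventually_ge_atTop _)).and
      ((t2.eventually_ge_atTop _).and (t3.eventually_ge_atTop _))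
  obtain ⟨X0, hX0⟩ := Filter.eventually_atTop.1 hev
  refine ⟨min (c3 ^ 2) (c3 / (2 * E)), X0, lt_min (by positivity) (by positivity), ?_⟩
  intro X n hX hXn hnX
  obtain ⟨⟨hz0, hz3⟩, hz2, hX4⟩ := hX0 X hX
  set z : ℝ := (X : ℝ) ^ ζ with hz
  have hXpos : (0 : ℝ) < X := by linarith
  have hlogX : 0 < Real.log X := Real.log_pos (by linarith)
  have hlogz : Real.log z = ζ * Real.log X := by rw [hz, Real.log_rpow hXpos]
  have hlogz0 : 0 < Real.log z := by rw [hlogz]; positivity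
  have hlogzX : Real.log z ≤ Real.log X := by rw [hlogz]; nlinarith
  have hnX' : (n : ℝ) ≤ X := by exact_mod_cast hnX
  have hXn' : (X : ℝ) ≤ 2 * n := by exact_mod_cast hXn
  have hn2 : (2 : ℝ) ≤ n := by linarith
  have hnpos : (0 : ℝ) < n := by linarith
  have hlogn : 0 < Real.log n := Real.log_pos (by linarith)
  have hzn : z ≤ n := by
    have h1 : z * (X : ℝ) ^ (1 - ζ) = X := by
      rw [hz, ← Real.rpow_add hXpos]
      simp
    have h2 : z * 2 ≤ X := by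
      rw [← h1]
      exact mul_le_mul_of_nonneg_left hz2 (by linarith)
    linarith
  have hM := hM3 z hz3
  -- first part
  have hV1 : (∏ p ∈ Pz z, (1 - 1 / ((p : ℝ) - 1))) ^ 2 ≤ Vn n z := by
    unfold Vn
    rw [← Finset.prod_pow]
    refine Finset.prod_le_prod (fun p _ => sq_nonneg _) (fun p hp => M7_f1 n p (M7_mem hp).2.1)
  have hpart1 : c3 ^ 2 / Real.log X ^ 2 ≤ Vn n z := by
    refine le_trans ?_ hV1
    have h1 : c3 / Real.log X ≤ ∏ p ∈ Pz z, (1 - 1 / ((p : ℝ) - 1)) := by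
      refine le_trans ?_ hM
      exact div_le_div_of_nonneg_left hc3.le hlogz0 hlogzX
    rw [← div_pow]
    exact pow_le_pow_left₀ (by positivity) h1 2
  -- second part
  set A : ℝ := ∏ p ∈ Pz z, (1 - chi n p / ((p : ℝ) - 1)) with hA
  have hA0 : 0 ≤ A := Finset.prod_nonneg (fun p hp => (M7_fac n p (M7_mem hp).2.1).1)
  have hV2 : (∏ p ∈ Pz z, (1 - 1 / ((p : ℝ) - 1))) * A ≤ Vn n z := by
    rw [hA, ← Finset.prod_mul_distrib]
    unfold Vn
    refine Finset.prod_le_prod (fun p hp => mul_nonneg (M7_half p (M7_mem hp).2.1)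
      (M7_fac n p (M7_mem hp).2.1).1) (fun p hp => (M7_fac n p (M7_mem hp).2.1).2.2)
  have hsub : Pz z ⊆ (range (n + 1)).filter (fun p => p.Prime ∧ 3 ≤ p) := by
    intro p hp
    obtain ⟨h1, h2, h3⟩ := M7_mem hp
    rw [Finset.mem_filter, Finset.mem_range]
    have : (p : ℝ) < n := lt_of_lt_of_le h3 hzn
    have : p < n := by exact_mod_cast this
    exact ⟨by omega, h1, h2⟩
  set Rst := ((range (n + 1)).filter (fun p => p.Prime ∧ 3 ≤ p)) \ Pz z with hRst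
  have hSn : Sn n = (∏ p ∈ Rst, (1 - chi n p / ((p : ℝ) - 1))) * A := by
    unfold Sn
    rw [hRst, hA]
    exact (Finset.prod_sdiff hsub).symm
  have ha : a0 ≤ ⌈z⌉₊ := by
    have : (a0 : ℝ) ≤ (⌈z⌉₊ : ℝ) := hz0.trans (Nat.le_ceil _)
    exact_mod_cast this
  have han : ⌈z⌉₊ ≤ n := Nat.ceil_le.2 hzn
  have hRsub : Rst ⊆ Pr ⌈z⌉₊ (n + 1) := by
    intro p hp
    rw [hRst, Finset.mem_sdiff, Finset.mem_filter] at hp
    obtain ⟨⟨h1, h2, h3⟩, h4⟩ := hp
    unfold Pool.Agent.CH.S.Pr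
    rw [Finset.mem_filter]
    refine ⟨h1, h2, ?_⟩
    by_contra hcon
    apply h4
    unfold Pz
    rw [Finset.mem_filter, Finset.mem_range]
    exact ⟨by omega, h2, h3⟩
  have hsum : ∑ p ∈ Rst, 1 / (p : ℝ) ≤ Real.log (1 / ζ) + 1 := by
    have h1 : ∑ p ∈ Rst, 1 / (p : ℝ) ≤ ∑ p ∈ Pr ⌈z⌉₊ (n + 1), 1 / (p : ℝ) :=
      Finset.sum_le_sum_of_subset_of_nonneg hRsub (fun p _ _ => by positivity)
    have h2 := hM1 ⌈z⌉₊ n ha han
    have hzc : z ≤ (⌈z⌉₊ : ℝ) := Nat.le_ceil _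
    have h3 : Real.log z ≤ Real.log (⌈z⌉₊ : ℝ) := Real.log_le_log (by linarith) hzc
    have h4 : 0 < Real.log (⌈z⌉₊ : ℝ) := lt_of_lt_of_le hlogz0 h3
    have h5 : Real.log n / Real.log (⌈z⌉₊ : ℝ) ≤ 1 / ζ := by
      rw [div_le_div_iff₀ h4 hζ]
      have h6 : Real.log n ≤ Real.log X := Real.log_le_log hnpos hnX'
      have h7 : Real.log n * ζ ≤ ζ * Real.log X := by nlinarith
      linarith
    have h6 : Real.log (Real.log n / Real.log (⌈z⌉₊ : ℝ)) ≤ Real.log (1 / ζ) :=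
      Real.log_le_log (by positivity) h5
    linarith
  have hR : ∏ p ∈ Rst, (1 - chi n p / ((p : ℝ) - 1)) ≤ E := by
    have h3 : ∀ p ∈ Rst, 3 ≤ p := by
      intro p hp
      rw [hRst, Finset.mem_sdiff, Finset.mem_filter] at hp
      exact hp.1.2.2
    calc ∏ p ∈ Rst, (1 - chi n p / ((p : ℝ) - 1))
        ≤ ∏ p ∈ Rst, Real.exp (2 * (1 / (p : ℝ))) :=
          Finset.prod_le_prod (fun p hp => (M7_fac n p (h3 p hp)).1)
            (fun p hp => (M7_fac n p (h3 p hp)).2.1)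
      _ = Real.exp (2 * ∑ p ∈ Rst, 1 / (p : ℝ)) := by
          rw [Finset.mul_sum, Real.exp_sum]
      _ ≤ E := by
          rw [hE]
          apply Real.exp_le_exp.2
          linarith
  have hSnA : Sn n ≤ E * A := by
    rw [hSn]
    exact mul_le_mul_of_nonneg_right hR hA0
  have hSn0 : 0 ≤ Sn n := by
    unfold Sn
    refine Finset.prod_nonneg (fun p hp => ?_)
    rw [Finset.mem_filter] at hp
    exact (M7_fac n p hp.2.2).1
  have hlogz2 : Real.log z ≤ 2 * Real.log n := by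
    have h1 : Real.log X ≤ Real.log (2 * n) := Real.log_le_log hXpos hXn'
    rw [Real.log_mul (by norm_num) (by linarith)] at h1
    have h2 : Real.log 2 ≤ Real.log n := Real.log_le_log (by norm_num) hn2
    linarith
  have hpart2 : c3 / (2 * E) / Real.log n * Sn n ≤ Vn n z := by
    have h1 : c3 / (2 * Real.log n) ≤ ∏ p ∈ Pz z, (1 - 1 / ((p : ℝ) - 1)) := by
      refine le_trans ?_ hM
      exact div_le_div_of_nonneg_left hc3.le hlogz0 hlogz2
    have h2 : c3 / (2 * E) / Real.log n * Sn n ≤ c3 / (2 * E) / Real.log n * (E * A) :=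
      mul_le_mul_of_nonneg_left hSnA (by positivity)
    have h3 : c3 / (2 * E) / Real.log n * (E * A) = c3 / (2 * Real.log n) * A := by
      field_simp
    have h4 : c3 / (2 * Real.log n) * A ≤ (∏ p ∈ Pz z, (1 - 1 / ((p : ℝ) - 1))) * A :=
      mul_le_mul_of_nonneg_right h1 hA0
    linarith
  constructor
  · refine le_trans ?_ hpart1
    apply div_le_div_of_nonneg_right (min_le_left _ _) (by positivity)
  · refine le_trans ?_ hpart2
    apply mul_le_mul_of_nonneg_right _ hSn0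
    apply div_le_div_of_nonneg_right (min_le_right _ _) hlogn.le

end Pool.Agent.PSq
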