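import Pool.Agent.Lib.MP_6b8fc7_nt.Stm

set_option autoImplicit false

/-!
# MP_6b8fc7_nt, piece W1: Richert's weights, pointwise
-/

namespace Pool.Agent.PSq

open Finset
open scoped ArithmeticFunction.Omega
open Pool.Agent.CH.S (Pr OP th SS Sm)

private lemma W1_mem (a w p : ℕ) : p ∈ Pr a w ↔ p < w ∧ p.Prime ∧ a ≤ p := by
  unfold Pr
  rw [mem_filter, mem_range]

theorem p_W1 : S_W1 := by
  intro r X a z y lam hz hzy hlam hr ha1 haX hpz hsq hpos
  have hy1 : 1 < y := hz.trans hzy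
  have hy0 : 0 < y := by linarith
  have hly : 0 < Real.log y := Real.log_pos hy1
  have ha0 : a ≠ 0 := by omega
  have hO : ((Ω a : ℕ) : ℝ) = ∑ p ∈ a.primeFactors, (a.factorization p : ℝ) := by
    rw [ArithmeticFunction.cardFactors_eq_sum_factorization, Finsupp.sum,
      Nat.support_factorization, Nat.cast_sum]
  have hL : Real.log a = ∑ p ∈ a.primeFactors, (a.factorization p : ℝ) * Real.log p := by
    rw [Real.log_nat_eq_sum_factorization, Finsupp.sum, Nat.support_factorization]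
  have h1 : ((Ω a : ℕ) : ℝ) - Real.log a / Real.log y =
      ∑ p ∈ a.primeFactors, (a.factorization p : ℝ) * (1 - Real.log p / Real.log y) := by
    rw [hO, hL, sum_div, ← sum_sub_distrib]
    refine sum_congr rfl fun p _ => ?_
    ring
  have hsub : (Pr ⌈z⌉₊ ⌈y⌉₊).filter (fun p => p ∣ a) ⊆ a.primeFactors := by
    intro p hp
    rw [mem_filter, W1_mem] at hp
    exact Nat.mem_primeFactors.mpr ⟨hp.1.2.1, hp.2, ha0⟩
  have h2 : ∑ p ∈ a.primeFactors, (a.factorization p : ℝ) * (1 - Real.log p / Real.log y) ≤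
      ∑ p ∈ (Pr ⌈z⌉₊ ⌈y⌉₊).filter (fun p => p ∣ a), (1 - Real.log p / Real.log y) := by
    rw [← sum_sdiff hsub]
    have h3 : ∑ p ∈ a.primeFactors \ (Pr ⌈z⌉₊ ⌈y⌉₊).filter (fun p => p ∣ a),
        (a.factorization p : ℝ) * (1 - Real.log p / Real.log y) ≤ 0 := by
      refine sum_nonpos fun p hp => ?_
      rw [mem_sdiff, Nat.mem_primeFactors, mem_filter, W1_mem] at hp
      obtain ⟨⟨hpp, hpa, -⟩, hn⟩ := hp
      have hzp := hpz p hpp hpa
      have hyp : y ≤ p := by
        by_contra hlt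
        rw [not_le] at hlt
        exact hn ⟨⟨Nat.lt_ceil.mpr hlt, hpp, Nat.ceil_le.mpr hzp⟩, hpa⟩
      refine mul_nonpos_of_nonneg_of_nonpos (Nat.cast_nonneg _) ?_
      have h4 : Real.log y ≤ Real.log p := Real.log_le_log hy0 hyp
      have h5 : 1 ≤ Real.log p / Real.log y := (one_le_div hly).mpr h4
      linarith
    have h6 : ∑ p ∈ (Pr ⌈z⌉₊ ⌈y⌉₊).filter (fun p => p ∣ a),
        (a.factorization p : ℝ) * (1 - Real.log p / Real.log y) =
        ∑ p ∈ (Pr ⌈z⌉₊ ⌈y⌉₊).filter (fun p => p ∣ a), (1 - Real.log p / Real.log y) := by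
      refine sum_congr rfl fun p hp => ?_
      rw [mem_filter, W1_mem] at hp
      obtain ⟨⟨hpy, hpp, hzp⟩, hpa⟩ := hp
      have h7 : ¬ p ^ 2 ∣ a := hsq p hpp (Nat.ceil_le.mp hzp) (Nat.lt_ceil.mp hpy)
      have h8 : a.factorization p = 1 := by
        have h9 : 1 ≤ a.factorization p := (hpp.dvd_iff_one_le_factorization ha0).mp hpa
        have h10 : ¬ 2 ≤ a.factorization p := by
          intro h
          exact h7 ((hpp.pow_dvd_iff_le_factorization ha0).mpr h)
        omega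
      rw [h8, Nat.cast_one, one_mul]
    rw [h6]
    linarith
  have h11 : ∑ p ∈ (Pr ⌈z⌉₊ ⌈y⌉₊).filter (fun p => p ∣ a), (1 - Real.log p / Real.log y)
      < 1 / lam := by
    rw [← mul_sum] at hpos
    rw [lt_div_iff₀ hlam]
    linarith
  have h12 : Real.log a / Real.log y ≤ Real.log X / Real.log y := by
    refine div_le_div_of_nonneg_right (Real.log_le_log ?_ ?_) hly.le
    · exact_mod_cast ha1
    · exact_mod_cast haX
  have h13 : ((Ω a : ℕ) : ℝ) < (r : ℝ) + 1 := by linarith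
  have h14 : Ω a < r + 1 := by exact_mod_cast h13
  omega

end Pool.Agent.PSq
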