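import Pool.Agent.Lib.MP_6b8fc7_nt.Stm
import Pool.Agent.Lib.MP_d610d0_nt.CH.S.P.rep
import Pool.Agent.Lib.MP_d610d0_nt.CH.S.P.comp

set_option autoImplicit false

/-!
# MP_6b8fc7_nt, piece W2: the weight function in terms of coefficients
-/

namespace Pool.Agent.PSq

open Finset
open scoped ArithmeticFunction.Omega
open Pool.Agent.CH.S (Pr OP th SS Sm RepC p_rep p_comp)
open Pool.Agent.MPbca (ee)
open Pool.Agent.BVall (RepB)

private lemma W2_sqf {T : Finset ℕ} (hT : ∀ p ∈ T, p.Prime) : Squarefree (∏ p ∈ T, p) := by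
  induction T using Finset.induction_on with
  | empty => simp
  | insert q T hq ih =>
    rw [Finset.prod_insert hq]
    have hT' : ∀ p ∈ T, p.Prime := fun p hp => hT p (Finset.mem_insert_of_mem hp)
    have hqp := hT q (Finset.mem_insert_self _ _)
    rw [Nat.squarefree_mul]
    · exact ⟨hqp.squarefree, ih hT'⟩
    · apply Nat.Coprime.prod_right
      intro p hp
      exact (Nat.coprime_primes hqp (hT' p hp)).2 (fun h => hq (h ▸ hp))

/-- from coefficients on sets of primes to coefficients on integers -/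
private lemma W2_conv (Q : ℝ) (P : Finset ℕ) (F : (ℕ → ℝ) → ℝ)
    (hP : ∀ p ∈ P, p.Prime ∧ 2 < p) (hF : RepC P (fun T => ∏ p ∈ T, (p : ℝ) ≤ Q) F) :
    ∃ c : ℕ → ℝ, Wei Q c ∧ ∀ N : ℕ, Q ≤ N → ∀ ρ : ℕ → ℝ,
      ∑ d ∈ Icc 1 N, c d * ∏ p ∈ d.primeFactors, ρ p = F ρ := by
  classical
  obtain ⟨c0, h1, h2, h3⟩ := hF
  have hPp : ∀ p ∈ P, p.Prime := fun p hp => (hP p hp).1
  set c : ℕ → ℝ := fun d => if Squarefree d ∧ d.primeFactors ⊆ P then c0 d.primeFactors else 0
    with hc
  have hne : ∀ d, c d ≠ 0 → Squarefree d ∧ d.primeFactors ⊆ P ∧ c0 d.primeFactors ≠ 0 := by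
    intro d hd
    simp only [hc] at hd
    split_ifs at hd with h
    · exact ⟨h.1, h.2, hd⟩
    · exact absurd rfl hd
  have hprod : ∀ T : Finset ℕ, ((∏ p ∈ T, p : ℕ) : ℝ) = ∏ p ∈ T, (p : ℝ) := fun T => by
    push_cast
    rfl
  refine ⟨c, ⟨?_, ?_⟩, ?_⟩
  · intro d
    simp only [hc]
    split_ifs
    · exact h2 _
    · norm_num
  · intro d hd
    obtain ⟨g1, g2, g3⟩ := hne d hd
    refine ⟨?_, g1, ?_⟩
    · by_contra hodd
      have h2d : 2 ∣ d := (Nat.not_odd_iff_even.1 hodd).two_dvd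
      have := hP 2 (g2 (Nat.mem_primeFactors.2 ⟨Nat.prime_two, h2d, g1.ne_zero⟩))
      omega
    · have := h3 d.primeFactors (Finset.mem_powerset.2 g2) g3
      beta_reduce at this
      rw [← hprod, Nat.prod_primeFactors_of_squarefree g1] at this
      exact this
  · intro N hN ρ
    have e1 : ∑ d ∈ Icc 1 N, c d * ∏ p ∈ d.primeFactors, ρ p
        = ∑ d ∈ (Icc 1 N).filter (fun d => Squarefree d ∧ d.primeFactors ⊆ P),
          c0 d.primeFactors * ∏ p ∈ d.primeFactors, ρ p := by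
      rw [Finset.sum_filter]
      refine Finset.sum_congr rfl fun d _ => ?_
      simp only [hc]
      split_ifs
      · rfl
      · rw [zero_mul]
    have e2 : F ρ = ∑ T ∈ P.powerset.filter (fun T => c0 T ≠ 0), c0 T * ∏ p ∈ T, ρ p := by
      rw [h1 ρ, Finset.sum_filter]
      refine Finset.sum_congr rfl fun T _ => ?_
      split_ifs with h
      · rfl
      · rw [not_not] at h
        rw [h, zero_mul]
    have e3 : ∑ d ∈ (Icc 1 N).filter (fun d => Squarefree d ∧ d.primeFactors ⊆ P),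
          c0 d.primeFactors * ∏ p ∈ d.primeFactors, ρ p
        = ∑ d ∈ (Icc 1 N).filter (fun d => (Squarefree d ∧ d.primeFactors ⊆ P) ∧
          c0 d.primeFactors ≠ 0), c0 d.primeFactors * ∏ p ∈ d.primeFactors, ρ p := by
      have e4 : (Icc 1 N).filter (fun d => (Squarefree d ∧ d.primeFactors ⊆ P) ∧
          c0 d.primeFactors ≠ 0) = ((Icc 1 N).filter (fun d => Squarefree d ∧
            d.primeFactors ⊆ P)).filter (fun d => c0 d.primeFactors ≠ 0) :=
        (Finset.filter_filter _ _ _).symm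
      rw [e4]
      symm
      apply Finset.sum_filter_of_ne
      intro d _ h h0
      exact h (by rw [h0, zero_mul])
    rw [e1, e2, e3]
    refine Finset.sum_nbij' (fun d => d.primeFactors) (fun T => ∏ p ∈ T, p) ?_ ?_ ?_ ?_ ?_
    · intro d hd
      rw [Finset.mem_filter] at hd
      rw [Finset.mem_filter, Finset.mem_powerset]
      exact ⟨hd.2.1.2, hd.2.2⟩
    · intro T hT
      rw [Finset.mem_filter, Finset.mem_powerset] at hT
      have hTp : ∀ p ∈ T, p.Prime := fun p hp => hP p (hT.1 hp) |>.1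
      have hle := h3 T (Finset.mem_powerset.2 hT.1) hT.2
      beta_reduce at hle
      rw [← hprod] at hle
      rw [Finset.mem_filter, Nat.primeFactors_prod hTp]
      refine ⟨?_, ⟨W2_sqf hTp, hT.1⟩, hT.2⟩
      rw [Finset.mem_Icc]
      refine ⟨Nat.one_le_iff_ne_zero.2 (Finset.prod_ne_zero_iff.2 fun p hp => (hTp p hp).ne_zero),
        ?_⟩
      exact_mod_cast hle.trans hN
    · intro d hd
      rw [Finset.mem_filter] at hd
      exact Nat.prod_primeFactors_of_squarefree hd.2.1.1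
    · intro T hT
      rw [Finset.mem_filter, Finset.mem_powerset] at hT
      exact Nat.primeFactors_prod (fun p hp => hPp p (hT.1 hp))
    · intro d hd
      rfl

/-- one more variable -/
private lemma W2_step {P P' : Finset ℕ} (hPP : P' ⊆ P) {w : ℕ} (hw : w ∉ P)
    {Q' R : Finset ℕ → Prop} {F F' : (ℕ → ℝ) → ℝ} {a : ℝ} (ha : 0 ≤ a ∧ a ≤ 3)
    (h : RepC P R F) (h' : RepB P' Q' F') (hQ' : ∀ T, T ⊆ P' → Q' T → R (insert w T)) :
    RepC (insert w P) R (fun ρ => F ρ - a * ρ w * F' ρ) := by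
  classical
  obtain ⟨c, h1, h2, h3⟩ := h
  obtain ⟨c', h1', h2', h3'⟩ := h'
  refine ⟨fun T => if w ∈ T then (if T.erase w ⊆ P' then - (a * c' (T.erase w)) else 0) else c T,
    ?_, ?_, ?_⟩
  · intro ρ
    rw [Finset.sum_powerset_insert hw]
    have e1 : ∀ T ∈ P.powerset, (if w ∈ T then (if T.erase w ⊆ P' then - (a * c' (T.erase w))
        else 0) else c T) * ∏ p ∈ T, ρ p = c T * ∏ p ∈ T, ρ p := by
      intro T hT
      rw [if_neg (fun h => hw (Finset.mem_powerset.1 hT h))]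
    have e2 : ∀ T ∈ P.powerset, (if w ∈ insert w T then (if (insert w T).erase w ⊆ P' then
        - (a * c' ((insert w T).erase w)) else 0) else c (insert w T)) * ∏ p ∈ insert w T, ρ p
        = - (a * ρ w * (if T ⊆ P' then c' T * ∏ p ∈ T, ρ p else 0)) := by
      intro T hT
      have hwT : w ∉ T := fun h => hw (Finset.mem_powerset.1 hT h)
      rw [if_pos (Finset.mem_insert_self w T), Finset.erase_insert hwT, Finset.prod_insert hwT]
      split_ifs
      · ring
      · ring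
    have e3 : ∑ T ∈ P.powerset, (if T ⊆ P' then c' T * ∏ p ∈ T, ρ p else 0) = F' ρ := by
      rw [h1' ρ]
      symm
      rw [← Finset.sum_subset (Finset.powerset_mono.2 hPP)]
      · refine Finset.sum_congr rfl fun T hT => ?_
        rw [if_pos (Finset.mem_powerset.1 hT)]
      · intro T _ hT
        rw [if_neg (fun h => hT (Finset.mem_powerset.2 h))]
    rw [Finset.sum_congr rfl e1, Finset.sum_congr rfl e2, Finset.sum_neg_distrib,
      ← Finset.mul_sum, e3, ← h1 ρ]
    ring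
  · intro T
    beta_reduce
    split_ifs
    · rw [abs_neg, abs_mul, abs_of_nonneg ha.1]
      calc a * |c' (T.erase w)| ≤ 3 * 1 := mul_le_mul ha.2 (h2' _) (abs_nonneg _) (by norm_num)
        _ = 3 := by norm_num
    · norm_num
    · exact h2 T
  · intro T hT hc
    rw [Finset.mem_powerset] at hT
    beta_reduce at hc
    by_cases h : w ∈ T
    · rw [if_pos h] at hc
      split_ifs at hc with hs
      · have := hQ' _ hs (h3' _ (Finset.mem_powerset.2 hs)
          (fun h0 => hc (by rw [h0, mul_zero, neg_zero])))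
        rwa [Finset.insert_erase h] at this
      · exact absurd rfl hc
    · rw [if_neg h] at hc
      have hs : T ⊆ P := by
        intro p hp
        exact (Finset.mem_insert.1 (hT hp)).resolve_left (fun h0 => h (h0 ▸ hp))
      exact h3 _ (Finset.mem_powerset.2 hs) hc

private lemma W2_mul {P0 P1 : Finset ℕ} {Q0 Q1 : ℝ} {A B : (ℕ → ℝ) → ℝ}
    (hd : Disjoint P0 P1)
    (hA : RepB P0 (fun T => ∏ p ∈ T, (p : ℝ) ≤ Q0) A)
    (hB : RepB P1 (fun T => ∏ p ∈ T, (p : ℝ) ≤ Q1) B) :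
    RepB (P0 ∪ P1) (fun T => ∏ p ∈ T, (p : ℝ) ≤ Q0 * Q1) (fun ρ => A ρ * B ρ) := by
  refine (RepB.mul hd hA hB).mono ?_
  rintro T hT ⟨h1, h2⟩
  have e : ∏ p ∈ T, (p : ℝ) = (∏ p ∈ T ∩ P0, (p : ℝ)) * ∏ p ∈ T ∩ P1, (p : ℝ) :=
    Pool.Agent.Lib.MP_0da313_nt.prod_union_inter hd hT (fun p => (p : ℝ))
  have h0 : 0 ≤ ∏ p ∈ T ∩ P0, (p : ℝ) := Finset.prod_nonneg fun p _ => Nat.cast_nonneg p
  have h0' : 0 ≤ ∏ p ∈ T ∩ P1, (p : ℝ) := Finset.prod_nonneg fun p _ => Nat.cast_nonneg p
  show ∏ p ∈ T, (p : ℝ) ≤ Q0 * Q1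
  rw [e]
  exact mul_le_mul h1 h2 h0' (h0.trans h1)

/-- **[W2]** -/
theorem p_W2 : S_W2 := by
  classical
  intro X1 k l Q0 D Ap Am wt hX1 hk hkl hQ0 hD hlD hwt hAp hAm
  have hk2 : 3 ≤ k := by omega
  have hkD : (k : ℝ) ≤ D := le_trans (by exact_mod_cast hkl) hlD
  -- the sets of primes
  have hd01 : Disjoint (OP X1) (Pr (X1 + 1) k) := by
    rw [Finset.disjoint_left]
    intro p hp hp'
    unfold OP at hp
    unfold Pr at hp'
    rw [Finset.mem_filter, Finset.mem_range] at hp hp'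
    omega
  have hd2 : Disjoint (OP X1 ∪ Pr (X1 + 1) k) (Pr k l) := by
    rw [Finset.disjoint_left]
    intro p hp hp'
    unfold OP Pr at hp
    unfold Pr at hp'
    rw [Finset.mem_union, Finset.mem_filter, Finset.mem_filter, Finset.mem_range,
      Finset.mem_range] at hp
    rw [Finset.mem_filter, Finset.mem_range] at hp'
    omega
  have hprime : ∀ p ∈ OP X1 ∪ Pr (X1 + 1) k ∪ Pr k l, p.Prime ∧ 2 < p := by
    intro p hp
    unfold OP Pr at hp
    simp only [Finset.mem_union, Finset.mem_filter, Finset.mem_range] at hp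
    rcases hp with (hp | hp) | hp
    · exact hp.2
    · exact ⟨hp.2.1, by omega⟩
    · exact ⟨hp.2.1, by omega⟩
  -- the first three terms
  have hBp : RepB (Pr (X1 + 1) k) (fun T => ∏ p ∈ T, (p : ℝ) ≤ D)
      (fun ρ => th (X1 + 1) ρ k true D) :=
    (p_rep (X1 + 1) k true D hD (fun h => by simp at h)).mono (fun T _ h => le_of_lt h)
  have hBm : RepB (Pr (X1 + 1) k) (fun T => ∏ p ∈ T, (p : ℝ) ≤ D)
      (fun ρ => th (X1 + 1) ρ k false D) :=
    (p_rep (X1 + 1) k false D hD (fun _ => hkD)).mono (fun T _ h => le_of_lt h)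
  have hF0 := (p_comp (OP X1) (Pr (X1 + 1) k) Q0 D Ap Am _ _ hd01 hAp hAm hBp hBm).2
  -- the terms of the sum
  have hG : ∀ p ∈ Pr k l, RepB (OP X1 ∪ Pr (X1 + 1) k)
      (fun T => ∏ q ∈ T, (q : ℝ) ≤ Q0 * (D / p))
      (fun ρ => Ap ρ * th (X1 + 1) ρ k true (D / p)) := by
    intro p hp
    unfold Pr at hp
    rw [Finset.mem_filter, Finset.mem_range] at hp
    have hp0 : (0 : ℝ) < p := by exact_mod_cast hp.2.1.pos
    have hpl : (p : ℝ) < l := by exact_mod_cast hp.1
    have hDp : 1 < D / p := by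
      rw [lt_div_iff₀ hp0]
      linarith
    exact W2_mul hd01 hAp ((p_rep (X1 + 1) k true (D / p) hDp (fun h => by simp at h)).mono
      (fun T _ h => le_of_lt h))
  have hall : ∀ s : Finset ℕ, s ⊆ Pr k l → RepC (OP X1 ∪ Pr (X1 + 1) k ∪ s)
      (fun T => ∏ p ∈ T, (p : ℝ) ≤ Q0 * D)
      (fun ρ => (Ap ρ * th (X1 + 1) ρ k false D + Am ρ * th (X1 + 1) ρ k true D
        - Ap ρ * th (X1 + 1) ρ k true D)
        - ∑ p ∈ s, wt p * ρ p * (Ap ρ * th (X1 + 1) ρ k true (D / p))) := by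
    intro s
    induction s using Finset.induction_on with
    | empty =>
      intro _
      simp only [Finset.union_empty, Finset.sum_empty, sub_zero]
      exact hF0
    | insert w s hws ih =>
      intro hs
      have hwP : w ∈ Pr k l := hs (Finset.mem_insert_self _ _)
      have hsP : s ⊆ Pr k l := fun x hx => hs (Finset.mem_insert_of_mem hx)
      have hw0 : (0 : ℝ) < w := by
        unfold Pr at hwP
        rw [Finset.mem_filter] at hwP
        exact_mod_cast hwP.2.1.pos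
      have hwn : w ∉ OP X1 ∪ Pr (X1 + 1) k ∪ s := by
        rw [Finset.mem_union, not_or]
        exact ⟨fun h => Finset.disjoint_left.1 hd2 h hwP, hws⟩
      have hstep := W2_step (P := OP X1 ∪ Pr (X1 + 1) k ∪ s) (P' := OP X1 ∪ Pr (X1 + 1) k)
        Finset.subset_union_left hwn (hwt w) (ih hsP) (hG w hwP) (by
          intro T hT hle
          have hwT : w ∉ T := fun h => Finset.disjoint_left.1 hd2 (hT h) hwP
          show ∏ p ∈ insert w T, (p : ℝ) ≤ Q0 * D
          rw [Finset.prod_insert hwT]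
          calc (w : ℝ) * ∏ p ∈ T, (p : ℝ) ≤ w * (Q0 * (D / w)) :=
                mul_le_mul_of_nonneg_left hle hw0.le
            _ = Q0 * D := by field_simp)
      have hset : OP X1 ∪ Pr (X1 + 1) k ∪ insert w s = insert w (OP X1 ∪ Pr (X1 + 1) k ∪ s) := by
        rw [Finset.union_insert]
      have hfun : (fun ρ : ℕ → ℝ => (Ap ρ * th (X1 + 1) ρ k false D + Am ρ * th (X1 + 1) ρ k true D
          - Ap ρ * th (X1 + 1) ρ k true D)
          - ∑ p ∈ insert w s, wt p * ρ p * (Ap ρ * th (X1 + 1) ρ k true (D / p)))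
          = fun ρ => ((Ap ρ * th (X1 + 1) ρ k false D + Am ρ * th (X1 + 1) ρ k true D
          - Ap ρ * th (X1 + 1) ρ k true D)
          - ∑ p ∈ s, wt p * ρ p * (Ap ρ * th (X1 + 1) ρ k true (D / p)))
            - wt w * ρ w * (Ap ρ * th (X1 + 1) ρ k true (D / w)) := by
        funext ρ
        rw [Finset.sum_insert hws]
        ring
      rw [hset, hfun]
      exact hstep
  obtain ⟨c, hc, hsum⟩ := W2_conv (Q0 * D) _ _ hprime (hall (Pr k l) (Finset.Subset.refl _))
  exact ⟨c, hc, fun N hN ρ => hsum N hN ρ⟩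

end Pool.Agent.PSq
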