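import Pool.Agent.Lib.MP_6b8fc7_nt.Stm
import Pool.Agent.Lib.MP_d610d0_nt.CH.S.P.pt

set_option autoImplicit false

namespace Pool.Agent.PSq

open Finset
open Pool.Agent.CH.S (Pr OP th)

private theorem W3_prod (t d : ℕ) (hd : Squarefree d) :
    ∏ p ∈ d.primeFactors, (if p ∣ t then (1 : ℝ) else 0) = if d ∣ t then 1 else 0 := by
  by_cases h : d ∣ t
  · rw [if_pos h]
    apply Finset.prod_eq_one
    intro p hp
    rw [if_pos ((Nat.dvd_of_mem_primeFactors hp).trans h)]
  · rw [if_neg h]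
    have h1 : ∃ p ∈ d.primeFactors, ¬ p ∣ t := by
      by_contra hcon
      push Not at hcon
      apply h
      rw [← Nat.prod_primeFactors_of_squarefree hd]
      apply Finset.prod_primes_dvd
      · intro p hp
        exact (Nat.prime_of_mem_primeFactors hp).prime
      · exact hcon
    obtain ⟨p, hp, hpt⟩ := h1
    apply Finset.prod_eq_zero hp
    rw [if_neg hpt]

private theorem W3_sum (t N : ℕ) (ht : t ≠ 0) (hN : t ≤ N) (c : ℕ → ℝ) (Q : ℝ) (hc : Wei Q c) :
    ∑ d ∈ t.divisors, c d =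
      ∑ d ∈ Icc 1 N, c d * ∏ p ∈ d.primeFactors, (if p ∣ t then (1 : ℝ) else 0) := by
  have h1 : ∀ d ∈ Icc 1 N, c d * ∏ p ∈ d.primeFactors, (if p ∣ t then (1 : ℝ) else 0) =
      if d ∣ t then c d else 0 := by
    intro d _
    by_cases h0 : c d = 0
    · rw [h0]; simp
    · rw [W3_prod t d (hc.sup d h0).2.1]
      split_ifs <;> simp
  rw [Finset.sum_congr rfl h1, ← Finset.sum_filter]
  apply Finset.sum_congr _ (fun _ _ => rfl)
  ext d
  simp only [Nat.mem_divisors, Finset.mem_filter, Finset.mem_Icc]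
  constructor
  · rintro ⟨h, _⟩
    exact ⟨⟨Nat.pos_of_dvd_of_pos h (Nat.pos_of_ne_zero ht),
      (Nat.le_of_dvd (Nat.pos_of_ne_zero ht) h).trans hN⟩, h⟩
  · rintro ⟨_, h⟩
    exact ⟨h, ht⟩

theorem p_W3 : S_W3 := by
  intro X1 k l Q0 D Ap Am wt c hX1 hk hl hwt hA hWei hN t ht
  set ρ : ℕ → ℝ := fun p => if p ∣ t then (1 : ℝ) else 0 with hρ
  have hρ01 : ∀ p, 0 ≤ ρ p ∧ ρ p ≤ 1 := by
    intro p
    simp only [hρ]
    split_ifs <;> norm_num
  have hsum : ∑ d ∈ t.divisors, c d = GG Ap Am X1 k l D wt ρ := by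
    rw [W3_sum t (max t ⌈Q0 * D⌉₊) ht (le_max_left _ _) c _ hWei]
    refine hN (max t ⌈Q0 * D⌉₊) ?_ ρ
    refine (Nat.le_ceil _).trans ?_
    exact_mod_cast le_max_right _ _
  set a0 : ℝ := ∏ p ∈ OP X1, (1 - ρ p) with ha0
  set b0 : ℝ := ∏ p ∈ Pr (X1 + 1) k, (1 - ρ p) with hb0
  have ha0n : 0 ≤ a0 := by
    apply Finset.prod_nonneg
    intro p _
    linarith [(hρ01 p).2]
  have hb0n : 0 ≤ b0 := by
    apply Finset.prod_nonneg
    intro p _
    linarith [(hρ01 p).2]
  obtain ⟨hA1, hA2⟩ := hA ρ (fun p _ => hρ01 p)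
  have hpt : ∀ E : ℝ, th (X1 + 1) ρ k false E ≤ b0 ∧ b0 ≤ th (X1 + 1) ρ k true E := fun E =>
    Pool.Agent.CH.S.p_pt (X1 + 1) ρ k E (fun p _ => hρ01 p)
  have hGG : GG Ap Am X1 k l D wt ρ ≤ a0 * b0 * (1 - ∑ p ∈ Pr k l, wt p * ρ p) := by
    have hAp : 0 ≤ Ap ρ := ha0n.trans hA2
    have hBp : 0 ≤ th (X1 + 1) ρ k true D := hb0n.trans (hpt D).2
    have e1 : Ap ρ * th (X1 + 1) ρ k false D ≤ Ap ρ * b0 :=
      mul_le_mul_of_nonneg_left (hpt D).1 hAp
    have e2 : Am ρ * th (X1 + 1) ρ k true D ≤ a0 * th (X1 + 1) ρ k true D :=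
      mul_le_mul_of_nonneg_right hA1 hBp
    have e3 : 0 ≤ (Ap ρ - a0) * (th (X1 + 1) ρ k true D - b0) :=
      mul_nonneg (sub_nonneg.2 hA2) (sub_nonneg.2 (hpt D).2)
    have e4 : ∑ p ∈ Pr k l, wt p * ρ p * (a0 * b0) ≤
        ∑ p ∈ Pr k l, wt p * ρ p * (Ap ρ * th (X1 + 1) ρ k true (D / p)) := by
      apply Finset.sum_le_sum
      intro p _
      apply mul_le_mul_of_nonneg_left _ (mul_nonneg (hwt p) (hρ01 p).1)
      exact mul_le_mul hA2 (hpt (D / p)).2 hb0n hAp
    rw [← Finset.sum_mul] at e4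
    unfold GG
    nlinarith [e1, e2, e3, e4]
  rw [hsum]
  constructor
  · rintro ⟨p, hp, hp3, hpk, hpt'⟩
    have h0 : a0 * b0 = 0 := by
      by_cases hpX : p ≤ X1
      · have : a0 = 0 := by
          apply Finset.prod_eq_zero (i := p)
          · simp only [OP, Finset.mem_filter, Finset.mem_range]
            exact ⟨by omega, hp, by omega⟩
          · simp only [hρ]
            rw [if_pos hpt']; norm_num
        rw [this, zero_mul]
      · have : b0 = 0 := by
          apply Finset.prod_eq_zero (i := p)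
          · simp only [Pr, Finset.mem_filter, Finset.mem_range]
            exact ⟨hpk, hp, by omega⟩
          · simp only [hρ]
            rw [if_pos hpt']; norm_num
        rw [this, mul_zero]
    rw [h0, zero_mul] at hGG
    exact hGG
  · intro hno
    have h1 : a0 = 1 := by
      apply Finset.prod_eq_one
      intro p hp
      simp only [OP, Finset.mem_filter, Finset.mem_range] at hp
      simp only [hρ]
      rw [if_neg (hno p hp.2.1 (by omega) (by omega))]; norm_num
    have h2 : b0 = 1 := by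
      apply Finset.prod_eq_one
      intro p hp
      simp only [Pr, Finset.mem_filter, Finset.mem_range] at hp
      simp only [hρ]
      rw [if_neg (hno p hp.2.1 (by omega) (by omega))]; norm_num
    rw [h1, h2, one_mul, one_mul] at hGG
    refine hGG.trans (le_of_eq ?_)
    rw [Finset.sum_filter]
    congr 1
    apply Finset.sum_congr rfl
    intro p _
    simp only [hρ]
    split_ifs <;> simp

end Pool.Agent.PSq
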