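import Pool.Agent.Lib.MP_6b8fc7_nt.Stm
import Pool.Agent.Lib.MP_6b8fc7_nt.G.Ls

set_option autoImplicit false

/-!
# [W4] the main term of the weighted sieve
-/

namespace Pool.Agent.PSq

open Finset
open Pool.Agent.CH.S (Pr OP th SS Sm)

theorem p_W4 : S_W4 := by
  intro X1 k l D l4 Ap Am wt H g hX1 hk hkl hg hl4 hwt hA1 hA2 hA3 hA4 hB1 hB2 hB3 hH
  set V0 : ℝ := ∏ p ∈ OP X1, (1 - g p) with hV0
  set V1 : ℝ := Vg g (X1 + 1) k with hV1
  have hV1pos : 0 < V1 := (Vg_pos hg (by omega) k).1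
  have hV0nn : 0 ≤ V0 := by
    apply Finset.prod_nonneg
    intro p hp
    unfold OP at hp
    rw [Finset.mem_filter] at hp
    have h3 : (3 : ℝ) ≤ p := by exact_mod_cast hp.2.2
    have h1 := (hg p hp.2.1 hp.2.2).2
    have h2 : 2 / (p : ℝ) ≤ 1 := by
      rw [div_le_one (by linarith)]; linarith
    linarith
  have hAp : 0 ≤ Ap g := hV0nn.trans hA1
  unfold GG
  have hsum : ∑ p ∈ Pr k l, wt p * g p * (Ap g * th (X1 + 1) g k true (D / p)) ≤
      V0 * V1 * (1.001 * ∑ p ∈ Pr k l, wt p * g p * H p) := by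
    rw [Finset.mul_sum, Finset.mul_sum]
    apply Finset.sum_le_sum
    intro p hp
    obtain ⟨h1, h2⟩ := hH p hp
    rw [mem_Pr] at hp
    have hgp : 0 ≤ g p := (hg p hp.2.1 (by omega)).1
    have h3 : 0 ≤ wt p * g p := mul_nonneg (hwt p) hgp
    have h4 : Ap g * th (X1 + 1) g k true (D / p) ≤ (1 + 1 / 1000) * V0 * (V1 * H p) := by
      calc Ap g * th (X1 + 1) g k true (D / p) ≤ Ap g * (V1 * H p) :=
            mul_le_mul_of_nonneg_left h2 hAp
        _ ≤ (1 + 1 / 1000) * V0 * (V1 * H p) :=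
            mul_le_mul_of_nonneg_right hA2 (mul_nonneg hV1pos.le h1)
    calc wt p * g p * (Ap g * th (X1 + 1) g k true (D / p)) ≤
          wt p * g p * ((1 + 1 / 1000) * V0 * (V1 * H p)) := mul_le_mul_of_nonneg_left h4 h3
      _ = V0 * V1 * (1.001 * (wt p * g p * H p)) := by ring
  have h1 : V0 * (V1 * (1 - l4)) ≤ Ap g * th (X1 + 1) g k false D := by
    have h2 : 0 ≤ V1 * (1 - l4) := mul_nonneg hV1pos.le (by linarith)
    calc V0 * (V1 * (1 - l4)) ≤ Ap g * (V1 * (1 - l4)) := mul_le_mul_of_nonneg_right hA1 h2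
      _ ≤ _ := mul_le_mul_of_nonneg_left hB1 hAp
  have h2 : (Ap g - Am g) * th (X1 + 1) g k true D ≤ (0.002 * V0) * (V1 * 2) := by
    have h3 : Ap g - Am g ≤ 0.002 * V0 := by
      have : (0.002 : ℝ) * V0 = (1 + 1 / 1000) * V0 - (1 - 1 / 1000) * V0 := by ring
      linarith
    have h4 : 0 ≤ th (X1 + 1) g k true D := hV1pos.le.trans hB3
    calc (Ap g - Am g) * th (X1 + 1) g k true D ≤ (0.002 * V0) * th (X1 + 1) g k true D :=
          mul_le_mul_of_nonneg_right h3 h4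
      _ ≤ _ := mul_le_mul_of_nonneg_left hB2 (by positivity)
  have h5 : Ap g * th (X1 + 1) g k false D + Am g * th (X1 + 1) g k true D
      - Ap g * th (X1 + 1) g k true D = Ap g * th (X1 + 1) g k false D
      - (Ap g - Am g) * th (X1 + 1) g k true D := by ring
  rw [h5]
  nlinarith

end Pool.Agent.PSq
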