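import Pool.Agent.Lib.MP_6b8fc7_nt.Stm

set_option autoImplicit false

/-!
# [W5] the sum with Richert's weights
-/

namespace Pool.Agent.PSq

open Finset
open Pool.Agent.CH.S (Pr)

private noncomputable def W5_J (Z Y Δ t : ℝ) : ℝ :=
  -(Z / Y) * (Y / Δ * Real.log t + (Δ - Y) / Δ * Real.log (Δ - t))

private noncomputable def W5_h (Z Y Δ t : ℝ) : ℝ := (1 - t / Y) * (Z / (Δ - t))

private theorem W5_key (Δ s t : ℝ) (hs : 0 < s) (hst : s ≤ t) (ht : t < Δ) :
    Real.log (Δ - s) - Real.log (Δ - t) ≤ t / (Δ - t) * (Real.log t - Real.log s) := by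
  have ht0 : 0 < t := hs.trans_le hst
  have h1 : 0 < Δ - t := by linarith
  have h2 : 0 < Δ - s := by linarith
  have e1 : Real.log (Δ - s) - Real.log (Δ - t) ≤ (t - s) / (Δ - t) := by
    rw [← Real.log_div h2.ne' h1.ne']
    refine (Real.log_le_sub_one_of_pos (by positivity)).trans (le_of_eq ?_)
    field_simp
    ring
  have e2 : (t - s) / t ≤ Real.log t - Real.log s := by
    rw [← Real.log_div ht0.ne' hs.ne']
    refine le_trans (le_of_eq ?_) (Real.one_sub_inv_le_log_of_pos (by positivity))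
    field_simp
  refine e1.trans ?_
  have e3 : (t - s) / (Δ - t) = t / (Δ - t) * ((t - s) / t) := by
    field_simp
  rw [e3]
  exact mul_le_mul_of_nonneg_left e2 (by positivity)

private theorem W5_step (Z Y Δ s t : ℝ) (hZ : 0 < Z) (hY : 0 < Y) (hYD : Y < Δ) (hs : 0 < s)
    (hst : s ≤ t) (htY : t ≤ Y) :
    W5_h Z Y Δ t * (Real.log t - Real.log s) ≤ W5_J Z Y Δ s - W5_J Z Y Δ t := by
  have ht0 : 0 < t := hs.trans_le hst
  have h1 : 0 < Δ - t := by linarith
  have hΔ : 0 < Δ := by linarith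
  have hk := W5_key Δ s t hs hst (by linarith)
  have e : W5_J Z Y Δ s - W5_J Z Y Δ t - W5_h Z Y Δ t * (Real.log t - Real.log s) =
      Z / Y * ((Δ - Y) / Δ) * (t / (Δ - t) * (Real.log t - Real.log s) -
        (Real.log (Δ - s) - Real.log (Δ - t))) := by
    unfold W5_J W5_h
    field_simp
    ring
  have h2 : 0 ≤ Z / Y * ((Δ - Y) / Δ) := by
    have : 0 ≤ Δ - Y := by linarith
    positivity
  have h3 := mul_nonneg h2 (sub_nonneg.2 hk)
  rw [← e] at h3
  linarith

private theorem W5_h_nonneg (Z Y Δ t : ℝ) (hZ : 0 < Z) (hY : 0 < Y) (hYD : Y < Δ) (htY : t ≤ Y) :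
    0 ≤ W5_h Z Y Δ t := by
  unfold W5_h
  have h1 : t / Y ≤ 1 := by
    rw [div_le_one hY]
    exact htY
  have h2 : 0 < Δ - t := by linarith
  exact mul_nonneg (by linarith) (by positivity)

private theorem W5_h_anti (Z Y Δ s t : ℝ) (hZ : 0 < Z) (hY : 0 < Y) (hYD : Y < Δ) (hst : s ≤ t)
    (htY : t ≤ Y) : W5_h Z Y Δ t ≤ W5_h Z Y Δ s := by
  unfold W5_h
  have h1 : 0 < Δ - t := by linarith
  have h2 : 0 < Δ - s := by linarith
  have e1 : (1 - t / Y) * (Z / (Δ - t)) = Z / Y * ((Y - t) / (Δ - t)) := by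
    field_simp
  have e2 : (1 - s / Y) * (Z / (Δ - s)) = Z / Y * ((Y - s) / (Δ - s)) := by
    field_simp
  rw [e1, e2]
  refine mul_le_mul_of_nonneg_left ?_ (by positivity)
  rw [div_le_div_iff₀ h1 h2]
  nlinarith [mul_nonneg (sub_nonneg.2 hst) (sub_nonneg.2 hYD.le)]

private theorem W5_Pr (k w : ℕ) : Pr k w = (Ico k w).filter Nat.Prime := by
  ext p
  simp only [Pr, Finset.mem_filter, Finset.mem_range, Finset.mem_Ico]
  tauto

private theorem W5_ind (g : ℕ → ℝ) (k : ℕ) (z Z Y Δ ε : ℝ) (hk : 3 ≤ k) (hz : 3 ≤ z)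
    (hzk : z ≤ k) (hZ : Z = Real.log z) (hZ0 : 0 < Z) (hZY : Z ≤ Y) (hYD : Y < Δ)
    (h2 : 2 * Z ≤ Δ) (hε : 0 ≤ ε) (n : ℕ) (hkn : k ≤ n)
    (hnY : Real.log n ≤ Y)
    (hA : ∀ m : ℕ, k ≤ m → m ≤ n →
      ∑ p ∈ (Ico k (m + 1)).filter Nat.Prime, g p ≤ Real.log (Real.log m / Z) + ε) :
    ∑ p ∈ (Ico k (n + 1)).filter Nat.Prime, g p * W5_h Z Y Δ (Real.log p) +
      ((Real.log (Real.log n / Z) + ε) - ∑ p ∈ (Ico k (n + 1)).filter Nat.Prime, g p) *
        W5_h Z Y Δ (Real.log n) ≤ ε + W5_J Z Y Δ Z - W5_J Z Y Δ (Real.log n) := by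
  have hY : 0 < Y := by linarith
  induction n, hkn using Nat.le_induction with
  | base =>
    have hlk : Z ≤ Real.log k := by
      rw [hZ]
      exact Real.log_le_log (by linarith) hzk
    have hlk0 : 0 < Real.log k := by linarith
    have e1 : ∑ p ∈ (Ico k (k + 1)).filter Nat.Prime, g p * W5_h Z Y Δ (Real.log p) =
        (∑ p ∈ (Ico k (k + 1)).filter Nat.Prime, g p) * W5_h Z Y Δ (Real.log k) := by
      rw [Finset.sum_mul]
      refine Finset.sum_congr rfl fun p hp => ?_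
      have : p = k := by
        have := (Finset.mem_filter.1 hp).1
        rw [Finset.mem_Ico] at this
        omega
      rw [this]
    rw [e1]
    have e2 := W5_step Z Y Δ Z (Real.log k) hZ0 hY hYD hZ0 hlk hnY
    rw [← Real.log_div hlk0.ne' hZ0.ne'] at e2
    have e3 : W5_h Z Y Δ (Real.log k) ≤ 1 := by
      refine (W5_h_anti Z Y Δ Z (Real.log k) hZ0 hY hYD hlk hnY).trans ?_
      unfold W5_h
      have h5 : 0 < Δ - Z := by linarith
      have h6 : Z / (Δ - Z) ≤ 1 := by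
        rw [div_le_one h5]
        linarith
      have h7 : 0 ≤ Z / Y := by positivity
      have h8 : 0 ≤ Z / (Δ - Z) := by positivity
      nlinarith
    have e4 : ε * W5_h Z Y Δ (Real.log k) ≤ ε := by nlinarith
    nlinarith
  | succ n hkn ih =>
    have hn0 : (0 : ℝ) < n := by
      have : 0 < n := by omega
      exact_mod_cast this
    have hle : Real.log n ≤ Real.log ((n + 1 : ℕ) : ℝ) :=
      Real.log_le_log hn0 (by push_cast; linarith)
    have hnY' : Real.log n ≤ Y := hle.trans hnY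
    have ih' := ih hnY' (fun m h1 h2 => hA m h1 (by omega))
    have hln : Z ≤ Real.log n := by
      rw [hZ]
      refine Real.log_le_log (by linarith) (hzk.trans ?_)
      exact_mod_cast hkn
    have hln0 : 0 < Real.log n := by linarith
    have hln1 : 0 < Real.log ((n + 1 : ℕ) : ℝ) := by linarith
    have hAn := hA n hkn (by omega)
    have hsplit : ∀ F : ℕ → ℝ, ∑ p ∈ (Ico k (n + 1 + 1)).filter Nat.Prime, F p =
        ∑ p ∈ (Ico k (n + 1)).filter Nat.Prime, F p + (if (n + 1).Prime then F (n + 1) else 0) := by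
      intro F
      rw [Finset.sum_filter, Finset.sum_filter, Finset.sum_Ico_succ_top (by omega)]
    rw [hsplit, hsplit]
    have e2 := W5_step Z Y Δ (Real.log n) (Real.log ((n + 1 : ℕ) : ℝ)) hZ0 hY hYD hln0 hle hnY
    have e3 := W5_h_anti Z Y Δ (Real.log n) (Real.log ((n + 1 : ℕ) : ℝ)) hZ0 hY hYD hle hnY
    rw [Real.log_div hln0.ne' hZ0.ne'] at ih' hAn
    rw [Real.log_div hln1.ne' hZ0.ne']
    have e4 : (if (n + 1).Prime then g (n + 1) * W5_h Z Y Δ (Real.log ((n + 1 : ℕ) : ℝ)) else 0) =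
        (if (n + 1).Prime then g (n + 1) else 0) * W5_h Z Y Δ (Real.log ((n + 1 : ℕ) : ℝ)) := by
      split_ifs
      · rfl
      · rw [zero_mul]
    rw [e4]
    have e5 : 0 ≤ (Real.log (Real.log n) - Real.log Z + ε -
        ∑ p ∈ (Ico k (n + 1)).filter Nat.Prime, g p) *
        (W5_h Z Y Δ (Real.log n) - W5_h Z Y Δ (Real.log ((n + 1 : ℕ) : ℝ))) :=
      mul_nonneg (by linarith) (by linarith)
    nlinarith [e5, e2, ih']

theorem p_W5 : S_W5 := by
  intro g z y D ε hg hz hzy hyD h2 hε hA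
  set Z := Real.log z with hZ
  set Y := Real.log y with hY
  set Δ := Real.log D with hΔ
  set k := ⌈z⌉₊ with hk
  set l := ⌈y⌉₊ with hl
  have hZ0 : 0 < Z := Real.log_pos (by linarith)
  have hZY : Z < Y := Real.log_lt_log (by linarith) hzy
  have hYD : Y < Δ := Real.log_lt_log (by linarith) hyD
  have hY0 : 0 < Y := by linarith
  have hzk : z ≤ k := Nat.le_ceil z
  have hk3 : 3 ≤ k := by
    have : (3 : ℝ) ≤ k := hz.trans hzk
    exact_mod_cast this
  have hII : II Z Y Δ = W5_J Z Y Δ Z - W5_J Z Y Δ Y := by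
    unfold II W5_J
    rw [Real.log_div hY0.ne' hZ0.ne', Real.log_div (by linarith) (by linarith)]
    ring
  have hmono : ∀ t : ℝ, 0 < t → t ≤ Y → W5_J Z Y Δ Y ≤ W5_J Z Y Δ t := by
    intro t ht htY
    have h3 := W5_step Z Y Δ t Y hZ0 hY0 hYD ht htY le_rfl
    have h4 : 0 ≤ W5_h Z Y Δ Y * (Real.log Y - Real.log t) :=
      mul_nonneg (W5_h_nonneg Z Y Δ Y hZ0 hY0 hYD le_rfl)
        (sub_nonneg.2 (Real.log_le_log ht htY))
    linarith
  rcases Nat.lt_or_ge k l with hkl | hkl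
  · obtain ⟨n, hn⟩ : ∃ n, l = n + 1 := ⟨l - 1, by omega⟩
    have hkn : k ≤ n := by omega
    have hny : (n : ℝ) < y := by
      refine Nat.lt_ceil.1 ?_
      rw [← hl]
      omega
    have hn0 : (0 : ℝ) < n := by
      have : 0 < n := by omega
      exact_mod_cast this
    have hnY : Real.log n ≤ Y := Real.log_le_log hn0 hny.le
    have hzn : Z ≤ Real.log n := by
      refine Real.log_le_log (by linarith) (hzk.trans ?_)
      exact_mod_cast hkn
    have hmain := W5_ind g k z Z Y Δ ε hk3 hz hzk hZ hZ0 hZY.le hYD h2 hε n hkn hnY (by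
      intro m h3 h4
      have h5 : (m : ℝ) ≤ y := by
        have : (m : ℝ) ≤ n := by exact_mod_cast h4
        linarith
      have h6 := hA m h3 h5
      rwa [W5_Pr] at h6)
    have h7 := hA n hkn hny.le
    rw [W5_Pr] at h7
    have h8 : 0 ≤ ((Real.log (Real.log n / Z) + ε) -
        ∑ p ∈ (Ico k (n + 1)).filter Nat.Prime, g p) * W5_h Z Y Δ (Real.log n) :=
      mul_nonneg (by linarith) (W5_h_nonneg Z Y Δ _ hZ0 hY0 hYD hnY)
    have h9 := hmono (Real.log n) (by linarith) hnY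
    have h10 : ∑ p ∈ Pr k l, (1 - Real.log p / Y) * g p * (Z / Real.log (D / p)) =
        ∑ p ∈ (Ico k (n + 1)).filter Nat.Prime, g p * W5_h Z Y Δ (Real.log p) := by
      rw [W5_Pr, hn]
      refine Finset.sum_congr rfl fun p hp => ?_
      have hp0 : (0 : ℝ) < p := by
        have := (Finset.mem_filter.1 hp).2.pos
        exact_mod_cast this
      unfold W5_h
      rw [Real.log_div (by linarith) hp0.ne', ← hΔ]
      ring
    rw [h10, hII]
    linarith
  · have h3 : Pr k l = ∅ := by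
      rw [W5_Pr, Finset.Ico_eq_empty (by omega), Finset.filter_empty]
    rw [h3, Finset.sum_empty, hII]
    have := hmono Z hZ0 hZY.le
    linarith

end Pool.Agent.PSq
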