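import Pool.Agent.Lib.MP_6b8fc7_nt.Stm

/-!
# MP_6b8fc7_nt, [W6] numerics
-/

set_option autoImplicit false

namespace Pool.Agent.PSq

private theorem W6_up (x c : ℝ) (hx : 0 < x) (hc : 0 ≤ c)
    (h : x ≤ ∑ i ∈ Finset.range 10, c ^ i / (i.factorial : ℝ)) : Real.log x ≤ c := by
  rw [Real.log_le_iff_le_exp hx]
  exact h.trans (Real.sum_le_exp_of_nonneg hc 10)

private theorem W6_lo (x c : ℝ) (hx : 0 < x) (hc : 0 ≤ c) (hc1 : c ≤ 1)
    (h : 2.7182818286 * (∑ i ∈ Finset.range 7, c ^ i / (i.factorial : ℝ) +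
      c ^ 7 * (7 + 1) / ((Nat.factorial 7 : ℕ) * 7 : ℝ)) ≤ x) : 1 + c ≤ Real.log x := by
  rw [Real.le_log_iff_exp_le hx, Real.exp_add]
  have h1 := Real.exp_bound' hc hc1 (n := 7) (by norm_num)
  have h2 := Real.exp_one_lt_d9
  refine le_trans ?_ h
  push_cast at h1 ⊢
  have h3 : 0 ≤ Real.exp c := (Real.exp_pos c).le
  calc Real.exp 1 * Real.exp c ≤ 2.7182818286 * Real.exp c :=
        mul_le_mul_of_nonneg_right h2.le h3
    _ ≤ _ := mul_le_mul_of_nonneg_left h1 (by norm_num)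

/-- [W6] -/
theorem p_W6 : S_W6 := by
  constructor
  · have h1 : Real.log (0.495 / 0.1404) ≤ 1.2604 :=
      W6_up _ _ (by norm_num) (by norm_num) (by norm_num [Finset.sum_range_succ, Nat.factorial])
    have h2 : 1 + 0.8425 ≤ Real.log ((0.5617 - 0.1404) / (0.5617 - 0.495)) :=
      W6_lo _ _ (by norm_num) (by norm_num) (by norm_num)
        (by norm_num [Finset.sum_range_succ, Nat.factorial])
    unfold II
    norm_num at h1 h2 ⊢
    linarith
  · have h1 : Real.log (0.4 / 0.1246) ≤ 1.17 :=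
      W6_up _ _ (by norm_num) (by norm_num) (by norm_num [Finset.sum_range_succ, Nat.factorial])
    have h2 : 1 + 0.33 ≤ Real.log ((0.4985 - 0.1246) / (0.4985 - 0.4)) :=
      W6_lo _ _ (by norm_num) (by norm_num) (by norm_num)
        (by norm_num [Finset.sum_range_succ, Nat.factorial])
    unfold II
    norm_num at h1 h2 ⊢
    linarith

end Pool.Agent.PSq
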