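import Pool.Agent.Lib.MP_6b8fc7_nt.Stm
import Pool.Agent.Lib.MP_6b8fc7_nt.G.Ls
import Pool.Agent.Lib.MP_6b8fc7_nt.G.Fl
import Pool.Agent.Lib.MP_6b8fc7_nt.G.Ss
import Pool.Agent.Lib.MP_d610d0_nt.CH.S.P.pt

set_option autoImplicit false

/-!
# [W7] the weighted sieve
-/

namespace Pool.Agent.PSq

open Finset
open scoped ArithmeticFunction.Omega
open Pool.Agent.CH.S (Pr OP th SS Sm p_eps p_pt)
open Pool.Agent.BVall (RepB)

private theorem W7_large (e0 B : ℝ) (he : 0 < e0) : ∃ X0 : ℕ, 1 ≤ X0 ∧ ∀ X : ℕ, X0 ≤ X →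
    ∀ e : ℝ, e0 ≤ e → B ≤ (X : ℝ) ^ e := by
  have h := (tendsto_rpow_atTop he).comp (tendsto_natCast_atTop_atTop (R := ℝ))
  obtain ⟨X0, hX0⟩ := (h.eventually_ge_atTop B).exists_forall_of_atTop
  refine ⟨max X0 1, le_max_right _ _, ?_⟩
  intro X hX e hee
  have h1 : (1 : ℝ) ≤ X := by exact_mod_cast (le_max_right _ _).trans hX
  exact (hX0 X ((le_max_left _ _).trans hX)).trans (Real.rpow_le_rpow_of_exponent_le h1 hee)

private theorem W7_m (Y : ℝ) (hY : 16 ≤ Y) : ∃ m : ℕ, 2 ≤ m ∧ ((2 : ℝ) ^ 2 ^ m) ≤ Y ∧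
    Y ≤ ((2 : ℝ) ^ 2 ^ m) ^ 2 := by
  have hY0 : 0 ≤ Y := by linarith
  set f : ℕ := ⌊Y⌋₊ with hf
  have hf16 : 16 ≤ f := Nat.le_floor (by exact_mod_cast hY)
  set t : ℕ := Nat.log 2 f with ht
  have ht4 : 4 ≤ t := by
    rw [ht]
    exact Nat.le_log_of_pow_le (by norm_num) (by norm_num; exact hf16)
  have h1 : 2 ^ t ≤ f := Nat.pow_log_le_self 2 (by omega)
  have h2 : f < 2 ^ (t + 1) := Nat.lt_pow_succ_log_self (by norm_num) f
  set m : ℕ := Nat.log 2 t with hm
  have hm2 : 2 ≤ m := by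
    rw [hm]
    exact Nat.le_log_of_pow_le (by norm_num) (by norm_num; exact ht4)
  have h3 : 2 ^ m ≤ t := Nat.pow_log_le_self 2 (by omega)
  have h4 : t < 2 ^ (m + 1) := Nat.lt_pow_succ_log_self (by norm_num) t
  refine ⟨m, hm2, ?_, ?_⟩
  · have h5 : 2 ^ 2 ^ m ≤ f := (Nat.pow_le_pow_right (by norm_num) h3).trans h1
    calc ((2 : ℝ) ^ 2 ^ m) = ((2 ^ 2 ^ m : ℕ) : ℝ) := by push_cast; rfl
      _ ≤ (f : ℝ) := by exact_mod_cast h5
      _ ≤ Y := Nat.floor_le hY0
  · have h5 : f + 1 ≤ (2 ^ 2 ^ m) ^ 2 := by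
      rw [← pow_mul, ← pow_succ]
      exact (Nat.succ_le_of_lt h2).trans (Nat.pow_le_pow_right (by norm_num) h4)
    calc Y ≤ (f : ℝ) + 1 := (Nat.lt_floor_add_one Y).le
      _ ≤ (((2 ^ 2 ^ m) ^ 2 : ℕ) : ℝ) := by exact_mod_cast h5
      _ = ((2 : ℝ) ^ 2 ^ m) ^ 2 := by push_cast; rfl

private theorem W7_Dg (n : ℕ) : Dg (gn n) := by
  intro p _ hp3
  have hp : (0 : ℝ) < p := by
    have : 0 < p := by omega
    exact_mod_cast this
  have h1 : |chi n p| ≤ 1 := by
    unfold chi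
    rcases jacobiSym.trichotomy (2 * (n : ℤ)) p with h | h | h <;> rw [h] <;> norm_num
  rw [abs_le] at h1
  unfold gn
  constructor
  · apply div_nonneg _ hp.le
    linarith
  · apply div_le_div_of_nonneg_right _ hp.le
    linarith

private theorem W7_mono {g : ℕ → ℝ} (hg : Dg g) {ε ε' : ℝ} (h : ε ≤ ε') {a : ℕ} (ha : 3 ≤ a)
    {Y : ℝ} (hM : MerG g ε a Y) : MerG g ε' a Y := by
  intro n hn w hw hwY
  refine (hM n hn w hw hwY).trans ?_
  have hn3 : (3 : ℝ) ≤ n := by exact_mod_cast ha.trans hn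
  have hlog : 0 ≤ Real.log w := Real.log_nonneg (by linarith)
  apply mul_le_mul_of_nonneg_right _ hlog
  apply mul_le_mul_of_nonneg_right _ (Vg_pos hg (ha.trans hn) _).1.le
  linarith

private theorem W7_II (Z Y Δ x : ℝ) (hx : 0 < x) : II (Z * x) (Y * x) (Δ * x) = II Z Y Δ := by
  unfold II
  have hx' := hx.ne'
  have e1 : Z * x / (Y * x) = Z / Y := by rw [mul_div_mul_right _ _ hx']
  have e2 : Y * x / (Δ * x) = Y / Δ := by rw [mul_div_mul_right _ _ hx']
  have e3 : Y * x / (Z * x) = Y / Z := by rw [mul_div_mul_right _ _ hx']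
  have e4 : (Δ * x - Y * x) / (Δ * x) = (Δ - Y) / Δ := by
    rw [← sub_mul, mul_div_mul_right _ _ hx']
  have e5 : (Δ * x - Z * x) / (Δ * x - Y * x) = (Δ - Z) / (Δ - Y) := by
    rw [← sub_mul, ← sub_mul, mul_div_mul_right _ _ hx']
  rw [e1, e2, e3, e4, e5]

private theorem W7_Vn (n X1 k : ℕ) (z : ℝ) (hk : k = ⌈z⌉₊) (hX : 2 ≤ X1) (h : X1 + 1 ≤ k) :
    Vn n z = (∏ p ∈ OP X1, (1 - gn n p)) * Vg (gn n) (X1 + 1) k := by
  unfold Vn Vg
  rw [← Finset.prod_union]
  · refine Finset.prod_congr ?_ (fun _ _ => rfl)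
    ext p
    unfold Pz OP
    rw [← hk]
    simp only [mem_Pr, Finset.mem_union, Finset.mem_filter, Finset.mem_range]
    constructor
    · rintro ⟨h1, h2, h3⟩
      by_cases h4 : p < X1 + 1
      · exact Or.inl ⟨h4, h2, h3⟩
      · exact Or.inr ⟨h1, h2, by omega⟩
    · rintro (⟨h1, h2, h3⟩ | ⟨h1, h2, h3⟩)
      · exact ⟨by omega, h2, h3⟩
      · exact ⟨h1, h2, by omega⟩
  · rw [Finset.disjoint_left]
    intro p hp hq
    rw [mem_Pr] at hq
    unfold OP at hp
    rw [Finset.mem_filter, Finset.mem_range] at hp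
    omega

open Classical in
theorem p_W7 (hM5 : S_M5) (hW1 : S_W1) (hW2 : S_W2) (hW3 : S_W3) (hW4 : S_W4) (hW5 : S_W5) :
    S_W7 := by
  intro r ζ τ θ₁ θ lam hP
  obtain ⟨hζ0, hζτ, hτθ, hθθ, hθ1, hlam0, hlam3, hlameq, hs4, hs4', hnum⟩ := hP
  obtain ⟨u, l, U, L, K, hSS, hK1, hK2, hu4, hl4⟩ := g_ss
  set κ : ℝ := min ((θ - θ₁) / 102) ((θ₁ - τ) / 8) with hκ
  have hκ0 : 0 < κ := lt_min (by linarith) (by linarith)
  have hκ1 : 102 * κ ≤ θ - θ₁ := by
    have := min_le_left ((θ - θ₁) / 102) ((θ₁ - τ) / 8)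
    rw [← hκ] at this
    linarith
  have hκ2 : 8 * κ ≤ θ₁ - τ := by
    have := min_le_right ((θ - θ₁) / 102) ((θ₁ - τ) / 8)
    rw [← hκ] at this
    linarith
  have hκζ : κ < ζ := by linarith
  set S : ℝ := max 3 (2 * θ₁ / κ) with hS
  obtain ⟨ε₁, hSm⟩ := p_eps u l U L K hSS S (le_max_left _ _)
  set ε : ℝ := min ε₁ (1 / 10000) with hε
  have hε0 : 0 < ε := lt_min hSm.pos (by norm_num)
  have hε1 : ε ≤ ε₁ := min_le_left _ _
  have hε2 : ε ≤ 1 / 10000 := min_le_right _ _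
  obtain ⟨N, X0, hN2, hM⟩ := hM5 ε (κ / 2) hε0 (by linarith)
  obtain ⟨C0, hC00, hfl⟩ := g_fl
  set e0 : ℝ := min κ (ζ - κ) with he0
  have he00 : 0 < e0 := lt_min hκ0 (by linarith)
  have he0κ : e0 ≤ κ := min_le_left _ _
  have he0ζ : e0 ≤ ζ - κ := min_le_right _ _
  set B : ℝ := max 16 (C0 ^ 2 + 1) with hB
  have hB16 : 16 ≤ B := le_max_left _ _
  have hBC : C0 ^ 2 + 1 ≤ B := le_max_right _ _
  obtain ⟨X1', hX1'1, hlarge⟩ := W7_large e0 B he00
  refine ⟨N, 0.01, max X0 X1', hN2, by norm_num, ?_⟩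
  intro X hX
  have hXX0 : X0 ≤ X := (le_max_left _ _).trans hX
  have hXX1 : X1' ≤ X := (le_max_right _ _).trans hX
  have hpw : ∀ e : ℝ, e0 ≤ e → 16 ≤ (X : ℝ) ^ e := fun e he => hB16.trans (hlarge X hXX1 e he)
  have hXn1 : 1 ≤ X := hX1'1.trans hXX1
  have hX1r : (1 : ℝ) ≤ X := by exact_mod_cast hXn1
  have hX0r : (0 : ℝ) < X := by linarith
  have hXne : (X : ℝ) ≠ 1 := by
    intro h
    have := hpw e0 le_rfl
    rw [h, Real.one_rpow] at this
    linarith
  have hXgt : (1 : ℝ) < X := lt_of_le_of_ne hX1r (Ne.symm hXne)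
  set x : ℝ := Real.log X with hx
  have hx0 : 0 < x := Real.log_pos hXgt
  have hmono : ∀ e f : ℝ, e ≤ f → (X : ℝ) ^ e ≤ (X : ℝ) ^ f := fun e f h =>
    Real.rpow_le_rpow_of_exponent_le hX1r h
  have hlogp : ∀ e : ℝ, Real.log ((X : ℝ) ^ e) = e * x := fun e => Real.log_rpow hX0r e
  -- the small primes
  obtain ⟨m, hm2, hmle, hmge⟩ := W7_m ((X : ℝ) ^ κ) (hpw κ he0κ)
  set X1 : ℕ := 2 ^ 2 ^ m with hX1
  have hX1c : (X1 : ℝ) = (2 : ℝ) ^ 2 ^ m := by rw [hX1]; push_cast; rfl
  rw [← hX1c] at hmle hmge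
  have hX1nn : (0 : ℝ) ≤ X1 := Nat.cast_nonneg _
  have hX12 : 2 ≤ X1 := by
    rw [hX1]
    calc 2 = 2 ^ 1 := rfl
      _ ≤ 2 ^ 2 ^ m := Nat.pow_le_pow_right (by norm_num) Nat.one_le_two_pow
  have hX12r : (2 : ℝ) ≤ X1 := by exact_mod_cast hX12
  have hC0X1 : C0 ≤ X1 := by
    by_contra hlt
    push Not at hlt
    have h1 : (X1 : ℝ) ^ 2 ≤ C0 ^ 2 := pow_le_pow_left₀ hX1nn hlt.le 2
    have h2 := hlarge X hXX1 κ he0κ
    linarith
  obtain ⟨Ap, Am, hAp, hAm, hpt, hmain⟩ := hfl m hm2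
  rw [← hX1] at hAp hAm hpt hmain
  set Q0 : ℝ := (X : ℝ) ^ (θ - θ₁) with hQ0
  set D : ℝ := (X : ℝ) ^ θ₁ with hD
  set z : ℝ := (X : ℝ) ^ ζ with hz
  set y : ℝ := (X : ℝ) ^ τ with hy
  have hC0Q : C0 * ((2 : ℝ) ^ 2 ^ m) ^ 50 ≤ Q0 := by
    rw [← hX1c]
    have h51 : C0 * (X1 : ℝ) ^ 50 ≤ (X1 : ℝ) ^ 51 := by
      calc C0 * (X1 : ℝ) ^ 50 ≤ X1 * (X1 : ℝ) ^ 50 :=
            mul_le_mul_of_nonneg_right hC0X1 (by positivity)
        _ = (X1 : ℝ) ^ 51 := by ring
    refine h51.trans ?_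
    have h2 : (X1 : ℝ) ^ 51 ≤ ((X : ℝ) ^ κ) ^ 51 := pow_le_pow_left₀ hX1nn hmle 51
    refine h2.trans ?_
    rw [← Real.rpow_natCast, ← Real.rpow_mul hX0r.le]
    apply hmono
    push_cast
    linarith
  have hApQ : RepB (OP X1) (fun T => ∏ p ∈ T, (p : ℝ) ≤ Q0) Ap :=
    hAp.mono fun T _ hT => le_trans hT hC0Q
  have hAmQ : RepB (OP X1) (fun T => ∏ p ∈ T, (p : ℝ) ≤ Q0) Am :=
    hAm.mono fun T _ hT => le_trans hT hC0Q
  have hQ0D : Q0 * D = (X : ℝ) ^ θ := by
    rw [hQ0, hD, ← Real.rpow_add hX0r]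
    congr 1
    ring
  have hz16 : 16 ≤ z := hpw ζ (by linarith)
  have hzy : z < y := Real.rpow_lt_rpow_of_exponent_lt hXgt hζτ
  have hyD : y < D := Real.rpow_lt_rpow_of_exponent_lt hXgt hτθ
  have hy0 : 0 < y := by linarith
  have hz0 : 0 < z := by linarith
  have hD0 : 0 < D := by linarith
  -- `X^κ + 1 ≤ z` and `y + 1 ≤ D`
  have hκz : (X : ℝ) ^ κ * 16 ≤ z := by
    have h1 : z = (X : ℝ) ^ κ * (X : ℝ) ^ (ζ - κ) := by
      rw [hz, ← Real.rpow_add hX0r]
      congr 1
      ring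
    rw [h1]
    exact mul_le_mul_of_nonneg_left (hpw _ he0ζ) (by positivity)
  have hyD' : y * 16 ≤ D := by
    have h1 : D = y * (X : ℝ) ^ (θ₁ - τ) := by
      rw [hD, hy, ← Real.rpow_add hX0r]
      congr 1
      ring
    rw [h1]
    exact mul_le_mul_of_nonneg_left (hpw _ (by linarith)) hy0.le
  have hX1z : (X1 : ℝ) + 1 ≤ z := by linarith
  set k : ℕ := ⌈z⌉₊ with hk
  set l' : ℕ := ⌈y⌉₊ with hl'
  have hkz : z ≤ (k : ℝ) := Nat.le_ceil z
  have hX1k : X1 + 1 ≤ k := by
    have h1 : ((X1 + 1 : ℕ) : ℝ) ≤ k := by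
      push_cast
      linarith
    exact_mod_cast h1
  have hkl : k ≤ l' := Nat.ceil_mono hzy.le
  have hlD : (l' : ℝ) ≤ D := by
    have h1 : (l' : ℝ) < y + 1 := Nat.ceil_lt_add_one hy0.le
    linarith
  have hQ01 : 1 ≤ Q0 := by
    have := hpw (θ - θ₁) (by linarith)
    linarith
  have hD1 : 1 < D := by linarith
  have hlogz : Real.log z = ζ * x := hlogp ζ
  have hlogy : Real.log y = τ * x := hlogp τ
  have hlogD : Real.log D = θ₁ * x := hlogp θ₁
  have hτ0 : 0 < τ := by linarith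
  have hlogy0 : 0 < Real.log y := by rw [hlogy]; positivity
  have hlogz0 : 0 < Real.log z := by rw [hlogz]; positivity
  let wt : ℕ → ℝ := fun p => if z ≤ (p : ℝ) ∧ (p : ℝ) < y then
    lam * (1 - Real.log p / Real.log y) else 0
  have hwt : ∀ p, 0 ≤ wt p ∧ wt p ≤ 3 := by
    intro p
    show 0 ≤ (if z ≤ (p : ℝ) ∧ (p : ℝ) < y then lam * (1 - Real.log p / Real.log y) else 0) ∧
      (if z ≤ (p : ℝ) ∧ (p : ℝ) < y then lam * (1 - Real.log p / Real.log y) else 0) ≤ 3
    split_ifs with h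
    · have hp0 : (0 : ℝ) < p := by linarith [h.1]
      have h1 : Real.log p / Real.log y ≤ 1 := by
        rw [div_le_one hlogy0]
        exact Real.log_le_log hp0 h.2.le
      have h2 : 0 ≤ Real.log p / Real.log y :=
        div_nonneg (Real.log_nonneg (by linarith [h.1])) hlogy0.le
      constructor
      · exact mul_nonneg hlam0.le (by linarith)
      · have h3 := mul_le_mul_of_nonneg_left
          (show 1 - Real.log p / Real.log y ≤ 1 by linarith) hlam0.le
        linarith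
    · norm_num
  obtain ⟨c, hc, hcid⟩ := hW2 X1 k l' Q0 D Ap Am wt hX12 hX1k hkl hQ01 hD1 hlD hwt hApQ hAmQ
  have hptw := hW3 X1 k l' Q0 D Ap Am wt c hX12 hX1k hkl (fun p => (hwt p).1) hpt hc hcid
  have hmemP : ∀ p ∈ Pr k l', z ≤ (p : ℝ) ∧ (p : ℝ) < y := by
    intro p hp
    rw [mem_Pr] at hp
    refine ⟨hkz.trans (by exact_mod_cast hp.2.2), Nat.lt_ceil.1 hp.1⟩
  have hwtP : ∀ p ∈ Pr k l', wt p = lam * (1 - Real.log p / Real.log y) := by
    intro p hp
    exact if_pos (hmemP p hp)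
  refine ⟨c, ?_, ?_, ?_⟩
  · rw [← hQ0D]; exact hc
  · -- the pointwise inequality
    intro a ha haX
    have ha1 : 1 ≤ a := ha.pos
    have hnn1 : (0 : ℝ) ≤ (if Ω a ≤ r then 1 else 0) := by split_ifs <;> norm_num
    have hnn2 : (0 : ℝ) ≤ (if ∃ p : ℕ, p.Prime ∧ z ≤ p ∧ (p : ℝ) < y ∧ p ^ 2 ∣ a then 1 else 0) := by
      split_ifs <;> norm_num
    obtain ⟨hpt1, hpt2⟩ := hptw a (by omega)
    by_cases hcop : ∃ p : ℕ, p.Prime ∧ 3 ≤ p ∧ p < k ∧ p ∣ a
    · have := hpt1 hcop
      linarith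
    · push Not at hcop
      have h1 := hpt2 hcop
      have hge : ∀ p : ℕ, p.Prime → p ∣ a → z ≤ p := by
        intro p hp hpa
        by_contra hlt
        push Not at hlt
        have h2 : p < k := Nat.lt_ceil.2 hlt
        have h3 : 3 ≤ p := by
          rcases hp.eq_two_or_odd' with h4 | h4
          · exfalso
            rw [h4] at hpa
            exact (Nat.not_even_iff_odd.2 ha) (even_iff_two_dvd.2 hpa)
          · have := hp.two_le
            rcases h4 with ⟨j, hj⟩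
            omega
        exact hcop p hp h3 h2 hpa
      have hsnn : 0 ≤ ∑ p ∈ (Pr k l').filter (fun p => p ∣ a), wt p :=
        Finset.sum_nonneg fun p _ => (hwt p).1
      by_cases hsq : ∃ p : ℕ, p.Prime ∧ z ≤ p ∧ (p : ℝ) < y ∧ p ^ 2 ∣ a
      · rw [if_pos hsq]
        linarith
      · by_cases hpos : 0 < 1 - ∑ p ∈ (Pr k l').filter (fun p => p ∣ a), wt p
        · have hOm : Ω a ≤ r := by
            apply hW1 r X a z y lam (by linarith) hzy hlam0 ?_ ha1 haX hge ?_ ?_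
            · rw [hlogy, ← hlameq]
              apply add_le_add le_rfl
              rw [← hx]
              apply le_of_eq
              field_simp
            · intro p hp hzp hpy hpa
              exact hsq ⟨p, hp, hzp, hpy, hpa⟩
            · rw [Finset.sum_congr rfl (fun p hp => hwtP p (Finset.mem_filter.1 hp).1)] at hpos
              exact hpos
          rw [if_pos hOm]
          linarith
        · push Not at hpos
          linarith
  · -- the main term
    intro n Y hn hXY hYX hgood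
    have hg := W7_Dg n
    have ha3 : 3 ≤ X1 + 1 := by omega
    have hX1pow : (X : ℝ) ^ (κ / 2) ≤ X1 := by
      have h1 : ((X : ℝ) ^ (κ / 2)) ^ 2 ≤ (X1 : ℝ) ^ 2 := by
        rw [← Real.rpow_natCast, ← Real.rpow_mul hX0r.le]
        have : κ / 2 * ((2 : ℕ) : ℝ) = κ := by push_cast; ring
        rw [this]
        exact hmge
      exact le_of_sq_le_sq h1 hX1nn
    have haX : (X : ℝ) ^ (κ / 2) ≤ ((X1 + 1 : ℕ) : ℝ) := by
      push_cast
      linarith
    have hMer := (hM X Y n hXX0 hXY hYX hgood (X1 + 1) haX).1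
    have hMer1 := W7_mono hg hε1 ha3 hMer
    have hkX : (X : ℝ) ^ (κ / 2) ≤ (k : ℝ) := by
      have : ((X1 + 1 : ℕ) : ℝ) ≤ (k : ℝ) := by exact_mod_cast hX1k
      linarith
    have hsumk := (hM X Y n hXX0 hXY hYX hgood k hkX).2
    have hazr : ((X1 + 1 : ℕ) : ℝ) ≤ z := by push_cast; exact hX1z
    have hzX : z ≤ X := by
      have := hmono ζ 1 (by linarith)
      rwa [Real.rpow_one] at this
    have hyX : y ≤ X := by
      have := hmono τ 1 (by linarith)
      rwa [Real.rpow_one] at this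
    have hloga : κ / 2 * x ≤ Real.log ((X1 + 1 : ℕ) : ℝ) := by
      rw [← hlogp]
      exact Real.log_le_log (by positivity) haX
    have hloga0 : 0 < Real.log ((X1 + 1 : ℕ) : ℝ) := lt_of_lt_of_le (by positivity) hloga
    have hS0 : 0 < S := lt_of_lt_of_le (by norm_num) (le_max_left _ _)
    have hDS : Real.log D ≤ S * Real.log ((X1 + 1 : ℕ) : ℝ) := by
      rw [hlogD]
      have h1 : 2 * θ₁ / κ ≤ S := le_max_right _ _
      have h2 : θ₁ * x = 2 * θ₁ / κ * (κ / 2 * x) := by field_simp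
      rw [h2]
      calc 2 * θ₁ / κ * (κ / 2 * x) ≤ S * (κ / 2 * x) :=
            mul_le_mul_of_nonneg_right h1 (by positivity)
        _ ≤ _ := mul_le_mul_of_nonneg_left hloga hS0.le
    have hz2D : z ^ 2 ≤ D := by
      rw [hz, hD, ← Real.rpow_natCast, ← Real.rpow_mul hX0r.le]
      apply hmono
      push_cast
      linarith
    have hs : 4 ≤ Real.log D / Real.log z := by
      rw [le_div_iff₀ hlogz0, hlogD, hlogz]
      have h1 := mul_le_mul_of_nonneg_right hs4 hx0.le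
      linarith
    obtain ⟨hUp, hLo⟩ := g_ls hSS S ε₁ hSm hg (X1 + 1) (X : ℝ) ha3 hMer1 D z hazr hzX
      (hzy.le.trans hyD.le) hDS
    have hLo := hLo hz2D
    unfold UpG at hUp
    unfold LoG at hLo
    rw [← hk] at hUp hLo
    have hV1 := Vg_pos hg ha3 k
    have hB1 : Vg (gn n) (X1 + 1) k * (1 - 0.0279) ≤ th (X1 + 1) (gn n) k false D := by
      refine le_trans ?_ hLo
      apply mul_le_mul_of_nonneg_left _ hV1.1.le
      have := hSS.l_anti 4 _ (by norm_num) hs
      linarith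
    have hB2 : th (X1 + 1) (gn n) k true D ≤ Vg (gn n) (X1 + 1) k * 2 := by
      refine le_trans hUp ?_
      apply mul_le_mul_of_nonneg_left _ hV1.1.le
      have := hSS.u_anti 4 _ (by norm_num) hs
      linarith
    have hptv : ∀ D' : ℝ, Vg (gn n) (X1 + 1) k ≤ th (X1 + 1) (gn n) k true D' := by
      intro D'
      refine (p_pt (X1 + 1) (gn n) k D' ?_).2
      intro p hp
      rw [mem_Pr] at hp
      have h1 := hg p hp.2.1 (by omega)
      have h3 : (3 : ℝ) ≤ p := by
        have : 3 ≤ p := by omega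
        exact_mod_cast this
      refine ⟨h1.1, h1.2.trans ?_⟩
      rw [div_le_one (by linarith)]
      linarith
    have hH : ∀ p ∈ Pr k l', 0 ≤ K * (Real.log z / Real.log (D / p)) ∧
        th (X1 + 1) (gn n) k true (D / p) ≤
          Vg (gn n) (X1 + 1) k * (K * (Real.log z / Real.log (D / p))) := by
      intro p hp
      obtain ⟨hzp, hpy⟩ := hmemP p hp
      have hp0 : (0 : ℝ) < p := by linarith
      have hlp1 : ζ * x ≤ Real.log p := by
        rw [← hlogz]; exact Real.log_le_log hz0 hzp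
      have hlp2 : Real.log p ≤ τ * x := by
        rw [← hlogy]; exact Real.log_le_log hp0 hpy.le
      have hlDp : Real.log (D / p) = θ₁ * x - Real.log p := by
        rw [Real.log_div hD0.ne' hp0.ne', hlogD]
      have hlDp0 : 0 < Real.log (D / p) := by
        rw [hlDp]
        have h1 := mul_lt_mul_of_pos_right hτθ hx0
        linarith
      have hK0 : 0 < K := by linarith
      refine ⟨by positivity, ?_⟩
      have haD : ((X1 + 1 : ℕ) : ℝ) ^ 3 ≤ D / p := by
        have h1 : ((X1 + 1 : ℕ) : ℝ) ≤ 2 * (X : ℝ) ^ κ := by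
          push_cast
          linarith
        have h2 : ((X1 + 1 : ℕ) : ℝ) ^ 3 ≤ (2 * (X : ℝ) ^ κ) ^ 3 :=
          pow_le_pow_left₀ (Nat.cast_nonneg _) h1 3
        refine h2.trans ?_
        have h3 : (X : ℝ) ^ (8 * κ) ≤ D / p := by
          rw [le_div_iff₀ hp0]
          calc (X : ℝ) ^ (8 * κ) * p ≤ (X : ℝ) ^ (θ₁ - τ) * y := by
                apply mul_le_mul (hmono _ _ hκ2) hpy.le hp0.le (by positivity)
            _ = D := by
                rw [hy, hD, ← Real.rpow_add hX0r]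
                congr 1
                ring
        refine le_trans ?_ h3
        have h4 : (X : ℝ) ^ (8 * κ) = ((X : ℝ) ^ κ) ^ 3 * ((X : ℝ) ^ κ) ^ 5 := by
          rw [← pow_add, ← Real.rpow_natCast, ← Real.rpow_mul hX0r.le]
          congr 1
          push_cast
          ring
        rw [h4, mul_pow]
        have h5 : (8 : ℝ) ≤ ((X : ℝ) ^ κ) ^ 5 := by
          have h6 := hpw κ he0κ
          calc (8 : ℝ) ≤ 16 ^ 5 := by norm_num
            _ ≤ ((X : ℝ) ^ κ) ^ 5 := pow_le_pow_left₀ (by norm_num) h6 5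
        have h7 : 0 ≤ ((X : ℝ) ^ κ) ^ 3 := by positivity
        have h8 := mul_le_mul_of_nonneg_left h5 h7
        have h9 : (2 : ℝ) ^ 3 = 8 := by norm_num
        rw [h9, mul_comm]
        exact h8
      have hDSp : Real.log (D / p) ≤ S * Real.log ((X1 + 1 : ℕ) : ℝ) := by
        refine le_trans ?_ hDS
        rw [hlDp, hlogD]
        have : 0 ≤ Real.log p := by
          refine le_trans ?_ hlp1
          positivity
        linarith
      rcases le_or_gt (D / p) (z ^ 3) with hc3 | hc3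
      · have h1 := g_U1 hg hSS hSm (X1 + 1) z (D / p) (X : ℝ) ha3 hMer1 hazr hzX haD hc3 hDSp
        rw [← hk, mul_div_assoc] at h1
        exact h1
      · have hzD' : z ≤ D / p := by
          refine le_trans ?_ hc3.le
          calc z = z ^ 1 := (pow_one z).symm
            _ ≤ z ^ 3 := pow_le_pow_right₀ (by linarith) (by norm_num)
        have h1 := (g_ls hSS S ε₁ hSm hg (X1 + 1) (X : ℝ) ha3 hMer1 (D / p) z hazr hzX hzD' hDSp).1
        unfold UpG at h1
        rw [← hk] at h1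
        refine h1.trans ?_
        apply mul_le_mul_of_nonneg_left _ hV1.1.le
        have h2 : 3 ≤ Real.log (D / p) / Real.log z := by
          rw [le_div_iff₀ hlogz0]
          have h3 := Real.log_le_log (by positivity) hc3.le
          rw [Real.log_pow] at h3
          exact_mod_cast h3
        have h3 := hSS.u_anti 3 _ (by norm_num) h2
        have h4 := hSS.K3
        have h5 : Real.log (D / p) ≤ 3.01 * Real.log z := by
          rw [hlDp, hlogz]
          have h6 := mul_le_mul_of_nonneg_right hs4' hx0.le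
          linarith
        have hu3 := hSS.u_pos 3 (by norm_num)
        rw [mul_div_assoc', le_div_iff₀ hlDp0]
        calc (1 + u (Real.log (D / p) / Real.log z)) * Real.log (D / p) ≤
              (1 + u 3) * (3.01 * Real.log z) := by
              apply mul_le_mul (by linarith) h5 hlDp0.le (by linarith)
          _ = (3.01 * (1 + u 3)) * Real.log z := by ring
          _ ≤ K * Real.log z := mul_le_mul_of_nonneg_right (by linarith) hlogz0.le
    have hmn := hmain (gn n) hg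
    have hAm1 : Am (gn n) ≤ ∏ p ∈ OP X1, (1 - gn n p) ∧ ∏ p ∈ OP X1, (1 - gn n p) ≤ Ap (gn n) := by
      apply hpt
      intro p hp
      unfold OP at hp
      rw [Finset.mem_filter] at hp
      have h1 := hg p hp.2.1 hp.2.2
      have h3 : (3 : ℝ) ≤ p := by exact_mod_cast hp.2.2
      refine ⟨h1.1, h1.2.trans ?_⟩
      rw [div_le_one (by linarith)]
      linarith
    have hGG := hW4 X1 k l' D 0.0279 Ap Am wt (fun p => K * (Real.log z / Real.log (D / p)))
      (gn n) hX12 hX1k hkl hg (by norm_num) (fun p => (hwt p).1) hAm1.2 hmn.1 hmn.2 hAm1.1 hB1 hB2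
      (hptv D) hH
    rw [hcid X (by
      rw [hQ0D]
      have := hmono θ 1 hθ1.le
      rwa [Real.rpow_one] at this) (gn n)]
    refine le_trans ?_ hGG
    rw [W7_Vn n X1 k z hk hX12 hX1k, mul_comm (0.01 : ℝ)]
    have hV0 : 0 ≤ ∏ p ∈ OP X1, (1 - gn n p) := by
      apply Finset.prod_nonneg
      intro p hp
      unfold OP at hp
      rw [Finset.mem_filter] at hp
      have h1 := (hg p hp.2.1 hp.2.2).2
      have h3 : (3 : ℝ) ≤ p := by exact_mod_cast hp.2.2
      have h2 : 2 / (p : ℝ) ≤ 1 := by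
        rw [div_le_one (by linarith)]; linarith
      linarith
    apply mul_le_mul_of_nonneg_left _ (mul_nonneg hV0 hV1.1.le)
    -- the weighted sum
    have hws := hW5 (gn n) z y D ε (fun p hp hp3 => (hg p hp hp3).1) (by linarith) hzy hyD
      (by
        rw [hlogz, hlogD]
        have h1 := mul_le_mul_of_nonneg_right hs4 hx0.le
        have h2 := mul_pos hζ0 hx0
        linarith) hε0.le (by
        intro j hj hjy
        have hjX : j ≤ X := by
          have : (j : ℝ) ≤ X := hjy.trans hyX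
          exact_mod_cast this
        refine (hsumk j hj hjX).trans ?_
        have hk0 : (0 : ℝ) < k := by linarith
        have hj0 : (k : ℝ) ≤ j := by exact_mod_cast hj
        have hlk : Real.log z ≤ Real.log k := Real.log_le_log hz0 hkz
        have hlj : Real.log k ≤ Real.log j := Real.log_le_log hk0 hj0
        have h1 : Real.log j / Real.log k ≤ Real.log j / Real.log z :=
          div_le_div_of_nonneg_left (by linarith) hlogz0 hlk
        have h2 : 0 < Real.log j / Real.log k := div_pos (by linarith) (by linarith)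
        have := Real.log_le_log h2 h1
        linarith)
    rw [← hk, ← hl', hlogz, hlogy, hlogD, W7_II ζ τ θ₁ x hx0] at hws
    have hsumeq : ∑ p ∈ Pr k l', wt p * gn n p * (K * (ζ * x / Real.log (D / p))) =
        lam * K * ∑ p ∈ Pr k l', (1 - Real.log p / (τ * x)) * gn n p *
          (ζ * x / Real.log (D / p)) := by
      rw [Finset.mul_sum]
      apply Finset.sum_congr rfl
      intro p hp
      rw [hwtP p hp, hlogy]
      ring
    have hsum0 : 0 ≤ ∑ p ∈ Pr k l', (1 - Real.log p / (τ * x)) * gn n p *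
          (ζ * x / Real.log (D / p)) := by
      apply Finset.sum_nonneg
      intro p hp
      obtain ⟨hzp, hpy⟩ := hmemP p hp
      have hp0 : (0 : ℝ) < p := by linarith
      have hlp2 : Real.log p ≤ τ * x := by
        rw [← hlogy]; exact Real.log_le_log hp0 hpy.le
      have h1 : 0 ≤ 1 - Real.log p / (τ * x) := by
        rw [sub_nonneg, div_le_one (by positivity)]
        exact hlp2
      have hlDp0 : 0 ≤ Real.log (D / p) := by
        rw [Real.log_div hD0.ne' hp0.ne', hlogD]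
        have h4 := mul_lt_mul_of_pos_right hτθ hx0
        linarith
      rw [mem_Pr] at hp
      have h2 := (hg p hp.2.1 (by omega)).1
      positivity
    simp only [hlogz]
    rw [hsumeq]
    have hbound : lam * K * ∑ p ∈ Pr k l', (1 - Real.log p / (τ * x)) * gn n p *
          (ζ * x / Real.log (D / p)) ≤ 3.6653 * lam * (II ζ τ θ₁ + ε) := by
      calc _ ≤ lam * 3.6653 * ∑ p ∈ Pr k l', (1 - Real.log p / (τ * x)) * gn n p *
            (ζ * x / Real.log (D / p)) :=
            mul_le_mul_of_nonneg_right (mul_le_mul_of_nonneg_left hK1 hlam0.le) hsum0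
        _ ≤ lam * 3.6653 * (II ζ τ θ₁ + ε) :=
            mul_le_mul_of_nonneg_left hws (by positivity)
        _ = _ := by ring
    have hlε : lam * ε ≤ 3 * (1 / 10000) := mul_le_mul hlam3 hε2 hε0.le (by norm_num)
    have hbe : 3.6653 * lam * (II ζ τ θ₁ + ε) =
        3.6653 * lam * II ζ τ θ₁ + 3.6653 * (lam * ε) := by ring
    rw [hbe] at hbound
    linarith

end Pool.Agent.PSq
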